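import Pool.Agent.Lib.H32P.Defs

/-!
# Chunk A1 (M): `∫_p^{p+h} log |u - v| du ≥ h (log (h/2) - 1)`, real and complex `v`

Integrability: `MeromorphicOn.intervalIntegrable_log_norm` for `u ↦ (u : ℂ) - z` (analytic), or for a real `v` by translation from
`intervalIntegral.intervalIntegrable_log'` (and `Real.log_abs`).

`a1_log`: with `a = p + h - v`, `b = p - v` (so `a - b = h`) the integral is `a log |a| - b log |b| - h` (`integral_log` and a
translation), so with `φ x = x log x` one has to show `φ a - φ b ≥ h log (h/2)` (`Real.log_abs`, so `φ` is odd). If `0 ≤ b`: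
`φ (b + h) = b log (b + h) + h log (b + h) ≥ b log b + h log h` (mind `b = 0`). If `a ≤ 0`: symmetric (`φ` is odd). If `b < 0 < a`: with
`b' = -b`, `a + b' = h` and `φ a + φ b' ≥ 2 φ ((a + b')/2) = h log (h/2)` by convexity of `x log x` on `[0, ∞)` (`Real.convexOn_mul_log`).

`a1_logc`: `|u - Re z| ≤ ‖(u:ℂ) - z‖` (`Complex.abs_re_le_norm`), so `log |u - Re z| ≤ log ‖(u:ℂ) - z‖` for `u ≠ Re z` (Lean's `log 0 = 0`
may break this at the single point `u = Re z`; use an almost everywhere statement, e.g. `intervalIntegral.integral_mono_ae`).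
-/

namespace Pool.Agent.Lib.H32P

open Polynomial MeasureTheory

theorem a1_int (z : ℂ) (a b : ℝ) : IntervalIntegrable (fun u : ℝ => Real.log ‖(u : ℂ) - z‖) volume a b := by
  have h : MeromorphicOn (fun u : ℝ => (u : ℂ) - z) (Set.uIcc a b) := by
    intro u _
    exact ((Complex.ofRealCLM.analyticAt u).sub analyticAt_const).meromorphicAt
  exact h.intervalIntegrable_log_norm

theorem a1_int_real (v : ℝ) (a b : ℝ) : IntervalIntegrable (fun u : ℝ => Real.log |u - v|) volume a b := by
  have h := a1_int (v : ℂ) a b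
  have e : (fun u : ℝ => Real.log |u - v|) = fun u : ℝ => Real.log ‖(u : ℂ) - (v : ℂ)‖ := by
    ext u
    rw [← Complex.ofReal_sub, Complex.norm_real, Real.norm_eq_abs]
  rw [e]
  exact h

theorem a1_aux1 {a h : ℝ} (ha : 0 ≤ a) (hh : 0 < h) :
    h * Real.log (h / 2) ≤ (a + h) * Real.log (a + h) - a * Real.log a := by
  have h1 : Real.log (h / 2) ≤ Real.log (a + h) := Real.log_le_log (by positivity) (by linarith)
  have h2 : a * Real.log a ≤ a * Real.log (a + h) := by
    rcases eq_or_lt_of_le ha with h0 | h0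
    · rw [← h0]; simp
    · exact mul_le_mul_of_nonneg_left (Real.log_le_log h0 (by linarith)) ha
  nlinarith [mul_le_mul_of_nonneg_left h1 hh.le]

theorem a1_aux2 {a b : ℝ} (ha : 0 < a) (hb : 0 < b) :
    (a + b) * Real.log ((a + b) / 2) ≤ a * Real.log a + b * Real.log b := by
  have hc := Real.convexOn_mul_log.2 (Set.mem_Ici.2 ha.le) (Set.mem_Ici.2 hb.le)
    (by norm_num : (0 : ℝ) ≤ 1 / 2) (by norm_num : (0 : ℝ) ≤ 1 / 2) (by norm_num)
  simp only [smul_eq_mul] at hc
  have e : 1 / 2 * a + 1 / 2 * b = (a + b) / 2 := by ring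
  rw [e] at hc
  linarith

theorem a1_log (p v : ℝ) {h : ℝ} (hh : 0 < h) :
    h * (Real.log (h / 2) - 1) ≤ ∫ u in p..(p + h), Real.log |u - v| := by
  have e1 : ∫ u in p..(p + h), Real.log |u - v| = ∫ x in (p - v)..(p + h - v), Real.log x := by
    rw [← intervalIntegral.integral_comp_sub_right (fun x => Real.log x) v]
    simp only [Real.log_abs]
  rw [e1, integral_log]
  set a := p - v with ha
  have hb : p + h - v = a + h := by rw [ha]; ring
  rw [hb]
  suffices hs : h * Real.log (h / 2) ≤ (a + h) * Real.log (a + h) - a * Real.log a by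
    linarith
  rcases le_or_gt 0 a with h0 | h0
  · exact a1_aux1 h0 hh
  · rcases le_or_gt (a + h) 0 with h1 | h1
    · have := a1_aux1 (a := -(a + h)) (by linarith) hh
      have e2 : -(a + h) + h = -a := by ring
      rw [e2, Real.log_neg_eq_log, Real.log_neg_eq_log] at this
      linarith
    · have := a1_aux2 (a := -a) (b := a + h) (by linarith) h1
      have e2 : -a + (a + h) = h := by ring
      rw [e2, Real.log_neg_eq_log] at this
      linarith

theorem a1_logc (p : ℝ) (z : ℂ) {h : ℝ} (hh : 0 < h) :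
    h * (Real.log (h / 2) - 1) ≤ ∫ u in p..(p + h), Real.log ‖(u : ℂ) - z‖ := by
  refine (a1_log p z.re hh).trans ?_
  refine intervalIntegral.integral_mono_ae (by linarith) (a1_int_real _ _ _) (a1_int _ _ _) ?_
  have hn : ∀ᵐ u : ℝ, u ≠ z.re := by
    rw [ae_iff]
    simp
  filter_upwards [hn] with u hu
  apply Real.log_le_log (abs_pos.2 (sub_ne_zero.2 hu))
  have := Complex.abs_re_le_norm ((u : ℂ) - z)
  simpa using this

end Pool.Agent.Lib.H32P
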