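import Pool.Agent.Lib.H32P.A1

/-!
# Chunk A2 (M): the mean of `log ‖y - z‖` over an interval of length `L` near `x0` is at least `log ‖x0 - z‖` minus a loss

Let `ρ = ‖x0 - z‖ > 0` and `x = L/ρ`; the loss is `96 x / ((1 + x)(2 + x)) = 96 L ρ / ((ρ + L)(2ρ + L))`.

Case `4 L ≤ ρ`: for `y` in the interval `‖y - z‖ ≥ ρ - 2 L = ρ (1 - 2x)`, `2 x ≤ 1/2`, `log (1 - 2x) ≥ -4x` (e.g.
`Real.one_sub_inv_le_log_of_pos`: `log w ≥ 1 - 1/w`, `1 - 1/(1-2x) = -2x/(1-2x) ≥ -4x`), and `4 x ≤ 96 x / ((1+x)(2+x))`.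

Case `ρ < 4 L` (`x > 1/4`): the mean is `≥ log (L/2) - 1` by `a1_logc`, so it suffices that
`log (2/x) + 1 ≤ 96 x / ((1 + x)(2 + x))`. For `1/4 < x ≤ 1` the left side is `≤ log 8 + 1 ≤ 3.1` (`Real.log_two_lt_d9`) and the right side is
`≥ 8.5` (`96 x - 8.5 (1+x)(2+x) ≥ 0` on `[1/4, 1]`, concave: `nlinarith`). For `x ≥ 1`: `log (2/x) ≤ 2/x - 1`, so the left side is `≤ 2/x`, and
`96 x / ((1 + x)(2 + x)) ≥ 16/x` since `6 x² ≥ (1 + x)(2 + x)` for `x ≥ 1`.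
-/

namespace Pool.Agent.Lib.H32P

open Polynomial MeasureTheory

theorem a2_num {t : ℝ} (h0 : 0 < t) (h4 : t < 4) :
    Real.log (2 * t) + 1 ≤ 96 * t / ((t + 1) * (2 * t + 1)) := by
  have hpos : 0 < (t + 1) * (2 * t + 1) := by positivity
  rw [le_div_iff₀ hpos]
  rcases le_or_gt t 1 with h1 | h1
  · have hl : Real.log (2 * t) ≤ 2 * t - 1 := Real.log_le_sub_one_of_pos (by positivity)
    have h2 : Real.log (2 * t) + 1 ≤ 2 * t := by linarith
    calc (Real.log (2 * t) + 1) * ((t + 1) * (2 * t + 1))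
        ≤ 2 * t * ((t + 1) * (2 * t + 1)) := mul_le_mul_of_nonneg_right h2 hpos.le
      _ ≤ 96 * t := by nlinarith [mul_pos h0 h0, mul_pos (mul_pos h0 h0) h0, mul_nonneg h0.le (sub_nonneg.2 h1), mul_nonneg (mul_nonneg h0.le h0.le) (sub_nonneg.2 h1)]
  · have hl : Real.log (2 * t) ≤ 3 * Real.log 2 := by
      have e : 3 * Real.log 2 = Real.log 8 := by
        rw [show (8 : ℝ) = 2 ^ 3 by norm_num, Real.log_pow]; norm_num
      rw [e]
      exact Real.log_le_log (by positivity) (by linarith)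
    have hl2 := Real.log_two_lt_d9
    have h2 : Real.log (2 * t) + 1 ≤ 31 / 10 := by linarith
    calc (Real.log (2 * t) + 1) * ((t + 1) * (2 * t + 1))
        ≤ 31 / 10 * ((t + 1) * (2 * t + 1)) := mul_le_mul_of_nonneg_right h2 hpos.le
      _ ≤ 96 * t := by nlinarith [mul_nonneg (sub_nonneg.2 h1.le) (sub_nonneg.2 h4.le)]

theorem a2_loss (x0 : ℝ) (z : ℂ) (hz : (x0 : ℂ) ≠ z) (p : ℝ) {L : ℝ} (hL : 0 < L)
    (hp : ∀ y ∈ Set.Icc p (p + L), |y - x0| ≤ 2 * L) :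
    Real.log ‖(x0 : ℂ) - z‖ -
        96 * L * ‖(x0 : ℂ) - z‖ / ((‖(x0 : ℂ) - z‖ + L) * (2 * ‖(x0 : ℂ) - z‖ + L)) ≤
      (1 / L) * ∫ y in p..(p + L), Real.log ‖(y : ℂ) - z‖ := by
  have hρ : 0 < ‖(x0 : ℂ) - z‖ := norm_pos_iff.2 (sub_ne_zero.2 hz)
  set ρ : ℝ := ‖(x0 : ℂ) - z‖ with hρd
  rcases le_or_gt (4 * L) ρ with hc | hc
  · -- far case
    have hy : ∀ y ∈ Set.Icc p (p + L), Real.log ρ - 4 * L / ρ ≤ Real.log ‖(y : ℂ) - z‖ := by
      intro y hy
      have h1 := hp y hy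
      have h2 : ρ - 2 * L ≤ ‖(y : ℂ) - z‖ := by
        have e : (x0 : ℂ) - z = ((y : ℂ) - z) - ((y : ℂ) - (x0 : ℂ)) := by ring
        have h3 : ‖(y : ℂ) - (x0 : ℂ)‖ = |y - x0| := by
          rw [← Complex.ofReal_sub, Complex.norm_real, Real.norm_eq_abs]
        have h4 := norm_sub_le ((y : ℂ) - z) ((y : ℂ) - (x0 : ℂ))
        rw [← e, h3] at h4
        linarith
      have h3 : 0 < ρ - 2 * L := by linarith
      have h4 : Real.log (ρ - 2 * L) ≤ Real.log ‖(y : ℂ) - z‖ := Real.log_le_log h3 h2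
      have h5 : 1 - ((ρ - 2 * L) / ρ)⁻¹ ≤ Real.log ((ρ - 2 * L) / ρ) :=
        Real.one_sub_inv_le_log_of_pos (by positivity)
      rw [Real.log_div h3.ne' hρ.ne', inv_div] at h5
      have h6 : ρ / (ρ - 2 * L) - 1 ≤ 4 * L / ρ := by
        rw [div_sub_one h3.ne', div_le_div_iff₀ h3 hρ]
        nlinarith
      linarith
    have h7 : ∫ _y in p..(p + L), (Real.log ρ - 4 * L / ρ) ≤
        ∫ y in p..(p + L), Real.log ‖(y : ℂ) - z‖ :=
      intervalIntegral.integral_mono_on (by linarith) intervalIntegrable_const (a1_int _ _ _) hy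
    rw [intervalIntegral.integral_const, smul_eq_mul] at h7
    have h8 : Real.log ρ - 4 * L / ρ ≤ (1 / L) * ∫ y in p..(p + L), Real.log ‖(y : ℂ) - z‖ := by
      rw [one_div, inv_mul_eq_div, le_div_iff₀ hL]
      have : (p + L - p) * (Real.log ρ - 4 * L / ρ) = (Real.log ρ - 4 * L / ρ) * L := by ring
      linarith
    have h9 : 4 * L / ρ ≤ 96 * L * ρ / ((ρ + L) * (2 * ρ + L)) := by
      rw [div_le_div_iff₀ hρ (by positivity)]
      have h10 : (ρ + L) * (2 * ρ + L) ≤ 24 * (ρ * ρ) := by nlinarith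
      nlinarith
    linarith
  · -- near case
    have h1 := a1_logc p z hL
    have h2 : Real.log (L / 2) - 1 ≤ (1 / L) * ∫ y in p..(p + L), Real.log ‖(y : ℂ) - z‖ := by
      rw [one_div, inv_mul_eq_div, le_div_iff₀ hL]
      linarith
    have h3 := a2_num (t := ρ / L) (by positivity) (by rw [div_lt_iff₀ hL]; linarith)
    have e1 : 96 * (ρ / L) / ((ρ / L + 1) * (2 * (ρ / L) + 1))
        = 96 * L * ρ / ((ρ + L) * (2 * ρ + L)) := by
      field_simp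
    have e2 : Real.log (2 * (ρ / L)) = Real.log ρ - Real.log (L / 2) := by
      rw [← Real.log_div hρ.ne' (by positivity)]
      congr 1
      field_simp
    rw [e1, e2] at h3
    linarith

end Pool.Agent.Lib.H32P
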