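import Pool.Agent.Lib.H32P.Defs

/-!
# Chunk A2s (S): the losses of all dyadic scales sum up to at most `96`

With `G w = 96 w / (ρ + w)` one has `G w - G (w/2) = 96 w ρ / ((ρ + w)(2ρ + w))`. So the sum over `w = 1/2^(j+1)`, `j < J`, telescopes to
`G (1/2) - G (1/2^(J+1)) ≤ 96` (`Finset.sum_range_sub'`).
-/

namespace Pool.Agent.Lib.H32P

theorem a2s_sum {ρ : ℝ} (hρ : 0 < ρ) (J : ℕ) :
    ∑ j ∈ Finset.range J, 96 * (1 / 2 ^ (j + 1) : ℝ) * ρ / ((ρ + 1 / 2 ^ (j + 1)) * (2 * ρ + 1 / 2 ^ (j + 1))) ≤ 96 := by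
  let G : ℕ → ℝ := fun j => 96 * (1 / 2 ^ (j + 1) : ℝ) / (ρ + 1 / 2 ^ (j + 1))
  have h1 : ∀ j, 96 * (1 / 2 ^ (j + 1) : ℝ) * ρ / ((ρ + 1 / 2 ^ (j + 1)) * (2 * ρ + 1 / 2 ^ (j + 1))) =
      G j - G (j + 1) := by
    intro j
    have hw : (0 : ℝ) < 1 / 2 ^ (j + 1) := by positivity
    have e : (1 / 2 ^ (j + 1 + 1) : ℝ) = (1 / 2 ^ (j + 1)) / 2 := by
      rw [pow_succ (2 : ℝ) (j + 1)]
      field_simp
    simp only [G]
    rw [e]
    generalize (1 / 2 ^ (j + 1) : ℝ) = w at hw ⊢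
    have h2 : ρ + w ≠ 0 := by positivity
    have h3 : 2 * ρ + w ≠ 0 := by positivity
    have h4 : ρ + w / 2 ≠ 0 := by positivity
    field_simp
    ring
  rw [Finset.sum_congr rfl fun j _ => h1 j, Finset.sum_range_sub']
  have hG0 : G 0 ≤ 96 := by
    simp only [G]
    rw [div_le_iff₀ (by positivity)]
    have : (0 : ℝ) < 1 / 2 ^ (0 + 1) := by positivity
    nlinarith
  have hGJ : 0 ≤ G J := by
    simp only [G]
    positivity
  linarith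

end Pool.Agent.Lib.H32P
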