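import Pool.Agent.Lib.H32P.A1

/-!
# Chunk A3 (S/M): the loss for Lebesgue measure on `[0,1]`

Let `ρ = ‖x0 - z‖ > 0`, `x0 ∈ [0,1]`. If `ρ ≥ 2`: `‖y - z‖ ≥ ρ - |y - x0| ≥ ρ - 1 ≥ ρ/2`, so the integral is `≥ log ρ - log 2`, and `log 2 ≤ 3`.
If `ρ < 2`: the integral is `≥ log (1/2) - 1` by `a1_logc` (`p = 0`, `h = 1`), and `log ρ ≤ log 2`, `2 log 2 + 1 ≤ 3`.
-/

namespace Pool.Agent.Lib.H32P

open Polynomial MeasureTheory

theorem a3_leb {x0 : ℝ} (hx0 : x0 ∈ Set.Icc (0:ℝ) 1) (z : ℂ) (hz : (x0 : ℂ) ≠ z) :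
    Real.log ‖(x0 : ℂ) - z‖ - 3 ≤ ∫ y in (0:ℝ)..1, Real.log ‖(y : ℂ) - z‖ := by
  have hρ : 0 < ‖(x0 : ℂ) - z‖ := norm_pos_iff.mpr (sub_ne_zero.mpr hz)
  have hl2 : Real.log 2 < 0.7 := by
    have := Real.log_two_lt_d9; linarith
  have hl2' : 0 < Real.log 2 := Real.log_pos (by norm_num)
  rcases le_or_gt 2 ‖(x0 : ℂ) - z‖ with h | h
  · have hc : ∫ y in (0:ℝ)..1, (Real.log ‖(x0 : ℂ) - z‖ - Real.log 2) ≤ ∫ y in (0:ℝ)..1, Real.log ‖(y : ℂ) - z‖ := by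
      apply intervalIntegral.integral_mono_on (by norm_num) (by simp) (a1_int z 0 1)
      intro y hy
      rw [← Real.log_div hρ.ne' (by norm_num)]
      apply Real.log_le_log (by positivity)
      have h1 : ‖(x0 : ℂ) - z‖ ≤ ‖(y : ℂ) - z‖ + ‖(x0 : ℂ) - (y : ℂ)‖ := by
        calc ‖(x0 : ℂ) - z‖ = ‖((y : ℂ) - z) + ((x0 : ℂ) - (y : ℂ))‖ := by ring_nf
          _ ≤ _ := norm_add_le _ _
      have h2 : ‖(x0 : ℂ) - (y : ℂ)‖ ≤ 1 := by
        rw [← Complex.ofReal_sub, Complex.norm_real, Real.norm_eq_abs, abs_le]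
        constructor <;> linarith [hx0.1, hx0.2, hy.1, hy.2]
      linarith
    simp at hc
    linarith
  · have h1 := a1_logc 0 z (h := 1) (by norm_num)
    have h2 : Real.log ‖(x0 : ℂ) - z‖ ≤ Real.log 2 := Real.log_le_log hρ h.le
    have h3 : Real.log (1 / 2) = - Real.log 2 := by
      rw [one_div, Real.log_inv]
    simp only [zero_add, one_mul] at h1
    rw [h3] at h1
    linarith

end Pool.Agent.Lib.H32P
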