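import Pool.Agent.Lib.H32P.A2
import Pool.Agent.Lib.H32P.A2s
import Pool.Agent.Lib.H32P.A3

/-!
# Chunk A4 (M/L): the finite family of regularising densities

Choose `κ ∈ (0,1)` with `3 κ ≤ η/2` and `J ≥ 1` with `96/J ≤ η/2`. For `i = 0, .., 2^J` let `x_i = i/2^J`, and for `j < J` let
`L_j = 1/2^(j+1)` and `p_ij = x_i` if `x_i ≤ 1/2`, `p_ij = x_i - L_j` otherwise, so `[p_ij, p_ij + L_j] ⊆ [0,1]` and `|y - x_i| ≤ L_j` on it. Put
`f_i y = κ + (1 - κ) (1/J) ∑_{j<J} 2^(j+1) 1_{Ioc p_ij (p_ij + L_j)}(y)`.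
Then `κ ≤ f_i ≤ κ + 2^J` (say), `∫_0^1 f_i = 1`, and for `x0 ∈ [0,1]` choose `i` with `|x_i - x0| ≤ 2^(-J)` (e.g. `i = ⌊2^J x0⌋`); then `|y - x0| ≤ L_j + 2^(-J) ≤ 2 L_j` on
`[p_ij, p_ij + L_j]`, and `a2_loss` (all `j < J`), `a2s_sum` and `a3_leb` give
`∫ f_i log ‖y - z‖ = κ ∫_0^1 log ‖y - z‖ + (1-κ)(1/J) ∑_j (1/L_j) ∫_{p_ij}^{p_ij + L_j} log ‖y - z‖ ≥ log ‖x0 - z‖ - 3 κ - 96/J`.
(Integrability: `a1_int`. The integral of `indicator * g` over `0..1` is the integral of `g` over `p_ij..p_ij + L_j`.)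
-/

namespace Pool.Agent.Lib.H32P

open Polynomial MeasureTheory

/-- the indicator of `(p, p + L]`. -/
noncomputable def a4ind (p L : ℝ) (y : ℝ) : ℝ := (Set.Ioc p (p + L)).indicator (fun _ => (1:ℝ)) y

theorem a4ind_meas (p L : ℝ) : Measurable (a4ind p L) := by
  unfold a4ind
  exact measurable_const.indicator measurableSet_Ioc

theorem a4ind_nonneg (p L y : ℝ) : 0 ≤ a4ind p L y := by
  unfold a4ind
  exact Set.indicator_nonneg (fun _ _ => by norm_num) y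

theorem a4ind_le (p L y : ℝ) : a4ind p L y ≤ 1 := by
  unfold a4ind
  exact Set.indicator_le_self' (fun _ _ => by norm_num) y

theorem a4ind_mul (p L : ℝ) (g : ℝ → ℝ) (y : ℝ) : a4ind p L y * g y = (Set.Ioc p (p + L)).indicator g y := by
  unfold a4ind
  by_cases h : y ∈ Set.Ioc p (p + L)
  · rw [Set.indicator_of_mem h, Set.indicator_of_mem h, one_mul]
  · rw [Set.indicator_of_notMem h, Set.indicator_of_notMem h, zero_mul]

theorem a4ind_intble {p L : ℝ} {g : ℝ → ℝ} (hg : IntervalIntegrable g volume 0 1) :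
    IntervalIntegrable (fun y => a4ind p L y * g y) volume 0 1 := by
  rw [intervalIntegrable_iff] at hg ⊢
  have : (fun y => a4ind p L y * g y) = (Set.Ioc p (p + L)).indicator g := by
    funext y
    exact a4ind_mul p L g y
  rw [this]
  exact hg.indicator measurableSet_Ioc

theorem a4ind_integral {p L : ℝ} (hp : 0 ≤ p) (hL : 0 < L) (hpL : p + L ≤ 1) (g : ℝ → ℝ) :
    ∫ y in (0:ℝ)..1, a4ind p L y * g y = ∫ y in p..(p + L), g y := by
  have : (fun y => a4ind p L y * g y) = (Set.Ioc p (p + L)).indicator g := by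
    funext y
    exact a4ind_mul p L g y
  rw [this, intervalIntegral.integral_of_le (by norm_num), intervalIntegral.integral_of_le (by linarith),
    setIntegral_indicator measurableSet_Ioc]
  congr 2
  ext y
  simp only [Set.mem_inter_iff, Set.mem_Ioc]
  constructor
  · rintro ⟨_, h⟩
    exact h
  · rintro ⟨h1, h2⟩
    exact ⟨⟨by linarith, by linarith⟩, h1, h2⟩

/-- the density with constants `κ`, `J` and starting points `p`. -/
noncomputable def a4f (κ : ℝ) (J : ℕ) (p : ℕ → ℝ) (y : ℝ) : ℝ :=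
  κ + (1 - κ) * (1 / (J : ℝ)) * ∑ j ∈ Finset.range J, 2 ^ (j + 1) * a4ind (p j) (1 / 2 ^ (j + 1)) y

theorem a4f_integral {κ : ℝ} {J : ℕ} {p : ℕ → ℝ} (hp : ∀ j < J, 0 ≤ p j)
    (hp1 : ∀ j < J, p j + 1 / 2 ^ (j + 1) ≤ 1) {g : ℝ → ℝ} (hg : IntervalIntegrable g volume 0 1) :
    ∫ y in (0:ℝ)..1, a4f κ J p y * g y = κ * (∫ y in (0:ℝ)..1, g y) +
      (1 - κ) * (1 / (J : ℝ)) * ∑ j ∈ Finset.range J, 2 ^ (j + 1) * ∫ y in (p j)..(p j + 1 / 2 ^ (j + 1)), g y := by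
  have h1 : ∀ y, a4f κ J p y * g y = κ * g y +
      (1 - κ) * (1 / (J : ℝ)) * ∑ j ∈ Finset.range J, 2 ^ (j + 1) * (a4ind (p j) (1 / 2 ^ (j + 1)) y * g y) := by
    intro y
    unfold a4f
    rw [add_mul, mul_assoc ((1 - κ) * (1 / (J : ℝ))), Finset.sum_mul]
    congr 2
    apply Finset.sum_congr rfl
    intro j _
    ring
  simp_rw [h1]
  rw [intervalIntegral.integral_add (hg.const_mul κ)]
  · rw [intervalIntegral.integral_const_mul, intervalIntegral.integral_const_mul, intervalIntegral.integral_finsetSum]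
    · congr 2
      apply Finset.sum_congr rfl
      intro j hj
      rw [Finset.mem_range] at hj
      rw [intervalIntegral.integral_const_mul, a4ind_integral (hp j hj) (by positivity) (hp1 j hj)]
    · intro j _
      exact (a4ind_intble hg).const_mul _
  · apply IntervalIntegrable.const_mul
    have := IntervalIntegrable.sum (s := Finset.range J) (μ := volume) (a := (0:ℝ)) (b := 1)
      (f := fun j => fun y => (2:ℝ) ^ (j + 1) * (a4ind (p j) (1 / 2 ^ (j + 1)) y * g y))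
      (fun j _ => (a4ind_intble hg).const_mul _)
    have h2 : (fun y => ∑ j ∈ Finset.range J, (2:ℝ) ^ (j + 1) * (a4ind (p j) (1 / 2 ^ (j + 1)) y * g y)) =
        ∑ j ∈ Finset.range J, fun y => (2:ℝ) ^ (j + 1) * (a4ind (p j) (1 / 2 ^ (j + 1)) y * g y) := by
      funext y
      simp [Finset.sum_apply]
    rw [h2]
    exact this

theorem a4_family {η : ℝ} (hη : 0 < η) :
    ∃ (m : ℕ) (f : Fin m → ℝ → ℝ) (κ D : ℝ), 0 < κ ∧ (∀ i, Measurable (f i)) ∧ (∀ i y, κ ≤ f i y) ∧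
      (∀ i y, f i y ≤ D) ∧ (∀ i, ∫ y in (0:ℝ)..1, f i y = 1) ∧
      ∀ x0 ∈ Set.Icc (0:ℝ) 1, ∃ i, ∀ z : ℂ, (x0 : ℂ) ≠ z →
        Real.log ‖(x0 : ℂ) - z‖ - η ≤ ∫ y in (0:ℝ)..1, f i y * Real.log ‖(y : ℂ) - z‖ := by
  obtain ⟨J, hJ⟩ := exists_nat_gt (192 / η)
  have hJ0 : (0:ℝ) < J := lt_trans (by positivity) hJ
  have hJ96 : 96 / (J : ℝ) ≤ η / 2 := by
    rw [div_lt_iff₀ hη] at hJ
    rw [div_le_iff₀ hJ0]
    linarith
  obtain ⟨κ, hκ0, hκ1, hκ2⟩ : ∃ κ : ℝ, 0 < κ ∧ κ < 1 ∧ 3 * κ ≤ η / 2 := by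
    refine ⟨min (1/2) (η / 6), by positivity, ?_, ?_⟩
    · exact lt_of_le_of_lt (min_le_left _ _) (by norm_num)
    · have := min_le_right (1/2 : ℝ) (η / 6)
      linarith
  set x : ℕ → ℝ := fun i => (i : ℝ) / 2 ^ J with hx
  set p : ℕ → ℕ → ℝ := fun i j => if x i ≤ 1 / 2 then x i else x i - 1 / 2 ^ (j + 1) with hp
  have hL : ∀ j : ℕ, (1:ℝ) / 2 ^ (j + 1) ≤ 1 / 2 := by
    intro j
    apply one_div_le_one_div_of_le (by norm_num)
    have : (1:ℝ) ≤ 2 ^ j := one_le_pow₀ (by norm_num)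
    rw [pow_succ]
    linarith
  have hLpos : ∀ j : ℕ, (0:ℝ) < 1 / 2 ^ (j + 1) := fun j => by positivity
  have hxle : ∀ i : Fin (2 ^ J + 1), 0 ≤ x i ∧ x i ≤ 1 := by
    intro i
    have h1 : (i : ℕ) ≤ 2 ^ J := Nat.lt_succ_iff.mp i.2
    have h2 : ((i : ℕ) : ℝ) ≤ 2 ^ J := by exact_mod_cast h1
    refine ⟨by positivity, ?_⟩
    rw [hx]
    exact (div_le_one (by positivity)).mpr h2
  have hp0 : ∀ (i : Fin (2 ^ J + 1)) (j : ℕ), 0 ≤ p i j := by
    intro i j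
    rw [hp]
    dsimp only
    split_ifs with h
    · exact (hxle i).1
    · have := hL j
      push Not at h
      linarith
  have hp1 : ∀ (i : Fin (2 ^ J + 1)) (j : ℕ), p i j + 1 / 2 ^ (j + 1) ≤ 1 := by
    intro i j
    rw [hp]
    dsimp only
    split_ifs with h
    · have := hL j
      linarith
    · have := (hxle i).2
      linarith
  have hJne : (J : ℝ) ≠ 0 := hJ0.ne'
  have hc : 0 ≤ (1 - κ) * (1 / (J : ℝ)) := by
    apply mul_nonneg (by linarith)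
    positivity
  refine ⟨2 ^ J + 1, fun i => a4f κ J (p i), κ, κ + (1 - κ) * (1 / (J : ℝ)) * ∑ j ∈ Finset.range J, 2 ^ (j + 1),
    hκ0, ?_, ?_, ?_, ?_, ?_⟩
  · intro i
    unfold a4f
    apply Measurable.const_add
    apply Measurable.const_mul
    apply Finset.measurable_fun_sum
    intro j _
    exact (a4ind_meas _ _).const_mul _
  · intro i y
    unfold a4f
    have : 0 ≤ ∑ j ∈ Finset.range J, 2 ^ (j + 1) * a4ind (p i j) (1 / 2 ^ (j + 1)) y :=
      Finset.sum_nonneg (fun j _ => mul_nonneg (by positivity) (a4ind_nonneg _ _ _))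
    have := mul_nonneg hc this
    linarith
  · intro i y
    unfold a4f
    have : ∑ j ∈ Finset.range J, 2 ^ (j + 1) * a4ind (p i j) (1 / 2 ^ (j + 1)) y ≤ ∑ j ∈ Finset.range J, 2 ^ (j + 1) := by
      apply Finset.sum_le_sum
      intro j _
      exact mul_le_of_le_one_right (by positivity) (a4ind_le _ _ _)
    have := mul_le_mul_of_nonneg_left this hc
    linarith
  · intro i
    have h1 := a4f_integral (κ := κ) (J := J) (p := p i) (fun j _ => hp0 i j) (fun j _ => hp1 i j)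
      (g := fun _ => (1:ℝ)) (by simp)
    simp only [mul_one] at h1
    rw [h1]
    have h2 : ∀ j ∈ Finset.range J, (2:ℝ) ^ (j + 1) * ∫ y in (p i j)..(p i j + 1 / 2 ^ (j + 1)), (1:ℝ) = 1 := by
      intro j _
      rw [intervalIntegral.integral_const]
      simp
    rw [Finset.sum_congr rfl h2]
    simp
    field_simp
    ring
  · intro x0 hx0
    have hfl : ⌊(2:ℝ) ^ J * x0⌋₊ < 2 ^ J + 1 := by
      rw [Nat.lt_succ_iff]
      have h3 : (⌊(2:ℝ) ^ J * x0⌋₊ : ℝ) ≤ 2 ^ J * x0 := Nat.floor_le (mul_nonneg (by positivity) hx0.1)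
      have h4 : (2:ℝ) ^ J * x0 ≤ 2 ^ J := mul_le_of_le_one_right (by positivity) hx0.2
      exact_mod_cast h3.trans h4
    refine ⟨⟨⌊(2:ℝ) ^ J * x0⌋₊, hfl⟩, ?_⟩
    set i : Fin (2 ^ J + 1) := ⟨⌊(2:ℝ) ^ J * x0⌋₊, hfl⟩ with hi
    have hxi : |x i - x0| ≤ 1 / 2 ^ J := by
      have h3 : (⌊(2:ℝ) ^ J * x0⌋₊ : ℝ) ≤ 2 ^ J * x0 := Nat.floor_le (mul_nonneg (by positivity) hx0.1)
      have h4 : (2:ℝ) ^ J * x0 < ⌊(2:ℝ) ^ J * x0⌋₊ + 1 := Nat.lt_floor_add_one _
      have h5 : x i = (⌊(2:ℝ) ^ J * x0⌋₊ : ℝ) / 2 ^ J := rfl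
      have h2 : (0:ℝ) < 2 ^ J := by positivity
      rw [h5, abs_le]
      constructor
      · rw [neg_le_sub_iff_le_add, ← add_div, le_div_iff₀ h2]
        linarith
      · rw [sub_le_iff_le_add, div_le_iff₀ h2, add_mul, div_mul_cancel₀ _ h2.ne']
        linarith
    intro z hz
    have hρ : 0 < ‖(x0 : ℂ) - z‖ := norm_pos_iff.mpr (sub_ne_zero.mpr hz)
    rw [a4f_integral (fun j _ => hp0 i j) (fun j _ => hp1 i j) (a1_int z 0 1)]
    have h3 := a3_leb hx0 z hz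
    have hloss : ∀ j ∈ Finset.range J, Real.log ‖(x0 : ℂ) - z‖ -
        96 * (1 / 2 ^ (j + 1) : ℝ) * ‖(x0 : ℂ) - z‖ / ((‖(x0 : ℂ) - z‖ + 1 / 2 ^ (j + 1)) * (2 * ‖(x0 : ℂ) - z‖ + 1 / 2 ^ (j + 1)))
        ≤ (2:ℝ) ^ (j + 1) * ∫ y in (p i j)..(p i j + 1 / 2 ^ (j + 1)), Real.log ‖(y : ℂ) - z‖ := by
      intro j hj
      rw [Finset.mem_range] at hj
      have h5 := a2_loss x0 z hz (p i j) (hLpos j) ?_
      · have h6 : (1:ℝ) / (1 / 2 ^ (j + 1)) = 2 ^ (j + 1) := by simp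
        rw [h6] at h5
        exact h5
      · intro y hy
        have h7 : (1:ℝ) / 2 ^ J ≤ 1 / 2 ^ (j + 1) := by
          apply one_div_le_one_div_of_le (by positivity)
          exact pow_le_pow_right₀ (by norm_num) hj
        have h8 : |y - x i| ≤ 1 / 2 ^ (j + 1) := by
          have h9 : p i j = if x i ≤ 1 / 2 then x i else x i - 1 / 2 ^ (j + 1) := rfl
          rw [h9] at hy
          have := hLpos j
          split_ifs at hy with h
          · rw [abs_le]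
            constructor <;> linarith [hy.1, hy.2]
          · rw [abs_le]
            constructor <;> linarith [hy.1, hy.2]
        calc |y - x0| = |(y - x i) + (x i - x0)| := by ring_nf
          _ ≤ |y - x i| + |x i - x0| := abs_add_le _ _
          _ ≤ 2 * (1 / 2 ^ (j + 1)) := by linarith
    have hsum := Finset.sum_le_sum hloss
    rw [Finset.sum_sub_distrib] at hsum
    have hs := a2s_sum hρ J
    have hconst : ∑ j ∈ Finset.range J, Real.log ‖(x0 : ℂ) - z‖ = J * Real.log ‖(x0 : ℂ) - z‖ := by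
      simp
    rw [hconst] at hsum
    have h10 : J * Real.log ‖(x0 : ℂ) - z‖ - 96 ≤
        ∑ j ∈ Finset.range J, (2:ℝ) ^ (j + 1) * ∫ y in (p i j)..(p i j + 1 / 2 ^ (j + 1)), Real.log ‖(y : ℂ) - z‖ := by
      linarith
    have h11 := mul_le_mul_of_nonneg_left h10 hc
    have h12 := mul_le_mul_of_nonneg_left h3 hκ0.le
    have h13 : (1 - κ) * (1 / (J : ℝ)) * (J * Real.log ‖(x0 : ℂ) - z‖ - 96) =
        (1 - κ) * Real.log ‖(x0 : ℂ) - z‖ - (1 - κ) * (96 / J) := by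
      field_simp
    rw [h13] at h11
    have h14 : (1 - κ) * (96 / (J : ℝ)) ≤ 96 / J := by
      apply mul_le_of_le_one_left (by positivity)
      linarith
    linarith

end Pool.Agent.Lib.H32P
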