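import Pool.Agent.Lib.H32P.A1

/-!
# Chunk A5 (M): from linear factors to integer polynomials

Over `ℂ` (splits): `P = a ∏_{z ∈ roots} (X - z)` (multiset), `a = leadingCoeff`, `natDegree P` roots. So for every real `y` which is not a root,
`log |P(y)| = log |a| + ∑_z log ‖y - z‖` (`|aeval y P| = ‖aeval (y:ℂ) P‖`), and this holds for almost every `y`. Multiply by `f`, integrate
(each `f y * log ‖y - z‖` is interval integrable: `f` bounded and measurable, `a1_int`), use `∫ f = 1` and the hypothesis for each root `z ≠ x0`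
(`P(x0) ≠ 0`): `∫ f log |P| ≥ log |a| + ∑_z (log ‖x0 - z‖ - η) = log |P(x0)| - η natDegree P`.
`a5_int`: the function `f y * log |P(y)|` is interval integrable (`P ≠ 0`).
-/

namespace Pool.Agent.Lib.H32P

open Polynomial MeasureTheory

theorem a5_bdd {f : ℝ → ℝ} (hf : Measurable f) {D : ℝ} (h0 : ∀ y, 0 ≤ f y) (hD : ∀ y, f y ≤ D)
    {g : ℝ → ℝ} {a b : ℝ} (hg : IntervalIntegrable g volume a b) :
    IntervalIntegrable (fun y => f y * g y) volume a b := by
  rw [intervalIntegrable_iff] at hg ⊢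
  refine hg.bdd_mul (c := D) hf.aestronglyMeasurable ?_
  refine Filter.Eventually.of_forall (fun y => ?_)
  rw [Real.norm_eq_abs, abs_of_nonneg (h0 y)]
  exact hD y

theorem a5_ae (P : ℤ[X]) (hP : P ≠ 0) : ∀ᵐ y : ℝ, aeval y P ≠ 0 := by
  have h : Set.Finite {y : ℝ | aeval y P = 0} := by
    have h1 := Polynomial.rootSet_finite P ℝ
    refine h1.subset ?_
    intro y hy
    rw [Polynomial.mem_rootSet]
    exact ⟨hP, hy⟩
  have := (h.measure_zero volume)
  exact measure_eq_zero_iff_ae_notMem.mp this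

theorem a5_int {f : ℝ → ℝ} (hf : Measurable f) {D : ℝ} (h0 : ∀ y, 0 ≤ f y) (hD : ∀ y, f y ≤ D) (P : ℤ[X]) (a b : ℝ) :
    IntervalIntegrable (fun y : ℝ => f y * Real.log |aeval y P|) volume a b := by
  apply a5_bdd hf h0 hD
  have h1 : MeromorphicOn (fun y : ℝ => aeval y P) (Set.uIcc a b) := by
    have h2 : AnalyticOnNhd ℝ (fun y : ℝ => aeval y P) (Set.uIcc a b) := by
      have h3 := (AnalyticOnNhd.aeval_polynomial (𝕜 := ℝ) (A := ℝ) (f := fun y : ℝ => y) (s := Set.uIcc a b) analyticOnNhd_id (P.map (Int.castRingHom ℝ)))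
      have h5 : (fun y : ℝ => aeval y P) = fun y : ℝ => aeval y (P.map (Int.castRingHom ℝ)) := by
        funext y
        rw [Polynomial.aeval_def, Polynomial.aeval_def, Polynomial.eval₂_map]
        rfl
      rw [h5]
      exact h3
    exact h2.meromorphicOn
  have h4 := h1.intervalIntegrable_log_norm
  simpa [Real.norm_eq_abs] using h4

theorem a5_sum {f : ℝ → ℝ} (hf : Measurable f) {D : ℝ} (h0 : ∀ y, 0 ≤ f y) (hD : ∀ y, f y ≤ D)
    {η x0 : ℝ}
    (hz : ∀ z : ℂ, (x0 : ℂ) ≠ z →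
      Real.log ‖(x0 : ℂ) - z‖ - η ≤ ∫ y in (0:ℝ)..1, f y * Real.log ‖(y : ℂ) - z‖) (s : Multiset ℂ) :
    IntervalIntegrable (fun y : ℝ => (s.map (fun z => Real.log ‖(y : ℂ) - z‖)).sum) volume 0 1 ∧
    ((∀ z ∈ s, (x0 : ℂ) ≠ z) → (s.map (fun z => Real.log ‖(x0 : ℂ) - z‖)).sum - η * s.card ≤
      ∫ y in (0:ℝ)..1, f y * (s.map (fun z => Real.log ‖(y : ℂ) - z‖)).sum) := by
  induction s using Multiset.induction_on with
  | empty => simp
  | cons z s ih =>
    obtain ⟨ih1, ih2⟩ := ih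
    refine ⟨?_, ?_⟩
    · simp only [Multiset.map_cons, Multiset.sum_cons]
      exact (a1_int z 0 1).add ih1
    · intro h
      have h1 := hz z (h z (Multiset.mem_cons_self z s))
      have h2 := ih2 (fun w hw => h w (Multiset.mem_cons_of_mem hw))
      simp only [Multiset.map_cons, Multiset.sum_cons, Multiset.card_cons, mul_add]
      rw [intervalIntegral.integral_add (a5_bdd hf h0 hD (a1_int z 0 1)) (a5_bdd hf h0 hD ih1)]
      push_cast
      linarith

theorem a5_logprod (s : Multiset ℂ) (y : ℂ) (h : ∀ z ∈ s, y ≠ z) :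
    Real.log ‖(s.map (fun z => y - z)).prod‖ = (s.map (fun z => Real.log ‖y - z‖)).sum := by
  induction s using Multiset.induction_on with
  | empty => simp
  | cons z s ih =>
    have h1 : y - z ≠ 0 := sub_ne_zero.mpr (h z (Multiset.mem_cons_self z s))
    have h2 : (s.map (fun z => y - z)).prod ≠ 0 := by
      rw [Ne, Multiset.prod_eq_zero_iff]
      intro h3
      rw [Multiset.mem_map] at h3
      obtain ⟨w, hw, hw2⟩ := h3
      exact (sub_ne_zero.mpr (h w (Multiset.mem_cons_of_mem hw))) hw2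
    simp only [Multiset.map_cons, Multiset.sum_cons, Multiset.prod_cons, norm_mul]
    rw [Real.log_mul (norm_ne_zero_iff.mpr h1) (norm_ne_zero_iff.mpr h2),
      ih (fun w hw => h w (Multiset.mem_cons_of_mem hw))]

theorem a5_log (P : ℤ[X]) (y : ℝ) (hy : aeval y P ≠ 0) :
    (∀ z ∈ (P.map (Int.castRingHom ℂ)).roots, (y : ℂ) ≠ z) ∧
    Real.log |aeval y P| = Real.log |(P.leadingCoeff : ℝ)| +
      ((P.map (Int.castRingHom ℂ)).roots.map (fun z => Real.log ‖(y : ℂ) - z‖)).sum := by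
  set Q := P.map (Int.castRingHom ℂ) with hQ
  have hP0 : P ≠ 0 := by
    rintro rfl
    simp at hy
  have hinj : Function.Injective (Int.castRingHom ℂ) := by
    intro a b hab
    simpa using hab
  have hQ0 : Q ≠ 0 := (Polynomial.map_ne_zero_iff hinj).mpr hP0
  have hev : Q.eval (y : ℂ) = ((aeval y P : ℝ) : ℂ) := by
    have h1 := Polynomial.aeval_algebraMap_apply ℂ y P
    rw [hQ, Polynomial.eval_map]
    rw [Polynomial.aeval_def] at h1
    exact h1
  have hne : ∀ z ∈ Q.roots, (y : ℂ) ≠ z := by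
    intro z hz hyz
    rw [Polynomial.mem_roots hQ0, ← hyz, Polynomial.IsRoot.def, hev] at hz
    exact hy (by exact_mod_cast hz)
  refine ⟨hne, ?_⟩
  have hsp : Q = C Q.leadingCoeff * (Q.roots.map (fun a => X - C a)).prod :=
    (IsAlgClosed.splits Q).eq_prod_roots
  have hlc : Q.leadingCoeff = ((P.leadingCoeff : ℤ) : ℂ) := by
    rw [hQ, Polynomial.leadingCoeff_map_of_injective hinj]
    simp
  have hnorm : |aeval y P| = |(P.leadingCoeff : ℝ)| * ‖(Q.roots.map (fun z => (y : ℂ) - z)).prod‖ := by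
    have h1 : |aeval y P| = ‖Q.eval (y : ℂ)‖ := by
      rw [hev, Complex.norm_real, Real.norm_eq_abs]
    rw [h1]
    conv_lhs => rw [hsp]
    rw [Polynomial.eval_mul, Polynomial.eval_C, norm_mul, Polynomial.eval_multiset_prod, Multiset.map_map, hlc]
    congr 1
    · simp
    · simp
  have hlc0 : |(P.leadingCoeff : ℝ)| ≠ 0 := by
    rw [abs_ne_zero]
    exact_mod_cast Polynomial.leadingCoeff_ne_zero.mpr hP0
  have hpr : ‖(Q.roots.map (fun z => (y : ℂ) - z)).prod‖ ≠ 0 := by
    intro h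
    rw [h, mul_zero, abs_eq_zero] at hnorm
    exact hy hnorm
  rw [hnorm, Real.log_mul hlc0 hpr, a5_logprod _ _ hne]

theorem a5_poly {f : ℝ → ℝ} (hf : Measurable f) {D : ℝ} (h0 : ∀ y, 0 ≤ f y) (hD : ∀ y, f y ≤ D)
    (h1 : ∫ y in (0:ℝ)..1, f y = 1) {η x0 : ℝ}
    (hz : ∀ z : ℂ, (x0 : ℂ) ≠ z →
      Real.log ‖(x0 : ℂ) - z‖ - η ≤ ∫ y in (0:ℝ)..1, f y * Real.log ‖(y : ℂ) - z‖)
    (P : ℤ[X]) (hP : aeval x0 P ≠ 0) :
    Real.log |aeval x0 P| - η * P.natDegree ≤ ∫ y in (0:ℝ)..1, f y * Real.log |aeval y P| := by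
  have hP0 : P ≠ 0 := by
    rintro rfl
    simp at hP
  obtain ⟨hne, hlog⟩ := a5_log P x0 hP
  obtain ⟨hi, hs⟩ := a5_sum hf h0 hD hz (P.map (Int.castRingHom ℂ)).roots
  have hs' := hs hne
  have hinj : Function.Injective (Int.castRingHom ℂ) := by
    intro a b hab
    simpa using hab
  have hcard : ((P.map (Int.castRingHom ℂ)).roots.card : ℝ) = P.natDegree := by
    have h2 := (IsAlgClosed.splits (P.map (Int.castRingHom ℂ))).natDegree_eq_card_roots
    rw [Polynomial.natDegree_map_eq_of_injective hinj] at h2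
    exact_mod_cast h2.symm
  have hfi : IntervalIntegrable f volume 0 1 := by
    have := a5_bdd hf h0 hD (g := fun _ => (1:ℝ)) (a := 0) (b := 1) (by simp)
    simpa using this
  have heq : ∫ y in (0:ℝ)..1, f y * Real.log |aeval y P| =
      ∫ y in (0:ℝ)..1, (f y * Real.log |(P.leadingCoeff : ℝ)| +
        f y * ((P.map (Int.castRingHom ℂ)).roots.map (fun z => Real.log ‖(y : ℂ) - z‖)).sum) := by
    apply intervalIntegral.integral_congr_ae
    filter_upwards [a5_ae P hP0] with y hy _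
    rw [(a5_log P y hy).2]
    ring
  rw [heq, intervalIntegral.integral_add (hfi.mul_const _) (a5_bdd hf h0 hD hi), intervalIntegral.integral_mul_const, h1,
    hlog]
  rw [hcard] at hs'
  linarith

end Pool.Agent.Lib.H32P
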