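import Pool.Agent.Lib.H32P.Defs

/-!
# Chunk A6 (M/L): the minimax step
-/

namespace Pool.Agent.Lib.H32P

theorem a6_hull {ι : Type} [Fintype ι] [Nonempty ι] (S : AddSubmonoid (ι → ℝ)) (h : ∀ v ∈ S, ∃ i, 0 ≤ v i)
    (w : ι → ℝ) (hw : w ∈ convexHull ℝ (S : Set (ι → ℝ))) : ∃ i, 0 ≤ w i := by
  by_contra hcon
  push Not at hcon
  rw [convexHull_eq] at hw
  obtain ⟨κ, t, c, z, hc0, hc1, hz, hwz⟩ := hw
  rw [Finset.centerMass_eq_of_sum_1 _ _ hc1] at hwz
  -- choose N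
  obtain ⟨M, hM⟩ : ∃ M : ℝ, ∀ i, ∑ j ∈ t, |z j i| ≤ M := by
    refine ⟨∑ i, ∑ j ∈ t, |z j i|, fun i => ?_⟩
    exact Finset.single_le_sum (f := fun i => ∑ j ∈ t, |z j i|)
      (fun i _ => Finset.sum_nonneg fun j _ => abs_nonneg _) (Finset.mem_univ i)
  obtain ⟨m, hm0, hm⟩ : ∃ m : ℝ, 0 < m ∧ ∀ i, w i ≤ -m := by
    obtain ⟨i0, -, hi0⟩ := Finset.exists_max_image Finset.univ w Finset.univ_nonempty
    exact ⟨-w i0, by linarith [hcon i0], fun i => by linarith [hi0 i (Finset.mem_univ i)]⟩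
  obtain ⟨N, hN⟩ := exists_nat_gt (M / m)
  have hN' : M < N * m := by
    rwa [div_lt_iff₀ hm0] at hN
  have hmem : ∑ j ∈ t, ⌊(N : ℝ) * c j⌋₊ • z j ∈ S :=
    AddSubmonoid.sum_mem _ fun j hj => AddSubmonoid.nsmul_mem _ (hz j hj) _
  obtain ⟨i, hi⟩ := h _ hmem
  have hwi : w i = ∑ j ∈ t, c j * z j i := by
    rw [← hwz]; simp [Finset.sum_apply]
  have h1 : (∑ j ∈ t, ⌊(N : ℝ) * c j⌋₊ • z j) i ≤ N * w i + ∑ j ∈ t, |z j i| := by
    rw [Finset.sum_apply, hwi, Finset.mul_sum, ← Finset.sum_add_distrib]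
    refine Finset.sum_le_sum fun j hj => ?_
    have h2 : 0 ≤ (N : ℝ) * c j := mul_nonneg (Nat.cast_nonneg _) (hc0 j hj)
    have h3 := Nat.floor_le h2
    have h4 := Nat.lt_floor_add_one ((N : ℝ) * c j)
    simp only [Pi.smul_apply, nsmul_eq_mul]
    have h5 : ((⌊(N : ℝ) * c j⌋₊ : ℝ) - N * c j) * z j i ≤ |z j i| := by
      refine (le_abs_self _).trans ?_
      rw [abs_mul]
      have h6 : |(⌊(N : ℝ) * c j⌋₊ : ℝ) - N * c j| ≤ 1 := by
        rw [abs_le]; constructor <;> linarith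
      nlinarith [abs_nonneg (z j i)]
    nlinarith
  have h2 := hM i
  have h3 := hm i
  have h4 : (N : ℝ) * w i ≤ N * (-m) := mul_le_mul_of_nonneg_left h3 (Nat.cast_nonneg _)
  linarith

theorem a6_minimax {ι : Type} [Fintype ι] [Nonempty ι] (S : AddSubmonoid (ι → ℝ)) (h : ∀ v ∈ S, ∃ i, 0 ≤ v i) :
    ∃ p : ι → ℝ, (∀ i, 0 ≤ p i) ∧ ∑ i, p i = 1 ∧ ∀ v ∈ S, 0 ≤ ∑ i, p i * v i := by
  classical
  set Ng : Set (ι → ℝ) := {w | ∀ i, w i < 0} with hNg
  have hconv : Convex ℝ Ng := by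
    intro x hx y hy a b ha hb hab i
    have h1 := hx i
    have h2 := hy i
    simp only [Pi.add_apply, Pi.smul_apply, smul_eq_mul]
    rcases eq_or_lt_of_le ha with h3 | h3
    · have : b = 1 := by linarith
      rw [← h3, this]; linarith
    · nlinarith [mul_neg_of_pos_of_neg h3 h1, mul_nonpos_of_nonneg_of_nonpos hb h2.le]
  have hopen : IsOpen Ng := by
    have : Ng = ⋂ i, {w : ι → ℝ | w i < 0} := by ext w; simp [hNg]
    rw [this]
    exact isOpen_iInter_of_finite fun i => isOpen_lt (continuous_apply i) continuous_const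
  have hdisj : Disjoint Ng (convexHull ℝ (S : Set (ι → ℝ))) := by
    rw [Set.disjoint_left]
    intro w hw1 hw2
    obtain ⟨i, hi⟩ := a6_hull S h w hw2
    exact absurd (hw1 i) (not_lt.2 hi)
  obtain ⟨f, u, hf1, hf2⟩ := geometric_hahn_banach_open hconv hopen (convex_convexHull ℝ _) hdisj
  have hu0 : u ≤ 0 := by
    have := hf2 0 (subset_convexHull ℝ _ S.zero_mem)
    simpa using this
  have hfS : ∀ v ∈ S, 0 ≤ f v := by
    intro v hv
    by_contra hneg
    push Not at hneg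
    obtain ⟨n, hn⟩ := exists_nat_gt (u / f v)
    have h1 := hf2 _ (subset_convexHull ℝ _ (S.nsmul_mem hv n))
    rw [map_nsmul, nsmul_eq_mul] at h1
    rw [div_lt_iff_of_neg hneg] at hn
    linarith
  have hfN : ∀ a ∈ Ng, f a ≤ 0 := fun a ha => (hf1 a ha).le.trans hu0
  have hfN' : ∀ a ∈ Ng, f a < 0 := fun a ha => lt_of_lt_of_le (hf1 a ha) hu0
  set g : ι → ℝ := fun i => f (Pi.single i 1) with hg
  have hfg : ∀ v : ι → ℝ, f v = ∑ i, g i * v i := by
    intro v
    have : v = ∑ i, v i • (Pi.single i (1 : ℝ) : ι → ℝ) := by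
      ext k
      simp [Finset.sum_apply, Pi.single_apply]
    conv_lhs => rw [this]
    rw [map_sum]
    refine Finset.sum_congr rfl fun i _ => ?_
    rw [map_smul, smul_eq_mul, mul_comm]
  have hsum : 0 < ∑ i, g i := by
    have h1 := hfN' (fun _ => -1) (fun i => by norm_num)
    rw [hfg] at h1
    simp only [mul_neg, mul_one, Finset.sum_neg_distrib] at h1
    linarith
  have hg0 : ∀ i, 0 ≤ g i := by
    intro i
    by_contra hneg
    push Not at hneg
    set δ := -g i / (2 * ∑ j, g j) with hδ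
    have hδ0 : 0 < δ := div_pos (by linarith) (by linarith)
    have h1 := hfN' (fun k => -(Pi.single i (1 : ℝ) : ι → ℝ) k - δ) (fun k => by
      by_cases hk : k = i
      · subst hk; simp; linarith
      · simp [Pi.single_eq_of_ne hk]; linarith)
    rw [hfg] at h1
    have h2 : ∑ k, g k * (-(Pi.single i (1 : ℝ) : ι → ℝ) k - δ) = -g i - δ * ∑ j, g j := by
      have h3 : ∀ k, g k * (-(Pi.single i (1 : ℝ) : ι → ℝ) k - δ) = -(g k * (Pi.single i (1 : ℝ) : ι → ℝ) k) - δ * g k := by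
        intro k; ring
      simp_rw [h3]
      rw [Finset.sum_sub_distrib, Finset.sum_neg_distrib, ← Finset.mul_sum]
      simp [Pi.single_apply]
    rw [h2] at h1
    have h3 : δ * ∑ j, g j = -g i / 2 := by
      rw [hδ]; field_simp
    rw [h3] at h1
    linarith
  refine ⟨fun i => g i / ∑ j, g j, fun i => div_nonneg (hg0 i) hsum.le, ?_, ?_⟩
  · rw [← Finset.sum_div, div_self hsum.ne']
  · intro v hv
    have h1 := hfS v hv
    rw [hfg] at h1
    have h2 : ∑ i, g i / (∑ j, g j) * v i = (∑ i, g i * v i) / ∑ j, g j := by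
      rw [Finset.sum_div]
      refine Finset.sum_congr rfl fun i _ => ?_
      ring
    rw [h2]
    exact div_nonneg h1 hsum.le

end Pool.Agent.Lib.H32P
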