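import Pool.Agent.Lib.H32P.Defs

/-!
# Chunk A7 (M/L): the quantile function of a density

`F y = ∫_0^y f` is continuous, `κ (y' - y) ≤ F y' - F y ≤ D (y' - y)` for `y ≤ y'`, `F 0 = 0`, `F 1 = 1`; so `F` is a strictly increasing bijection of
`ℝ` (tends to `±∞`), and `Y` is its inverse (e.g. `StrictMono.orderIsoOfSurjective`; an order isomorphism of `ℝ` is continuous). `Y v - Y u ≥ (v - u)/D`.

Change of variables: let `λ = volume.restrict (Ioc 0 1)` and `μ = λ.withDensity (ENNReal.ofReal ∘ f)`. The push-forward of `λ` under `Y` is `μ`: both are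
finite and agree on all `Iic a` (`Measure.ext_of_Iic`): `Y u ≤ a ↔ u ≤ F a`, so both values are `min 1 (max 0 (F a))`. Then
`∫ g (Y u) dλ = ∫ g dμ` (`integral_map`) `= ∫ f g dλ` (`integral_withDensity_eq_integral_smul` or `integral_withDensity_eq_integral_toReal_smul`).
-/

namespace Pool.Agent.Lib.H32P

open MeasureTheory

theorem a7_quantile {f : ℝ → ℝ} (hf : Measurable f) {κ D : ℝ} (hκ : 0 < κ) (h0 : ∀ y, κ ≤ f y) (hD : ∀ y, f y ≤ D)
    (h1 : ∫ y in (0:ℝ)..1, f y = 1) :
    ∃ Y : ℝ → ℝ, Quant Y (1 / D) ∧
      ∀ g : ℝ → ℝ, Measurable g → ∫ y in (0:ℝ)..1, f y * g y = ∫ u in (0:ℝ)..1, g (Y u) := by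
  have hfpos : ∀ y, 0 < f y := fun y => hκ.trans_le (h0 y)
  have hDpos : 0 < D := hκ.trans_le ((h0 0).trans (hD 0))
  have hint : ∀ a b : ℝ, IntervalIntegrable f volume a b := by
    intro a b
    refine (intervalIntegrable_const (c := D)).mono_fun hf.aestronglyMeasurable ?_
    refine Filter.Eventually.of_forall fun y => ?_
    change ‖f y‖ ≤ ‖D‖
    rw [Real.norm_of_nonneg (hfpos y).le, Real.norm_of_nonneg hDpos.le]
    exact hD y
  set F : ℝ → ℝ := fun y => ∫ x in (0:ℝ)..y, f x with hF
  have hsub : ∀ a b, F b - F a = ∫ x in a..b, f x := by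
    intro a b
    rw [hF]
    exact intervalIntegral.integral_interval_sub_left (hint 0 b) (hint 0 a)
  have hlow : ∀ a b, a ≤ b → κ * (b - a) ≤ F b - F a := by
    intro a b hab
    rw [hsub]
    have h2 : ∫ _x in a..b, κ = κ * (b - a) := by
      rw [intervalIntegral.integral_const, smul_eq_mul, mul_comm]
    rw [← h2]
    exact intervalIntegral.integral_mono_on hab intervalIntegrable_const (hint a b) fun x _ => h0 x
  have hup : ∀ a b, a ≤ b → F b - F a ≤ D * (b - a) := by
    intro a b hab
    rw [hsub]
    have h2 : ∫ _x in a..b, D = D * (b - a) := by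
      rw [intervalIntegral.integral_const, smul_eq_mul, mul_comm]
    rw [← h2]
    exact intervalIntegral.integral_mono_on hab (hint a b) intervalIntegrable_const fun x _ => hD x
  have hmono : StrictMono F := by
    intro a b hab
    have := hlow a b hab.le
    nlinarith
  have hF0 : F 0 = 0 := by rw [hF]; exact intervalIntegral.integral_same
  have hF1 : F 1 = 1 := h1
  have hcont : Continuous F := by
    rw [hF]
    exact intervalIntegral.continuous_primitive hint 0
  have htop : Filter.Tendsto F Filter.atTop Filter.atTop := by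
    refine Filter.tendsto_atTop_mono' _ ?_ (Filter.tendsto_id.const_mul_atTop hκ)
    filter_upwards [Filter.eventually_ge_atTop 0] with y hy
    have := hlow 0 y hy
    rw [hF0] at this
    simp only [id]
    linarith
  have hbot : Filter.Tendsto F Filter.atBot Filter.atBot := by
    refine Filter.tendsto_atBot_mono' _ ?_ (Filter.tendsto_id.const_mul_atBot hκ)
    filter_upwards [Filter.eventually_le_atBot 0] with y hy
    have := hlow y 0 hy
    rw [hF0] at this
    simp only [id]
    linarith
  have hsurj : Function.Surjective F := hcont.surjective htop hbot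
  set e : ℝ ≃o ℝ := StrictMono.orderIsoOfSurjective F hmono hsurj with he
  have heF : ∀ y, e y = F y := fun y => rfl
  have hYF : ∀ u, F (e.symm u) = u := fun u => e.apply_symm_apply u
  have hiff : ∀ u a, e.symm u ≤ a ↔ u ≤ F a := by
    intro u a
    rw [← heF a]
    exact e.symm_apply_le
  refine ⟨fun u => e.symm u, ⟨by positivity, e.symm.continuous, ?_, ?_, ?_⟩, ?_⟩
  · rw [OrderIso.symm_apply_eq, heF, hF0]
  · rw [OrderIso.symm_apply_eq, heF, hF1]
  · intro u v huv
    have h2 := hup (e.symm u) (e.symm v) (e.symm.monotone huv)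
    rw [hYF, hYF] at h2
    rw [one_div, inv_mul_le_iff₀ hDpos]
    exact h2
  · intro g hg
    set lam : Measure ℝ := volume.restrict (Set.Ioc 0 1) with hlam
    have hmeas : Measurable fun u => e.symm u := e.symm.continuous.measurable
    have hfm : Measurable fun y => (f y).toNNReal := hf.real_toNNReal
    set μ : Measure ℝ := lam.withDensity fun y => ((f y).toNNReal : ENNReal) with hμ
    have hIic : ∀ a, μ (Set.Iic a) = ENNReal.ofReal (min 1 (max 0 (F a))) := by
      intro a
      rw [hμ, withDensity_apply _ measurableSet_Iic, hlam, Measure.restrict_restrict measurableSet_Iic]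
      rcases le_total a 0 with ha | ha
      · have h2 : Set.Iic a ∩ Set.Ioc (0:ℝ) 1 = ∅ := by
          ext x
          simp only [Set.mem_inter_iff, Set.mem_Iic, Set.mem_Ioc, Set.mem_empty_iff_false, iff_false]
          rintro ⟨h3, h4, -⟩
          linarith
        rw [h2, Measure.restrict_empty, lintegral_zero_measure]
        have h3 : F a ≤ 0 := by
          rw [← hF0]
          exact hmono.monotone ha
        rw [max_eq_left h3]
        simp
      · set b := min a 1 with hb
        have hb0 : 0 ≤ b := le_min ha zero_le_one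
        have h2 : Set.Iic a ∩ Set.Ioc (0:ℝ) 1 = Set.Ioc 0 b := by
          ext x
          simp only [Set.mem_inter_iff, Set.mem_Iic, Set.mem_Ioc, hb, le_min_iff]
          tauto
        rw [h2]
        have h3 : ∫⁻ y in Set.Ioc 0 b, ((f y).toNNReal : ENNReal) = ENNReal.ofReal (F b) := by
          have h4 : F b = ∫ y in Set.Ioc 0 b, f y := intervalIntegral.integral_of_le hb0
          rw [h4, ofReal_integral_eq_lintegral_ofReal]
          · rfl
          · exact ((intervalIntegrable_iff_integrableOn_Ioc_of_le hb0).1 (hint 0 b))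
          · exact Filter.Eventually.of_forall fun y => (hfpos y).le
        rw [h3]
        congr 1
        rcases le_total a 1 with ha1 | ha1
        · rw [hb, min_eq_left ha1]
          have h4 : 0 ≤ F a := by
            rw [← hF0]
            exact hmono.monotone ha
          have h5 : F a ≤ 1 := by
            rw [← hF1]
            exact hmono.monotone ha1
          rw [max_eq_right h4, min_eq_right h5]
        · rw [hb, min_eq_right ha1, hF1]
          have h5 : 1 ≤ F a := by
            rw [← hF1]
            exact hmono.monotone ha1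
          rw [max_eq_right (by linarith), min_eq_left h5]
    have hIic2 : ∀ a, (lam.map fun u => e.symm u) (Set.Iic a) = ENNReal.ofReal (min 1 (max 0 (F a))) := by
      intro a
      rw [Measure.map_apply hmeas measurableSet_Iic]
      have h2 : (fun u => e.symm u) ⁻¹' Set.Iic a = Set.Iic (F a) := by
        ext u
        exact hiff u a
      rw [h2, hlam, Measure.restrict_apply measurableSet_Iic]
      rcases le_total (F a) 0 with ha | ha
      · have h2 : Set.Iic (F a) ∩ Set.Ioc (0:ℝ) 1 = ∅ := by
          ext x
          simp only [Set.mem_inter_iff, Set.mem_Iic, Set.mem_Ioc, Set.mem_empty_iff_false, iff_false]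
          rintro ⟨h3, h4, -⟩
          linarith
        rw [h2, max_eq_left ha]
        simp
      · have h2 : Set.Iic (F a) ∩ Set.Ioc (0:ℝ) 1 = Set.Ioc 0 (min 1 (F a)) := by
          ext x
          simp only [Set.mem_inter_iff, Set.mem_Iic, Set.mem_Ioc, le_min_iff]
          tauto
        rw [h2, Real.volume_Ioc, sub_zero, max_eq_right ha]
    have hfin : IsFiniteMeasure μ := by
      refine isFiniteMeasure_withDensity ?_
      have h4 : ∫⁻ y, ((f y).toNNReal : ENNReal) ∂lam ≤ ∫⁻ _y, (D.toNNReal : ENNReal) ∂lam :=
        lintegral_mono fun y => ENNReal.coe_le_coe.2 (Real.toNNReal_le_toNNReal (hD y))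
      refine (h4.trans_lt ?_).ne
      rw [lintegral_const]
      exact ENNReal.mul_lt_top ENNReal.coe_lt_top (measure_lt_top _ _)
    have hmap : lam.map (fun u => e.symm u) = μ := by
      refine Measure.ext_of_Iic _ _ fun a => ?_
      rw [hIic, hIic2]
    rw [intervalIntegral.integral_of_le zero_le_one, intervalIntegral.integral_of_le zero_le_one]
    change ∫ y, f y * g y ∂lam = ∫ u, g (e.symm u) ∂lam
    have h5 : ∫ u, g (e.symm u) ∂lam = ∫ y, g y ∂(lam.map fun u => e.symm u) :=
      (integral_map hmeas.aemeasurable hg.aestronglyMeasurable).symm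
    rw [h5, hmap, hμ, integral_withDensity_eq_integral_smul hfm]
    refine integral_congr_ae (Filter.Eventually.of_forall fun y => ?_)
    change f y * g y = (f y).toNNReal • g y
    rw [NNReal.smul_def, smul_eq_mul, Real.coe_toNNReal _ (hfpos y).le]

end Pool.Agent.Lib.H32P
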