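import Pool.Agent.Lib.H32P.A4
import Pool.Agent.Lib.H32P.A5
import Pool.Agent.Lib.H32P.A6
import Pool.Agent.Lib.H32P.A7

/-!
# Chunk A8 (M): existence of the minimax measure

Let `η = c₁ - c > 0` and take the family of `a4_family` for `η`. For `P ≠ 0` in `ℤ[X]` let
`ψ_P i = ∫_0^1 f_i y log |P(y)| dy + c₁ natDegree P`. Then `ψ_{PQ} = ψ_P + ψ_Q` (for almost all `y` neither factor vanishes; `a5_int`), `ψ_1 = 0`, so
`S = {ψ_P}` is an additive submonoid. Every `ψ_P` has a nonnegative coordinate: take `x0 ∈ [0,1]` with `exp (-(c deg P)) ≤ |P(x0)|` and the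
corresponding `i`; `a5_poly` gives `ψ_P i ≥ log |P(x0)| - η deg P + c₁ deg P ≥ 0`. `a6_minimax` gives `p`, and `f = ∑ p_i f_i` satisfies
`κ ≤ f ≤ D`, `∫_0^1 f = 1`, `∫_0^1 f log |P| ≥ -c₁ deg P`. Take `Y` from `a7_quantile` (`g y = log |aeval y P|` is measurable). The index type `Fin m` is
nonempty by the last clause of `a4_family` with `x0 = 0`.
-/

namespace Pool.Agent.Lib.H32P

open Polynomial MeasureTheory

theorem a8_ae {P : ℤ[X]} (hP : P ≠ 0) : ∀ᵐ y : ℝ, aeval y P ≠ 0 := by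
  have h1 : (P.rootSet ℝ).Finite := rootSet_finite P ℝ
  have h2 : {y : ℝ | ¬ aeval y P ≠ 0} ⊆ P.rootSet ℝ := by
    intro y hy
    rw [mem_rootSet]
    refine ⟨hP, ?_⟩
    by_contra h3
    exact hy h3
  exact measure_mono_null h2 (h1.measure_zero _)

theorem a8_meas (P : ℤ[X]) : Measurable fun y : ℝ => Real.log |aeval y P| := by
  have h1 : Continuous fun y : ℝ => aeval y P := P.continuous_aeval
  exact Real.measurable_log.comp h1.abs.measurable

theorem a8_mul {f : ℝ → ℝ} (hf : Measurable f) {D : ℝ} (h0 : ∀ y, 0 ≤ f y) (hD : ∀ y, f y ≤ D)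
    {P Q : ℤ[X]} (hP : P ≠ 0) (hQ : Q ≠ 0) :
    ∫ y in (0:ℝ)..1, f y * Real.log |aeval y (P * Q)| =
      (∫ y in (0:ℝ)..1, f y * Real.log |aeval y P|) + ∫ y in (0:ℝ)..1, f y * Real.log |aeval y Q| := by
  rw [← intervalIntegral.integral_add (a5_int hf h0 hD P 0 1) (a5_int hf h0 hD Q 0 1)]
  apply intervalIntegral.integral_congr_ae
  filter_upwards [a8_ae hP, a8_ae hQ] with y hy1 hy2 _
  rw [map_mul, abs_mul, Real.log_mul (abs_ne_zero.2 hy1) (abs_ne_zero.2 hy2), mul_add]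

theorem a8_exists {c c₁ : ℝ} (hc : c < c₁)
    (h : ∀ P : ℤ[X], P ≠ 0 → ∃ x ∈ Set.Icc (0:ℝ) 1, Real.exp (-(c * P.natDegree)) ≤ |aeval x P|) :
    ∃ (Y : ℝ → ℝ) (α : ℝ), Quant Y α ∧ Adm Y c₁ := by
  have hη : 0 < c₁ - c := by linarith
  obtain ⟨m, f, κ, D, hκ, hfm, hfκ, hfD, hf1, hfam⟩ := a4_family hη
  have hne : Nonempty (Fin m) := by
    obtain ⟨i, -⟩ := hfam 0 ⟨le_refl _, zero_le_one⟩
    exact ⟨i⟩
  have hf0 : ∀ i y, 0 ≤ f i y := fun i y => hκ.le.trans (hfκ i y)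
  let ψ : ℤ[X] → (Fin m → ℝ) := fun P i =>
    (∫ y in (0:ℝ)..1, f i y * Real.log |aeval y P|) + c₁ * P.natDegree
  let S : AddSubmonoid (Fin m → ℝ) :=
    { carrier := {v | ∃ P : ℤ[X], P ≠ 0 ∧ v = ψ P}
      zero_mem' := by
        refine ⟨1, one_ne_zero, ?_⟩
        funext i
        simp [ψ]
      add_mem' := by
        rintro a b ⟨P, hP, rfl⟩ ⟨Q, hQ, rfl⟩
        refine ⟨P * Q, mul_ne_zero hP hQ, ?_⟩
        funext i
        change ((∫ y in (0:ℝ)..1, f i y * Real.log |aeval y P|) + c₁ * P.natDegree) +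
          ((∫ y in (0:ℝ)..1, f i y * Real.log |aeval y Q|) + c₁ * Q.natDegree) =
          (∫ y in (0:ℝ)..1, f i y * Real.log |aeval y (P * Q)|) + c₁ * (P * Q).natDegree
        rw [a8_mul (hfm i) (hf0 i) (hfD i) hP hQ, natDegree_mul hP hQ]
        push_cast
        ring }
  have hS : ∀ v ∈ S, ∃ i, 0 ≤ v i := by
    rintro v ⟨P, hP, rfl⟩
    obtain ⟨x0, hx0, hx⟩ := h P hP
    have hpos : 0 < |aeval x0 P| := lt_of_lt_of_le (Real.exp_pos _) hx
    have hlog : -(c * P.natDegree) ≤ Real.log |aeval x0 P| := by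
      rw [← Real.log_exp (-(c * P.natDegree))]
      exact Real.log_le_log (Real.exp_pos _) hx
    obtain ⟨i, hi⟩ := hfam x0 hx0
    refine ⟨i, ?_⟩
    have h5 := a5_poly (hfm i) (hf0 i) (hfD i) (hf1 i) hi P (abs_pos.1 hpos)
    change 0 ≤ (∫ y in (0:ℝ)..1, f i y * Real.log |aeval y P|) + c₁ * P.natDegree
    have h6 : (c₁ - c) * (P.natDegree : ℝ) = c₁ * P.natDegree - c * P.natDegree := by ring
    linarith
  obtain ⟨p, hp0, hp1, hpS⟩ := a6_minimax S hS
  have hFm : Measurable fun y => ∑ i, p i * f i y :=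
    Finset.measurable_sum _ fun i _ => (hfm i).const_mul (p i)
  have hFκ : ∀ y, κ ≤ ∑ i, p i * f i y := by
    intro y
    calc κ = ∑ i, p i * κ := by rw [← Finset.sum_mul, hp1, one_mul]
      _ ≤ _ := Finset.sum_le_sum fun i _ => mul_le_mul_of_nonneg_left (hfκ i y) (hp0 i)
  have hFD : ∀ y, ∑ i, p i * f i y ≤ D := by
    intro y
    calc ∑ i, p i * f i y ≤ ∑ i, p i * D :=
          Finset.sum_le_sum fun i _ => mul_le_mul_of_nonneg_left (hfD i y) (hp0 i)
      _ = D := by rw [← Finset.sum_mul, hp1, one_mul]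
  have hint : ∀ i, IntervalIntegrable (f i) volume 0 1 := by
    intro i
    refine (intervalIntegrable_const (c := D)).mono_fun (hfm i).aestronglyMeasurable ?_
    refine Filter.Eventually.of_forall fun y => ?_
    change ‖f i y‖ ≤ ‖D‖
    rw [Real.norm_of_nonneg (hf0 i y), Real.norm_of_nonneg ((hf0 i y).trans (hfD i y))]
    exact hfD i y
  have hF1 : ∫ y in (0:ℝ)..1, ∑ i, p i * f i y = 1 := by
    rw [intervalIntegral.integral_finsetSum fun i _ => (hint i).const_mul (p i)]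
    calc ∑ i, ∫ y in (0:ℝ)..1, p i * f i y = ∑ i, p i := by
          refine Finset.sum_congr rfl fun i _ => ?_
          rw [intervalIntegral.integral_const_mul, hf1, mul_one]
      _ = 1 := hp1
  obtain ⟨Y, hQ, hY⟩ := a7_quantile hFm hκ hFκ hFD hF1
  refine ⟨Y, 1 / D, hQ, ?_⟩
  intro P hP
  rw [← hY _ (a8_meas P)]
  have h7 := hpS (ψ P) ⟨P, hP, rfl⟩
  have h8 : ∫ y in (0:ℝ)..1, (∑ i, p i * f i y) * Real.log |aeval y P| =
      ∑ i, p i * ∫ y in (0:ℝ)..1, f i y * Real.log |aeval y P| := by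
    have h9 : ∀ y : ℝ, (∑ i, p i * f i y) * Real.log |aeval y P| =
        ∑ i, p i * (f i y * Real.log |aeval y P|) := by
      intro y
      rw [Finset.sum_mul]
      exact Finset.sum_congr rfl fun i _ => by ring
    simp_rw [h9]
    rw [intervalIntegral.integral_finsetSum fun i _ =>
      (a5_int (hfm i) (hf0 i) (hfD i) P 0 1).const_mul (p i)]
    exact Finset.sum_congr rfl fun i _ => by rw [intervalIntegral.integral_const_mul]
  rw [h8]
  have h10 : ∑ i, p i * ψ P i = (∑ i, p i * ∫ y in (0:ℝ)..1, f i y * Real.log |aeval y P|) +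
      c₁ * P.natDegree := by
    have h11 : ∀ i, p i * ψ P i = p i * (∫ y in (0:ℝ)..1, f i y * Real.log |aeval y P|) +
        p i * (c₁ * P.natDegree) := fun i => by
      simp only [ψ]
      ring
    simp_rw [h11]
    rw [Finset.sum_add_distrib, ← Finset.sum_mul, hp1, one_mul]
  rw [h10] at h7
  linarith

end Pool.Agent.Lib.H32P
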