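import Pool.Agent.Lib.H32P.Defs

/-!
# Chunk B1 (S): elementary facts on quantile functions and on the constant `K`

Everything follows from `Quant.lower` (`α (v - u) ≤ Y v - Y u` for `u ≤ v`), `Y 0 = 0`, `Y 1 = 1`, continuity (intermediate value
theorem for `b1_surj`), and `α ≤ 1` (`u = 0`, `v = 1`), so `K α N = 2 e N / α ≥ 1` for `N ≥ 1`.
`b1_pt_mem`: `(i + 1 - s) / N ∈ [0,1]` for `i < N`, `s ∈ [0,1]`.
-/

namespace Pool.Agent.Lib.H32P

open Polynomial MeasureTheory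

variable {Y : ℝ → ℝ} {α : ℝ}

theorem b1_strictMono (hY : Quant Y α) : StrictMono Y := by
  intro u v huv
  have h1 := hY.lower u v huv.le
  have h2 : 0 < α * (v - u) := mul_pos hY.pos (sub_pos.2 huv)
  linarith

theorem b1_abs (hY : Quant Y α) (u v : ℝ) : α * |v - u| ≤ |Y v - Y u| := by
  rcases le_total u v with h | h
  · rw [abs_of_nonneg (sub_nonneg.2 h)]
    exact (hY.lower u v h).trans (le_abs_self _)
  · rw [abs_sub_comm v u, abs_sub_comm (Y v) (Y u), abs_of_nonneg (sub_nonneg.2 h)]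
    exact (hY.lower v u h).trans (le_abs_self _)

theorem b1_mem (hY : Quant Y α) {u : ℝ} (hu : u ∈ Set.Icc (0:ℝ) 1) : Y u ∈ Set.Icc (0:ℝ) 1 := by
  have hm := (b1_strictMono hY).monotone
  refine ⟨?_, ?_⟩
  · rw [← hY.zero]; exact hm hu.1
  · rw [← hY.one]; exact hm hu.2

theorem b1_surj (hY : Quant Y α) {t : ℝ} (ht : t ∈ Set.Icc (0:ℝ) 1) : ∃ v ∈ Set.Icc (0:ℝ) 1, Y v = t := by
  have h := intermediate_value_Icc (zero_le_one (α := ℝ)) hY.cont.continuousOn
  rw [hY.zero, hY.one] at h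
  exact h ht

theorem b1_alpha (hY : Quant Y α) : α ≤ 1 := by
  have h := hY.lower 0 1 zero_le_one
  rw [hY.zero, hY.one] at h
  linarith

theorem b1_K (hY : Quant Y α) {N : ℕ} (hN : 1 ≤ N) : 1 ≤ K α N := by
  have hN' : (1:ℝ) ≤ N := by exact_mod_cast hN
  have hα := b1_alpha hY
  have he : (1:ℝ) ≤ Real.exp 1 := by
    have := Real.add_one_le_exp (1:ℝ)
    linarith
  rw [K, le_div_iff₀ hY.pos]
  nlinarith

theorem b1_K_mono (hY : Quant Y α) {M N : ℕ} (h : M ≤ N) : K α M ≤ K α N := by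
  have h' : (M:ℝ) ≤ N := by exact_mod_cast h
  have := hY.pos
  have he := Real.exp_pos 1
  unfold K
  gcongr

theorem b1_K_nonneg (hY : Quant Y α) (N : ℕ) : 0 ≤ K α N := by
  have := hY.pos
  unfold K
  positivity

theorem b1_pt_mem (hY : Quant Y α) {N : ℕ} {s : ℝ} (hs : s ∈ Set.Icc (0:ℝ) 1) {i : ℕ} (hi : i < N) :
    pt Y N s i ∈ Set.Icc (0:ℝ) 1 := by
  apply b1_mem hY
  have hN : (0:ℝ) < N := by exact_mod_cast (lt_of_le_of_lt (Nat.zero_le i) hi)
  have hi' : ((i:ℝ) + 1) ≤ N := by exact_mod_cast hi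
  have hi0 : (0:ℝ) ≤ i := Nat.cast_nonneg i
  refine ⟨?_, ?_⟩
  · apply div_nonneg _ hN.le
    linarith [hs.2]
  · rw [div_le_one hN]
    linarith [hs.1]

theorem b1_pt_ne (hY : Quant Y α) {N : ℕ} (hN : 1 ≤ N) (s : ℝ) {i j : ℕ} (hij : i ≠ j) :
    pt Y N s i ≠ pt Y N s j := by
  intro h
  have h1 := (b1_strictMono hY).injective h
  have hN' : (N:ℝ) ≠ 0 := by
    have : (0:ℝ) < N := by exact_mod_cast hN
    exact this.ne'
  rw [div_left_inj' hN'] at h1
  apply hij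
  have : (i:ℝ) = j := by linarith
  exact_mod_cast this

end Pool.Agent.Lib.H32P
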