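import Pool.Agent.Lib.H32P.B1
import Pool.Agent.Lib.H32P.A1

/-!
# Chunk B2 (M): integrability of `u ↦ log |Y v - Y u|` and lower bounds for its integrals

`b2_int`: measurable; on `[a,b]` (compact) `|Y v - Y u| ≤ M` with `M ≥ 1`, and for `u ≠ v`, `α |v - u| ≤ |Y v - Y u|` (`b1_abs`), so
`| log |Y v - Y u| | ≤ log M + |log α| + | log |u - v| |`, and the right side is integrable (`a1_int_real`). Use `IntervalIntegrable.mono_fun'` or similar
(the bound holds also at `u = v`, where Lean's `log 0 = 0`).

`b2_lower`: `log |Y v - Y u| ≥ log α + log |u - v|` for `u ≠ v`, integrate, `a1_log`.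
-/

namespace Pool.Agent.Lib.H32P

open Polynomial MeasureTheory

variable {Y : ℝ → ℝ} {α : ℝ}

theorem b2_ptw (hY : Quant Y α) {u v : ℝ} (huv : u ≠ v) :
    Real.log α + Real.log |u - v| ≤ Real.log |Y v - Y u| := by
  have h1 := b1_abs hY u v
  have h2 : 0 < |u - v| := abs_pos.2 (sub_ne_zero.2 huv)
  rw [← Real.log_mul hY.pos.ne' h2.ne', abs_sub_comm u v]
  rw [abs_sub_comm] at h2
  exact Real.log_le_log (mul_pos hY.pos h2) h1

theorem b2_int (hY : Quant Y α) (v a b : ℝ) :
    IntervalIntegrable (fun u => Real.log |Y v - Y u|) volume a b := by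
  have hcont : Continuous fun u => |Y v - Y u| := (continuous_const.sub hY.cont).abs
  obtain ⟨M0, hM0⟩ := (isCompact_uIcc (a := a) (b := b)).exists_bound_of_continuousOn hcont.continuousOn
  have hM1 : (1:ℝ) ≤ max 1 M0 := le_max_left _ _
  have hlM : 0 ≤ Real.log (max 1 M0) := Real.log_nonneg hM1
  have hint : IntervalIntegrable (fun u => Real.log (max 1 M0) + |Real.log α| + abs (Real.log |u - v|))
      volume a b := intervalIntegrable_const.add (a1_int_real v a b).abs
  refine hint.mono_fun' (Real.measurable_log.comp hcont.measurable).aestronglyMeasurable ?_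
  refine (ae_restrict_iff' measurableSet_uIoc).2 (Filter.Eventually.of_forall fun u hu => ?_)
  change abs (Real.log |Y v - Y u|) ≤ _
  by_cases huv : u = v
  · subst huv
    rw [sub_self, abs_zero, Real.log_zero, abs_zero]
    positivity
  · have h1 := b2_ptw hY huv
    have h2 : |Y v - Y u| ≤ max 1 M0 := by
      have h3 := hM0 u (Set.uIoc_subset_uIcc hu)
      rw [Real.norm_eq_abs, abs_abs] at h3
      exact h3.trans (le_max_right _ _)
    have h4 : 0 < |Y v - Y u| := by
      have h5 : 0 < |v - u| := abs_pos.2 (sub_ne_zero.2 fun h => huv h.symm)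
      exact (mul_pos hY.pos h5).trans_le (b1_abs hY u v)
    have h6 : Real.log |Y v - Y u| ≤ Real.log (max 1 M0) := Real.log_le_log h4 h2
    rw [abs_le]
    have h7 := neg_abs_le (Real.log α)
    have h8 := neg_abs_le (Real.log |u - v|)
    have h9 := abs_nonneg (Real.log α)
    have h10 := abs_nonneg (Real.log |u - v|)
    constructor <;> linarith

theorem b2_lower (hY : Quant Y α) (v p : ℝ) {h : ℝ} (hh : 0 < h) :
    h * (Real.log (α * h / 2) - 1) ≤ ∫ u in p..(p + h), Real.log |Y v - Y u| := by
  have hi := a1_int_real v p (p + h)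
  have h1 : ∫ u in p..(p + h), (Real.log α + Real.log |u - v|) ≤
      ∫ u in p..(p + h), Real.log |Y v - Y u| := by
    refine intervalIntegral.integral_mono_ae (by linarith) (intervalIntegrable_const.add hi)
      (b2_int hY v p (p + h)) ?_
    have h2 : ∀ᵐ u : ℝ, u ≠ v := by
      rw [ae_iff]
      simp
    filter_upwards [h2] with u hu
    exact b2_ptw hY hu
  rw [intervalIntegral.integral_add intervalIntegrable_const hi, intervalIntegral.integral_const] at h1
  have h3 := a1_log p v hh
  have h4 : Real.log (α * h / 2) = Real.log α + Real.log (h / 2) := by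
    rw [mul_div_assoc, Real.log_mul hY.pos.ne' (by positivity)]
  rw [h4]
  have h5 : (p + h - p) • Real.log α = h * Real.log α := by
    rw [smul_eq_mul]
    ring
  rw [h5] at h1
  linarith [h1, h3]

end Pool.Agent.Lib.H32P
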