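import Pool.Agent.Lib.H32P.B2

/-!
# Chunk B4 (M/L): upper bound for products of distances to quantile points

Let `t = Y v`, `v ∈ [0,1]` (`b1_surj`), `I_i = [i/N, (i+1)/N]`, `J_i = N ∫_{I_i} log |t - Y u| du` (`i < N`), so `∑ J_i = N U(t)`, `J_i ≤ 0`
(both `t, Y u ∈ [0,1]`), and `J_i ≥ log (α/(2N)) - 1 = - log K` (`b2_lower`, `h = 1/N`; `K = K α N = 2eN/α`). Put `p_i = pt Y N s i = Y w_i`, `w_i = (i + 1 - s)/N ∈ I_i`.
Let `j0 < N` with `v ∈ I_{j0}`. If some factor `|t - p_i|`, `i ∈ S`, is `0` the product is `0`. Otherwise, for `1 ≤ i < j0`: all `u ∈ I_{i-1}` satisfy `u ≤ i/N ≤ w_i ≤ v`, so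
`|t - Y u| ≥ |t - p_i|` and `log |t - p_i| ≤ J_{i-1}`. For `j0 < i ≤ N - 2`: all `u ∈ I_{i+1}` satisfy `v ≤ w_i ≤ (i+1)/N ≤ u`, so `log |t - p_i| ≤ J_{i+1}`. For the (at most three)
remaining `i ∈ {0, j0, N-1}`: `log |t - p_i| ≤ 0`. So with `S' = S \ {0, j0, N-1}` and the injective map `σ i = i - 1` (`i < j0`), `σ i = i + 1` (`i > j0`) into `range N`:
`∑_{i ∈ S} log |t - p_i| ≤ ∑_{i ∈ S'} J_{σ i} = N U(t) - ∑_{i ∉ σ S'} J_i ≤ N U(t) + (N - |S'|) log K ≤ N U(t) + (3 + N - |S|) log K` (`K ≥ 1`, `b1_K`). Exponentiate.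
-/

namespace Pool.Agent.Lib.H32P

open Polynomial MeasureTheory

variable {Y : ℝ → ℝ} {α : ℝ}

theorem b4_left (J : ℕ → ℝ) {L : ℝ} (hL : 0 ≤ L) (j : ℕ) (hJ : ∀ i < j, -L ≤ J i) :
    ∑ i ∈ Finset.range j, (if 1 ≤ i then J (i - 1) else 0) ≤ ∑ i ∈ Finset.range j, J i + L := by
  rcases Nat.eq_zero_or_pos j with h | h
  · subst h; simpa using hL
  · obtain ⟨k, rfl⟩ : ∃ k, j = k + 1 := ⟨j - 1, by omega⟩
    rw [Finset.sum_range_succ', Finset.sum_range_succ]
    simp only [Nat.le_add_left, if_true, Nat.add_sub_cancel]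
    have := hJ k (by omega)
    simp
    linarith

theorem b4_right (J : ℕ → ℝ) {L : ℝ} (hL : 0 ≤ L) (M : ℕ) (hJ : ∀ i < M, -L ≤ J i) :
    ∑ i ∈ Finset.range M, (if i + 1 < M then J (i + 1) else 0) ≤ ∑ i ∈ Finset.range M, J i + L := by
  rcases Nat.eq_zero_or_pos M with h | h
  · subst h; simpa using hL
  · obtain ⟨k, rfl⟩ : ∃ k, M = k + 1 := ⟨M - 1, by omega⟩
    rw [Finset.sum_range_succ, Finset.sum_range_succ' (fun i => J i)]
    have h1 : ∑ i ∈ Finset.range k, (if i + 1 < k + 1 then J (i + 1) else 0) = ∑ i ∈ Finset.range k, J (i + 1) := by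
      apply Finset.sum_congr rfl
      intro i hi
      rw [if_pos]
      have := Finset.mem_range.1 hi
      omega
    rw [h1, if_neg (by omega)]
    have := hJ 0 (by omega)
    linarith

theorem b4_comb {N j0 : ℕ} (hj : j0 < N) (J x : ℕ → ℝ) {L : ℝ} (hL : 0 ≤ L) (hJ : ∀ i < N, -L ≤ J i)
    (S : Finset ℕ) (hS : S ⊆ Finset.range N)
    (hx0 : ∀ i ∈ S, x i ≤ 0) (hxl : ∀ i ∈ S, 1 ≤ i → i < j0 → x i ≤ J (i - 1))
    (hxr : ∀ i ∈ S, j0 < i → i + 1 < N → x i ≤ J (i + 1)) :
    ∑ i ∈ S, x i ≤ ∑ i ∈ Finset.range N, J i + (3 + (N - S.card) : ℕ) * L := by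
  set b : ℕ → ℝ := fun i => if i < j0 then (if 1 ≤ i then J (i - 1) else 0) else
    if i = j0 then 0 else (if i + 1 < N then J (i + 1) else 0) with hb
  have h1 : ∀ i ∈ S, x i ≤ b i := by
    intro i hi
    simp only [hb]
    split_ifs with h1 h2 h3 h4
    · exact hxl i hi h2 h1
    · exact hx0 i hi
    · exact hx0 i hi
    · exact hxr i hi (by omega) h4
    · exact hx0 i hi
  have hblow : ∀ i ∈ Finset.range N, -L ≤ b i := by
    intro i hi
    have hi' := Finset.mem_range.1 hi
    simp only [hb]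
    split_ifs with h1 h2 h3 h4
    · exact hJ _ (by omega)
    · linarith
    · linarith
    · exact hJ _ (by omega)
    · linarith
  have h2 : ∑ i ∈ S, b i ≤ ∑ i ∈ Finset.range N, b i + ((N - S.card : ℕ) : ℝ) * L := by
    have e1 : ∑ i ∈ Finset.range N, b i = ∑ i ∈ (Finset.range N) \ S, b i + ∑ i ∈ S, b i :=
      (Finset.sum_sdiff hS).symm
    have e2 : -(((N - S.card : ℕ) : ℝ) * L) ≤ ∑ i ∈ (Finset.range N) \ S, b i := by
      have h3 := Finset.card_nsmul_le_sum ((Finset.range N) \ S) b (-L)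
        (fun i hi => hblow i (Finset.mem_sdiff.1 hi).1)
      rw [Finset.card_sdiff_of_subset hS, Finset.card_range, nsmul_eq_mul] at h3
      linarith
    linarith
  have h3 : ∑ i ∈ Finset.range N, b i ≤ ∑ i ∈ Finset.range N, J i + 3 * L := by
    obtain ⟨M, hM⟩ : ∃ M, N = j0 + 1 + M := ⟨N - (j0 + 1), by omega⟩
    have hsplit : ∀ f : ℕ → ℝ, ∑ i ∈ Finset.range N, f i =
        ∑ i ∈ Finset.range j0, f i + f j0 + ∑ i ∈ Finset.range M, f (j0 + 1 + i) := by
      intro f
      rw [hM, Finset.sum_range_add, Finset.sum_range_succ]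
    rw [hsplit, hsplit]
    have e1 : ∑ i ∈ Finset.range j0, b i = ∑ i ∈ Finset.range j0, (if 1 ≤ i then J (i - 1) else 0) := by
      apply Finset.sum_congr rfl
      intro i hi
      simp only [hb, if_pos (Finset.mem_range.1 hi)]
    have e2 : b j0 = 0 := by simp [hb]
    have e3 : ∑ i ∈ Finset.range M, b (j0 + 1 + i) =
        ∑ i ∈ Finset.range M, (if i + 1 < M then (fun i => J (j0 + 1 + i)) (i + 1) else 0) := by
      apply Finset.sum_congr rfl
      intro i hi
      simp only [hb]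
      rw [if_neg (by omega), if_neg (by omega)]
      by_cases h5 : i + 1 < M
      · rw [if_pos (by omega), if_pos h5]
        congr 1
      · rw [if_neg (by omega), if_neg h5]
    rw [e1, e2, e3]
    have f1 := b4_left J hL j0 (fun i hi => hJ i (by omega))
    have f2 := b4_right (fun i => J (j0 + 1 + i)) hL M (fun i hi => hJ _ (by omega))
    have f3 := hJ j0 hj
    simp only at f2 ⊢
    linarith
  have h4 := Finset.sum_le_sum h1
  push_cast
  linarith

theorem b4_int (hY : Quant Y α) {v p a b : ℝ} (hab : a ≤ b) (hp : p ≠ Y v)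
    (h : ∀ u ∈ Set.Icc a b, |Y v - p| ≤ |Y v - Y u|) :
    (b - a) * Real.log |Y v - p| ≤ ∫ u in a..b, Real.log |Y v - Y u| := by
  have h1 : ∫ _u in a..b, Real.log |Y v - p| ≤ ∫ u in a..b, Real.log |Y v - Y u| := by
    apply intervalIntegral.integral_mono_on hab (by simp) (b2_int hY v a b)
    intro u hu
    apply Real.log_le_log _ (h u hu)
    exact abs_pos.2 (sub_ne_zero.2 (Ne.symm hp))
  rw [intervalIntegral.integral_const, smul_eq_mul] at h1
  exact h1

theorem b4_prod_le (hY : Quant Y α) {N : ℕ} (hN : 1 ≤ N) {s : ℝ} (hs : s ∈ Set.Icc (0:ℝ) 1)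
    {t : ℝ} (ht : t ∈ Set.Icc (0:ℝ) 1) (S : Finset ℕ) (hS : S ⊆ Finset.range N) :
    ∏ i ∈ S, |t - pt Y N s i| ≤ K α N ^ (3 + (N - S.card)) * Real.exp (N * U Y t) := by
  have hN0 : (0:ℝ) < N := by exact_mod_cast hN
  have hK1 : 1 ≤ K α N := b1_K hY hN
  have hK0 : 0 < K α N := lt_of_lt_of_le one_pos hK1
  have hmono := b1_strictMono hY
  obtain ⟨v, hv, rfl⟩ := b1_surj hY ht
  by_cases hz : ∃ i ∈ S, Y v - pt Y N s i = 0
  · obtain ⟨i, hi, hi0⟩ := hz
    rw [Finset.prod_eq_zero hi (by rw [hi0, abs_zero])]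
    positivity
  push Not at hz
  set J : ℕ → ℝ := fun i => N * ∫ u in ((i:ℝ) / N)..(((i + 1 : ℕ) : ℝ) / N), Real.log |Y v - Y u| with hJ
  set L : ℝ := Real.log (K α N) with hL
  have hL0 : 0 ≤ L := Real.log_nonneg hK1
  have hJlow : ∀ i < N, -L ≤ J i := by
    intro i _
    have h1 := b2_lower hY v ((i:ℝ) / N) (h := 1 / N) (by positivity)
    have h2 : (i:ℝ) / N + 1 / N = ((i + 1 : ℕ) : ℝ) / N := by
      push_cast; ring
    rw [h2] at h1
    have h3 := mul_le_mul_of_nonneg_left h1 hN0.le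
    rw [← mul_assoc, mul_one_div_cancel hN0.ne', one_mul] at h3
    have h4 : Real.log (α * (1 / N) / 2) - 1 = -L := by
      have hα := hY.pos
      rw [hL, K, Real.log_div (by positivity) (by positivity), Real.log_div (by positivity) (by positivity),
        Real.log_mul (by positivity) (by positivity), Real.log_mul (by positivity) (by positivity),
        Real.log_mul (by positivity) (by positivity), Real.log_exp, one_div, Real.log_inv]
      ring
    rw [h4] at h3
    exact h3
  have hJsum : ∑ i ∈ Finset.range N, J i = N * U Y (Y v) := by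
    simp only [hJ]
    rw [← Finset.mul_sum]
    have h1 := intervalIntegral.sum_integral_adjacent_intervals (n := N)
      (a := fun i : ℕ => (i:ℝ) / N) (f := fun u => Real.log |Y v - Y u|) (μ := volume)
      (fun k _ => b2_int hY v _ _)
    rw [h1]
    simp only [Nat.cast_zero, zero_div, div_self hN0.ne']
    rfl
  -- the index `j0`
  obtain ⟨j0, hj0, hj1, hj2⟩ : ∃ j0 < N, (j0:ℝ) / N ≤ v ∧ v ≤ ((j0:ℝ) + 1) / N := by
    rcases lt_or_eq_of_le hv.2 with h | h
    · refine ⟨⌊v * N⌋₊, ?_, ?_, ?_⟩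
      · rw [Nat.floor_lt (mul_nonneg hv.1 hN0.le)]
        nlinarith
      · rw [div_le_iff₀ hN0]
        exact Nat.floor_le (mul_nonneg hv.1 hN0.le)
      · rw [le_div_iff₀ hN0]
        exact (Nat.lt_floor_add_one _).le
    · refine ⟨N - 1, by omega, ?_, ?_⟩
      · rw [div_le_iff₀ hN0, h, one_mul]
        exact_mod_cast Nat.sub_le N 1
      · rw [h, le_div_iff₀ hN0, one_mul]
        have : ((N - 1 + 1 : ℕ) : ℝ) = N := by rw [Nat.sub_add_cancel hN]
        push_cast at this
        linarith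
  set x : ℕ → ℝ := fun i => Real.log |Y v - pt Y N s i| with hx
  have hposx : ∀ i ∈ S, 0 < |Y v - pt Y N s i| := fun i hi => abs_pos.2 (hz i hi)
  have hpm : ∀ i ∈ S, pt Y N s i ∈ Set.Icc (0:ℝ) 1 := fun i hi =>
    b1_pt_mem hY hs (Finset.mem_range.1 (hS hi))
  have hcomb := b4_comb hj0 J x hL0 hJlow S hS
    (by
      intro i hi
      apply Real.log_nonpos (abs_nonneg _)
      have h1 := hpm i hi
      rw [abs_le]
      constructor <;> linarith [ht.1, ht.2, h1.1, h1.2])
    (by
      intro i hi h1 h2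
      have h2' : ((i:ℝ) + 1) ≤ j0 := by exact_mod_cast h2
      have hw : ((i:ℝ) + 1 - s) / N ≤ v := by
        refine le_trans ?_ hj1
        apply div_le_div_of_nonneg_right _ hN0.le
        linarith [hs.1]
      have key := b4_int hY (v := v) (p := pt Y N s i) (a := ((i - 1 : ℕ) : ℝ) / N) (b := (((i - 1) + 1 : ℕ) : ℝ) / N)
        (by apply div_le_div_of_nonneg_right _ hN0.le; push_cast; linarith)
        (fun h => hz i hi (by rw [h, sub_self]))
        (by
          intro u hu
          have hu2 : u ≤ ((i:ℝ) + 1 - s) / N := by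
            refine hu.2.trans ?_
            apply div_le_div_of_nonneg_right _ hN0.le
            rw [Nat.sub_add_cancel h1]
            linarith [hs.2]
          have h5 : Y u ≤ pt Y N s i := hmono.monotone hu2
          have h6 : pt Y N s i ≤ Y v := hmono.monotone hw
          rw [abs_of_nonneg (by linarith), abs_of_nonneg (by linarith)]
          linarith)
      have h7 : (((i - 1) + 1 : ℕ) : ℝ) / N - ((i - 1 : ℕ) : ℝ) / N = 1 / N := by
        push_cast; ring
      rw [h7] at key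
      have h8 := mul_le_mul_of_nonneg_left key hN0.le
      rw [← mul_assoc, mul_one_div_cancel hN0.ne', one_mul] at h8
      exact h8)
    (by
      intro i hi h1 h2
      have h1' : ((j0:ℝ) + 1) ≤ i := by exact_mod_cast h1
      have hw : v ≤ ((i:ℝ) + 1 - s) / N := by
        refine le_trans hj2 ?_
        apply div_le_div_of_nonneg_right _ hN0.le
        linarith [hs.2]
      have key := b4_int hY (v := v) (p := pt Y N s i) (a := ((i + 1 : ℕ) : ℝ) / N) (b := (((i + 1) + 1 : ℕ) : ℝ) / N)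
        (by apply div_le_div_of_nonneg_right _ hN0.le; push_cast; linarith)
        (fun h => hz i hi (by rw [h, sub_self]))
        (by
          intro u hu
          have hu2 : ((i:ℝ) + 1 - s) / N ≤ u := by
            refine le_trans ?_ hu.1
            apply div_le_div_of_nonneg_right _ hN0.le
            push_cast
            linarith [hs.1]
          have h5 : pt Y N s i ≤ Y u := hmono.monotone hu2
          have h6 : Y v ≤ pt Y N s i := hmono.monotone hw
          rw [abs_of_nonpos (by linarith), abs_of_nonpos (by linarith)]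
          linarith)
      have h7 : (((i + 1) + 1 : ℕ) : ℝ) / N - ((i + 1 : ℕ) : ℝ) / N = 1 / N := by
        push_cast; ring
      rw [h7] at key
      have h8 := mul_le_mul_of_nonneg_left key hN0.le
      rw [← mul_assoc, mul_one_div_cancel hN0.ne', one_mul] at h8
      exact h8)
  have hprod : ∏ i ∈ S, |Y v - pt Y N s i| = Real.exp (∑ i ∈ S, x i) := by
    rw [Real.exp_sum]
    apply Finset.prod_congr rfl
    intro i hi
    rw [hx]
    simp only
    rw [Real.exp_log (hposx i hi)]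
  rw [hprod]
  refine (Real.exp_le_exp.2 hcomb).trans (le_of_eq ?_)
  have e1 : Real.exp (((3 + (N - S.card) : ℕ) : ℝ) * L) = K α N ^ (3 + (N - S.card)) := by
    rw [Real.exp_nat_mul, hL, Real.exp_log hK0]
  rw [hJsum, Real.exp_add, e1, mul_comm]

end Pool.Agent.Lib.H32P
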