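import Pool.Agent.Lib.H32P.B4

/-!
# Chunk B4b (S/M): the polynomials `mA`, `mh` at quantile points

`mA` at `t` is `∏_{a<r} (t - pt Y r s a)`: for `r ≥ 1` use `b4_prod_le` with `S = range r` (exponent `3`) and `K α r ≤ K α m` (`b1_K_mono`); for `r = 0` the value is `1`
and `1 ≤ (K α m)^3` (`b1_K`), `exp 0 = 1`. `mh` at `t` is the product over `S = (range k).erase i` (exponent `4`).
`Finset.prod_range`/`Fin.prod_univ_eq_prod_range` translate between `Fin k` and `range k`.
-/

namespace Pool.Agent.Lib.H32P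

open Polynomial MeasureTheory

variable {Y : ℝ → ℝ} {α : ℝ}

theorem b4b_mA (hY : Quant Y α) {r m : ℕ} (hm : 1 ≤ m) (hr : r ≤ m) {s : ℝ} (hs : s ∈ Set.Icc (0:ℝ) 1)
    {t : ℝ} (ht : t ∈ Set.Icc (0:ℝ) 1) :
    |(mA (fun a : Fin r => pt Y r s a)).eval t| ≤ K α m ^ 3 * Real.exp (r * U Y t) := by
  have hK1 : 1 ≤ K α m := b1_K hY hm
  rcases Nat.eq_zero_or_pos r with h0 | h0
  · subst h0
    have h1 : 1 ≤ K α m ^ 3 := one_le_pow₀ hK1
    simpa [mA] using h1
  · have h1 := b4_prod_le hY h0 hs ht (Finset.range r) (Finset.Subset.refl _)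
    rw [Finset.card_range, Nat.sub_self, Nat.add_zero] at h1
    have h2 : |(mA (fun a : Fin r => pt Y r s a)).eval t| = ∏ i ∈ Finset.range r, |t - pt Y r s i| := by
      rw [mA, eval_prod, Finset.abs_prod, ← Fin.prod_univ_eq_prod_range (fun i => |t - pt Y r s i|) r]
      simp
    rw [h2]
    refine h1.trans ?_
    apply mul_le_mul_of_nonneg_right _ (Real.exp_pos _).le
    exact pow_le_pow_left₀ (b1_K_nonneg hY r) (b1_K_mono hY hr) 3

theorem b4b_mh (hY : Quant Y α) {k m : ℕ} (hk : k ≤ m) {s : ℝ} (hs : s ∈ Set.Icc (0:ℝ) 1)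
    {t : ℝ} (ht : t ∈ Set.Icc (0:ℝ) 1) (i : Fin k) :
    |(mh (fun a : Fin k => pt Y k s a) i).eval t| ≤ K α m ^ 4 * Real.exp (k * U Y t) := by
  have hk1 : 1 ≤ k := by have := i.2; omega
  have h1 := b4_prod_le hY hk1 hs ht ((Finset.range k).erase i) (Finset.erase_subset _ _)
  rw [Finset.card_erase_of_mem (Finset.mem_range.2 i.2), Finset.card_range,
    show 3 + (k - (k - 1)) = 4 by omega] at h1
  have h2 : |(mh (fun a : Fin k => pt Y k s a) i).eval t| =
      ∏ j ∈ (Finset.range k).erase (i : ℕ), |t - pt Y k s j| := by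
    rw [mh, eval_prod, Finset.abs_prod]
    have h3 : (Finset.range k).erase (i : ℕ) = (Finset.univ.erase i).map Fin.valEmbedding := by
      ext j
      simp only [Finset.mem_erase, Finset.mem_range, Finset.mem_map, Finset.mem_univ, and_true,
        Fin.valEmbedding_apply]
      constructor
      · rintro ⟨h4, h5⟩
        exact ⟨⟨j, h5⟩, fun h => h4 (by rw [← h]), rfl⟩
      · rintro ⟨a, h4, rfl⟩
        exact ⟨fun h => h4 (Fin.ext h), a.2⟩
    rw [h3, Finset.prod_map]
    apply Finset.prod_congr rfl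
    intro j _
    simp
  rw [h2]
  refine h1.trans ?_
  apply mul_le_mul_of_nonneg_right _ (Real.exp_pos _).le
  exact pow_le_pow_left₀ (b1_K_nonneg hY k) (b1_K_mono hY hk) 4

end Pool.Agent.Lib.H32P
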