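import Pool.Agent.Lib.H32P.B2

/-!
# Chunk B5 (M): lower bound for the product of the distances between quantile points

Let `w_j = (j + 1 - s)/N`, `p_j = Y w_j`. For `j < i` and `u ∈ [w_j, w_{j+1}]` (`w_{j+1} ≤ w_i`): `|p_i - Y u| ≤ |p_i - p_j|`, so
`log |p_i - p_j| ≥ N ∫_{w_j}^{w_{j+1}} log |p_i - Y u| du`. For `j > i` and `u ∈ [w_{j-1}, w_j]`: the same. Summing, `∑_{j≠i} log |p_i - p_j| ≥ N ∫_{w_0}^{w_{N-1}} log |p_i - Y u| du ≥ N U(p_i)`
since `0 ≤ w_0`, `w_{N-1} ≤ 1` and the integrand is `≤ 0` on `[0,1]`. (`log` is monotone except that Lean's `log 0 = 0`; `u` with `Y u = p_i` is the single point `u = w_i`, an endpoint.)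
Exponentiate (`p_i ≠ p_j` by `b1_pt_ne`). Integrability `b2_int`, sum of adjacent integrals `intervalIntegral.sum_integral_adjacent_intervals`.
-/

namespace Pool.Agent.Lib.H32P

open Polynomial MeasureTheory

variable {Y : ℝ → ℝ} {α : ℝ}

/-- to the left of `v` the distance at the left endpoint dominates. -/
theorem b5_left (hY : Quant Y α) {v a b : ℝ} (hab : a < b) (hb : b ≤ v) :
    ∫ u in a..b, Real.log |Y v - Y u| ≤ (b - a) * Real.log |Y v - Y a| := by
  have h1 : ∫ u in a..b, Real.log |Y v - Y u| ≤ ∫ u in a..b, Real.log |Y v - Y a| := by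
    apply intervalIntegral.integral_mono_on_of_le_Ioo hab.le (b2_int hY v a b) (by simp)
    intro u hu
    have h2 : Y u < Y v := b1_strictMono hY (lt_of_lt_of_le hu.2 hb)
    have h3 : Y a < Y u := b1_strictMono hY hu.1
    rw [abs_of_pos (by linarith), abs_of_pos (by linarith)]
    exact Real.log_le_log (by linarith) (by linarith)
  rw [intervalIntegral.integral_const, smul_eq_mul] at h1
  exact h1

/-- to the right of `v` the distance at the right endpoint dominates. -/
theorem b5_right (hY : Quant Y α) {v a b : ℝ} (hab : a < b) (ha : v ≤ a) :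
    ∫ u in a..b, Real.log |Y v - Y u| ≤ (b - a) * Real.log |Y v - Y b| := by
  have h1 : ∫ u in a..b, Real.log |Y v - Y u| ≤ ∫ u in a..b, Real.log |Y v - Y b| := by
    apply intervalIntegral.integral_mono_on_of_le_Ioo hab.le (b2_int hY v a b) (by simp)
    intro u hu
    have h2 : Y v < Y u := b1_strictMono hY (lt_of_le_of_lt ha hu.1)
    have h3 : Y u < Y b := b1_strictMono hY hu.2
    rw [abs_of_neg (by linarith), abs_of_neg (by linarith)]
    exact Real.log_le_log (by linarith) (by linarith)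
  rw [intervalIntegral.integral_const, smul_eq_mul] at h1
  exact h1

theorem b5_leftprod (hY : Quant Y α) {v : ℝ} {N : ℕ} (hN : 1 ≤ N) (c : ℕ → ℝ) (hc : ∀ k, c (k + 1) - c k = 1 / N) (m : ℕ)
    (hm : c m ≤ v) :
    Real.exp (N * ∫ u in (c 0)..(c m), Real.log |Y v - Y u|) ≤ ∏ i ∈ Finset.range m, |Y v - Y (c i)| := by
  have hN' : (0:ℝ) < N := by exact_mod_cast hN
  induction m with
  | zero => simp
  | succ m ih =>
    have h1 := hc m
    have hpos : (0:ℝ) < 1 / N := by positivity
    have hlt : c m < c (m + 1) := by linarith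
    have h2 := ih (by linarith)
    rw [Finset.prod_range_succ, ← intervalIntegral.integral_add_adjacent_intervals (b2_int hY v (c 0) (c m)) (b2_int hY v (c m) (c (m + 1))),
      mul_add, Real.exp_add]
    apply mul_le_mul h2 _ (Real.exp_pos _).le (Finset.prod_nonneg (fun _ _ => abs_nonneg _))
    have h3 := b5_left hY hlt hm
    rw [h1] at h3
    have h4 : Y (c m) < Y v := b1_strictMono hY (by linarith)
    have h5 : 0 < |Y v - Y (c m)| := abs_pos.mpr (by linarith)
    rw [← Real.le_log_iff_exp_le h5]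
    calc (N:ℝ) * ∫ u in (c m)..(c (m + 1)), Real.log |Y v - Y u| ≤ N * (1 / N * Real.log |Y v - Y (c m)|) :=
          mul_le_mul_of_nonneg_left h3 hN'.le
      _ = _ := by field_simp

theorem b5_rightprod (hY : Quant Y α) {v : ℝ} {N : ℕ} (hN : 1 ≤ N) (c : ℕ → ℝ) (hc : ∀ k, c (k + 1) - c k = 1 / N) (m : ℕ)
    (hm : v ≤ c 0) :
    Real.exp (N * ∫ u in (c 0)..(c m), Real.log |Y v - Y u|) ≤ ∏ i ∈ Finset.range m, |Y v - Y (c (i + 1))| := by
  have hN' : (0:ℝ) < N := by exact_mod_cast hN
  have hpos : (0:ℝ) < 1 / N := by positivity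
  have hmono : ∀ k, c 0 ≤ c k := by
    intro k
    induction k with
    | zero => exact le_refl _
    | succ k ih => have := hc k; linarith
  induction m with
  | zero => simp
  | succ m ih =>
    have h1 := hc m
    have hlt : c m < c (m + 1) := by linarith
    rw [Finset.prod_range_succ, ← intervalIntegral.integral_add_adjacent_intervals (b2_int hY v (c 0) (c m)) (b2_int hY v (c m) (c (m + 1))),
      mul_add, Real.exp_add]
    apply mul_le_mul ih _ (Real.exp_pos _).le (Finset.prod_nonneg (fun _ _ => abs_nonneg _))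
    have h3 := b5_right hY hlt (hm.trans (hmono m))
    rw [h1] at h3
    have h4 : Y v < Y (c (m + 1)) := b1_strictMono hY (by have := hmono m; linarith)
    have h5 : 0 < |Y v - Y (c (m + 1))| := abs_pos.mpr (by linarith)
    rw [← Real.le_log_iff_exp_le h5]
    calc (N:ℝ) * ∫ u in (c m)..(c (m + 1)), Real.log |Y v - Y u| ≤ N * (1 / N * Real.log |Y v - Y (c (m + 1))|) :=
          mul_le_mul_of_nonneg_left h3 hN'.le
      _ = _ := by field_simp

/-- integrals over subintervals of `[0,1]` are nonpositive. -/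
theorem b5_nonpos (hY : Quant Y α) {v a b : ℝ} (hv : v ∈ Set.Icc (0:ℝ) 1) (h0 : 0 ≤ a) (hab : a ≤ b) (h1 : b ≤ 1) :
    ∫ u in a..b, Real.log |Y v - Y u| ≤ 0 := by
  have h : 0 ≤ ∫ u in a..b, - Real.log |Y v - Y u| := by
    apply intervalIntegral.integral_nonneg hab
    intro u hu
    have h2 := b1_mem hY (u := u) ⟨h0.trans hu.1, hu.2.trans h1⟩
    have ht := b1_mem hY hv
    have h3 : |Y v - Y u| ≤ 1 := by
      rw [abs_le]
      constructor <;> linarith [h2.1, h2.2, ht.1, ht.2]
    have := Real.log_nonpos (abs_nonneg _) h3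
    linarith
  rw [intervalIntegral.integral_neg] at h
  linarith

theorem b5_prod_ge (hY : Quant Y α) {N : ℕ} {s : ℝ} (hs : s ∈ Set.Icc (0:ℝ) 1) {i : ℕ} (hi : i < N) :
    Real.exp (N * U Y (pt Y N s i)) ≤ ∏ j ∈ (Finset.range N).erase i, |pt Y N s i - pt Y N s j| := by
  have hN : 1 ≤ N := by omega
  have hN' : (0:ℝ) < N := by exact_mod_cast hN
  set w : ℕ → ℝ := fun j => ((j : ℝ) + 1 - s) / N with hw
  have hwstep : ∀ k, w (k + 1) - w k = 1 / N := by
    intro k
    simp only [hw]
    push_cast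
    field_simp
    ring
  have hpt : ∀ j, pt Y N s j = Y (w j) := fun j => rfl
  have hw0 : ∀ k, 0 ≤ w k := by
    intro k
    simp only [hw]
    apply div_nonneg _ hN'.le
    have : (0:ℝ) ≤ k := Nat.cast_nonneg k
    linarith [hs.2]
  have hw1 : ∀ k, k < N → w k ≤ 1 := by
    intro k hk
    simp only [hw]
    rw [div_le_one hN']
    have : ((k:ℝ) + 1) ≤ N := by exact_mod_cast hk
    linarith [hs.1]
  have hwmono : ∀ a b, a ≤ b → w a ≤ w b := by
    intro a b hab
    simp only [hw]
    have : (a:ℝ) ≤ b := by exact_mod_cast hab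
    gcongr
  have hsplit : (Finset.range N).erase i = Finset.range i ∪ Finset.Ico (i + 1) N := by
    ext j
    simp only [Finset.mem_erase, Finset.mem_range, Finset.mem_union, Finset.mem_Ico]
    omega
  have hdisj : Disjoint (Finset.range i) (Finset.Ico (i + 1) N) := by
    rw [Finset.disjoint_left]
    intro j h1 h2
    simp only [Finset.mem_range, Finset.mem_Ico] at h1 h2
    omega
  rw [hsplit, Finset.prod_union hdisj, Finset.prod_Ico_eq_prod_range]
  have hL := b5_leftprod hY (v := w i) hN w hwstep i le_rfl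
  have hR := b5_rightprod hY (v := w i) hN (fun k => w (i + k)) (fun k => hwstep (i + k)) (N - (i + 1)) (by simp)
  simp only [add_zero] at hR
  have hidx : i + (N - (i + 1)) = N - 1 := by omega
  rw [hidx] at hR
  have hU : U Y (pt Y N s i) ≤ (∫ u in (w 0)..(w i), Real.log |Y (w i) - Y u|) + ∫ u in (w i)..(w (N - 1)), Real.log |Y (w i) - Y u| := by
    have e1 : U Y (pt Y N s i) = (∫ u in (0:ℝ)..(w 0), Real.log |Y (w i) - Y u|) +
        ((∫ u in (w 0)..(w i), Real.log |Y (w i) - Y u|) + ((∫ u in (w i)..(w (N - 1)), Real.log |Y (w i) - Y u|) +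
        ∫ u in (w (N - 1))..(1:ℝ), Real.log |Y (w i) - Y u|)) := by
      rw [intervalIntegral.integral_add_adjacent_intervals (b2_int hY _ _ _) (b2_int hY _ _ _),
        intervalIntegral.integral_add_adjacent_intervals (b2_int hY _ _ _) (b2_int hY _ _ _),
        intervalIntegral.integral_add_adjacent_intervals (b2_int hY _ _ _) (b2_int hY _ _ _)]
      rfl
    have hwi : w i ∈ Set.Icc (0:ℝ) 1 := ⟨hw0 i, hw1 i hi⟩
    have e2 := b5_nonpos hY hwi le_rfl (hw0 0) (hw1 0 (by omega))
    have e3 := b5_nonpos hY hwi (hw0 (N - 1)) (hw1 (N - 1) (by omega)) le_rfl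
    rw [e1]
    linarith
  calc Real.exp (N * U Y (pt Y N s i)) ≤ Real.exp (N * ∫ u in (w 0)..(w i), Real.log |Y (w i) - Y u|) *
        Real.exp (N * ∫ u in (w i)..(w (N - 1)), Real.log |Y (w i) - Y u|) := by
        rw [← Real.exp_add, ← mul_add]
        exact Real.exp_le_exp.mpr (mul_le_mul_of_nonneg_left hU hN'.le)
    _ ≤ _ := by
        apply mul_le_mul hL _ (Real.exp_pos _).le (Finset.prod_nonneg (fun _ _ => abs_nonneg _))
        refine hR.trans (le_of_eq ?_)
        apply Finset.prod_congr rfl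
        intro k _
        have : i + (k + 1) = i + 1 + k := by ring
        rw [this]
        rfl

end Pool.Agent.Lib.H32P
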