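import Pool.Agent.Lib.H32P.B5

/-!
# Chunk B6 (M): the polynomial with zeros at the midpoint quantiles is large at the quantiles `Y (j/n)`

`p_i = pt Y n (1/2) i = Y ((i + 1/2)/n)`, `e = Y (j/n)`, `0 ≤ j ≤ n`. For `i + 1 < j` (left side, not adjacent) and `u ∈ [(i + 1/2)/n, (i + 3/2)/n]` (`≤ j/n`):
`|e - Y u| ≤ |e - p_i|`, so `log |e - p_i| ≥ n ∫_{(i+1/2)/n}^{(i+3/2)/n} log |e - Y u| du`; here `(i+3/2)/n ≤ (j - 1/2)/n`. For `i > j` and `u ∈ [(i - 1/2)/n, (i + 1/2)/n]` (`≥ j/n`): the same. The (at most two)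
adjacent points `i = j - 1`, `i = j` have `|e - p_i| ≥ α/(2n)` (`b1_abs`). The intervals used are disjoint and contained in `[0,1]`, where `log |e - Y u| ≤ 0`, so the sum is `≥ n U(e)`; in total
`∏ ≥ (α/(2n))^2 exp (n U(e))` (if only one adjacent point exists use `α/(2n) ≤ 1`).
-/

namespace Pool.Agent.Lib.H32P

open Polynomial MeasureTheory

variable {Y : ℝ → ℝ} {α : ℝ}

theorem b6_left (hY : Quant Y α) {n : ℕ} (hn : 1 ≤ n) {j : ℕ} (hj : j ≤ n) :
    (α / (2 * n)) * Real.exp (n * ∫ u in (0:ℝ)..((j : ℝ) / n), Real.log |Y ((j : ℝ) / n) - Y u|) ≤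
      ∏ i ∈ Finset.range j, |Y ((j : ℝ) / n) - pt Y n (1 / 2) i| := by
  have hn' : (1:ℝ) ≤ n := by exact_mod_cast hn
  have hn0 : (0:ℝ) < n := by linarith
  have hα := hY.pos
  have hα1 := b1_alpha hY
  rcases j with _ | m
  · simp
    rw [div_le_one (by positivity)]
    linarith
  · set c : ℕ → ℝ := fun k => ((k : ℝ) + 1 - 1 / 2) / n with hc
    set v : ℝ := ((m + 1 : ℕ) : ℝ) / n with hv
    have hstep : ∀ k, c (k + 1) - c k = 1 / n := by
      intro k
      simp only [hc]
      push_cast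
      field_simp
      ring
    have hcm : c m ≤ v := by
      simp only [hc, hv]
      push_cast
      gcongr
      linarith
    have h1 := b5_leftprod hY hn c hstep m hcm
    have hv1 : v ≤ 1 := by
      rw [hv, div_le_one hn0]
      exact_mod_cast hj
    have hv0 : 0 ≤ v := by positivity
    have hc0 : 0 ≤ c 0 := by
      simp only [hc]
      push_cast
      apply div_nonneg _ hn0.le
      norm_num
    have hc0m : c 0 ≤ c m := by
      simp only [hc]
      push_cast
      gcongr
      positivity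
    have e1 : (∫ u in (0:ℝ)..v, Real.log |Y v - Y u|) = (∫ u in (0:ℝ)..(c 0), Real.log |Y v - Y u|) +
        ((∫ u in (c 0)..(c m), Real.log |Y v - Y u|) + ∫ u in (c m)..v, Real.log |Y v - Y u|) := by
      rw [intervalIntegral.integral_add_adjacent_intervals (b2_int hY _ _ _) (b2_int hY _ _ _),
        intervalIntegral.integral_add_adjacent_intervals (b2_int hY _ _ _) (b2_int hY _ _ _)]
    have e2 := b5_nonpos hY (v := v) ⟨hv0, hv1⟩ le_rfl hc0 (hc0m.trans (hcm.trans hv1))
    have e3 := b5_nonpos hY (v := v) ⟨hv0, hv1⟩ (hc0.trans hc0m) hcm hv1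
    have h2 : Real.exp (n * ∫ u in (0:ℝ)..v, Real.log |Y v - Y u|) ≤ Real.exp (n * ∫ u in (c 0)..(c m), Real.log |Y v - Y u|) := by
      apply Real.exp_le_exp.mpr
      apply mul_le_mul_of_nonneg_left _ hn0.le
      linarith
    have h3 : α / (2 * n) ≤ |Y v - Y (c m)| := by
      have := b1_abs hY (c m) v
      have h4 : |v - c m| = 1 / (2 * n) := by
        have : v - c m = 1 / (2 * n) := by
          simp only [hc, hv]
          push_cast
          field_simp
          ring
        rw [this, abs_of_pos (by positivity)]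
      rw [h4] at this
      calc α / (2 * n) = α * (1 / (2 * n)) := by ring
        _ ≤ _ := this
    rw [Finset.prod_range_succ, mul_comm]
    exact mul_le_mul (h2.trans h1) h3 (by positivity) (Finset.prod_nonneg (fun _ _ => abs_nonneg _))

theorem b6_right (hY : Quant Y α) {n : ℕ} (hn : 1 ≤ n) {j : ℕ} (hj : j ≤ n) :
    (α / (2 * n)) * Real.exp (n * ∫ u in ((j : ℝ) / n)..1, Real.log |Y ((j : ℝ) / n) - Y u|) ≤
      ∏ i ∈ Finset.range (n - j), |Y ((j : ℝ) / n) - pt Y n (1 / 2) (j + i)| := by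
  have hn' : (1:ℝ) ≤ n := by exact_mod_cast hn
  have hn0 : (0:ℝ) < n := by linarith
  have hα := hY.pos
  have hα1 := b1_alpha hY
  rcases Nat.eq_zero_or_pos (n - j) with h0 | hpos
  · have hjn : j = n := by omega
    rw [h0, hjn, div_self hn0.ne']
    simp
    rw [div_le_one (by positivity)]
    linarith
  · obtain ⟨m, hm⟩ : ∃ m, n - j = m + 1 := ⟨n - j - 1, by omega⟩
    rw [hm]
    set c : ℕ → ℝ := fun k => (((j + k : ℕ) : ℝ) + 1 - 1 / 2) / n with hc
    set v : ℝ := (j : ℝ) / n with hv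
    have hstep : ∀ k, c (k + 1) - c k = 1 / n := by
      intro k
      simp only [hc]
      push_cast
      field_simp
      ring
    have hcm : v ≤ c 0 := by
      simp only [hc, hv]
      push_cast
      gcongr
      linarith
    have h1 := b5_rightprod hY hn c hstep m hcm
    have hv1 : v ≤ 1 := by
      rw [hv, div_le_one hn0]
      exact_mod_cast hj
    have hv0 : 0 ≤ v := by positivity
    have hc0m : c 0 ≤ c m := by
      simp only [hc]
      push_cast
      gcongr
      simp
    have hcm1 : c m ≤ 1 := by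
      simp only [hc]
      rw [div_le_one hn0]
      have : ((j + m : ℕ) : ℝ) + 1 = n := by
        have : j + m + 1 = n := by omega
        exact_mod_cast this
      linarith
    have e1 : (∫ u in v..(1:ℝ), Real.log |Y v - Y u|) = (∫ u in v..(c 0), Real.log |Y v - Y u|) +
        ((∫ u in (c 0)..(c m), Real.log |Y v - Y u|) + ∫ u in (c m)..(1:ℝ), Real.log |Y v - Y u|) := by
      rw [intervalIntegral.integral_add_adjacent_intervals (b2_int hY _ _ _) (b2_int hY _ _ _),
        intervalIntegral.integral_add_adjacent_intervals (b2_int hY _ _ _) (b2_int hY _ _ _)]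
    have e2 := b5_nonpos hY (v := v) ⟨hv0, hv1⟩ hv0 hcm (hc0m.trans hcm1)
    have e3 := b5_nonpos hY (v := v) ⟨hv0, hv1⟩ (hv0.trans (hcm.trans hc0m)) hcm1 le_rfl
    have h2 : Real.exp (n * ∫ u in v..(1:ℝ), Real.log |Y v - Y u|) ≤ Real.exp (n * ∫ u in (c 0)..(c m), Real.log |Y v - Y u|) := by
      apply Real.exp_le_exp.mpr
      apply mul_le_mul_of_nonneg_left _ hn0.le
      linarith
    have h3 : α / (2 * n) ≤ |Y v - Y (c 0)| := by
      have := b1_abs hY (c 0) v
      have h4 : |v - c 0| = 1 / (2 * n) := by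
        have : v - c 0 = -(1 / (2 * n)) := by
          simp only [hc, hv]
          push_cast
          field_simp
          ring
        rw [this, abs_neg, abs_of_pos (by positivity)]
      rw [h4] at this
      calc α / (2 * n) = α * (1 / (2 * n)) := by ring
        _ ≤ _ := this
    rw [Finset.prod_range_succ', mul_comm]
    exact mul_le_mul (h2.trans h1) h3 (by positivity) (Finset.prod_nonneg (fun _ _ => abs_nonneg _))

theorem b6_prod_ge (hY : Quant Y α) {n : ℕ} (hn : 1 ≤ n) {j : ℕ} (hj : j ≤ n) :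
    (α / (2 * n)) ^ 2 * Real.exp (n * U Y (Y ((j : ℝ) / n))) ≤
      ∏ i ∈ Finset.range n, |Y ((j : ℝ) / n) - pt Y n (1 / 2) i| := by
  have hn0 : (0:ℝ) < n := by exact_mod_cast hn
  have hα := hY.pos
  have h1 := b6_left hY hn hj
  have h2 := b6_right hY hn hj
  have h3 : ∏ i ∈ Finset.range n, |Y ((j : ℝ) / n) - pt Y n (1 / 2) i| =
      (∏ i ∈ Finset.range j, |Y ((j : ℝ) / n) - pt Y n (1 / 2) i|) *
        ∏ i ∈ Finset.range (n - j), |Y ((j : ℝ) / n) - pt Y n (1 / 2) (j + i)| := by
    rw [← Finset.prod_range_add]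
    congr 2
    omega
  have h4 : U Y (Y ((j : ℝ) / n)) = (∫ u in (0:ℝ)..((j : ℝ) / n), Real.log |Y ((j : ℝ) / n) - Y u|) +
      ∫ u in ((j : ℝ) / n)..1, Real.log |Y ((j : ℝ) / n) - Y u| := by
    rw [intervalIntegral.integral_add_adjacent_intervals (b2_int hY _ _ _) (b2_int hY _ _ _)]
    rfl
  rw [h3, h4, mul_add, Real.exp_add]
  calc _ = ((α / (2 * n)) * Real.exp (n * ∫ u in (0:ℝ)..((j : ℝ) / n), Real.log |Y ((j : ℝ) / n) - Y u|)) *
        ((α / (2 * n)) * Real.exp (n * ∫ u in ((j : ℝ) / n)..1, Real.log |Y ((j : ℝ) / n) - Y u|)) := by ring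
    _ ≤ _ := mul_le_mul h1 h2 (by positivity) (Finset.prod_nonneg (fun _ _ => abs_nonneg _))

end Pool.Agent.Lib.H32P
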