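import Pool.Agent.Lib.H32P.B2

/-!
# Chunk B7 (M): bounds and measurability of the potential

`b7_nonpos`: `|t - Y u| ≤ 1` for `t, Y u ∈ [0,1]`. `b7_lower`: `t = Y v` (`b1_surj`), `b2_lower` with `p = 0`, `h = 1`.
`b7_exp`: `exp (- U) ≤ 2e/α = K α 1 ≤ K α N`. `b7_int`: `u ↦ U Y (Y u)` is measurable
(`(u, w) ↦ log |Y u - Y w|` is measurable; `MeasureTheory.StronglyMeasurable.integral_prod_right`) and bounded on `[0,1]` by `b7_nonpos`, `b7_lower`.
-/

namespace Pool.Agent.Lib.H32P

open Polynomial MeasureTheory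

variable {Y : ℝ → ℝ} {α : ℝ}

theorem b7_nonpos (hY : Quant Y α) {t : ℝ} (ht : t ∈ Set.Icc (0:ℝ) 1) : U Y t ≤ 0 := by
  have h : 0 ≤ ∫ u in (0:ℝ)..1, - Real.log |t - Y u| := by
    apply intervalIntegral.integral_nonneg (by norm_num)
    intro u hu
    have h1 := b1_mem hY hu
    have h2 : |t - Y u| ≤ 1 := by
      rw [abs_le]
      constructor <;> linarith [h1.1, h1.2, ht.1, ht.2]
    have := Real.log_nonpos (abs_nonneg _) h2
    linarith
  rw [intervalIntegral.integral_neg] at h
  unfold U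
  linarith

theorem b7_lower (hY : Quant Y α) {t : ℝ} (ht : t ∈ Set.Icc (0:ℝ) 1) : Real.log (α / 2) - 1 ≤ U Y t := by
  obtain ⟨v, _, rfl⟩ := b1_surj hY ht
  have h := b2_lower hY v 0 (h := 1) (by norm_num)
  simp only [one_mul, mul_one, zero_add] at h
  exact h

theorem b7_exp (hY : Quant Y α) {t : ℝ} (ht : t ∈ Set.Icc (0:ℝ) 1) {N : ℕ} (hN : 1 ≤ N) :
    Real.exp (-U Y t) ≤ K α N := by
  have h := b7_lower hY ht
  have hα := hY.pos
  have h1 : Real.exp (-U Y t) ≤ Real.exp (1 - Real.log (α / 2)) := Real.exp_le_exp.mpr (by linarith)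
  refine h1.trans ?_
  rw [Real.exp_sub, Real.exp_log (by positivity)]
  unfold K
  have hN' : (1:ℝ) ≤ N := by exact_mod_cast hN
  have he := Real.exp_pos 1
  rw [div_le_div_iff₀ (by positivity) hα]
  have : Real.exp 1 * α ≤ Real.exp 1 * α * N := le_mul_of_one_le_right (by positivity) hN'
  nlinarith

theorem b7_int (hY : Quant Y α) : IntervalIntegrable (fun u => U Y (Y u)) volume 0 1 := by
  have hm : StronglyMeasurable (fun u => U Y (Y u)) := by
    have h1 : StronglyMeasurable (Function.uncurry (fun u w : ℝ => Real.log |Y u - Y w|)) := by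
      apply Measurable.stronglyMeasurable
      apply Real.measurable_log.comp
      apply Continuous.measurable
      exact ((hY.cont.comp continuous_fst).sub (hY.cont.comp continuous_snd)).abs
    have h2 := h1.integral_prod_right (ν := volume.restrict (Set.Ioc (0:ℝ) 1))
    have h3 : (fun u => U Y (Y u)) = fun u => ∫ w, Real.log |Y u - Y w| ∂(volume.restrict (Set.Ioc (0:ℝ) 1)) := by
      funext u
      unfold U
      rw [intervalIntegral.integral_of_le (by norm_num)]
    rw [h3]
    exact h2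
  rw [intervalIntegrable_iff_integrableOn_Ioc_of_le (by norm_num)]
  apply Measure.integrableOn_of_bounded (M := |Real.log (α / 2) - 1|) (by simp) hm.aestronglyMeasurable
  rw [ae_restrict_iff' measurableSet_Ioc]
  refine Filter.Eventually.of_forall (fun u hu => ?_)
  have h1 := b1_mem hY (Set.Ioc_subset_Icc_self hu)
  have h2 := b7_nonpos hY h1
  have h3 := b7_lower hY h1
  rw [Real.norm_eq_abs, abs_of_nonpos h2]
  calc -U Y (Y u) ≤ -(Real.log (α / 2) - 1) := by linarith
    _ ≤ _ := neg_le_abs _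

end Pool.Agent.Lib.H32P
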