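import Pool.Agent.Lib.H32P.Defs

/-!
# Chunk B8 (M): averages over the shift `s`

`∫_0^1 g((i + 1 - s)/N) ds = N ∫_{i/N}^{(i+1)/N} g(u) du` (`intervalIntegral.integral_comp_sub_div` or similar), so the average over `s ∈ [0,1]` of
`∑_{i<N} g((i + 1 - s)/N)` is `N ∫_0^1 g`. Then `exists_notMem_null_integral_le` (in `Mathlib.MeasureTheory.Integral.Average`) for the probability measure
`volume.restrict (Ioc 0 1)` (the null set: `Z ∪ (Ioc 0 1)ᶜ`).
-/

namespace Pool.Agent.Lib.H32P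

open MeasureTheory

theorem b8_int {g : ℝ → ℝ} (hg : IntervalIntegrable g volume 0 1) {N i : ℕ} (hi : i < N) :
    IntervalIntegrable (fun s => g (((i : ℝ) + 1 - s) / N)) volume 0 1 := by
  have hN : (0:ℝ) < N := by exact_mod_cast (Nat.zero_le i).trans_lt hi
  have hi' : (i : ℝ) + 1 ≤ N := by exact_mod_cast hi
  have h0 : (0:ℝ) ≤ (i:ℝ) / N := by positivity
  have h1 : (i:ℝ) / N ≤ ((i:ℝ) + 1) / N := by gcongr; linarith
  have h2 : ((i:ℝ) + 1) / N ≤ 1 := (div_le_one hN).2 hi'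
  have h3 : IntervalIntegrable g volume ((i:ℝ) / N) (((i:ℝ) + 1) / N) := by
    refine hg.mono_set ?_
    rw [Set.uIcc_of_le h1, Set.uIcc_of_le zero_le_one]
    exact Set.Icc_subset_Icc h0 h2
  have h4 := h3.comp_mul_left (c := (N:ℝ)⁻¹)
  have h5 := (h4.comp_sub_left ((i:ℝ) + 1)).symm
  have e1 : (i:ℝ) + 1 - (i:ℝ) / N / (N:ℝ)⁻¹ = 1 := by field_simp; ring
  have e2 : (i:ℝ) + 1 - ((i:ℝ) + 1) / N / (N:ℝ)⁻¹ = 0 := by field_simp; ring
  rw [e1, e2] at h5
  have e3 : (fun s => g (((i : ℝ) + 1 - s) / N)) = fun x => g ((N:ℝ)⁻¹ * ((i:ℝ) + 1 - x)) := by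
    funext x
    rw [div_eq_inv_mul]
  rw [e3]
  exact h5

theorem b8_one {g : ℝ → ℝ} {N i : ℕ} (hi : i < N) :
    ∫ s in (0:ℝ)..1, g (((i : ℝ) + 1 - s) / N) = N * ∫ u in ((i:ℝ) / N)..(((i + 1 : ℕ) : ℝ) / N), g u := by
  have hN : (0:ℝ) < N := by exact_mod_cast (Nat.zero_le i).trans_lt hi
  have h := intervalIntegral.integral_comp_sub_div (a := (0:ℝ)) (b := 1) g hN.ne' (((i:ℝ) + 1) / N)
  have e : (fun s => g (((i : ℝ) + 1 - s) / N)) = fun x => g (((i:ℝ) + 1) / N - x / N) := by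
    funext x
    rw [sub_div]
  rw [e, h, smul_eq_mul]
  have e1 : ((i:ℝ) + 1) / N - 1 / N = (i:ℝ) / N := by rw [← sub_div, add_sub_cancel_right]
  have e2 : ((i:ℝ) + 1) / N - 0 / N = ((i + 1 : ℕ) : ℝ) / N := by push_cast; ring
  rw [e1, e2]

theorem b8_avg {g : ℝ → ℝ} (hg : IntervalIntegrable g volume 0 1) (N : ℕ) {Z : Set ℝ} (hZ : volume Z = 0) :
    ∃ s ∈ Set.Icc (0:ℝ) 1, s ∉ Z ∧
      N * ∫ u in (0:ℝ)..1, g u ≤ ∑ i ∈ Finset.range N, g (((i : ℝ) + 1 - s) / N) := by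
  have hint : IntervalIntegrable (fun s => ∑ i ∈ Finset.range N, g (((i : ℝ) + 1 - s) / N)) volume 0 1 := by
    have h := IntervalIntegrable.sum (μ := volume) (a := 0) (b := 1) (Finset.range N)
      (f := fun i s => g (((i : ℝ) + 1 - s) / N)) fun i hi => b8_int hg (Finset.mem_range.1 hi)
    have e : (∑ i ∈ Finset.range N, fun s : ℝ => g (((i : ℝ) + 1 - s) / N)) =
        fun s => ∑ i ∈ Finset.range N, g (((i : ℝ) + 1 - s) / N) := by
      funext s
      rw [Finset.sum_apply]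
    rw [← e]
    exact h
  have hval : ∫ s in (0:ℝ)..1, ∑ i ∈ Finset.range N, g (((i : ℝ) + 1 - s) / N) = N * ∫ u in (0:ℝ)..1, g u := by
    rw [intervalIntegral.integral_finsetSum fun i hi => b8_int hg (Finset.mem_range.1 hi)]
    rw [Finset.sum_congr rfl fun i hi => b8_one (g := g) (Finset.mem_range.1 hi), ← Finset.mul_sum]
    rcases Nat.eq_zero_or_pos N with h0 | h0
    · rw [h0]
      simp
    have hN : (0:ℝ) < N := by exact_mod_cast h0
    congr 1
    have h := intervalIntegral.sum_integral_adjacent_intervals (f := g) (μ := volume)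
      (a := fun i : ℕ => (i:ℝ) / N) (n := N) (fun k hk => ?_)
    · rw [h]
      have e1 : ((0:ℕ):ℝ) / (N:ℝ) = 0 := by simp
      have e2 : ((N:ℕ):ℝ) / (N:ℝ) = 1 := div_self hN.ne'
      rw [e1, e2]
    · refine hg.mono_set ?_
      have hk' : ((k + 1 : ℕ):ℝ) ≤ N := by exact_mod_cast hk
      have h1 : (k:ℝ) / N ≤ ((k + 1 : ℕ):ℝ) / N := by
        gcongr
        exact Nat.le_succ k
      change Set.uIcc ((k:ℝ) / N) (((k + 1 : ℕ):ℝ) / N) ⊆ _
      rw [Set.uIcc_of_le h1, Set.uIcc_of_le zero_le_one]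
      exact Set.Icc_subset_Icc (by positivity) ((div_le_one hN).2 hk')
  have hP : IsProbabilityMeasure (volume.restrict (Set.Ioc (0:ℝ) 1)) := by
    constructor
    rw [Measure.restrict_apply_univ, Real.volume_Ioc]
    simp
  have hZ' : (volume.restrict (Set.Ioc (0:ℝ) 1)) (Z ∪ (Set.Ioc (0:ℝ) 1)ᶜ) = 0 := by
    rw [measure_union_null_iff]
    constructor
    · exact le_antisymm ((Measure.restrict_apply_le _ _).trans hZ.le) zero_le
    · rw [Measure.restrict_apply measurableSet_Ioc.compl, Set.compl_inter_self, measure_empty]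
  obtain ⟨s, hs, hle⟩ := exists_notMem_null_integral_le
    ((intervalIntegrable_iff_integrableOn_Ioc_of_le zero_le_one).1 hint) hZ'
  rw [Set.mem_union, not_or, Set.mem_compl_iff, not_not] at hs
  refine ⟨s, ⟨hs.2.1.le, hs.2.2⟩, hs.1, ?_⟩
  rw [← hval, intervalIntegral.integral_of_le zero_le_one]
  exact hle

end Pool.Agent.Lib.H32P
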