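import Pool.Agent.Lib.H32P.B5
import Pool.Agent.Lib.H32P.B7
import Pool.Agent.Lib.H32P.B8
import Pool.Agent.Lib.H32P.A5
import Pool.Agent.Lib.H32P.B1

/-!
# Chunk B8b (M): well chosen shifts

`b8b_U`: `b8_avg` for `g u = U Y (Y u)` (`b7_int`).

`b8b_node`: `s` from `b8b_U`, then `b5_prod_ge` for each `i`: the product over `i` is `≥ exp (k ∑_i U(z_i)) ≥ exp (k · k · En)`.
(`∏ j ∈ univ.erase i` over `Fin k` versus `(range k).erase i`.)

`b8b_G`: `b8_avg` for `g u = log |aeval (Y u) G|` and the null (finite) set `Z` of all `s` with `aeval (pt Y r s a) G = 0` for some `a < r` (`G` has finitely many zeros, `Y` is injective).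
Integrability of `g`: `G(Y u) = lc ∏ (Y u - z)`; simplest: `log |Y u - z|` for real `z = Y v` by `b2_int` (every real number is some `Y v`? use only `v` with `Y v = z`, otherwise, and for nonreal `z`,
the factor is bounded away from `0` on the compact interval); or use `Adm`: if `g` is not interval integrable then its integral is `0` by convention, hence the average argument needs integrability - so
prove it. For `r = 0` the claim is `1 ≤ 1`.
-/

namespace Pool.Agent.Lib.H32P

open Polynomial MeasureTheory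

variable {Y : ℝ → ℝ} {α : ℝ}

theorem b8b_U (hY : Quant Y α) (k : ℕ) :
    ∃ s ∈ Set.Icc (0:ℝ) 1, k * En Y ≤ ∑ i ∈ Finset.range k, U Y (pt Y k s i) := by
  obtain ⟨s, hs, _, h⟩ := b8_avg (b7_int hY) k (Z := ∅) measure_empty
  exact ⟨s, hs, h⟩

theorem b8b_node (hY : Quant Y α) (k : ℕ) :
    ∃ s ∈ Set.Icc (0:ℝ) 1, Real.exp (k * (k * En Y)) ≤
      ∏ i : Fin k, ∏ j ∈ Finset.univ.erase i, |pt Y k s i - pt Y k s j| := by
  obtain ⟨s, hs, h⟩ := b8b_U hY k
  refine ⟨s, hs, ?_⟩
  have h1 : ∀ i : Fin k, Real.exp (k * U Y (pt Y k s i)) ≤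
      ∏ j ∈ Finset.univ.erase i, |pt Y k s i - pt Y k s j| := by
    intro i
    refine (b5_prod_ge hY hs i.2).trans (le_of_eq ?_)
    have h3 : (Finset.range k).erase (i : ℕ) = (Finset.univ.erase i).map Fin.valEmbedding := by
      ext j
      simp only [Finset.mem_erase, Finset.mem_range, Finset.mem_map, Finset.mem_univ, and_true,
        Fin.valEmbedding_apply]
      constructor
      · rintro ⟨h4, h5⟩
        exact ⟨⟨j, h5⟩, fun h => h4 (by rw [← h]), rfl⟩
      · rintro ⟨a, h4, rfl⟩
        exact ⟨fun h => h4 (Fin.ext h), a.2⟩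
    rw [h3, Finset.prod_map]
    rfl
  have h2 : ∏ i : Fin k, Real.exp (k * U Y (pt Y k s i)) ≤
      ∏ i : Fin k, ∏ j ∈ Finset.univ.erase i, |pt Y k s i - pt Y k s j| :=
    Finset.prod_le_prod (fun i _ => (Real.exp_pos _).le) (fun i _ => h1 i)
  refine le_trans ?_ h2
  rw [← Real.exp_sum]
  apply Real.exp_le_exp.2
  rw [← Finset.mul_sum, Fin.sum_univ_eq_sum_range (fun i => U Y (pt Y k s i)) k]
  exact mul_le_mul_of_nonneg_left h (Nat.cast_nonneg k)

theorem b8b_onto (hY : Quant Y α) (x : ℝ) : ∃ v, Y v = x := by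
  have hα := hY.pos
  have hsurj : Function.Surjective Y := by
    apply hY.cont.surjective
    · rw [Filter.tendsto_atTop_atTop]
      intro b
      refine ⟨max 0 (b / α), fun a ha => ?_⟩
      have h1 := hY.lower 0 a ((le_max_left _ _).trans ha)
      rw [hY.zero] at h1
      have h2 : b / α ≤ a := (le_max_right _ _).trans ha
      rw [div_le_iff₀ hα] at h2
      linarith
    · rw [Filter.tendsto_atBot_atBot]
      intro b
      refine ⟨min 0 (b / α), fun a ha => ?_⟩
      have h1 := hY.lower a 0 (ha.trans (min_le_left _ _))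
      rw [hY.zero] at h1
      have h2 : a ≤ b / α := ha.trans (min_le_right _ _)
      rw [le_div_iff₀ hα] at h2
      linarith
  exact hsurj x

theorem b8b_lin (hY : Quant Y α) (z : ℂ) :
    IntervalIntegrable (fun u : ℝ => Real.log ‖((Y u : ℝ) : ℂ) - z‖) volume 0 1 := by
  by_cases hz : z.im = 0
  · obtain ⟨v, hv⟩ := b8b_onto hY z.re
    have h := b2_int hY v 0 1
    have h1 : (fun u : ℝ => Real.log ‖((Y u : ℝ) : ℂ) - z‖) = fun u : ℝ => Real.log |Y v - Y u| := by
      funext u
      have : ((Y u : ℝ) : ℂ) - z = ((Y u - Y v : ℝ) : ℂ) := by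
        apply Complex.ext
        · simp [hv]
        · simp [hz]
      rw [this, Complex.norm_real, Real.norm_eq_abs, abs_sub_comm]
    rw [h1]
    exact h
  · apply Continuous.intervalIntegrable
    apply Continuous.log
    · exact ((Complex.continuous_ofReal.comp hY.cont).sub continuous_const).norm
    · intro u h
      rw [norm_eq_zero] at h
      have := congrArg Complex.im h
      simp at this
      exact hz this

/-- measurable functions with integrable logarithm -/
def B8bP (g : ℝ → ℂ) : Prop :=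
  Measurable g ∧ IntervalIntegrable (fun u : ℝ => Real.log ‖g u‖) volume 0 1

theorem b8b_mul (hY : Quant Y α) (z : ℂ) {g : ℝ → ℂ} (hg : B8bP g) :
    B8bP (fun u => (((Y u : ℝ) : ℂ) - z) * g u) := by
  have hm : Measurable (fun u => (((Y u : ℝ) : ℂ) - z) * g u) :=
    ((Complex.measurable_ofReal.comp hY.cont.measurable).sub_const z).mul hg.1
  refine ⟨hm, ?_⟩
  have h1 := (b8b_lin hY z).norm.add hg.2.norm
  refine h1.mono_fun' (Real.measurable_log.comp hm.norm).aestronglyMeasurable ?_
  filter_upwards with u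
  simp only [Real.norm_eq_abs]
  rw [norm_mul]
  by_cases ha : ‖((Y u : ℝ) : ℂ) - z‖ = 0
  · rw [ha]; simp
  · by_cases hb : ‖g u‖ = 0
    · rw [hb]; simp
    · rw [Real.log_mul ha hb]
      exact abs_add_le _ _

theorem b8b_int (hY : Quant Y α) (G : ℤ[X]) (hG : G ≠ 0) :
    IntervalIntegrable (fun u => Real.log |aeval (Y u) G|) volume 0 1 := by
  set p : ℂ[X] := G.map (algebraMap ℤ ℂ) with hp
  have hsplit : p = C p.leadingCoeff * (p.roots.map fun z => X - C z).prod :=
    (IsAlgClosed.splits p).eq_prod_roots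
  have key : ∀ s : Multiset ℂ, B8bP (fun u => ((C p.leadingCoeff * (s.map fun z => X - C z).prod).eval ((Y u : ℝ) : ℂ))) := by
    intro s
    induction s using Multiset.induction_on with
    | empty =>
      refine ⟨?_, ?_⟩
      · simp
      · simp
    | cons z s ih =>
      have h1 := b8b_mul hY z ih
      have h2 : (fun u => ((C p.leadingCoeff * ((z ::ₘ s).map fun z => X - C z).prod).eval ((Y u : ℝ) : ℂ))) =
          (fun u => (((Y u : ℝ) : ℂ) - z) * ((C p.leadingCoeff * (s.map fun z => X - C z).prod).eval ((Y u : ℝ) : ℂ))) := by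
        funext u
        rw [Multiset.map_cons, Multiset.prod_cons]
        simp only [eval_mul, eval_sub, eval_X, eval_C]
        ring
      rw [h2]
      exact h1
  have h3 := (key p.roots).2
  rw [← hsplit] at h3
  have h4 : (fun u => Real.log |aeval (Y u) G|) = fun u => Real.log ‖p.eval ((Y u : ℝ) : ℂ)‖ := by
    funext u
    congr 1
    rw [hp, eval_map_algebraMap]
    have : aeval ((Y u : ℝ) : ℂ) G = ((aeval (Y u) G : ℝ) : ℂ) := by
      have h5 := (aeval_algebraMap_apply ℂ (Y u) G)
      simpa using h5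
    rw [this, Complex.norm_real, Real.norm_eq_abs]
  rw [h4]
  exact h3

theorem b8b_G (hY : Quant Y α) {c₁ : ℝ} (hA : Adm Y c₁) (G : ℤ[X]) (hG : G ≠ 0) (r : ℕ) :
    ∃ s ∈ Set.Icc (0:ℝ) 1, Real.exp (-(c₁ * r * G.natDegree)) ≤ ∏ a : Fin r, |aeval (pt Y r s a) G| := by
  have hinj : Function.Injective (algebraMap ℤ ℝ) := by
    rw [algebraMap_int_eq]; exact Int.cast_injective
  have hroots : Set.Finite {x : ℝ | aeval x G = 0} := by
    have h0 : G.map (algebraMap ℤ ℝ) ≠ 0 := (Polynomial.map_ne_zero_iff hinj).2 hG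
    refine (finite_setOfPred_isRoot h0).subset ?_
    intro x hx
    show (G.map (algebraMap ℤ ℝ)).eval x = 0
    rw [eval_map_algebraMap]
    exact hx
  set Z : Set ℝ := ⋃ i ∈ Finset.range r, {s : ℝ | aeval (pt Y r s i) G = 0} with hZ
  have hZ0 : volume Z = 0 := by
    apply Set.Finite.measure_zero
    apply Set.Finite.biUnion (Finset.finite_toSet _)
    intro i hi
    have hr : (r:ℝ) ≠ 0 := by
      have : 0 < r := lt_of_le_of_lt (Nat.zero_le i) (Finset.mem_range.1 hi)
      have : (0:ℝ) < r := by exact_mod_cast this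
      exact this.ne'
    have h1 : {s : ℝ | aeval (pt Y r s i) G = 0} = (fun s => pt Y r s i) ⁻¹' {x : ℝ | aeval x G = 0} := rfl
    rw [h1]
    apply hroots.preimage
    intro s _ s' _ hss
    have h2 := (b1_strictMono hY).injective hss
    rw [div_left_inj' hr] at h2
    linarith
  obtain ⟨s, hs, hsZ, h⟩ := b8_avg (b8b_int hY G hG) r hZ0
  refine ⟨s, hs, ?_⟩
  have hne : ∀ i : Fin r, 0 < |aeval (pt Y r s i) G| := by
    intro i
    rw [abs_pos]
    intro h0
    apply hsZ
    rw [hZ]
    simp only [Set.mem_iUnion]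
    exact ⟨i, Finset.mem_range.2 i.2, h0⟩
  have h1 : ∏ a : Fin r, |aeval (pt Y r s a) G| = Real.exp (∑ a : Fin r, Real.log |aeval (pt Y r s a) G|) := by
    rw [Real.exp_sum]
    apply Finset.prod_congr rfl
    intro i _
    rw [Real.exp_log (hne i)]
  rw [h1]
  apply Real.exp_le_exp.2
  rw [Fin.sum_univ_eq_sum_range (fun i => Real.log |aeval (pt Y r s i) G|) r]
  refine le_trans ?_ h
  have h2 := mul_le_mul_of_nonneg_left (hA G hG) (Nat.cast_nonneg (α := ℝ) r)
  refine le_trans (le_of_eq ?_) h2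
  ring

end Pool.Agent.Lib.H32P
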