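import Pool.Agent.Lib.H32P.B4
import Pool.Agent.Lib.H32P.B5

/-!
# Chunk B9 (M): Lagrange interpolation at quantile points

`u = ∑_i u(z_i) ∏_{j≠i} (X - z_j)/(z_i - z_j)` (`Lagrange.eq_interpolate_of_eval_eq` or `Lagrange.sum_basis`-style; nodes `z_i = pt Y N s i`, `i ∈ range N`, injective by `b1_pt_ne`, `degree u < N`).
For `t ∈ [0,1]`: the numerator is `≤ K^4 exp (N U(t))` (`b4_prod_le` with `S = (range N).erase i`, `N - S.card = 1`), the denominator is `≥ exp (N U(z_i))` (`b5_prod_ge`).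
-/

namespace Pool.Agent.Lib.H32P

open Polynomial MeasureTheory

variable {Y : ℝ → ℝ} {α : ℝ}

theorem b9_lagrange (hY : Quant Y α) {N : ℕ} (hN : 1 ≤ N) {s : ℝ} (hs : s ∈ Set.Icc (0:ℝ) 1) (u : ℝ[X])
    (hu : u.degree < N) {t : ℝ} (ht : t ∈ Set.Icc (0:ℝ) 1) :
    |u.eval t| ≤ K α N ^ 4 * Real.exp (N * U Y t) *
      ∑ i ∈ Finset.range N, |u.eval (pt Y N s i)| * Real.exp (-(N * U Y (pt Y N s i))) := by
  have hinj : Set.InjOn (pt Y N s) (Finset.range N : Finset ℕ) := by
    intro i _ j _ hij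
    by_contra h
    exact b1_pt_ne hY hN s h hij
  have hK0 : 0 ≤ K α N := b1_K_nonneg hY N
  have h1 : u = Lagrange.interpolate (Finset.range N) (pt Y N s) (fun i => u.eval (pt Y N s i)) := by
    apply Lagrange.eq_interpolate_of_eval_eq _ hinj
    · rw [Finset.card_range]; exact hu
    · intro i _; rfl
  have h2 : u.eval t = ∑ i ∈ Finset.range N,
      u.eval (pt Y N s i) * ∏ j ∈ (Finset.range N).erase i, ((t - pt Y N s j) / (pt Y N s i - pt Y N s j)) := by
    conv_lhs => rw [h1]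
    rw [Lagrange.interpolate_apply, eval_finsetSum]
    apply Finset.sum_congr rfl
    intro i _
    rw [eval_mul, eval_C, Lagrange.basis, eval_prod]
    congr 1
    apply Finset.prod_congr rfl
    intro j _
    rw [Lagrange.basisDivisor, eval_mul, eval_C, eval_sub, eval_X, eval_C]
    ring
  rw [h2, Finset.mul_sum]
  refine (Finset.abs_sum_le_sum_abs _ _).trans (Finset.sum_le_sum fun i hi => ?_)
  have hi' := Finset.mem_range.1 hi
  rw [abs_mul, Finset.abs_prod]
  simp only [abs_div]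
  rw [Finset.prod_div_distrib]
  have h3 := b4_prod_le hY hN hs ht ((Finset.range N).erase i) (Finset.erase_subset _ _)
  rw [Finset.card_erase_of_mem hi, Finset.card_range, show 3 + (N - (N - 1)) = 4 by omega] at h3
  have h4 := b5_prod_ge hY hs hi'
  have h5 : (∏ j ∈ (Finset.range N).erase i, |t - pt Y N s j|) /
      (∏ j ∈ (Finset.range N).erase i, |pt Y N s i - pt Y N s j|) ≤
      K α N ^ 4 * Real.exp (N * U Y t) / Real.exp (N * U Y (pt Y N s i)) :=
    div_le_div₀ (by positivity) h3 (Real.exp_pos _) h4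
  refine (mul_le_mul_of_nonneg_left h5 (abs_nonneg _)).trans (le_of_eq ?_)
  rw [Real.exp_neg]
  ring

end Pool.Agent.Lib.H32P
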