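import Pool.Agent.Lib.H32P.Defs

/-!
# Chunk C1 (M/L): Minkowski's theorem on linear forms

`C = {x : ∀ i, |(A x)_i| ≤ s}`. For `det A ≠ 0`: `C = A⁻¹ [-s, s]^d` is compact, convex, symmetric, with volume `(2 s)^d / |det A| ≥ 2^d`, and
`MeasureTheory.exists_ne_zero_mem_lattice_of_measure_mul_two_pow_le_measure` for the lattice `ℤ^d ⊆ ℝ^d` (fundamental domain `[0,1)^d` of volume `1`: `ZSpan` of `Pi.basisFun`,
`ZSpan.isAddFundamentalDomain`, `ZSpan.fundamentalDomain_pi_basisFun`, `Real.volume_pi_Ico`...) gives the integer vector. `d ≥ 1` is needed (`Nontrivial`).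
Volume of the preimage: `MeasureTheory.Measure.addHaar_preimage_linearMap` or `Real.map_matrix_volume_pi_eq_smul_volume_pi`.
-/

namespace Pool.Agent.Lib.H32P

open MeasureTheory Module

theorem c1_minkowski {d : ℕ} (hd : 1 ≤ d) (A : Matrix (Fin d) (Fin d) ℝ) (hA : A.det ≠ 0) {s : ℝ} (hs : 0 < s)
    (h : |A.det| ≤ s ^ d) :
    ∃ x : Fin d → ℤ, x ≠ 0 ∧ ∀ i, |A.mulVec (fun j => (x j : ℝ)) i| ≤ s := by
  classical
  have : Nonempty (Fin d) := ⟨⟨0, by omega⟩⟩
  set b := Pi.basisFun ℝ (Fin d) with hb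
  set T : (Fin d → ℝ) →ₗ[ℝ] (Fin d → ℝ) := Matrix.toLin' A with hT
  have hdet : LinearMap.det T ≠ 0 := by rw [hT, LinearMap.det_toLin']; exact hA
  set Q : Set (Fin d → ℝ) := Set.pi Set.univ (fun _ => Set.Icc (-s) s) with hQ
  set S : Set (Fin d → ℝ) := T ⁻¹' Q with hS
  have hfund := ZSpan.isAddFundamentalDomain' b (volume : Measure (Fin d → ℝ))
  have hcompQ : IsCompact Q := isCompact_univ_pi fun _ => isCompact_Icc
  have hcomp : IsCompact S := by
    let e := (LinearMap.equivOfDetNeZero T hdet).toContinuousLinearEquiv.toHomeomorph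
    exact (e.isCompact_preimage).2 hcompQ
  have hconv : Convex ℝ S := (convex_pi fun _ _ => convex_Icc (-s) s).linear_preimage T
  have hsymm : ∀ x ∈ S, -x ∈ S := by
    intro x hx
    simp only [hS, hQ, Set.mem_preimage, Set.mem_pi, Set.mem_univ, forall_true_left, Set.mem_Icc,
      map_neg, Pi.neg_apply] at hx ⊢
    intro i
    have := hx i
    constructor <;> linarith [this.1, this.2]
  have hvolQ : volume Q = ENNReal.ofReal ((2 * s) ^ d) := by
    rw [hQ, volume_pi, Measure.pi_pi]
    simp only [Real.volume_Icc, Finset.prod_const, Finset.card_univ, Fintype.card_fin]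
    rw [← ENNReal.ofReal_pow (by linarith)]
    congr 1
    ring
  have hvol : volume S = ENNReal.ofReal |(A.det)⁻¹| * ENNReal.ofReal ((2 * s) ^ d) := by
    rw [hS, Measure.addHaar_preimage_linearMap volume hdet, hvolQ, hT, LinearMap.det_toLin']
  have hF : volume (ZSpan.fundamentalDomain b) = 1 := by
    rw [hb, ZSpan.fundamentalDomain_pi_basisFun, volume_pi, Measure.pi_pi]
    simp
  have hle : volume (ZSpan.fundamentalDomain b) * 2 ^ finrank ℝ (Fin d → ℝ) ≤ volume S := by
    rw [hF, hvol, one_mul, ← ENNReal.ofReal_mul (abs_nonneg _)]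
    have h2 : (2 : ENNReal) ^ finrank ℝ (Fin d → ℝ) = ENNReal.ofReal ((2 : ℝ) ^ d) := by
      rw [ENNReal.ofReal_pow (by norm_num)]
      simp
    rw [h2]
    apply ENNReal.ofReal_le_ofReal
    rw [abs_inv, mul_pow, inv_mul_eq_div, le_div_iff₀ (abs_pos.2 hA)]
    gcongr
  have hcount : Countable (Submodule.span ℤ (Set.range b)).toAddSubgroup := by
    change Countable (Submodule.span ℤ (Set.range b))
    infer_instance
  obtain ⟨x, hx0, hxS⟩ := exists_ne_zero_mem_lattice_of_measure_mul_two_pow_le_measure hfund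
    hsymm hconv hcomp hle
  have hxL : ((x : _) : Fin d → ℝ) ∈ Submodule.span ℤ (Set.range b) := x.2
  have hxL' := (b.mem_span_iff_repr_mem ℤ (x : Fin d → ℝ)).1 hxL
  choose z hz using hxL'
  have hr : ∀ j, (b.repr (x : Fin d → ℝ)) j = (x : Fin d → ℝ) j := by
    intro j
    exact Pi.basisFun_repr (R := ℝ) (η := Fin d) (x : Fin d → ℝ) j
  refine ⟨z, ?_, ?_⟩
  · intro h0
    apply hx0
    apply Subtype.ext
    funext i
    have := hz i
    rw [hr, h0] at this
    simpa using this.symm
  · intro i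
    have h1 : (fun j => (z j : ℝ)) = (x : Fin d → ℝ) := by
      funext j
      have := hz j
      rw [hr] at this
      simpa using this
    rw [h1]
    have h2 := hxS
    simp only [hS, hQ, Set.mem_preimage, Set.mem_pi, Set.mem_univ, forall_true_left, Set.mem_Icc,
      hT, Matrix.toLin'_apply] at h2
    exact abs_le.2 (h2 i)

end Pool.Agent.Lib.H32P
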