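import Pool.Agent.Lib.H32P.Defs

/-!
# Chunk V1 (S/M): the square of a Vandermonde determinant

`Matrix.det_vandermonde : det = ∏ i, ∏ j ∈ Ioi i, (v j - v i)`. Its square is the product over all ordered pairs `i ≠ j` of `|v i - v j|`: split
`univ.erase i = Ioi i ∪ Iio i` and swap the order of the two products in the `Iio` part (`Finset.prod_comm'` or `Finset.prod_sigma'`).
-/

namespace Pool.Agent.Lib.H32P

theorem v1_sq {k : ℕ} (z : Fin k → ℝ) :
    (Matrix.vandermonde z).det ^ 2 = ∏ i, ∏ j ∈ Finset.univ.erase i, |z i - z j| := by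
  have h1 : ∀ i : Fin k, ∏ j ∈ Finset.univ.erase i, |z i - z j| =
      (∏ j ∈ Finset.Ioi i, |z i - z j|) * ∏ j ∈ Finset.Iio i, |z i - z j| := by
    intro i
    rw [← Finset.prod_union]
    · congr 1
      ext j
      simp only [Finset.mem_erase, Finset.mem_univ, and_true, Finset.mem_union, Finset.mem_Ioi,
        Finset.mem_Iio]
      exact ⟨fun h => (lt_or_gt_of_ne h).symm, fun h => h.elim (fun h => h.ne') (fun h => h.ne)⟩
    · rw [Finset.disjoint_left]
      intro j hj hj2
      rw [Finset.mem_Ioi] at hj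
      rw [Finset.mem_Iio] at hj2
      exact absurd hj (not_lt.2 hj2.le)
  have h2 : ∏ i : Fin k, ∏ j ∈ Finset.Iio i, |z i - z j| =
      ∏ i : Fin k, ∏ j ∈ Finset.Ioi i, |z i - z j| := by
    rw [Finset.prod_comm' (t' := Finset.univ) (s' := fun j => Finset.Ioi j)]
    · refine Finset.prod_congr rfl fun i _ => Finset.prod_congr rfl fun j _ => ?_
      rw [abs_sub_comm]
    · intro x y
      simp
  rw [Finset.prod_congr rfl fun i _ => h1 i, Finset.prod_mul_distrib, h2, ← sq,
    Matrix.det_vandermonde, ← sq_abs, Finset.abs_prod]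
  congr 1
  refine Finset.prod_congr rfl fun i _ => ?_
  rw [Finset.abs_prod]
  refine Finset.prod_congr rfl fun j _ => ?_
  rw [abs_sub_comm]

end Pool.Agent.Lib.H32P
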