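import Pool.Agent.Lib.H32P.B8b
import Pool.Agent.Lib.H32P.B9
import Pool.Agent.Lib.H32P.C1
import Pool.Agent.Lib.H32P.V1

/-!
# Chunk C2 (M): small integer polynomials (Minkowski)

`c2_poly`: nodes `z_i = pt Y M s i` with `∑ U(z_i) ≥ M En` (`b8b_U`). `A = of fun i j => z_i^j exp (-(M (U z_i - En/2)))`, so `det A = det vandermonde · ∏ exp (..)` (`Matrix.det_mul_column`/`det_mul_row`),
`≠ 0` (distinct nodes). By `v1_sq` and `b4_prod_le` (`S = (range M).erase i`): `(det vandermonde)^2 ≤ ∏ K^4 exp (M U(z_i))`, so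
`|det A| ≤ K^{2M} exp (-(M/2) ∑ U(z_i) + M² En/2) ≤ (K²)^M`. `c1_minkowski` with `s = K²` gives `x ≠ 0`; `P = ∑ x_j X^j` has `degree < M` and
`|P(z_i)| ≤ K² exp (M (U z_i - En/2))`. Then `b9_lagrange` (for `P.map (Int.castRingHom ℝ)`): `|P(t)| ≤ K^4 exp (M U(t)) · M K² exp (-M En/2)`.
-/

namespace Pool.Agent.Lib.H32P

open Polynomial MeasureTheory

variable {Y : ℝ → ℝ} {α : ℝ}

theorem c2_inj (hY : Quant Y α) : Function.Injective Y := by
  intro u v huv
  rcases lt_trichotomy u v with h | h | h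
  · have h1 := hY.lower u v h.le
    have h2 := mul_pos hY.pos (sub_pos.2 h)
    linarith
  · exact h
  · have h1 := hY.lower v u h.le
    have h2 := mul_pos hY.pos (sub_pos.2 h)
    linarith

theorem c2_mem (hY : Quant Y α) {u : ℝ} (hu : u ∈ Set.Icc (0:ℝ) 1) : Y u ∈ Set.Icc (0:ℝ) 1 := by
  have h1 := hY.lower 0 u hu.1
  have h2 := hY.lower u 1 hu.2
  rw [hY.zero] at h1
  rw [hY.one] at h2
  have h3 := mul_nonneg hY.pos.le (sub_nonneg.2 hu.1)
  have h4 := mul_nonneg hY.pos.le (sub_nonneg.2 hu.2)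
  exact ⟨by linarith, by linarith⟩

theorem c2_pt_mem (hY : Quant Y α) {M : ℕ} {s : ℝ} (hs : s ∈ Set.Icc (0:ℝ) 1) {i : ℕ} (hi : i < M) :
    pt Y M s i ∈ Set.Icc (0:ℝ) 1 := by
  have hM0 : (0:ℝ) < M := by exact_mod_cast (lt_of_le_of_lt (Nat.zero_le i) hi)
  have hi' : (i:ℝ) + 1 ≤ M := by exact_mod_cast hi
  have hi0 : (0:ℝ) ≤ i := Nat.cast_nonneg i
  apply c2_mem hY
  constructor
  · apply div_nonneg _ hM0.le
    have := hs.2
    linarith
  · rw [div_le_one hM0]
    have := hs.1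
    linarith

theorem c2_vdm (hY : Quant Y α) {M : ℕ} (hM : 1 ≤ M) {s : ℝ} (hs : s ∈ Set.Icc (0:ℝ) 1) :
    (Matrix.vandermonde (fun i : Fin M => pt Y M s i)).det ^ 2 ≤
      ∏ i : Fin M, (K α M ^ 4 * Real.exp (M * U Y (pt Y M s i))) := by
  rw [v1_sq]
  refine Finset.prod_le_prod (fun i _ => Finset.prod_nonneg fun j _ => abs_nonneg _) (fun i _ => ?_)
  have h := b4_prod_le hY hM hs (c2_pt_mem hY hs i.2) ((Finset.range M).erase i) (Finset.erase_subset _ _)
  have hc : ((Finset.range M).erase (i:ℕ)).card = M - 1 := by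
    rw [Finset.card_erase_of_mem (Finset.mem_range.2 i.2), Finset.card_range]
  rw [hc] at h
  have h4 : 3 + (M - (M - 1)) = 4 := by omega
  rw [h4] at h
  have hp : ∏ j ∈ Finset.univ.erase i, |pt Y M s i - pt Y M s j| =
      ∏ j ∈ (Finset.range M).erase (i:ℕ), |pt Y M s i - pt Y M s j| := by
    refine Finset.prod_nbij (fun j => (j:ℕ)) ?_ ?_ ?_ ?_
    · intro j hj
      rw [Finset.mem_erase] at hj
      rw [Finset.mem_erase, Finset.mem_range]
      exact ⟨fun h => hj.1 (Fin.ext h), j.2⟩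
    · intro a _ b _ hab
      exact Fin.ext hab
    · intro j hj
      rw [Finset.mem_coe, Finset.mem_erase, Finset.mem_range] at hj
      refine ⟨⟨j, hj.2⟩, ?_, rfl⟩
      rw [Finset.mem_coe, Finset.mem_erase]
      exact ⟨fun h => hj.1 (congrArg Fin.val h), Finset.mem_univ _⟩
    · intro j _
      rfl
  rw [hp]
  exact h

theorem c2_det (hY : Quant Y α) {M : ℕ} (hM : 1 ≤ M) {s : ℝ} (hs : s ∈ Set.Icc (0:ℝ) 1)
    (hsum : M * En Y ≤ ∑ i ∈ Finset.range M, U Y (pt Y M s i)) :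
    |(∏ i : Fin M, Real.exp (-(M * (U Y (pt Y M s i) - En Y / 2)))) *
      (Matrix.vandermonde (fun i : Fin M => pt Y M s i)).det| ≤ (K α M ^ 2) ^ M := by
  have hK : 0 < K α M := by
    unfold K
    have := hY.pos
    have hM0 : (0:ℝ) < M := by exact_mod_cast hM
    positivity
  apply abs_le_of_sq_le_sq _ (by positivity)
  rw [mul_pow, ← Finset.prod_pow]
  have h1 := mul_le_mul_of_nonneg_left (c2_vdm hY hM hs)
    (show 0 ≤ ∏ i : Fin M, Real.exp (-(M * (U Y (pt Y M s i) - En Y / 2))) ^ 2 from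
      Finset.prod_nonneg fun i _ => by positivity)
  refine h1.trans ?_
  rw [← Finset.prod_mul_distrib]
  have h2 : ∀ i : Fin M, Real.exp (-(M * (U Y (pt Y M s i) - En Y / 2))) ^ 2 *
      (K α M ^ 4 * Real.exp (M * U Y (pt Y M s i))) =
      K α M ^ 4 * Real.exp (M * En Y - M * U Y (pt Y M s i)) := by
    intro i
    rw [← Real.exp_nat_mul, mul_left_comm, ← Real.exp_add]
    congr 2
    push_cast
    ring
  rw [Finset.prod_congr rfl (fun i _ => h2 i), Finset.prod_mul_distrib, Finset.prod_const,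
    Finset.card_univ, Fintype.card_fin, ← Real.exp_sum, Finset.sum_sub_distrib]
  have h3 : ∑ i : Fin M, (M : ℝ) * U Y (pt Y M s i) =
      M * ∑ i ∈ Finset.range M, U Y (pt Y M s i) := by
    rw [← Finset.mul_sum, Finset.sum_range]
  have h4 : ∑ _i : Fin M, (M : ℝ) * En Y = M * (M * En Y) := by
    rw [Finset.sum_const, Finset.card_univ, Fintype.card_fin, nsmul_eq_mul]
  rw [h3, h4]
  have h5 : (M:ℝ) * (M * En Y) - M * ∑ i ∈ Finset.range M, U Y (pt Y M s i) ≤ 0 := by
    have := mul_le_mul_of_nonneg_left hsum (Nat.cast_nonneg M : (0:ℝ) ≤ M)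
    linarith
  have h6 := Real.exp_le_one_iff.2 h5
  have h7 : (K α M ^ 4) ^ M = ((K α M ^ 2) ^ M) ^ 2 := by
    rw [← pow_mul, ← pow_mul, ← pow_mul]
    congr 1
    ring
  rw [h7]
  exact mul_le_of_le_one_right (by positivity) h6

theorem c2_poly (hY : Quant Y α) {M : ℕ} (hM : 1 ≤ M) :
    ∃ P : ℤ[X], P ≠ 0 ∧ P.degree < M ∧ ∀ t ∈ Set.Icc (0:ℝ) 1,
      |aeval t P| ≤ M * K α M ^ 6 * Real.exp (M * (U Y t - En Y / 2)) := by
  obtain ⟨s, hs, hsum⟩ := b8b_U hY M
  have hM0 : (0:ℝ) < M := by exact_mod_cast hM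
  have hK : 0 < K α M := by
    unfold K
    have := hY.pos
    positivity
  have hzinj : Function.Injective (fun i : Fin M => pt Y M s i) := by
    intro i j hij
    have h1 := c2_inj hY hij
    rw [div_left_inj' hM0.ne'] at h1
    have h2 : ((i:ℕ):ℝ) = (j:ℕ) := by linarith
    exact Fin.ext (by exact_mod_cast h2)
  have hdet := Matrix.det_mul_column (fun i : Fin M => Real.exp (-(M * (U Y (pt Y M s i) - En Y / 2))))
    (Matrix.vandermonde (fun i : Fin M => pt Y M s i))
  have hvne : (Matrix.vandermonde (fun i : Fin M => pt Y M s i)).det ≠ 0 :=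
    Matrix.det_vandermonde_ne_zero_iff.2 hzinj
  obtain ⟨x, hx0, hx⟩ := c1_minkowski hM
    (Matrix.of fun i j : Fin M => Real.exp (-(M * (U Y (pt Y M s i) - En Y / 2))) *
      Matrix.vandermonde (fun i : Fin M => pt Y M s i) i j)
    (by
      rw [hdet]
      exact mul_ne_zero (Finset.prod_ne_zero_iff.2 fun i _ => (Real.exp_pos _).ne') hvne)
    (show 0 < K α M ^ 2 by positivity) (by rw [hdet]; exact c2_det hY hM hs hsum)
  set P : ℤ[X] := ∑ j : Fin M, C (x j) * X ^ (j:ℕ) with hPdef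
  have hcoeff : ∀ j : Fin M, P.coeff j = x j := by
    intro j
    rw [hPdef, finsetSum_coeff]
    simp only [coeff_C_mul, coeff_X_pow]
    rw [Finset.sum_eq_single j]
    · simp
    · intro b _ hb
      have : ¬ ((j:ℕ) = (b:ℕ)) := fun h => hb (Fin.ext h.symm)
      simp [this]
    · intro h
      exact absurd (Finset.mem_univ _) h
  have hP0 : P ≠ 0 := by
    intro h0
    apply hx0
    funext j
    rw [← hcoeff j, h0]
    simp
  have hPdeg : P.degree < M := degree_sum_fin_lt _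
  refine ⟨P, hP0, hPdeg, ?_⟩
  intro t ht
  have hev : ∀ y : ℝ, (P.map (Int.castRingHom ℝ)).eval y = ∑ j : Fin M, y ^ (j:ℕ) * (x j : ℝ) := by
    intro y
    rw [eval_map, hPdef, eval₂_finsetSum]
    refine Finset.sum_congr rfl fun j _ => ?_
    rw [eval₂_mul, eval₂_C, eval₂_pow, eval₂_X, eq_intCast]
    ring
  have hdeg' : (P.map (Int.castRingHom ℝ)).degree < M := lt_of_le_of_lt degree_map_le hPdeg
  have hL := b9_lagrange hY hM hs (P.map (Int.castRingHom ℝ)) hdeg' ht
  have hat : aeval t P = (P.map (Int.castRingHom ℝ)).eval t := by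
    rw [eval_map]
    rfl
  rw [hat]
  refine hL.trans ?_
  have hterm : ∀ i ∈ Finset.range M, |(P.map (Int.castRingHom ℝ)).eval (pt Y M s i)| *
      Real.exp (-(M * U Y (pt Y M s i))) ≤ K α M ^ 2 * Real.exp (-(M * (En Y / 2))) := by
    intro i hi
    have hi' := Finset.mem_range.1 hi
    have h1 := hx ⟨i, hi'⟩
    have h2 : (Matrix.of fun i j : Fin M => Real.exp (-(M * (U Y (pt Y M s i) - En Y / 2))) *
      Matrix.vandermonde (fun i : Fin M => pt Y M s i) i j).mulVec (fun j => (x j : ℝ)) ⟨i, hi'⟩ =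
      Real.exp (-(M * (U Y (pt Y M s i) - En Y / 2))) * (P.map (Int.castRingHom ℝ)).eval (pt Y M s i) := by
      rw [hev, Matrix.mulVec, dotProduct, Finset.mul_sum]
      refine Finset.sum_congr rfl fun j _ => ?_
      simp only [Matrix.of_apply, Matrix.vandermonde_apply]
      ring
    rw [h2, abs_mul, abs_of_pos (Real.exp_pos _)] at h1
    have h3 : Real.exp (-(M * U Y (pt Y M s i))) =
        Real.exp (-(M * (U Y (pt Y M s i) - En Y / 2))) * Real.exp (-(M * (En Y / 2))) := by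
      rw [← Real.exp_add]
      congr 1
      ring
    rw [h3]
    calc |(P.map (Int.castRingHom ℝ)).eval (pt Y M s i)| *
          (Real.exp (-(M * (U Y (pt Y M s i) - En Y / 2))) * Real.exp (-(M * (En Y / 2))))
        = (Real.exp (-(M * (U Y (pt Y M s i) - En Y / 2))) * |(P.map (Int.castRingHom ℝ)).eval (pt Y M s i)|) *
          Real.exp (-(M * (En Y / 2))) := by ring
      _ ≤ _ := mul_le_mul_of_nonneg_right h1 (Real.exp_pos _).le
  have hsumle := Finset.sum_le_sum hterm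
  rw [Finset.sum_const, Finset.card_range, nsmul_eq_mul] at hsumle
  have hfac : 0 ≤ K α M ^ 4 * Real.exp (M * U Y t) := by positivity
  refine (mul_le_mul_of_nonneg_left hsumle hfac).trans (le_of_eq ?_)
  have h8 : Real.exp (M * (U Y t - En Y / 2)) = Real.exp (M * U Y t) * Real.exp (-(M * (En Y / 2))) := by
    rw [← Real.exp_add]
    congr 1
    ring
  rw [h8]
  ring

end Pool.Agent.Lib.H32P
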