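import Pool.Agent.Lib.H32P.C2

/-!
# Chunk C3 (M): the energy inequality `2 c + En ≥ 0`

For every `M ≥ 1` take `P` from `c2_poly`. For all `u ∈ [0,1]` with `P(Y u) ≠ 0` (all but finitely many): `log |P(Y u)| ≤ log (M K^6) + M (U(Y u) - En/2)`. Integrate (`b8b_int`, `b7_int`):
`-(c M) ≤ -(c deg P) ≤ ∫ log |P(Y u)| du ≤ log (M (K α M)^6) + M En/2` (`Adm`, `c ≥ 0`, `natDegree P ≤ M`). Divide by `M` and let `M → ∞`: `log (M (2eM/α)^6)/M → 0`.
-/

namespace Pool.Agent.Lib.H32P

open Polynomial MeasureTheory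

variable {Y : ℝ → ℝ} {α : ℝ}

theorem c3_inj (hY : Quant Y α) : Function.Injective Y := by
  intro u v huv
  rcases lt_trichotomy u v with h | h | h
  · have h1 := hY.lower u v h.le
    have h2 := mul_pos hY.pos (sub_pos.2 h)
    linarith
  · exact h
  · have h1 := hY.lower v u h.le
    have h2 := mul_pos hY.pos (sub_pos.2 h)
    linarith

theorem c3_mem (hY : Quant Y α) {u : ℝ} (hu : u ∈ Set.Icc (0:ℝ) 1) : Y u ∈ Set.Icc (0:ℝ) 1 := by
  have h1 := hY.lower 0 u hu.1
  have h2 := hY.lower u 1 hu.2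
  rw [hY.zero] at h1
  rw [hY.one] at h2
  have h3 := mul_nonneg hY.pos.le (sub_nonneg.2 hu.1)
  have h4 := mul_nonneg hY.pos.le (sub_nonneg.2 hu.2)
  exact ⟨by linarith, by linarith⟩

theorem c3_finite (hY : Quant Y α) {P : ℤ[X]} (hP : P ≠ 0) : {u : ℝ | aeval (Y u) P = 0}.Finite := by
  have hfin : {x : ℝ | aeval x P = 0}.Finite := by
    have h0 : P.map (Int.castRingHom ℝ) ≠ 0 := by
      rw [Ne, Polynomial.map_eq_zero_iff (RingHom.injective_int _)]
      exact hP
    refine Set.Finite.subset (P.map (Int.castRingHom ℝ)).roots.toFinset.finite_toSet ?_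
    intro x hx
    simp only [Set.mem_ofPred_eq] at hx
    simp only [Finset.mem_coe, Multiset.mem_toFinset, Polynomial.mem_roots', IsRoot.def]
    refine ⟨h0, ?_⟩
    rw [eval_map]
    exact hx
  exact hfin.preimage ((c3_inj hY).injOn)

theorem c3_step (hY : Quant Y α) {c : ℝ} (hc : 0 ≤ c) (hA : Adm Y c) {M : ℕ} (hM : 1 ≤ M) :
    -(c * M) ≤ Real.log (M * K α M ^ 6) + M * (En Y / 2) := by
  obtain ⟨P, hP0, hdeg, hP⟩ := c2_poly hY hM
  have hM0 : (0:ℝ) < M := by exact_mod_cast hM
  have hK : 0 < K α M := by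
    unfold K
    have := hY.pos
    positivity
  have hMK : (0:ℝ) < M * K α M ^ 6 := by positivity
  have h1 := hA P hP0
  have hnat : P.natDegree ≤ M := (natDegree_lt_iff_degree_lt hP0).2 hdeg |>.le
  have h2 : -(c * M) ≤ -(c * P.natDegree) := by
    have : (P.natDegree : ℝ) ≤ M := by exact_mod_cast hnat
    have := mul_le_mul_of_nonneg_left this hc
    linarith
  have hint1 := b8b_int hY P hP0
  have hint2 : IntervalIntegrable (fun u => Real.log (M * K α M ^ 6) + M * (U Y (Y u) - En Y / 2)) volume 0 1 :=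
    (intervalIntegrable_const).add (((b7_int hY).sub intervalIntegrable_const).const_mul _)
  have h3 : ∫ u in (0:ℝ)..1, Real.log |aeval (Y u) P| ≤
      ∫ u in (0:ℝ)..1, (Real.log (M * K α M ^ 6) + M * (U Y (Y u) - En Y / 2)) := by
    refine intervalIntegral.integral_mono_ae_restrict (by norm_num) hint1 hint2 ?_
    have hae : ∀ᵐ u ∂(volume : Measure ℝ), u ∉ {u : ℝ | aeval (Y u) P = 0} := by
      have h0 : volume {u : ℝ | aeval (Y u) P = 0} = 0 := (c3_finite hY hP0).measure_zero _
      exact measure_eq_zero_iff_ae_notMem.1 h0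
    rw [Filter.EventuallyLE, ae_restrict_iff' measurableSet_Icc]
    filter_upwards [hae] with u hu hu1
    have hy := c3_mem hY hu1
    have h4 := hP _ hy
    have h5 : 0 < |aeval (Y u) P| := abs_pos.2 hu
    have h6 := Real.log_le_log h5 h4
    rw [Real.log_mul hMK.ne' (Real.exp_ne_zero _), Real.log_exp] at h6
    exact h6
  have h4 : ∫ u in (0:ℝ)..1, (Real.log (M * K α M ^ 6) + M * (U Y (Y u) - En Y / 2)) =
      Real.log (M * K α M ^ 6) + M * (En Y / 2) := by
    rw [intervalIntegral.integral_add intervalIntegrable_const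
      (((b7_int hY).sub intervalIntegrable_const).const_mul _), intervalIntegral.integral_const_mul,
      intervalIntegral.integral_sub (b7_int hY) intervalIntegrable_const]
    simp only [intervalIntegral.integral_const, sub_zero, one_smul]
    have h5 : ∫ u in (0:ℝ)..1, U Y (Y u) = En Y := rfl
    rw [h5]
    ring
  linarith

theorem c3_energy (hY : Quant Y α) {c : ℝ} (hc : 0 ≤ c) (hA : Adm Y c) : 0 ≤ 2 * c + En Y := by
  by_contra hneg
  push Not at hneg
  set δ : ℝ := -(2 * c + En Y) with hδ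
  have hδ0 : 0 < δ := by linarith
  have hα := hY.pos
  set C0 : ℝ := 6 * Real.log (2 * Real.exp 1 / α) with hC0
  have key : ∀ M : ℕ, 1 ≤ M → (M : ℝ) * (δ / 2) ≤ 7 * Real.log M + C0 := by
    intro M hM
    have h1 := c3_step hY hc hA hM
    have hM0 : (0:ℝ) < M := by exact_mod_cast hM
    have h2 : Real.log (M * K α M ^ 6) = 7 * Real.log M + C0 := by
      have e : K α M = (2 * Real.exp 1 / α) * M := by unfold K; ring
      have hp : 0 < 2 * Real.exp 1 / α := by positivity
      rw [e, Real.log_mul hM0.ne' (by positivity), Real.log_pow, Real.log_mul hp.ne' hM0.ne']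
      push_cast
      ring
    rw [h2] at h1
    have h3 : En Y = -δ - 2 * c := by rw [hδ]; ring
    rw [h3] at h1
    linarith
  have hlo := (Real.isLittleO_log_id_atTop.comp_tendsto tendsto_natCast_atTop_atTop).bound
    (show (0:ℝ) < δ / 28 by positivity)
  have hev2 : ∀ᶠ M : ℕ in Filter.atTop, C0 < (M : ℝ) * (δ / 4) := by
    have ht : Filter.Tendsto (fun M : ℕ => (M : ℝ) * (δ / 4)) Filter.atTop Filter.atTop :=
      tendsto_natCast_atTop_atTop.atTop_mul_const (by positivity)
    exact ht.eventually_gt_atTop C0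
  obtain ⟨M, hM1, hM2, hM3⟩ := (hlo.and (hev2.and (Filter.eventually_ge_atTop 1))).exists
  simp only [Function.comp_apply, id_eq, Real.norm_eq_abs] at hM1
  have h1 := key M hM3
  have h2 : Real.log M ≤ δ / 28 * M := by
    refine le_trans (le_abs_self _) ?_
    rwa [Nat.abs_cast] at hM1
  linarith

end Pool.Agent.Lib.H32P
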