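import Pool.Agent.Lib.H32P.Defs

/-!
# Chunk D0 (S/M): `Lf` is linear, and its value on a product

`Lf l n p = ∑_{i<n} p_i l_i`. For `p, q` of degree `< m` the product has coefficients `∑_{i+j=a} p_i q_j`, all with `a ≤ 2m - 2 < 2m - 1`; so
`Lf l (2m-1) (p q) = ∑_{i,j<m} p_i q_j l_{i+j}`. E.g. write `p = ∑_{i<m} C p_i X^i` (`Polynomial.as_sum_range'`) and use linearity and
`Lf l n (C a * X^i * (C b * X^j)) = a b l_{i+j}` for `i + j < n`.
-/

namespace Pool.Agent.Lib.H32P

open Polynomial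

theorem d0_add (l : ℕ → ℤ) (n : ℕ) (p q : ℝ[X]) : Lf l n (p + q) = Lf l n p + Lf l n q := by
  simp only [Lf, coeff_add, add_mul, Finset.sum_add_distrib]

theorem d0_smul (l : ℕ → ℤ) (n : ℕ) (a : ℝ) (p : ℝ[X]) : Lf l n (C a * p) = a * Lf l n p := by
  simp only [Lf, coeff_C_mul, Finset.mul_sum, mul_assoc]

theorem d0_mul (l : ℕ → ℤ) {m : ℕ} (hm : 1 ≤ m) (p q : ℝ[X]) (hp : p.degree < m) (hq : q.degree < m) :
    Lf l (2 * m - 1) (p * q) =
      ∑ i ∈ Finset.range m, ∑ j ∈ Finset.range m, p.coeff i * q.coeff j * (l (i + j) : ℝ) := by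
  have hp0 : ∀ i, m ≤ i → p.coeff i = 0 := fun i hi =>
    coeff_eq_zero_of_degree_lt (hp.trans_le (by exact_mod_cast hi))
  have hq0 : ∀ i, m ≤ i → q.coeff i = 0 := fun i hi =>
    coeff_eq_zero_of_degree_lt (hq.trans_le (by exact_mod_cast hi))
  rw [← Finset.sum_product' (Finset.range m) (Finset.range m)
    (fun i j => p.coeff i * q.coeff j * (l (i + j) : ℝ))]
  have hmaps : ∀ x ∈ Finset.range m ×ˢ Finset.range m, x.1 + x.2 ∈ Finset.range (2 * m - 1) := by
    intro x hx
    rw [Finset.mem_product, Finset.mem_range, Finset.mem_range] at hx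
    rw [Finset.mem_range]
    omega
  rw [← Finset.sum_fiberwise_of_maps_to hmaps]
  unfold Lf
  refine Finset.sum_congr rfl fun a _ => ?_
  rw [coeff_mul, Finset.sum_mul]
  symm
  have h1 : ∑ x ∈ (Finset.range m ×ˢ Finset.range m).filter (fun x => x.1 + x.2 = a),
      p.coeff x.1 * q.coeff x.2 * (l (x.1 + x.2) : ℝ) =
      ∑ x ∈ (Finset.range m ×ˢ Finset.range m).filter (fun x => x.1 + x.2 = a),
      p.coeff x.1 * q.coeff x.2 * (l a : ℝ) := by
    refine Finset.sum_congr rfl fun x hx => ?_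
    rw [(Finset.mem_filter.1 hx).2]
  rw [h1]
  apply Finset.sum_subset
  · intro x hx
    rw [Finset.HasAntidiagonal.mem_antidiagonal]
    exact (Finset.mem_filter.1 hx).2
  · intro x hx hx2
    rw [Finset.HasAntidiagonal.mem_antidiagonal] at hx
    by_cases h3 : m ≤ x.1
    · rw [hp0 _ h3]
      ring
    · by_cases h4 : m ≤ x.2
      · rw [hq0 _ h4]
        ring
      · exfalso
        apply hx2
        rw [Finset.mem_filter, Finset.mem_product, Finset.mem_range, Finset.mem_range]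
        exact ⟨⟨by omega, by omega⟩, hx⟩

end Pool.Agent.Lib.H32P
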