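import Pool.Agent.Lib.H32P.Defs

/-!
# Chunk D1 (L): the kernel of a Hankel form is `G · ℤ[X]_{<r}`

Let `φ(p) = ∑_i p_i l_i` (all `i`; additive, `φ(X^i) = l_i`), and `K = {u : degree u < m, φ(u X^j) = 0 for all j < m}`; for `u ∈ K`, `φ(u v) = 0` for all `v` of degree `< m`. `K` is a group, and
`d u ∈ K`, `d ≠ 0` implies `u ∈ K`.

If `K = {0}`: `k = m`, `r = 0`, `G = 1`. Otherwise let `e` be the least and `e + i ≤ m - 1` the largest degree of a nonzero element of `K`, `G ∈ K` primitive of degree `e` (primitive part), `w ∈ K` of degree `e + i`.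

Step 1: `φ(G X^a) = 0` for all `a < m + i`, by strong induction on `a`. For `a < m` clear. Let `m ≤ a < m + i`, `b = a - e - i ≥ 1`. The degree of `G X^b` is `a - i < m`, so `φ(w · G X^b) = 0` (`w ∈ K`). On the other hand
`w X^b = w_top X^a + (terms of degree < a)`, so `φ(G · w X^b) = w_top φ(G X^a)` by the induction hypothesis. So `φ(G X^a) = 0`.

Step 2: so `G h ∈ K` for all `h` of degree `≤ i` (`degree (G h) ≤ e + i < m`).

Step 3: if `u ∈ K`, `u ≠ 0`, then `e ≤ deg u ≤ e + i`. Pseudo-division (or division in `ℚ[X]`): `d u = G h' + ρ` with an integer `d ≠ 0`, `degree ρ < e`, `deg h' ≤ i`. Then `ρ = d u - G h' ∈ K`, so `ρ = 0`.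
So `G` divides `d u` and, `G` being primitive, `G` divides `u` in `ℤ[X]` (Gauss: `IsPrimitive.dvd_of_fraction_map_dvd_fraction_map` or `IsPrimitive.dvd_primPart_iff_dvd`...), `u = G h`, `deg h = deg u - e ≤ i`.

Take `r = i + 1`, `k = m - r`: `deg G = e ≤ m - 1 - i = k`. If `k = 0` then `i = m - 1`, `e = 0`, `G = ± 1`, and Step 1 gives `l_a = 0` for all `a < 2m - 1`, a contradiction; so `k ≥ 1`. (In the case `K = {0}`, `k = m ≥ 1`.)
-/

namespace Pool.Agent.Lib.H32P

open Polynomial

/-- The linear form `p ↦ ∑ p_i l_i`. -/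
noncomputable def d1_phi (l : ℕ → ℤ) : ℤ[X] →ₗ[ℤ] ℤ := Polynomial.lsum fun i => l i • LinearMap.id

theorem d1_phi_monomial (l : ℕ → ℤ) (a : ℕ) : d1_phi l (X ^ a) = l a := by
  rw [d1_phi, Polynomial.lsum_apply, ← Polynomial.monomial_one_right_eq_X_pow,
    Polynomial.sum_monomial_index] <;> simp

theorem d1_phi_C_mul (l : ℕ → ℤ) (c : ℤ) (p : ℤ[X]) : d1_phi l (C c * p) = c * d1_phi l p := by
  rw [← Polynomial.smul_eq_C_mul, map_smul, smul_eq_mul]

theorem d1_phi_mul (l : ℕ → ℤ) (p q : ℤ[X]) {n : ℕ} (hq : q.natDegree < n) :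
    d1_phi l (p * q) = ∑ j ∈ Finset.range n, q.coeff j * d1_phi l (p * X ^ j) := by
  conv_lhs => rw [q.as_sum_range_C_mul_X_pow' hq]
  rw [Finset.mul_sum, map_sum]
  refine Finset.sum_congr rfl fun j _ => ?_
  rw [mul_left_comm, d1_phi_C_mul]

theorem d1_phi_coeff (l : ℕ → ℤ) {u : ℤ[X]} {m : ℕ} (hu : u.degree < m) (j : ℕ) :
    d1_phi l (u * X ^ j) = ∑ i ∈ Finset.range m, u.coeff i * l (i + j) := by
  rcases eq_or_ne u 0 with rfl | h0
  · simp
  have h1 : u.natDegree < m := (Polynomial.natDegree_lt_iff_degree_lt h0).2 hu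
  rw [mul_comm, d1_phi_mul l (X ^ j) u h1]
  refine Finset.sum_congr rfl fun i _ => ?_
  rw [← pow_add, d1_phi_monomial, add_comm]

theorem d1_pseudo {G : ℤ[X]} (hG : G ≠ 0) : ∀ (n : ℕ) (u : ℤ[X]), u.natDegree < n →
    ∃ (d : ℤ) (h ρ : ℤ[X]), d ≠ 0 ∧ C d * u = G * h + ρ ∧ ρ.degree < G.degree ∧
      (h = 0 ∨ h.natDegree + G.natDegree ≤ u.natDegree) := by
  intro n
  induction n with
  | zero => intro u hu; omega
  | succ n ih =>
    intro u hu
    by_cases hlt : u.degree < G.degree
    · exact ⟨1, 0, u, one_ne_zero, by simp, hlt, Or.inl rfl⟩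
    have hu0 : u ≠ 0 := by
      rintro rfl
      exact hlt (by rw [degree_zero]; exact bot_lt_iff_ne_bot.2 (by rwa [ne_eq, degree_eq_bot]))
    have hle : G.natDegree ≤ u.natDegree := natDegree_le_natDegree (not_lt.1 hlt)
    obtain ⟨s, hs⟩ := Nat.exists_eq_add_of_le hle
    set u1 : ℤ[X] := C G.leadingCoeff * u - G * (C u.leadingCoeff * X ^ s) with hu1
    have hlc : G.leadingCoeff ≠ 0 := leadingCoeff_ne_zero.2 hG
    have hdeg : u1 = 0 ∨ u1.natDegree < u.natDegree := by
      by_cases h0 : u1 = 0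
      · exact Or.inl h0
      right
      have h1 : u1.natDegree ≤ u.natDegree := by
        rw [hu1]
        refine (natDegree_sub_le _ _).trans (max_le (natDegree_C_mul_le _ _) ?_)
        refine natDegree_mul_le.trans ?_
        have := natDegree_C_mul_X_pow_le u.leadingCoeff s
        omega
      rcases h1.lt_or_eq with h2 | h2
      · exact h2
      exfalso
      have h3 : u1.coeff u.natDegree = 0 := by
        rw [hu1, coeff_sub, coeff_C_mul, ← mul_assoc, mul_comm G, mul_assoc, coeff_C_mul, hs,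
          coeff_mul_X_pow]
        have : u.coeff (G.natDegree + s) = u.leadingCoeff := by rw [← hs]; rfl
        rw [this]
        have : G.coeff G.natDegree = G.leadingCoeff := rfl
        rw [this]
        ring
      have h4 : u1.leadingCoeff = 0 := by
        rw [leadingCoeff, h2]
        exact h3
      exact h0 (leadingCoeff_eq_zero.1 h4)
    rcases hdeg with h0 | h0
    · refine ⟨G.leadingCoeff, C u.leadingCoeff * X ^ s, 0, hlc, ?_, ?_, Or.inr ?_⟩
      · rw [add_zero]
        exact sub_eq_zero.1 h0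
      · rw [degree_zero]
        exact bot_lt_iff_ne_bot.2 (by rwa [ne_eq, degree_eq_bot])
      · have := natDegree_C_mul_X_pow_le u.leadingCoeff s
        omega
    · obtain ⟨d, h, ρ, hd, he, hρ, hh⟩ := ih u1 (by omega)
      refine ⟨d * G.leadingCoeff, h + C (d * u.leadingCoeff) * X ^ s, ρ, mul_ne_zero hd hlc, ?_, hρ,
        Or.inr ?_⟩
      · have h5 : C d * u1 = C d * C G.leadingCoeff * u - G * (C d * C u.leadingCoeff * X ^ s) := by
          rw [hu1]
          ring
        rw [h5] at he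
        rw [C_mul, C_mul]
        linear_combination he
      · have h6 := natDegree_C_mul_X_pow_le (d * u.leadingCoeff) s
        have h7 := natDegree_add_le h (C (d * u.leadingCoeff) * X ^ s)
        have h8 : h.natDegree + G.natDegree ≤ u.natDegree := by
          rcases hh with rfl | hh
          · rw [natDegree_zero]
            omega
          · omega
        rcases max_cases h.natDegree (C (d * u.leadingCoeff) * X ^ s : ℤ[X]).natDegree with h9 | h9 <;>
          omega

theorem d1_kernel {m : ℕ} (hm : 1 ≤ m) (l : ℕ → ℤ) (hl : ∃ i < 2 * m - 1, l i ≠ 0) :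
    ∃ (k r : ℕ) (G : ℤ[X]), k + r = m ∧ 1 ≤ k ∧ G ≠ 0 ∧ G.natDegree ≤ k ∧
      ∀ u : ℤ[X], u.degree < m →
        ((∀ j < m, ∑ i ∈ Finset.range m, u.coeff i * l (i + j) = 0) ↔
          ∃ h : ℤ[X], h.degree < r ∧ u = G * h) := by
  classical
  set φ := d1_phi l with hφ
  have hK : ∀ u : ℤ[X], u.degree < m →
      ((∀ j < m, ∑ i ∈ Finset.range m, u.coeff i * l (i + j) = 0) ↔
        ∀ j < m, φ (u * X ^ j) = 0) := by
    intro u hu
    refine forall_congr' fun j => forall_congr' fun _ => ?_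
    rw [hφ, d1_phi_coeff l hu]
  set K : ℤ[X] → Prop := fun u => u.degree < m ∧ ∀ j < m, φ (u * X ^ j) = 0 with hKdef
  by_cases hex : ∃ u, u ≠ 0 ∧ K u
  swap
  · push Not at hex
    refine ⟨m, 0, 1, by omega, hm, one_ne_zero, by simp, fun u hu => ?_⟩
    rw [hK u hu]
    constructor
    · intro h
      have h0 : u = 0 := by
        by_contra h0
        exact hex u h0 ⟨hu, h⟩
      exact ⟨0, by simp, by rw [h0, mul_zero]⟩
    · rintro ⟨h, hh, rfl⟩ j _
      have h0 : h = 0 := by
        have : h.degree < (0 : ℕ) := by exact_mod_cast hh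
        exact degree_eq_bot.1 (Polynomial.degree_lt_iff_coeff_zero h 0 |>.1 this |> fun h1 => by
          rw [degree_eq_bot]; ext n; rw [h1 n (Nat.zero_le _), coeff_zero])
      rw [h0, mul_zero, zero_mul, map_zero]
  -- degrees
  have hP : ∃ e, ∃ u, u ≠ 0 ∧ K u ∧ u.natDegree = e := by
    obtain ⟨u, h1, h2⟩ := hex
    exact ⟨_, u, h1, h2, rfl⟩
  obtain ⟨u₀, hu₀, hKu₀, he⟩ := Nat.find_spec hP
  set e := Nat.find hP with hedef
  have hmin : ∀ u, u ≠ 0 → K u → e ≤ u.natDegree := fun u h1 h2 =>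
    Nat.find_min' hP ⟨u, h1, h2, rfl⟩
  have hlt : ∀ u, u ≠ 0 → K u → u.natDegree < m := fun u h1 h2 =>
    (natDegree_lt_iff_degree_lt h1).2 h2.1
  obtain ⟨w, hw, hKw, hmax⟩ : ∃ w, w ≠ 0 ∧ K w ∧ ∀ u, u ≠ 0 → K u → u.natDegree ≤ w.natDegree := by
    have hQ : ∃ d, ∃ u, u ≠ 0 ∧ K u ∧ u.natDegree + d = m := by
      refine ⟨m - u₀.natDegree, u₀, hu₀, hKu₀, ?_⟩
      have := hlt u₀ hu₀ hKu₀
      omega
    obtain ⟨w, h1, h2, h3⟩ := Nat.find_spec hQ
    refine ⟨w, h1, h2, fun u h4 h5 => ?_⟩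
    have h6 := hlt u h4 h5
    have h7 := Nat.find_min' hQ ⟨u, h4, h5, (by omega : u.natDegree + (m - u.natDegree) = m)⟩
    omega
  obtain ⟨i, hi⟩ := Nat.exists_eq_add_of_le (hmin w hw hKw)
  have hwm := hlt w hw hKw
  -- the primitive part
  set G := u₀.primPart with hGdef
  have hG0 : G ≠ 0 := u₀.primPart_ne_zero
  have hc0 : u₀.content ≠ 0 := by rwa [ne_eq, content_eq_zero_iff]
  have hGdeg : G.natDegree = e := by rw [hGdef, natDegree_primPart, he]
  have hGK : ∀ j < m, φ (G * X ^ j) = 0 := by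
    intro j hj
    have h1 := hKu₀.2 j hj
    rw [u₀.eq_C_content_mul_primPart, mul_assoc, hφ, d1_phi_C_mul] at h1
    exact (mul_eq_zero.1 h1).resolve_left hc0
  have hwK : ∀ v : ℤ[X], v.natDegree < m → φ (w * v) = 0 := by
    intro v hv
    rw [hφ, d1_phi_mul l w v hv]
    refine Finset.sum_eq_zero fun j hj => ?_
    rw [← hφ, hKw.2 j (Finset.mem_range.1 hj), mul_zero]
  -- Step 1
  have step1 : ∀ a < m + i, φ (G * X ^ a) = 0 := by
    intro a
    induction a using Nat.strong_induction_on with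
    | _ a ih =>
      intro ha
      by_cases ham : a < m
      · exact hGK a ham
      obtain ⟨b, hb⟩ := Nat.exists_eq_add_of_le (show w.natDegree ≤ a by omega)
      have h1 : φ (w * (G * X ^ b)) = 0 := by
        refine hwK _ ?_
        rw [natDegree_mul_X_pow _ hG0, hGdeg]
        omega
      have h2 : w * (G * X ^ b) = (G * X ^ b) * w := by ring
      rw [h2, hφ, d1_phi_mul l (G * X ^ b) w (Nat.lt_succ_self _), Finset.sum_range_succ,
        Finset.sum_eq_zero, zero_add] at h1
      · have h3 : G * X ^ b * X ^ w.natDegree = G * X ^ a := by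
          rw [hb]
          ring
        rw [h3] at h1
        exact (mul_eq_zero.1 h1).resolve_left (leadingCoeff_ne_zero.2 hw)
      · intro j hj
        rw [Finset.mem_range] at hj
        have h3 : G * X ^ b * X ^ j = G * X ^ (b + j) := by ring
        rw [h3, ← hφ, ih (b + j) (by omega) (by omega), mul_zero]
  -- Step 2
  have step2 : ∀ h : ℤ[X], h.natDegree ≤ i → K (G * h) := by
    intro h hh
    constructor
    · rcases eq_or_ne h 0 with rfl | h0
      · rw [mul_zero, degree_zero]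
        exact WithBot.bot_lt_coe _
      · rw [← natDegree_lt_iff_degree_lt (mul_ne_zero hG0 h0), natDegree_mul hG0 h0, hGdeg]
        omega
    · intro j hj
      have h1 : G * h * X ^ j = (G * X ^ j) * h := by ring
      rw [h1, hφ, d1_phi_mul l (G * X ^ j) h (Nat.lt_succ_of_le hh)]
      refine Finset.sum_eq_zero fun a ha => ?_
      rw [Finset.mem_range] at ha
      have h3 : G * X ^ j * X ^ a = G * X ^ (j + a) := by ring
      rw [h3, ← hφ, step1 _ (by omega), mul_zero]
  -- k ≥ 1
  have hk1 : i + 1 < m := by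
    by_contra hcon
    have hi1 : i + 1 = m := by omega
    have he0 : e = 0 := by omega
    have h1 : G = C (G.coeff 0) := eq_C_of_natDegree_eq_zero (by rw [hGdeg, he0])
    obtain ⟨a, ha, hla⟩ := hl
    have h2 := step1 a (by omega)
    rw [h1, hφ, d1_phi_C_mul, d1_phi_monomial] at h2
    rcases mul_eq_zero.1 h2 with h3 | h3
    · rw [h3, C_0] at h1
      exact hG0 h1
    · exact hla h3
  refine ⟨m - (i + 1), i + 1, G, by omega, by omega, hG0, by omega, fun u hu => ?_⟩
  rw [hK u hu]
  constructor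
  · intro h
    rcases eq_or_ne u 0 with rfl | hu0
    · exact ⟨0, by rw [degree_zero]; exact WithBot.bot_lt_coe _, by rw [mul_zero]⟩
    have hKu : K u := ⟨hu, h⟩
    have h1 := hmin u hu0 hKu
    have h2 := hmax u hu0 hKu
    obtain ⟨d, h', ρ, hd, heq, hρ, hh⟩ := d1_pseudo hG0 _ u (Nat.lt_succ_self _)
    have hh' : h'.natDegree ≤ i := by
      rcases hh with rfl | hh
      · simp
      · omega
    have hKG := step2 h' hh'
    have hρ0 : ρ = 0 := by
      by_contra hρ0
      have hρK : K ρ := by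
        refine ⟨hρ.trans ?_, fun j hj => ?_⟩
        · have : G.degree = (e : WithBot ℕ) := by rw [degree_eq_natDegree hG0, hGdeg]
          rw [this]
          exact_mod_cast (show e < m by omega)
        · have h3 : ρ * X ^ j = C d * (u * X ^ j) - G * h' * X ^ j := by
            rw [← mul_assoc, heq]
            ring
          rw [h3, map_sub, hφ, d1_phi_C_mul, ← hφ, hKu.2 j hj, hKG.2 j hj, mul_zero, sub_zero]
      have h4 := hmin ρ hρ0 hρK
      have h5 : ρ.natDegree < G.natDegree := natDegree_lt_natDegree hρ0 hρ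
      omega
    rw [hρ0, add_zero] at heq
    have hGprim : G.IsPrimitive := isPrimitive_primPart u₀
    have hCd : (C d * u : ℤ[X]) ≠ 0 := mul_ne_zero (by rwa [ne_eq, C_eq_zero]) hu0
    have h6 : G ∣ (C d * u).primPart := (hGprim.dvd_primPart_iff_dvd hCd).2 ⟨h', heq⟩
    rw [primPart_mul hCd] at h6
    have h7 : G ∣ u.primPart := ((isUnit_primPart_C d).dvd_mul_left).1 h6
    obtain ⟨h'', hh''⟩ := (hGprim.dvd_primPart_iff_dvd hu0).1 h7
    refine ⟨h'', ?_, hh''⟩
    have h0 : h'' ≠ 0 := by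
      rintro rfl
      rw [mul_zero] at hh''
      exact hu0 hh''
    rw [← natDegree_lt_iff_degree_lt h0]
    have h8 : u.natDegree = G.natDegree + h''.natDegree := by rw [hh'', natDegree_mul hG0 h0]
    omega
  · rintro ⟨h, hh, rfl⟩
    refine (step2 h ?_).2
    rcases eq_or_ne h 0 with rfl | h0
    · simp
    have := (natDegree_lt_iff_degree_lt h0).2 hh
    omega

end Pool.Agent.Lib.H32P
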