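import Pool.Agent.Lib.H32P.D2a

/-!
# Chunk D2 (M): Gram determinants with respect to a degenerate integral form

`range W = ker H` is saturated, so `d2a_complete` gives `P` with `T = fromCols P W` unimodular. `H W = 0` and `Wᵀ H = 0` (symmetry), so `Tᵀ H T = fromBlocks (Pᵀ H P) 0 0 0`. `H' = Pᵀ H P` has `det H' ≠ 0`:
otherwise `H' x = 0` for an integer `x ≠ 0` (`Matrix.exists_mulVec_eq_zero_iff`), then `Tᵀ (H P x) = (H' x, Wᵀ H P x) = 0`, so `H P x = 0`, `P x = W y`, so `T (x, -y) = 0`, contradiction. So `|det H'| ≥ 1`.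

For real `V`: `V = T (fromRows X Z)` (`T` invertible over `ℝ`), so `fromCols V W = T * fromBlocks X 0 Z 1` and `(det (fromCols V W))² = (det X)²`; and `Vᵀ H V = Xᵀ H' X`, `|det| = (det X)² |det H'| ≥ (det X)²`.
-/

namespace Pool.Agent.Lib.H32P

open Matrix

theorem d2_gram {k r : ℕ} (H : Matrix (Fin k ⊕ Fin r) (Fin k ⊕ Fin r) ℤ) (hs : H.transpose = H)
    (W : Matrix (Fin k ⊕ Fin r) (Fin r) ℤ)
    (hW : ∀ x : Fin k ⊕ Fin r → ℤ, H.mulVec x = 0 ↔ ∃ y, x = W.mulVec y)
    (hinj : ∀ y, W.mulVec y = 0 → y = 0) (V : Matrix (Fin k ⊕ Fin r) (Fin k) ℝ) :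
    (Matrix.fromCols V (W.map (Int.cast : ℤ → ℝ))).det ^ 2 ≤
      |(V.transpose * H.map (Int.cast : ℤ → ℝ) * V).det| := by
  have hsat : ∀ (d : ℤ) (x : Fin k ⊕ Fin r → ℤ), d ≠ 0 → (∃ y, d • x = W.mulVec y) →
      ∃ y, x = W.mulVec y := by
    intro d x hd hy
    rw [← hW] at hy ⊢
    rw [Matrix.mulVec_smul] at hy
    exact (smul_eq_zero.1 hy).resolve_left hd
  obtain ⟨P, hP⟩ := d2a_complete W hsat hinj
  have hHW : H * W = 0 := by
    apply Matrix.ext_of_mulVec_single
    intro i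
    rw [← Matrix.mulVec_mulVec, (hW _).2 ⟨_, rfl⟩, Matrix.zero_mulVec]
  have hWH : W.transpose * H = 0 := by
    rw [← hs, ← Matrix.transpose_mul, hHW, Matrix.transpose_zero]
  -- the determinant of the nondegenerate part
  have hdet : (P.transpose * H * P).det ≠ 0 := by
    intro h0
    obtain ⟨x, hx, hx0⟩ := Matrix.exists_mulVec_eq_zero_iff.2 h0
    have h1 : (Matrix.fromCols P W).transpose.mulVec (H.mulVec (P.mulVec x)) = 0 := by
      have a1 : P.transpose.mulVec (H.mulVec (P.mulVec x)) = 0 := by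
        rw [Matrix.mulVec_mulVec, Matrix.mulVec_mulVec, hx0]
      have a2 : W.transpose.mulVec (H.mulVec (P.mulVec x)) = 0 := by
        rw [Matrix.mulVec_mulVec, hWH, Matrix.zero_mulVec]
      rw [Matrix.transpose_fromCols, Matrix.fromRows_mulVec, a1, a2]
      ext i
      rcases i with i | i <;> simp
    have hT : IsUnit (Matrix.fromCols P W).transpose.det := by rwa [Matrix.det_transpose]
    have h2 : H.mulVec (P.mulVec x) = 0 := by
      by_contra hne
      have := Matrix.exists_mulVec_eq_zero_iff.1 ⟨_, hne, h1⟩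
      rw [this] at hT
      exact not_isUnit_zero hT
    obtain ⟨y, hy⟩ := (hW _).1 h2
    have h3 : (Matrix.fromCols P W).mulVec (Sum.elim x (-y)) = 0 := by
      rw [Matrix.fromCols_mulVec_sumElim, hy, Matrix.mulVec_neg, add_neg_cancel]
    have h4 : Sum.elim x (-y) ≠ 0 := by
      intro h
      apply hx
      ext i
      have := congrFun h (Sum.inl i)
      simpa using this
    have := Matrix.exists_mulVec_eq_zero_iff.1 ⟨_, h4, h3⟩
    rw [this] at hP
    exact not_isUnit_zero hP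
  have hdet1 : (1 : ℝ) ≤ |((P.transpose * H * P).det : ℝ)| := by
    rw [← Int.cast_abs]
    exact_mod_cast Int.one_le_abs hdet
  -- real matrices
  set c : ℤ →+* ℝ := Int.castRingHom ℝ with hc
  have hmap : ∀ {m n : Type} (M : Matrix m n ℤ), M.map (Int.cast : ℤ → ℝ) = M.map c := fun _ => rfl
  rw [hmap W, hmap H]
  set PR := P.map c with hPR
  set WR := W.map c with hWR
  set HR := H.map c with hHR
  have hHWR : HR * WR = 0 := by
    rw [hHR, hWR, ← Matrix.map_mul, hHW]
    ext i j; simp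
  have hWHR : WR.transpose * HR = 0 := by
    rw [hHR, hWR, ← Matrix.transpose_map, ← Matrix.map_mul, hWH]
    ext i j; simp
  have hTR : Matrix.fromCols PR WR = (Matrix.fromCols P W).map c := by
    rw [Matrix.fromCols_map]
  have hdT : (Matrix.fromCols PR WR).det ^ 2 = 1 := by
    rw [hTR]
    have e : ((Matrix.fromCols P W).map c).det = c (Matrix.fromCols P W).det :=
      (RingHom.map_det c _).symm
    rw [e]
    rcases Int.isUnit_iff.1 hP with h | h <;> rw [h] <;> simp
  have hTu : IsUnit (Matrix.fromCols PR WR).det := by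
    rw [isUnit_iff_ne_zero]
    intro h
    rw [h] at hdT
    norm_num at hdT
  obtain ⟨Z, hZ⟩ : ∃ Z : Matrix (Fin k ⊕ Fin r) (Fin k) ℝ, Matrix.fromCols PR WR * Z = V :=
    ⟨(Matrix.fromCols PR WR)⁻¹ * V, by
      rw [← Matrix.mul_assoc, Matrix.mul_nonsing_inv _ hTu, Matrix.one_mul]⟩
  obtain ⟨X, hX⟩ : ∃ X, X = Z.toRows₁ := ⟨_, rfl⟩
  obtain ⟨Y, hY⟩ : ∃ Y, Y = Z.toRows₂ := ⟨_, rfl⟩
  have hZ2 : Z = Matrix.fromRows X Y := by rw [hX, hY, Matrix.fromRows_toRows]
  have hV : V = PR * X + WR * Y := by rw [← hZ, hZ2, Matrix.fromCols_mul_fromRows]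
  have e1 : Matrix.fromCols V WR =
      Matrix.fromCols PR WR * Matrix.fromBlocks X 0 Y 1 := by
    rw [Matrix.fromCols_mul_fromBlocks, Matrix.mul_zero, Matrix.mul_one, zero_add, ← hV]
  have e2 : V.transpose * HR * V = X.transpose * (PR.transpose * HR * PR) * X := by
    rw [hV, Matrix.transpose_add, Matrix.transpose_mul, Matrix.transpose_mul, Matrix.add_mul,
      Matrix.mul_assoc Y.transpose, hWHR, Matrix.mul_zero, add_zero, Matrix.mul_add,
      Matrix.mul_assoc (X.transpose * PR.transpose) HR (WR * Y), ← Matrix.mul_assoc HR WR Y, hHWR,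
      Matrix.zero_mul, Matrix.mul_zero, add_zero]
    simp only [Matrix.mul_assoc]
  have e3 : (PR.transpose * HR * PR).det = ((P.transpose * H * P).det : ℝ) := by
    rw [hPR, hHR, ← Matrix.transpose_map, ← Matrix.map_mul, ← Matrix.map_mul]
    exact (RingHom.map_det c _).symm
  rw [e1, Matrix.det_mul, Matrix.det_fromBlocks_zero₁₂, Matrix.det_one, mul_one, mul_pow, hdT,
    one_mul, e2, Matrix.det_mul, Matrix.det_mul, Matrix.det_transpose, e3, abs_mul, abs_mul]
  have e4 : |X.det| * |((P.transpose * H * P).det : ℝ)| * |X.det| =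
      X.det ^ 2 * |((P.transpose * H * P).det : ℝ)| := by
    rw [← sq_abs X.det]
    ring
  rw [e4]
  nlinarith [sq_nonneg X.det]

end Pool.Agent.Lib.H32P
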