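import Pool.Agent.Lib.H32P.V1

/-!
# Chunk D3 (M/L): the determinant of the family `A h_i` (`i < k`), `X^j G` (`j < r`)

`A = mA y = ∏ (X - y_a)` (degree `r`), `h_i = mh z i` (degree `k - 1`), `deg G ≤ k`; all polynomials have degree `< k + r`. The columns are the coefficient vectors.

Proof by evaluation: let `Ψ` be the linear map from polynomials of degree `< k + r` to `ℝ^r × ℝ^k`, `p ↦ ((p(y_a))_a, (q(z_j))_j)`, `p = A q + rem` (`divByMonic`). Then `Ψ(A h_i) = (0, h_i(z_i) e_i)` and `Ψ(X^j G) = ((y_a^j G(y_a))_a, *)`, so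
`det (Ψ M) = ± ∏ h_i(z_i) · ∏ G(y_a) · det vandermonde(y)`. On the basis `A X^i (i < k), X^j (j < r)` (unitriangular with respect to the monomial basis) `Ψ` has determinant `± det vandermonde(z) · det vandermonde(y)`.
As `vandermonde(y) ≠ 0` (`y` injective): `(det M)² det vandermonde(z)² = ∏ h_i(z_i)² ∏ G(y_a)²`, and `∏ |h_i(z_i)| = det vandermonde(z)²` (`v1_sq`). If `z` is not injective both sides are `0` (two equal `h_i`).

Alternative: factor the family as (`X^i A`, `X^j G`) times `fromBlocks (coefficients of h) 0 0 1`; the first factor is a Sylvester matrix with determinant `± resultant A G r k = ± ∏ G(y_a)`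
(`Polynomial.resultant`, `Polynomial.sylvester`, `resultant_prod_left`/`resultant_X_sub_C_left` in `Mathlib.RingTheory.Polynomial.Resultant.Basic`; no injectivity needed), and the matrix of coefficients of the `h_i` times
the Vandermonde matrix of `z` is the diagonal matrix of the `h_i(z_i)`.
-/

namespace Pool.Agent.Lib.H32P

open Polynomial

theorem d3_coeff (g : ℝ[X]) {n : ℕ} (hg : g.natDegree ≤ n) (l p : ℕ) :
    (if p ∈ Set.Icc l (l + n) then g.coeff (p - l) else 0) = (X ^ l * g).coeff p := by
  rw [coeff_X_pow_mul']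
  simp only [Set.mem_Icc]
  by_cases h1 : l ≤ p
  · by_cases h2 : p ≤ l + n
    · simp [h1, h2]
    · simp only [h1, h2, and_false, if_false, if_true]
      rw [coeff_eq_zero_of_natDegree_lt]
      omega
  · simp [h1]

theorem d3_mul_coeff (A h : ℝ[X]) {k : ℕ} (hk : h.natDegree < k) (p : ℕ) :
    (A * h).coeff p = ∑ l : Fin k, (X ^ (l : ℕ) * A).coeff p * h.coeff l := by
  have h1 : A * h = ∑ l ∈ Finset.range k, C (h.coeff l) * (X ^ l * A) := by
    conv_lhs => rw [h.as_sum_range' k hk, Finset.mul_sum]
    refine Finset.sum_congr rfl fun l _ => ?_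
    rw [← C_mul_X_pow_eq_monomial]
    ring
  rw [h1, finsetSum_coeff, Finset.sum_range]
  refine Finset.sum_congr rfl fun l _ => ?_
  rw [coeff_C_mul, mul_comm]

theorem d3_mA_natDegree {r : ℕ} (y : Fin r → ℝ) : (mA y).natDegree = r := by
  unfold mA
  rw [natDegree_prod_of_monic _ _ fun i _ => monic_X_sub_C _]
  simp

theorem d3_mh_natDegree {k : ℕ} (z : Fin k → ℝ) (i : Fin k) : (mh z i).natDegree < k := by
  unfold mh
  rw [natDegree_prod_of_monic _ _ fun i _ => monic_X_sub_C _]
  simp only [natDegree_X_sub_C, Finset.sum_const, smul_eq_mul, mul_one]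
  rw [Finset.card_erase_of_mem (Finset.mem_univ _), Finset.card_univ, Fintype.card_fin]
  have := i.pos
  omega

theorem d3_res {k r : ℕ} (y : Fin r → ℝ) (G : ℝ[X]) (hG : G.natDegree ≤ k) :
    resultant (mA y) G r k = ∏ a, G.eval (y a) := by
  have h := resultant_prod_left (Finset.univ : Finset (Fin r)) (fun a => X - C (y a)) G k
    (by simp) hG
  have h2 : (∏ a, (X - C (y a))).natDegree = r := d3_mA_natDegree y
  rw [h2] at h
  unfold mA
  rw [h]
  refine Finset.prod_congr rfl fun a _ => ?_
  rw [natDegree_X_sub_C]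
  exact resultant_X_sub_C_left G k (y a) hG

/-- the matrix of the coefficients of the `h_i` -/
noncomputable def d3_H {k : ℕ} (z : Fin k → ℝ) : Matrix (Fin k) (Fin k) ℝ :=
  Matrix.of fun l i => (mh z i).coeff l

theorem d3_H_det {k : ℕ} (z : Fin k → ℝ) :
    (d3_H z).det ^ 2 = ∏ i, ∏ j ∈ Finset.univ.erase i, |z i - z j| := by
  have h1 : Matrix.vandermonde z * d3_H z
      = Matrix.diagonal fun i => ∏ j ∈ Finset.univ.erase i, (z i - z j) := by
    ext i i'
    rw [Matrix.mul_apply, Matrix.diagonal_apply]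
    have e1 : ∑ l, Matrix.vandermonde z i l * d3_H z l i' = (mh z i').eval (z i) := by
      rw [eval_eq_sum_range' (d3_mh_natDegree z i'), Finset.sum_range]
      refine Finset.sum_congr rfl fun l _ => ?_
      simp only [Matrix.vandermonde_apply, d3_H, Matrix.of_apply]
      ring
    rw [e1]
    unfold mh
    rw [eval_prod]
    simp only [eval_sub, eval_X, eval_C]
    by_cases h : i = i'
    · subst h; simp
    · rw [if_neg h]
      exact Finset.prod_eq_zero (Finset.mem_erase.2 ⟨h, Finset.mem_univ i⟩) (sub_self _)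
  set D : ℝ := ∏ i, ∏ j ∈ Finset.univ.erase i, |z i - z j| with hD
  have h2 : (Matrix.vandermonde z).det ^ 2 * (d3_H z).det ^ 2 = D ^ 2 := by
    rw [← mul_pow, ← Matrix.det_mul, h1, Matrix.det_diagonal, ← sq_abs, Finset.abs_prod]
    simp only [Finset.abs_prod]
    rfl
  rw [v1_sq] at h2
  by_cases h0 : D = 0
  · -- two equal points
    rw [h0]
    have : ∃ i, ∃ j ∈ Finset.univ.erase i, |z i - z j| = 0 := by
      rw [hD, Finset.prod_eq_zero_iff] at h0
      obtain ⟨i, _, hi⟩ := h0
      rw [Finset.prod_eq_zero_iff] at hi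
      exact ⟨i, hi⟩
    obtain ⟨i, j, hj, hij⟩ := this
    have hne : i ≠ j := by
      have := Finset.ne_of_mem_erase hj
      exact this.symm
    have hz : z i = z j := by
      have := abs_eq_zero.1 hij
      linarith
    have hmh : mh z i = mh z j := by
      have a1 : (X - C (z i)) * mh z i = mA z := by
        unfold mh mA
        exact Finset.mul_prod_erase _ (fun j => X - C (z j)) (Finset.mem_univ i)
      have a2 : (X - C (z j)) * mh z j = mA z := by
        unfold mh mA
        exact Finset.mul_prod_erase _ (fun j => X - C (z j)) (Finset.mem_univ j)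
      rw [← a2, hz] at a1
      exact mul_left_cancel₀ (X_sub_C_ne_zero _) a1
    have : (d3_H z).det = 0 := by
      apply Matrix.det_zero_of_column_eq hne
      intro l
      simp only [d3_H, Matrix.of_apply, hmh]
    rw [this]
    ring
  · have : D * (d3_H z).det ^ 2 = D * D := by rw [h2]; ring
    exact mul_left_cancel₀ h0 this

theorem d3_det {k r : ℕ} (y : Fin r → ℝ) (hy : Function.Injective y) (z : Fin k → ℝ) (G : ℝ[X]) (hG : G.natDegree ≤ k) :
    (Matrix.of fun (p q : Fin k ⊕ Fin r) =>
      (Sum.elim (fun i => mA y * mh z i) (fun j => X ^ (j : ℕ) * G) q).coeff (finSumFinEquiv p : Fin (k + r))).det ^ 2 =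
    (∏ i, ∏ j ∈ Finset.univ.erase i, |z i - z j|) * (∏ a, G.eval (y a) ^ 2) := by
  set S : Matrix (Fin k ⊕ Fin r) (Fin k ⊕ Fin r) ℝ :=
    (sylvester G (mA y) k r).submatrix finSumFinEquiv finSumFinEquiv with hS
  have hfac : (Matrix.of fun (p q : Fin k ⊕ Fin r) =>
      (Sum.elim (fun i => mA y * mh z i) (fun j => X ^ (j : ℕ) * G) q).coeff
        (finSumFinEquiv p : Fin (k + r))) = S * Matrix.fromBlocks (d3_H z) 0 0 1 := by
    ext p q
    rw [Matrix.mul_apply, Fintype.sum_sum_type]
    rcases q with i | j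
    · change (mA y * mh z i).coeff (finSumFinEquiv p : Fin (k + r)) = _
      simp only [Matrix.fromBlocks_apply₁₁,
        Matrix.fromBlocks_apply₂₁, Matrix.zero_apply, mul_zero, Finset.sum_const_zero, add_zero]
      rw [d3_mul_coeff _ _ (d3_mh_natDegree z i)]
      refine Finset.sum_congr rfl fun l _ => ?_
      congr 1
      rw [hS, Matrix.submatrix_apply, finSumFinEquiv_apply_left, sylvester, Matrix.of_apply,
        Fin.addCases_left]
      exact (d3_coeff (mA y) (d3_mA_natDegree y).le _ _).symm
    · change (X ^ (j : ℕ) * G).coeff (finSumFinEquiv p : Fin (k + r)) = _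
      simp only [Matrix.fromBlocks_apply₁₂,
        Matrix.fromBlocks_apply₂₂, Matrix.zero_apply, mul_zero, Finset.sum_const_zero, zero_add,
        Matrix.one_apply, mul_ite, mul_one, Finset.sum_ite_eq', Finset.mem_univ, if_true]
      rw [hS, Matrix.submatrix_apply, finSumFinEquiv_apply_right, sylvester, Matrix.of_apply,
        Fin.addCases_right]
      exact (d3_coeff G hG _ _).symm
  rw [hfac, Matrix.det_mul, Matrix.det_fromBlocks_zero₂₁, Matrix.det_one, mul_one, mul_pow,
    d3_H_det, hS, Matrix.det_submatrix_equiv_self]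
  have h1 : (sylvester G (mA y) k r).det ^ 2 = (∏ a, G.eval (y a)) ^ 2 := by
    change (resultant G (mA y) k r) ^ 2 = _
    rw [resultant_comm, mul_pow, ← pow_mul, mul_comm (k * r) 2, pow_mul, d3_res y G hG]
    simp
  rw [h1, ← Finset.prod_pow, mul_comm]

end Pool.Agent.Lib.H32P
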