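import Pool.Agent.Lib.H32P.D0
import Pool.Agent.Lib.H32P.D1
import Pool.Agent.Lib.H32P.D2
import Pool.Agent.Lib.H32P.D3

/-!
# Chunk D23 (M/L): lower bound for Gram determinants of Hankel forms

Take `k, r, G` from `d1_kernel` and index `{0..m-1}` by `Fin k ⊕ Fin r` through `finSumFinEquiv` (`k + r = m`). `H p q = l (p + q)`, `W q j = (X^j G).coeff q`, `V q i = (mA y * mh z i).coeff q` (degree `r + k - 1 < m`).
`hW` of `d2_gram` is the last clause of `d1_kernel` (`x` = coefficients of `u`, `y` = coefficients of `h`, `u = G h = ∑ h_j X^j G`). `hinj`: `G h = 0 → h = 0`. `d2_gram` and `d3_det` give the claim, as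
`(Vᵀ H V)_{ij} = Lf l (2m-1) (v_i v_j)` by `d0_mul`. (`aeval (y a) G = (G.map (Int.castRingHom ℝ)).eval (y a)`.)
-/

namespace Pool.Agent.Lib.H32P

open Polynomial

/-- The polynomial with coefficients `y`. -/
noncomputable def d23_pol {r : ℕ} (y : Fin r → ℤ) : ℤ[X] := ∑ j : Fin r, C (y j) * X ^ (j : ℕ)

theorem d23_pol_coeff {r : ℕ} (y : Fin r → ℤ) (j : Fin r) : (d23_pol y).coeff j = y j := by
  rw [d23_pol, finsetSum_coeff, Finset.sum_eq_single j]
  · simp
  · intro b _ hb
    rw [coeff_C_mul_X_pow, if_neg]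
    intro h
    exact hb (Fin.ext h.symm)
  · simp

theorem d23_pol_degree {r : ℕ} (y : Fin r → ℤ) : (d23_pol y).degree < r := by
  rw [d23_pol, Polynomial.degree_lt_iff_coeff_zero]
  intro n hn
  rw [finsetSum_coeff]
  refine Finset.sum_eq_zero fun j _ => ?_
  rw [coeff_C_mul_X_pow, if_neg]
  omega

theorem d23_pol_eq {r : ℕ} (h : ℤ[X]) (hh : h.degree < r) : h = d23_pol fun j : Fin r => h.coeff j := by
  ext n
  by_cases hn : n < r
  · exact (d23_pol_coeff (fun j : Fin r => h.coeff j) ⟨n, hn⟩).symm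
  · rw [(Polynomial.degree_lt_iff_coeff_zero _ _).1 hh n (by omega),
      (Polynomial.degree_lt_iff_coeff_zero _ _).1 (d23_pol_degree _) n (by omega)]

theorem d23_mA_monic {r : ℕ} (y : Fin r → ℝ) : (mA y).Monic := by
  unfold mA
  exact monic_prod_of_monic _ _ fun a _ => monic_X_sub_C _

theorem d23_mA_natDegree {r : ℕ} (y : Fin r → ℝ) : (mA y).natDegree = r := by
  unfold mA
  rw [natDegree_prod_of_monic _ _ fun a _ => monic_X_sub_C _]
  simp

theorem d23_mh_monic {k : ℕ} (z : Fin k → ℝ) (i : Fin k) : (mh z i).Monic := by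
  unfold mh
  exact monic_prod_of_monic _ _ fun a _ => monic_X_sub_C _

theorem d23_mh_natDegree {k : ℕ} (z : Fin k → ℝ) (i : Fin k) : (mh z i).natDegree = k - 1 := by
  unfold mh
  rw [natDegree_prod_of_monic _ _ fun a _ => monic_X_sub_C _]
  simp [Finset.card_erase_of_mem]

theorem d23_degree {k r : ℕ} (y : Fin r → ℝ) (z : Fin k → ℝ) (i : Fin k) :
    (mA y * mh z i).degree < (k + r : ℕ) := by
  have h : (mA y * mh z i).Monic := (d23_mA_monic y).mul (d23_mh_monic z i)
  rw [← natDegree_lt_iff_degree_lt h.ne_zero, (d23_mA_monic y).natDegree_mul (d23_mh_monic z i),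
    d23_mA_natDegree, d23_mh_natDegree]
  have := i.2
  omega

theorem d23_gram {m : ℕ} (hm : 1 ≤ m) (l : ℕ → ℤ) (hl : ∃ i < 2 * m - 1, l i ≠ 0) :
    ∃ (k r : ℕ) (G : ℤ[X]), k + r = m ∧ 1 ≤ k ∧ G ≠ 0 ∧ G.natDegree ≤ k ∧
      ∀ (y : Fin r → ℝ) (z : Fin k → ℝ), Function.Injective y →
        (∏ i, ∏ j ∈ Finset.univ.erase i, |z i - z j|) * (∏ a, (aeval (y a) G) ^ 2) ≤
          |(Matrix.of fun i j : Fin k => Lf l (2 * m - 1) (mA y * mh z i * (mA y * mh z j))).det| := by
  obtain ⟨k, r, G, hkr, hk, hG, hGk, hker⟩ := d1_kernel hm l hl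
  refine ⟨k, r, G, hkr, hk, hG, hGk, fun y z hy => ?_⟩
  subst hkr
  -- the matrices
  set H : Matrix (Fin k ⊕ Fin r) (Fin k ⊕ Fin r) ℤ :=
    Matrix.of fun p q => l ((finSumFinEquiv p : Fin (k + r)) + (finSumFinEquiv q : Fin (k + r)) : ℕ)
    with hH
  set W : Matrix (Fin k ⊕ Fin r) (Fin r) ℤ :=
    Matrix.of fun q j => (X ^ (j : ℕ) * G).coeff (finSumFinEquiv q : Fin (k + r)) with hW
  set V : Matrix (Fin k ⊕ Fin r) (Fin k) ℝ :=
    Matrix.of fun q i => (mA y * mh z i).coeff (finSumFinEquiv q : Fin (k + r)) with hV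
  have hWy : ∀ (h : Fin r → ℤ) (q : Fin k ⊕ Fin r),
      W.mulVec h q = (G * d23_pol h).coeff (finSumFinEquiv q : Fin (k + r)) := by
    intro h q
    rw [Matrix.mulVec, dotProduct, d23_pol, Finset.mul_sum, finsetSum_coeff]
    refine Finset.sum_congr rfl fun j _ => ?_
    rw [hW, Matrix.of_apply, mul_left_comm, coeff_C_mul, mul_comm, mul_comm (X ^ (j : ℕ)) G]
  have hdegG : ∀ h : Fin r → ℤ, (G * d23_pol h).degree < (k + r : ℕ) := by
    intro h
    rcases eq_or_ne (d23_pol h) 0 with h0 | h0
    · rw [h0, mul_zero, degree_zero]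
      exact WithBot.bot_lt_coe _
    · rw [← natDegree_lt_iff_degree_lt (mul_ne_zero hG h0), natDegree_mul hG h0]
      have := (natDegree_lt_iff_degree_lt h0).2 (d23_pol_degree h)
      omega
  have h1 := d2_gram H ?_ W ?_ ?_ V
  · -- conclusion
    have h2 := d3_det y hy z (G.map (Int.castRingHom ℝ)) ((natDegree_map_le).trans hGk)
    have h3 : (Matrix.of fun (p q : Fin k ⊕ Fin r) =>
        (Sum.elim (fun i => mA y * mh z i) (fun j => X ^ (j : ℕ) * G.map (Int.castRingHom ℝ)) q).coeff
          (finSumFinEquiv p : Fin (k + r))) =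
        Matrix.fromCols V (W.map (Int.cast : ℤ → ℝ)) := by
      ext p q
      rcases q with q | q
      · rw [Matrix.of_apply, Matrix.fromCols_apply_inl, hV, Matrix.of_apply]
        rfl
      · rw [Matrix.of_apply, Matrix.fromCols_apply_inr, Matrix.map_apply, hW,
          Matrix.of_apply]
        change (X ^ (q : ℕ) * G.map (Int.castRingHom ℝ) : ℝ[X]).coeff _ = _
        have h4 : (X ^ (q : ℕ) * G.map (Int.castRingHom ℝ) : ℝ[X]) =
            (X ^ (q : ℕ) * G).map (Int.castRingHom ℝ) := by simp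
        rw [h4, coeff_map]
        rfl
    rw [h3] at h2
    have h5 : ∀ a, (G.map (Int.castRingHom ℝ)).eval (y a) = aeval (y a) G := by
      intro a
      rw [eval_map, aeval_def]
      rfl
    simp only [h5] at h2
    rw [← h2]
    refine h1.trans (le_of_eq ?_)
    have h6 : V.transpose * H.map (Int.cast : ℤ → ℝ) * V =
        Matrix.of fun i j : Fin k => Lf l (2 * (k + r) - 1) (mA y * mh z i * (mA y * mh z j)) := by
      ext i j
      rw [Matrix.of_apply, d0_mul l hm _ _ (d23_degree y z i) (d23_degree y z j), Matrix.mul_apply]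
      simp only [Matrix.mul_apply, Matrix.transpose_apply, Matrix.map_apply, Finset.sum_mul]
      rw [Finset.sum_comm, Finset.sum_range, ← Equiv.sum_comp finSumFinEquiv]
      refine Finset.sum_congr rfl fun p _ => ?_
      rw [Finset.sum_range, ← Equiv.sum_comp finSumFinEquiv]
      refine Finset.sum_congr rfl fun q _ => ?_
      rw [hV, hH]
      simp only [Matrix.of_apply]
      ring
    rw [h6]
  · -- symmetric
    ext p q
    rw [Matrix.transpose_apply, hH, Matrix.of_apply, Matrix.of_apply, add_comm]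
  · -- kernel
    intro x
    set u : ℤ[X] := d23_pol fun j : Fin (k + r) => x (finSumFinEquiv.symm j) with hu
    have hux : ∀ q, u.coeff (finSumFinEquiv q : Fin (k + r)) = x q := by
      intro q
      rw [hu, d23_pol_coeff, Equiv.symm_apply_apply]
    have hk1 := hker u (d23_pol_degree _)
    have h2 : H.mulVec x = 0 ↔
        ∀ j < k + r, ∑ i ∈ Finset.range (k + r), u.coeff i * l (i + j) = 0 := by
      constructor
      · intro h j hj
        have h3 := congrFun h (finSumFinEquiv.symm ⟨j, hj⟩)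
        rw [Matrix.mulVec, dotProduct] at h3
        rw [Finset.sum_range, ← Equiv.sum_comp finSumFinEquiv]
        rw [Pi.zero_apply] at h3
        rw [← h3]
        refine Finset.sum_congr rfl fun p _ => ?_
        rw [hux, hH, Matrix.of_apply, Equiv.apply_symm_apply, mul_comm, add_comm]
      · intro h
        funext q
        have h3 := h (finSumFinEquiv q : Fin (k + r)) (finSumFinEquiv q).2
        rw [Finset.sum_range, ← Equiv.sum_comp finSumFinEquiv] at h3
        rw [Matrix.mulVec, dotProduct, Pi.zero_apply, ← h3]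
        refine Finset.sum_congr rfl fun p _ => ?_
        rw [hux, hH, Matrix.of_apply, mul_comm, add_comm]
    rw [h2, hk1]
    constructor
    · rintro ⟨h, hh, he⟩
      refine ⟨fun j : Fin r => h.coeff j, ?_⟩
      funext q
      rw [hWy, ← d23_pol_eq h hh, ← he, hux]
    · rintro ⟨h, he⟩
      refine ⟨d23_pol h, d23_pol_degree h, ?_⟩
      ext n
      by_cases hn : n < k + r
      · have h3 := hux (finSumFinEquiv.symm ⟨n, hn⟩)
        rw [Equiv.apply_symm_apply] at h3
        have h4 := hWy h (finSumFinEquiv.symm ⟨n, hn⟩)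
        rw [Equiv.apply_symm_apply] at h4
        change u.coeff n = _ at h3
        change _ = (G * d23_pol h).coeff n at h4
        rw [h3, ← h4, he]
      · rw [(Polynomial.degree_lt_iff_coeff_zero _ _).1 (d23_pol_degree _) n (by omega),
          (Polynomial.degree_lt_iff_coeff_zero _ _).1 (hdegG h) n (by omega)]
  · -- injectivity
    intro h h0
    have h1 : G * d23_pol h = 0 := by
      ext n
      by_cases hn : n < k + r
      · have h4 := hWy h (finSumFinEquiv.symm ⟨n, hn⟩)
        rw [Equiv.apply_symm_apply, h0] at h4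
        rw [coeff_zero]
        exact h4.symm
      · rw [(Polynomial.degree_lt_iff_coeff_zero _ _).1 (hdegG h) n (by omega), coeff_zero]
    have h2 : d23_pol h = 0 := (mul_eq_zero.1 h1).resolve_left hG
    funext j
    rw [← d23_pol_coeff h j, h2, coeff_zero, Pi.zero_apply]

end Pool.Agent.Lib.H32P
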