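import Pool.Agent.Lib.H32P.Defs

/-!
# Chunk D2a (M): completing a saturated family of integer vectors to a unimodular matrix

Let `L = range W ⊆ ℤ^ι`, `ι = Fin k ⊕ Fin r`. The quotient `ℤ^ι / L` is finitely generated and torsion free (`hsat`), hence free (`Module.free_of_finite_type_torsion_free'`), so `L` has a complement `C`
(`Module.projective_lifting_property` / `Submodule.exists_isCompl` is for fields; use the splitting `LinearMap.exists_rightInverse_of_surjective`-type for projective quotient), `C` is free; the ranks add up: `rank L = r` (`hinj`), so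
`rank C = k`. Let `P` be the matrix whose columns are a basis of `C`. The columns of `fromCols P W` are a basis of `ℤ^ι`, so its determinant is a unit (`Basis.isUnit_det` or `LinearMap`/`Matrix.isUnit_iff_isUnit_det`).
Alternative: Smith normal form.
-/

namespace Pool.Agent.Lib.H32P

theorem d2a_complete {k r : ℕ} (W : Matrix (Fin k ⊕ Fin r) (Fin r) ℤ)
    (hsat : ∀ (d : ℤ) (x : Fin k ⊕ Fin r → ℤ), d ≠ 0 → (∃ y, d • x = W.mulVec y) → ∃ y, x = W.mulVec y)
    (hinj : ∀ y, W.mulVec y = 0 → y = 0) :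
    ∃ P : Matrix (Fin k ⊕ Fin r) (Fin k) ℤ, IsUnit (Matrix.fromCols P W).det := by
  let f : (Fin r → ℤ) →ₗ[ℤ] (Fin k ⊕ Fin r → ℤ) := W.mulVecLin
  let L : Submodule ℤ (Fin k ⊕ Fin r → ℤ) := LinearMap.range f
  have hmem : ∀ x, x ∈ L ↔ ∃ y, x = W.mulVec y := by
    intro x
    constructor
    · rintro ⟨y, hy⟩
      exact ⟨y, by rw [← hy]; rfl⟩
    · rintro ⟨y, hy⟩
      exact ⟨y, by rw [hy]; rfl⟩
  have htf : Module.IsTorsionFree ℤ ((Fin k ⊕ Fin r → ℤ) ⧸ L) := by
    apply Module.IsTorsionFree.of_smul_eq_zero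
    intro d q hq
    obtain ⟨x, rfl⟩ := Submodule.Quotient.mk_surjective L q
    by_cases hd : d = 0
    · exact Or.inl hd
    · right
      rw [← Submodule.Quotient.mk_smul, Submodule.Quotient.mk_eq_zero, hmem] at hq
      rw [Submodule.Quotient.mk_eq_zero, hmem]
      exact hsat d x hd hq
  have hfree : Module.Free ℤ ((Fin k ⊕ Fin r → ℤ) ⧸ L) :=
    Module.free_of_finite_type_torsion_free'
  have hfi : Function.Injective f := by
    rw [injective_iff_map_eq_zero]
    intro y hy
    exact hinj y hy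
  have hrank : Module.finrank ℤ ((Fin k ⊕ Fin r → ℤ) ⧸ L) = k := by
    have h1 := Submodule.finrank_quotient_add_finrank L
    have h2 : Module.finrank ℤ L = r := by
      rw [LinearMap.finrank_range_of_inj hfi, Module.finrank_fintype_fun_eq_card, Fintype.card_fin]
    rw [h2, Module.finrank_fintype_fun_eq_card, Fintype.card_sum, Fintype.card_fin,
      Fintype.card_fin] at h1
    omega
  let b := Module.finBasisOfFinrankEq ℤ ((Fin k ⊕ Fin r → ℤ) ⧸ L) hrank
  have hlift : ∀ j, ∃ x : Fin k ⊕ Fin r → ℤ, Submodule.Quotient.mk (p := L) x = b j := fun j =>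
    Submodule.Quotient.mk_surjective L (b j)
  choose p hp using hlift
  refine ⟨Matrix.of fun i j => p j i, ?_⟩
  rw [← Matrix.isUnit_iff_isUnit_det, ← Matrix.mulVec_surjective_iff_isUnit]
  intro v
  have h1 := b.sum_repr (Submodule.Quotient.mk (p := L) v)
  have h2 : (Matrix.of fun i j => p j i).mulVec (fun j => b.repr (Submodule.Quotient.mk (p := L) v) j) =
      ∑ j, b.repr (Submodule.Quotient.mk (p := L) v) j • p j := by
    ext i
    simp only [Matrix.mulVec, dotProduct, Matrix.of_apply, Finset.sum_apply, Pi.smul_apply,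
      smul_eq_mul]
    exact Finset.sum_congr rfl fun j _ => mul_comm _ _
  have h3 : v - ∑ j, b.repr (Submodule.Quotient.mk (p := L) v) j • p j ∈ L := by
    rw [← Submodule.Quotient.mk_eq_zero, Submodule.Quotient.mk_sub, sub_eq_zero]
    conv_lhs => rw [← h1]
    have h4 : ∀ x, Submodule.Quotient.mk (p := L) x = L.mkQ x := fun _ => rfl
    rw [h4 (∑ j, _), map_sum]
    refine Finset.sum_congr rfl fun j _ => ?_
    rw [map_smul, ← h4, hp]
  obtain ⟨y, hy⟩ := (hmem _).1 h3
  refine ⟨Sum.elim (fun j => b.repr (Submodule.Quotient.mk (p := L) v) j) y, ?_⟩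
  rw [Matrix.fromCols_mulVec_sumElim, h2, ← hy]
  abel

end Pool.Agent.Lib.H32P
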