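import Pool.Agent.Lib.H32P.D23
import Pool.Agent.Lib.H32P.B4b
import Pool.Agent.Lib.H32P.B8b

/-!
# Chunk D4 (M/L): lower bound for dual vectors, odd dimension `n = 2 m - 1`

Take `k, r, G` from `d23_gram`, `s` from `b8b_node` (for `k`) and `s'` from `b8b_G` (for `r`), `z_j = pt Y k s j`, `y_a = pt Y r s' a` (injective by `b1_pt_ne`; for `r = 0` trivially), `v_i = mA y * mh z i` (degree `m - 1`),
`κ = K α n`, `n = 2m - 1 ≥ m`. For `t ∈ [0,1]`: `|v_i(t) v_j(t)| ≤ (K α m)^14 exp (2 (r + k) U(t)) ≤ κ^14 exp (n U(t))` (`b4b_mA`, `b4b_mh`, `b1_K_mono`; `U ≤ 0`, `b7_nonpos`). So the hypothesis for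
`u = C (exp (n c) / κ^14) * (v_i v_j)` (degree `2m - 2 < n`) gives `|Lf (v_i v_j)| ≤ B := Θ κ^14 exp (-n c)` (`d0_smul`). The determinant of a `k × k` matrix with entries `≤ B` is `≤ k! B^k ≤ (n B)^k`
(`Matrix.det_apply`, or `Matrix.det_le`). By `d23_gram`, `b8b_node`, `b8b_G`, with `I = En Y`:
`(n B)^k ≥ exp (k² I) · exp (-2 c₁ r deg G) ≥ exp (k² I - 2 c₁ r k)` (`deg G ≤ k`, `c₁ ≥ 0`). Take `k`-th roots (`k ≥ 1`): `n B ≥ exp (k I - 2 c₁ r)`, so
`n Θ κ^14 ≥ exp (n c + k I - 2 c₁ (m - k)) = exp (n c - (n + 1) c₁ + k (2 c₁ + I)) ≥ exp (n (c - c₁) - c₁)`.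
-/

namespace Pool.Agent.Lib.H32P

open Polynomial MeasureTheory

variable {Y : ℝ → ℝ} {α : ℝ}

theorem d4_odd (hY : Quant Y α) {c₁ : ℝ} (hc : 0 ≤ c₁) (hA : Adm Y c₁) (hE : 0 ≤ 2 * c₁ + En Y)
    {m : ℕ} (hm : 1 ≤ m) (c : ℝ) (l : ℕ → ℤ) (hl : ∃ i < 2 * m - 1, l i ≠ 0) {Θ : ℝ}
    (h : ∀ u : ℝ[X], u.degree < (2 * m - 1 : ℕ) →
      (∀ t ∈ Set.Icc (0:ℝ) 1, |u.eval t| ≤ Real.exp ((2 * m - 1 : ℕ) * (c + U Y t))) → |Lf l (2 * m - 1) u| ≤ Θ) :
    Real.exp ((2 * m - 1 : ℕ) * (c - c₁) - c₁) ≤ Θ * ((2 * m - 1 : ℕ) * K α (2 * m - 1) ^ 14) := by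
  obtain ⟨k, r, G, hkr, hk, hG, hGk, hgram⟩ := d23_gram hm l hl
  obtain ⟨s, hs, hnode⟩ := b8b_node hY k
  obtain ⟨s', hs', hGG⟩ := b8b_G hY hA G hG r
  obtain ⟨n, hn⟩ : ∃ n : ℕ, n = 2 * m - 1 := ⟨_, rfl⟩
  rw [← hn] at h hgram ⊢
  have hn1 : 1 ≤ n := by omega
  have hmn : m ≤ n := by omega
  set z : Fin k → ℝ := fun i => pt Y k s i with hz
  set y : Fin r → ℝ := fun a => pt Y r s' a with hy
  have hyinj : Function.Injective y := by
    intro a b hab
    by_contra hne
    have hr1 : 1 ≤ r := by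
      have := a.2
      omega
    exact b1_pt_ne hY hr1 s' (fun h0 => hne (Fin.ext h0)) hab
  have hdet := hgram y z hyinj
  set κ := K α n with hκ
  have hκ1 : 1 ≤ κ := b1_K hY hn1
  have hκ0 : 0 < κ := by linarith
  have hKm : K α m ≤ κ := b1_K_mono hY hmn
  have hKm0 : 0 ≤ K α m := b1_K_nonneg hY m
  set v : Fin k → ℝ[X] := fun i => mA y * mh z i with hv
  have hvt : ∀ i, ∀ t ∈ Set.Icc (0:ℝ) 1, |(v i).eval t| ≤ κ ^ 7 * Real.exp (m * U Y t) := by
    intro i t ht
    have h1 := b4b_mA hY hm (show r ≤ m by omega) hs' ht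
    have h2 := b4b_mh hY (show k ≤ m by omega) hs ht i
    rw [hv, eval_mul, abs_mul]
    calc |eval t (mA y)| * |eval t (mh z i)|
        ≤ (K α m ^ 3 * Real.exp (r * U Y t)) * (K α m ^ 4 * Real.exp (k * U Y t)) :=
          mul_le_mul h1 h2 (abs_nonneg _) (by positivity)
      _ = K α m ^ 7 * Real.exp (m * U Y t) := by
          have h3 : Real.exp (m * U Y t) = Real.exp (r * U Y t) * Real.exp (k * U Y t) := by
            rw [← Real.exp_add, ← hkr]
            push_cast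
            ring_nf
          rw [h3]
          ring
      _ ≤ κ ^ 7 * Real.exp (m * U Y t) := by
          gcongr
  have hvv : ∀ i j, ∀ t ∈ Set.Icc (0:ℝ) 1, |(v i * v j).eval t| ≤ κ ^ 14 * Real.exp (n * U Y t) := by
    intro i j t ht
    have h1 := hvt i t ht
    have h2 := hvt j t ht
    have hU := b7_nonpos hY ht
    rw [eval_mul, abs_mul]
    calc |eval t (v i)| * |eval t (v j)|
        ≤ (κ ^ 7 * Real.exp (m * U Y t)) * (κ ^ 7 * Real.exp (m * U Y t)) :=
          mul_le_mul h1 h2 (abs_nonneg _) (by positivity)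
      _ = κ ^ 14 * Real.exp ((m : ℝ) * U Y t + m * U Y t) := by
          rw [Real.exp_add]
          ring
      _ ≤ κ ^ 14 * Real.exp (n * U Y t) := by
          refine mul_le_mul_of_nonneg_left (Real.exp_le_exp.2 ?_) (by positivity)
          have h3 : (n : ℝ) ≤ m + m := by
            exact_mod_cast (show n ≤ m + m by omega)
          nlinarith
  have hvd : ∀ i j, (v i * v j).degree < (n : ℕ) := by
    intro i j
    have h1 : (v i).Monic := (d23_mA_monic y).mul (d23_mh_monic z i)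
    have h2 : (v j).Monic := (d23_mA_monic y).mul (d23_mh_monic z j)
    have h3 : ∀ i, (v i).natDegree = r + (k - 1) := by
      intro i
      rw [hv]
      change (mA y * mh z i).natDegree = _
      rw [(d23_mA_monic y).natDegree_mul (d23_mh_monic z i), d23_mA_natDegree, d23_mh_natDegree]
    rw [← natDegree_lt_iff_degree_lt (h1.mul h2).ne_zero, h1.natDegree_mul h2, h3, h3]
    omega
  set B : ℝ := Θ * κ ^ 14 * Real.exp (-(n * c)) with hB
  have hLf : ∀ i j, |Lf l n (v i * v j)| ≤ B := by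
    intro i j
    have hcoef : 0 < Real.exp (n * c) / κ ^ 14 := by positivity
    have h1 := h (C (Real.exp (n * c) / κ ^ 14) * (v i * v j)) ?_ ?_
    · rw [d0_smul, abs_mul, abs_of_pos hcoef] at h1
      rw [hB, Real.exp_neg]
      have h2 : |Lf l n (v i * v j)| ≤ Θ / (Real.exp (n * c) / κ ^ 14) := by
        rw [le_div_iff₀ hcoef, mul_comm]
        exact h1
      refine h2.trans (le_of_eq ?_)
      field_simp
    · rw [degree_C_mul hcoef.ne']
      exact hvd i j
    · intro t ht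
      rw [eval_mul, eval_C, abs_mul, abs_of_pos hcoef]
      have h2 := hvv i j t ht
      calc Real.exp (n * c) / κ ^ 14 * |eval t (v i * v j)|
          ≤ Real.exp (n * c) / κ ^ 14 * (κ ^ 14 * Real.exp (n * U Y t)) :=
            mul_le_mul_of_nonneg_left h2 hcoef.le
        _ = Real.exp (n * (c + U Y t)) := by
            rw [mul_add, Real.exp_add]
            field_simp
  have hk0 : 0 < k := hk
  have hB0 : 0 ≤ B := (abs_nonneg _).trans (hLf ⟨0, hk0⟩ ⟨0, hk0⟩)
  have hdet2 : |(Matrix.of fun i j : Fin k => Lf l n (mA y * mh z i * (mA y * mh z j))).det| ≤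
      (n * B) ^ k := by
    have h1 := Matrix.det_le (A := Matrix.of fun i j : Fin k => Lf l n (mA y * mh z i * (mA y * mh z j)))
      (abv := AbsoluteValue.abs) (x := B) (fun i j => hLf i j)
    rw [Fintype.card_fin] at h1
    refine le_trans h1 ?_
    rw [nsmul_eq_mul, mul_pow (n : ℝ) B]
    refine mul_le_mul_of_nonneg_right ?_ (pow_nonneg hB0 k)
    have h2 : k.factorial ≤ n ^ k :=
      (Nat.factorial_le_pow k).trans (Nat.pow_le_pow_left (by omega) k)
    exact_mod_cast h2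
  have hlow : Real.exp (k * (k * En Y - 2 * c₁ * r)) ≤ (n * B) ^ k := by
    refine le_trans ?_ (hdet.trans hdet2)
    have h1 : (∏ a, (aeval (y a) G) ^ 2 : ℝ) = (∏ a, |aeval (y a) G|) ^ 2 := by
      rw [← Finset.prod_pow]
      exact Finset.prod_congr rfl fun a _ => (sq_abs _).symm
    rw [h1]
    have h2 : Real.exp (-(c₁ * r * k)) ≤ ∏ a, |aeval (y a) G| := by
      refine le_trans (Real.exp_le_exp.2 ?_) hGG
      have h3 : (G.natDegree : ℝ) ≤ k := by exact_mod_cast hGk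
      have h4 : 0 ≤ c₁ * r := by positivity
      have := mul_le_mul_of_nonneg_left h3 h4
      linarith
    have h3 : Real.exp (k * (k * En Y - 2 * c₁ * r)) =
        Real.exp (k * (k * En Y)) * Real.exp (-(c₁ * r * k)) ^ 2 := by
      rw [← Real.exp_nat_mul, ← Real.exp_add]
      push_cast
      ring_nf
    rw [h3]
    exact mul_le_mul hnode (pow_le_pow_left₀ (Real.exp_pos _).le h2 2) (by positivity)
      ((Real.exp_pos _).le.trans hnode)
  have hroot : Real.exp (k * En Y - 2 * c₁ * r) ≤ n * B := by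
    rw [Real.exp_nat_mul] at hlow
    exact le_of_pow_le_pow_left₀ (n := k) (by omega) (by positivity) hlow
  have h1 : Θ * (n * κ ^ 14) = n * B * Real.exp (n * c) := by
    rw [hB, Real.exp_neg]
    field_simp
  rw [h1]
  refine le_trans ?_ (mul_le_mul_of_nonneg_right hroot (Real.exp_pos _).le)
  rw [← Real.exp_add, Real.exp_le_exp]
  have h2 : (r : ℝ) = m - k := by
    have : (k : ℝ) + r = m := by exact_mod_cast hkr
    linarith
  have h3 : (n : ℝ) = 2 * m - 1 := by
    have : n + 1 = 2 * m := by omega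
    have h4 : (n : ℝ) + 1 = 2 * m := by exact_mod_cast this
    linarith
  have h4 : (0 : ℝ) ≤ k * (2 * c₁ + En Y) := by positivity
  rw [h2, h3]
  nlinarith

end Pool.Agent.Lib.H32P
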