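import Pool.Agent.Lib.H32P.D4
import Pool.Agent.Lib.H32P.B1
import Pool.Agent.Lib.H32P.B7

/-!
# Chunk D5 (M): lower bound for dual vectors, all dimensions

If `n = 2m - 1` this is `d4_odd`. Let `n = 2m`.

Case 1: some `l i ≠ 0` with `i < 2m - 1`. For `u` of degree `< 2m - 1`, `Lf l (2m) u = Lf l (2m-1) u`. To apply `d4_odd` one needs the hypothesis for the weight `exp ((2m-1)(c + U t))`: if `|u| ≤ exp ((2m-1)(c + U t))` then, with
`b = exp (c) / K α n`, the polynomial `C b * u` satisfies `|b u(t)| ≤ exp ((2m) c + (2m-1) U t) / K α n ≤ exp (2m (c + U t))` since `exp (-U t) ≤ K α n` (`b7_exp`); so `|Lf l u| ≤ Θ K α n exp (-c)`. `d4_odd` with `Θ' = Θ K α n exp (-c)` gives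
`exp ((n-1)(c - c₁) - c₁) ≤ Θ K α n exp (-c) (n K^14)`, so `exp (n (c - c₁) - c₁) ≤ exp((n-1)(c-c₁) - c₁) exp c ≤ Θ n K^15` (`c₁ ≥ 0`; `K α (n-1) ≤ K α n`).

Case 2: `l i = 0` for all `i < n - 1`, `l (n-1) ≠ 0`. Let `u = C (exp (n c) / K^4) * mA (fun a : Fin (n-1) => pt Y (n-1) 0 a)`, of degree `n - 1`, with `|u(t)| ≤ exp (n c) K^{-1} exp ((n-1) U t) ≤ exp (n (c + U t))`
(`b4b_mA`, `b7_exp`). `|Lf l n u| = |l (n-1)| exp (n c)/K^4 ≥ exp (n c) / K^4` (the leading coefficient of `mA` is `1`). So `exp (n c) ≤ Θ K^4`, and `exp (n (c - c₁) - c₁) ≤ exp (n c)`, `K ≥ 1`, `n ≥ 1`.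
(`0 ≤ Θ` follows from the hypothesis with `u = 0`.)
-/

namespace Pool.Agent.Lib.H32P

open Polynomial MeasureTheory

variable {Y : ℝ → ℝ} {α : ℝ}

theorem d5_dual (hY : Quant Y α) {c₁ : ℝ} (hc : 0 ≤ c₁) (hA : Adm Y c₁) (hE : 0 ≤ 2 * c₁ + En Y)
    {n : ℕ} (hn : 1 ≤ n) (c : ℝ) (l : ℕ → ℤ) (hl : ∃ i < n, l i ≠ 0) {Θ : ℝ}
    (h : ∀ u : ℝ[X], u.degree < n →
      (∀ t ∈ Set.Icc (0:ℝ) 1, |u.eval t| ≤ Real.exp (n * (c + U Y t))) → |Lf l n u| ≤ Θ) :
    Real.exp (n * (c - c₁) - c₁) ≤ Θ * (n * K α n ^ 15) := by
  have hn0 : (0:ℝ) < n := by exact_mod_cast hn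
  have hn1 : (1:ℝ) ≤ n := by exact_mod_cast hn
  have hK1 : 1 ≤ K α n := b1_K hY hn
  have hK0 : 0 < K α n := lt_of_lt_of_le one_pos hK1
  have hΘ : 0 ≤ Θ := by
    have h0 := h 0 (by simp) (fun t _ => by simp; positivity)
    exact (abs_nonneg _).trans h0
  rcases Nat.even_or_odd' n with ⟨m, hm | hm⟩
  · -- even
    have hm1 : 1 ≤ m := by omega
    by_cases hcase : ∃ i < 2 * m - 1, l i ≠ 0
    · -- case 1
      have hle : (2 * m - 1 : ℕ) ≤ n := by omega
      have hKle : K α (2 * m - 1) ≤ K α n := b1_K_mono hY hle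
      have hKnn : 0 ≤ K α (2 * m - 1) := b1_K_nonneg hY _
      have hcast : ((2 * m - 1 : ℕ) : ℝ) = (n : ℝ) - 1 := by
        have : (2 * m - 1 : ℕ) + 1 = n := by omega
        have h2 : (((2 * m - 1 : ℕ) + 1 : ℕ) : ℝ) = (n : ℝ) := by rw [this]
        push_cast at h2
        linarith
      have key := d4_odd hY hc hA hE hm1 c l hcase (Θ := Θ * K α n * Real.exp (-c)) (by
        intro u hu hub
        have hdeg : (C (Real.exp c / K α n) * u).degree < (n : WithBot ℕ) := by
          rw [degree_C_mul (by positivity)]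
          refine lt_of_lt_of_le hu ?_
          exact_mod_cast hle
        have h1 := h (C (Real.exp c / K α n) * u) hdeg (by
          intro t ht
          rw [eval_mul, eval_C, abs_mul, abs_of_pos (by positivity)]
          have h2 := hub t ht
          rw [hcast] at h2
          have h3 := b7_exp hY ht hn
          have e1 : Real.exp (n * (c + U Y t)) =
              Real.exp c * Real.exp ((n - 1) * (c + U Y t)) / Real.exp (-U Y t) := by
            rw [← Real.exp_add, ← Real.exp_sub]
            ring_nf
          rw [e1, div_mul_eq_mul_div]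
          have h4 : Real.exp c * |u.eval t| ≤ Real.exp c * Real.exp ((n - 1) * (c + U Y t)) :=
            mul_le_mul_of_nonneg_left h2 (Real.exp_pos _).le
          exact div_le_div₀ (by positivity) h4 (Real.exp_pos _) h3)
        have h5 : Lf l n (C (Real.exp c / K α n) * u) = (Real.exp c / K α n) * Lf l (2 * m - 1) u := by
          rw [d0_smul]
          congr 1
          have hsucc : n = (2 * m - 1) + 1 := by omega
          simp only [Lf]
          rw [hsucc, Finset.sum_range_succ]
          have : u.coeff (2 * m - 1) = 0 := coeff_eq_zero_of_degree_lt hu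
          rw [this]
          simp
        rw [h5, abs_mul, abs_of_pos (by positivity : (0:ℝ) < Real.exp c / K α n)] at h1
        rw [Real.exp_neg, ← div_eq_mul_inv, le_div_iff₀ (Real.exp_pos _)]
        rw [div_mul_eq_mul_div, div_le_iff₀ hK0] at h1
        linarith)
      rw [hcast] at key
      have h6 : Θ * K α n * Real.exp (-c) * (((n:ℝ) - 1) * K α (2 * m - 1) ^ 14) ≤
          Θ * K α n * Real.exp (-c) * (n * K α n ^ 14) := by
        apply mul_le_mul_of_nonneg_left _ (by positivity)
        apply mul_le_mul (by linarith) (pow_le_pow_left₀ hKnn hKle 14) (by positivity) hn0.le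
      have h7 := key.trans h6
      have h8 : Real.exp (n * (c - c₁) - c₁) ≤ Real.exp ((n - 1) * (c - c₁) - c₁) * Real.exp c := by
        rw [← Real.exp_add]
        apply Real.exp_le_exp.2
        linarith
      refine h8.trans ?_
      have h9 := mul_le_mul_of_nonneg_right h7 (Real.exp_pos c).le
      refine h9.trans (le_of_eq ?_)
      have e2 : Real.exp (-c) * Real.exp c = 1 := by
        rw [← Real.exp_add]; simp
      linear_combination (Θ * K α n * (n * K α n ^ 14)) * e2
    · -- case 2
      push Not at hcase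
      obtain ⟨i, hi, hli⟩ := hl
      have hin : i = n - 1 := by
        by_contra hne
        exact hli (hcase i (by omega))
      have hnm : n - 1 ≤ n := by omega
      set y : Fin (n - 1) → ℝ := fun a => pt Y (n - 1) 0 a with hy
      have hdegA : (mA y).degree = ((n - 1 : ℕ) : WithBot ℕ) := by
        rw [mA, degree_prod]
        simp
      have hmonA : (mA y).Monic := monic_prod_of_monic _ _ (fun i _ => monic_X_sub_C _)
      have hpos : 0 < Real.exp (n * c) / K α n ^ 4 := by positivity
      have h1 := h (C (Real.exp (n * c) / K α n ^ 4) * mA y) (by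
        rw [degree_C_mul hpos.ne', hdegA]
        exact_mod_cast (by omega : n - 1 < n)) (by
        intro t ht
        rw [eval_mul, eval_C, abs_mul, abs_of_pos hpos]
        have h2 := b4b_mA hY hn hnm (s := 0) ⟨le_refl _, zero_le_one⟩ ht
        have h3 := b7_exp hY ht hn
        have hcast : ((n - 1 : ℕ) : ℝ) = (n : ℝ) - 1 := by
          rw [Nat.cast_sub hn]; simp
        rw [hcast] at h2
        calc Real.exp (n * c) / K α n ^ 4 * |(mA y).eval t|
            ≤ Real.exp (n * c) / K α n ^ 4 * (K α n ^ 3 * Real.exp (((n:ℝ) - 1) * U Y t)) :=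
              mul_le_mul_of_nonneg_left h2 hpos.le
          _ = Real.exp (n * (c + U Y t)) * (Real.exp (-U Y t) / K α n) := by
              have e1 : Real.exp (((n:ℝ) - 1) * U Y t) = Real.exp (n * U Y t) * Real.exp (-U Y t) := by
                rw [← Real.exp_add]; ring_nf
              rw [mul_add, Real.exp_add, e1]
              field_simp
          _ ≤ Real.exp (n * (c + U Y t)) * 1 := by
              apply mul_le_mul_of_nonneg_left _ (Real.exp_pos _).le
              rw [div_le_one hK0]
              exact h3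
          _ = _ := mul_one _)
      have h4 : Lf l n (C (Real.exp (n * c) / K α n ^ 4) * mA y) = Real.exp (n * c) / K α n ^ 4 * (l (n - 1) : ℝ) := by
        rw [d0_smul]
        congr 1
        have hsucc : Finset.range n = Finset.range ((n - 1) + 1) := by
          rw [Nat.sub_add_cancel hn]
        simp only [Lf]
        rw [hsucc, Finset.sum_range_succ]
        have h5 : ∀ i ∈ Finset.range (n - 1), (mA y).coeff i * (l i : ℝ) = 0 := by
          intro i hi
          rw [hcase i (by have := Finset.mem_range.1 hi; omega)]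
          simp
        rw [Finset.sum_eq_zero h5, zero_add]
        have h6 : (mA y).coeff (n - 1) = 1 := by
          have h7 : (mA y).natDegree = n - 1 := natDegree_eq_of_degree_eq_some hdegA
          have h8 := hmonA.coeff_natDegree
          rwa [h7] at h8
        rw [h6, one_mul]
      rw [h4, abs_mul, abs_of_pos hpos] at h1
      have h9 : (1:ℝ) ≤ |(l (n - 1) : ℝ)| := by
        rw [hin] at hli
        have := Int.one_le_abs hli
        exact_mod_cast this
      have h10 : Real.exp (n * c) / K α n ^ 4 ≤ Θ := by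
        refine le_trans ?_ h1
        nlinarith
      rw [div_le_iff₀ (by positivity)] at h10
      have h11 : Real.exp (n * (c - c₁) - c₁) ≤ Real.exp (n * c) := by
        apply Real.exp_le_exp.2
        nlinarith
      refine h11.trans (h10.trans ?_)
      apply mul_le_mul_of_nonneg_left _ hΘ
      calc K α n ^ 4 ≤ K α n ^ 15 := pow_le_pow_right₀ hK1 (by norm_num)
        _ ≤ n * K α n ^ 15 := by
            have : 0 < K α n ^ 15 := by positivity
            nlinarith
  · -- odd
    have hm1 : 1 ≤ m + 1 := by omega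
    have hn' : n = 2 * (m + 1) - 1 := by omega
    have key := d4_odd hY hc hA hE hm1 c l (by rw [← hn']; exact hl) (Θ := Θ) (by
      rw [← hn']
      exact h)
    rw [← hn'] at key
    refine key.trans ?_
    apply mul_le_mul_of_nonneg_left _ hΘ
    apply mul_le_mul_of_nonneg_left _ hn0.le
    exact pow_le_pow_right₀ hK1 (by norm_num)

end Pool.Agent.Lib.H32P
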