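import Mathlib

/-!
# H32P: near-critical integer polynomials on `[0,1]` (MP_e31573_nt): definitions

See `PROOF.md` in this folder.
-/

namespace Pool.Agent.Lib.H32P

open Polynomial MeasureTheory

/-- `Y` is the quantile function of a probability measure on `[0,1]` with a density bounded by `1/α`
(extended to an increasing bijection of `ℝ`). -/
structure Quant (Y : ℝ → ℝ) (α : ℝ) : Prop where
  pos : 0 < α
  cont : Continuous Y
  zero : Y 0 = 0
  one : Y 1 = 1
  lower : ∀ u v : ℝ, u ≤ v → α * (v - u) ≤ Y v - Y u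

/-- The logarithmic potential `U(t) = ∫_0^1 log |t - Y(u)| du`. -/
noncomputable def U (Y : ℝ → ℝ) (t : ℝ) : ℝ := ∫ u in (0:ℝ)..1, Real.log |t - Y u|

/-- The logarithmic energy `I = ∫_0^1 U(Y(u)) du`. -/
noncomputable def En (Y : ℝ → ℝ) : ℝ := ∫ u in (0:ℝ)..1, U Y (Y u)

/-- `∫ log |P| dμ ≥ - c deg P` for every nonzero integer polynomial `P`, where `μ` is the measure with
quantile function `Y`. -/
def Adm (Y : ℝ → ℝ) (c : ℝ) : Prop :=
  ∀ P : ℤ[X], P ≠ 0 → -(c * P.natDegree) ≤ ∫ u in (0:ℝ)..1, Real.log |aeval (Y u) P|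

/-- The quantile points `Y ((i + 1 - s) / N)`, `i = 0, .., N - 1`; here `0 ≤ s ≤ 1`. -/
noncomputable def pt (Y : ℝ → ℝ) (N : ℕ) (s : ℝ) (i : ℕ) : ℝ := Y (((i : ℝ) + 1 - s) / N)

/-- The constant `K = 2 e N / α`. -/
noncomputable def K (α : ℝ) (N : ℕ) : ℝ := 2 * Real.exp 1 * N / α

/-- The real linear form `∑_i p_i ℓ_i` (`i < n`) given by integers `ℓ_i`. -/
noncomputable def Lf (l : ℕ → ℤ) (n : ℕ) (p : ℝ[X]) : ℝ := ∑ i ∈ Finset.range n, p.coeff i * (l i : ℝ)

/-- `∏_a (X - y_a)`. -/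
noncomputable def mA {r : ℕ} (y : Fin r → ℝ) : ℝ[X] := ∏ a, (X - C (y a))

/-- `∏_{j ≠ i} (X - z_j)`. -/
noncomputable def mh {k : ℕ} (z : Fin k → ℝ) (i : Fin k) : ℝ[X] := ∏ j ∈ Finset.univ.erase i, (X - C (z j))

/-- Reduced (in the sense of Hermite, Korkine and Zolotareff, without the size conditions) triangular
matrices: `R` is upper triangular with positive diagonal, and `R i i` is the minimum of the quadratic form
`∑_{l ≥ i} ((R x)_l)^2` on the integer vectors `x` which are nonzero beyond the index `i`. -/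
structure HKZ {n : ℕ} (R : Matrix (Fin n) (Fin n) ℝ) : Prop where
  tri : ∀ i j : Fin n, j < i → R i j = 0
  pos : ∀ i : Fin n, 0 < R i i
  min : ∀ (i : Fin n) (x : Fin n → ℤ), (∃ l, i ≤ l ∧ x l ≠ 0) →
    (R i i) ^ 2 ≤ ∑ l ∈ Finset.univ.filter (fun l => i ≤ l), (R.mulVec (fun j => (x j : ℝ)) l) ^ 2

/-- The bordered matrix with first row `(ρ, b)`, first column `(ρ, 0)` and lower right block `V`. -/
def bord {n : ℕ} (ρ : ℝ) (b : Fin n → ℝ) (V : Matrix (Fin n) (Fin n) ℝ) :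
    Matrix (Fin (n + 1)) (Fin (n + 1)) ℝ :=
  Matrix.of (Matrix.vecCons (Matrix.vecCons ρ b) (fun i => Matrix.vecCons 0 (V i)))

end Pool.Agent.Lib.H32P
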