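import Pool.Agent.Lib.H32P.Defs

/-!
# Chunk E2 (M): a shortest nonzero lattice vector exists

`V` invertible, so `‖x‖ ≤ C ‖V x‖` for real `x` (`x = V⁻¹ (V x)`). So only finitely many integer vectors `x` have `∑ (V x)_i² ≤ B` where `B` is the value at some fixed nonzero integer vector (bounded integer vectors:
`Set.Finite` of a product of integer intervals, `Set.finite_Icc` in `Fin (n+1) → ℤ`), and a minimum exists (`Set.Finite`/`Finset.exists_min_image`).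
-/

namespace Pool.Agent.Lib.H32P

theorem e2_bound {n : ℕ} (V : Matrix (Fin (n + 1)) (Fin (n + 1)) ℝ) (hV : V.det ≠ 0) (B : ℝ) :
    {x : Fin (n + 1) → ℤ | ∑ i, (V.mulVec (fun j => (x j : ℝ)) i) ^ 2 ≤ B}.Finite := by
  obtain ⟨M, hM⟩ : ∃ M : ℕ, (∑ j, ∑ i, |V⁻¹ j i|) * Real.sqrt B ≤ M := exists_nat_ge _
  refine (Set.finite_Icc (fun _ : Fin (n + 1) => -(M : ℤ)) (fun _ => (M : ℤ))).subset ?_
  intro x hx
  have hx' : ∑ i, (V.mulVec (fun j => (x j : ℝ)) i) ^ 2 ≤ B := hx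
  have h1 : ∀ i, |V.mulVec (fun j => (x j : ℝ)) i| ≤ Real.sqrt B := by
    intro i
    apply Real.abs_le_sqrt
    refine le_trans ?_ hx'
    exact Finset.single_le_sum (f := fun i => (V.mulVec (fun j => (x j : ℝ)) i) ^ 2)
      (fun _ _ => sq_nonneg _) (Finset.mem_univ i)
  have h2 : ∀ j, |(x j : ℝ)| ≤ M := by
    intro j
    have e : V⁻¹.mulVec (V.mulVec (fun j => (x j : ℝ))) = fun j => (x j : ℝ) := by
      rw [Matrix.mulVec_mulVec, Matrix.nonsing_inv_mul _ (isUnit_iff_ne_zero.2 hV),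
        Matrix.one_mulVec]
    have e' : (x j : ℝ) = ∑ i, V⁻¹ j i * V.mulVec (fun j => (x j : ℝ)) i := (congrFun e j).symm
    rw [e']
    refine le_trans ?_ hM
    calc |∑ i, V⁻¹ j i * V.mulVec (fun j => (x j : ℝ)) i|
        ≤ ∑ i, |V⁻¹ j i * V.mulVec (fun j => (x j : ℝ)) i| := Finset.abs_sum_le_sum_abs _ _
      _ ≤ ∑ i, |V⁻¹ j i| * Real.sqrt B := by
          refine Finset.sum_le_sum fun i _ => ?_
          rw [abs_mul]
          exact mul_le_mul_of_nonneg_left (h1 i) (abs_nonneg _)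
      _ = (∑ i, |V⁻¹ j i|) * Real.sqrt B := by rw [Finset.sum_mul]
      _ ≤ (∑ j, ∑ i, |V⁻¹ j i|) * Real.sqrt B := by
          apply mul_le_mul_of_nonneg_right _ (Real.sqrt_nonneg _)
          exact Finset.single_le_sum (f := fun j => ∑ i, |V⁻¹ j i|)
            (fun _ _ => Finset.sum_nonneg fun _ _ => abs_nonneg _) (Finset.mem_univ j)
  rw [Set.mem_Icc]
  constructor
  · intro j
    have := (abs_le.1 (h2 j)).1
    show -(M : ℤ) ≤ x j
    exact_mod_cast this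
  · intro j
    have := (abs_le.1 (h2 j)).2
    show x j ≤ (M : ℤ)
    exact_mod_cast this

theorem e2_min {n : ℕ} (V : Matrix (Fin (n + 1)) (Fin (n + 1)) ℝ) (hV : V.det ≠ 0) :
    ∃ w : Fin (n + 1) → ℤ, w ≠ 0 ∧ ∀ x : Fin (n + 1) → ℤ, x ≠ 0 →
      ∑ i, (V.mulVec (fun j => (w j : ℝ)) i) ^ 2 ≤ ∑ i, (V.mulVec (fun j => (x j : ℝ)) i) ^ 2 := by
  set f : (Fin (n + 1) → ℤ) → ℝ := fun x => ∑ i, (V.mulVec (fun j => (x j : ℝ)) i) ^ 2 with hf
  have hfin : ({x : Fin (n + 1) → ℤ | x ≠ 0} ∩ {x | f x ≤ f 1}).Finite :=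
    (e2_bound V hV (f 1)).subset Set.inter_subset_right
  have h1 : (1 : Fin (n + 1) → ℤ) ≠ 0 := one_ne_zero
  obtain ⟨w, hw, hmin⟩ := Set.exists_min_image _ f hfin ⟨1, h1, (show f 1 ≤ f 1 from le_refl _)⟩
  refine ⟨w, hw.1, fun x hx => ?_⟩
  show f w ≤ f x
  by_cases h : f x ≤ f 1
  · exact hmin x ⟨hx, h⟩
  · exact hw.2.trans (not_le.1 h).le

end Pool.Agent.Lib.H32P
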