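import Pool.Agent.Lib.H32P.D2a

/-!
# Chunk E3 (M): a primitive integer vector is the first column of a unimodular matrix

Either from `d2a_complete` with `r = 1`, `k = n` (reindex `Fin n ⊕ Fin 1 ≃ Fin (n+1)` so that the last block becomes column `0`; `W` = the column `w`; `hsat`: if `d x = a w` with `d ≠ 0` then, `w` being primitive - the gcd `g` of its
entries divides `w`, so `g` is a unit by `hw`, hence `1 = ∑ c_i w_i` (Bezout) and `a = d ∑ c_i x_i` - one gets `x = (∑ c_i x_i) w`), or directly by the quotient `ℤ^(n+1) / ℤ w` being torsion free, hence free.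
-/

namespace Pool.Agent.Lib.H32P

theorem e3_bezout {n : ℕ} (w : Fin (n + 1) → ℤ)
    (hw : ∀ (d : ℤ) (x : Fin (n + 1) → ℤ), w = d • x → IsUnit d) :
    ∃ c : Fin (n + 1) → ℤ, ∑ i, c i * w i = 1 := by
  obtain ⟨g, hg⟩ := (IsPrincipalIdealRing.principal (Ideal.span (Set.range w))).principal
  have hg' : Ideal.span (Set.range w) = Ideal.span {g} := hg
  have hdvd : ∀ i, g ∣ w i := by
    intro i
    rw [← Ideal.mem_span_singleton, ← hg']
    exact Ideal.subset_span ⟨i, rfl⟩
  choose x hx using hdvd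
  have hu : IsUnit g := hw g x (by
    ext i
    simp only [Pi.smul_apply, smul_eq_mul]
    exact hx i)
  have h1 : (1 : ℤ) ∈ Ideal.span (Set.range w) := by
    rw [hg', Ideal.mem_span_singleton]
    exact hu.dvd
  exact Ideal.mem_span_range_iff_exists_fun.1 h1

/-- the reindexing -/
def e3_eq (n : ℕ) : Fin n ⊕ Fin 1 ≃ Fin (n + 1) :=
  (Equiv.sumComm (Fin n) (Fin 1)).trans (finSumFinEquiv.trans (finCongr (Nat.add_comm 1 n)))

theorem e3_eq_zero (n : ℕ) : (e3_eq n).symm 0 = Sum.inr 0 := by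
  rw [Equiv.symm_apply_eq]
  rfl

theorem e3_complete {n : ℕ} (w : Fin (n + 1) → ℤ) (hw0 : w ≠ 0)
    (hw : ∀ (d : ℤ) (x : Fin (n + 1) → ℤ), w = d • x → IsUnit d) :
    ∃ T : Matrix (Fin (n + 1)) (Fin (n + 1)) ℤ, IsUnit T.det ∧ ∀ i, T i 0 = w i := by
  obtain ⟨c, hc⟩ := e3_bezout w hw
  set σ := e3_eq n with hσ
  set W : Matrix (Fin n ⊕ Fin 1) (Fin 1) ℤ := Matrix.of fun i _ => w (σ i) with hW
  have hmul : ∀ (y : Fin 1 → ℤ) (i : Fin n ⊕ Fin 1), W.mulVec y i = w (σ i) * y 0 := by
    intro y i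
    simp [Matrix.mulVec, dotProduct, hW]
  obtain ⟨P, hP⟩ := d2a_complete W (by
    rintro d x hd ⟨y, hy⟩
    have hy' : ∀ i, d * x i = w (σ i) * y 0 := by
      intro i
      rw [← hmul, ← hy]
      rfl
    have ha : y 0 = d * ∑ i, c i * x (σ.symm i) := by
      calc y 0 = (∑ i, c i * w i) * y 0 := by rw [hc, one_mul]
        _ = ∑ i, d * (c i * x (σ.symm i)) := by
            rw [Finset.sum_mul]
            refine Finset.sum_congr rfl fun i _ => ?_
            have := hy' (σ.symm i)
            rw [Equiv.apply_symm_apply] at this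
            rw [mul_assoc, ← this]
            ring
        _ = _ := by rw [Finset.mul_sum]
    refine ⟨fun _ => ∑ i, c i * x (σ.symm i), ?_⟩
    ext i
    rw [hmul]
    have h1 := hy' i
    rw [ha] at h1
    have h2 : d * x i = d * (w (σ i) * ∑ i, c i * x (σ.symm i)) := by
      rw [h1]
      ring
    exact mul_left_cancel₀ hd h2) (by
    intro y hy
    obtain ⟨i, hi⟩ := Function.ne_iff.1 hw0
    have h1 := hmul y (σ.symm i)
    rw [hy, Equiv.apply_symm_apply] at h1
    have h2 : y 0 = 0 := by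
      have h3 : w i * y 0 = 0 := h1.symm
      rcases mul_eq_zero.1 h3 with h | h
      · exact absurd h hi
      · exact h
    ext j
    rw [Subsingleton.elim j 0, h2]
    rfl)
  refine ⟨Matrix.reindex σ σ (Matrix.fromCols P W), ?_, ?_⟩
  · rw [Matrix.det_reindex_self]
    exact hP
  · intro i
    have e0 : σ.symm 0 = Sum.inr 0 := e3_eq_zero n
    rw [Matrix.reindex_apply, Matrix.submatrix_apply, e0, Matrix.fromCols_apply_inr]
    show w (σ (σ.symm i)) = w i
    rw [Equiv.apply_symm_apply]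

end Pool.Agent.Lib.H32P
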