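import Pool.Agent.Lib.H32P.Defs

/-!
# Chunk E4 (M): an orthogonal matrix with a given unit vector as first column

Householder: if `v = e_0` take `1`; otherwise `Q = 1 - (2/|w|²) w wᵀ` with `w = v - e_0` (`|w|² = 2 - 2 v_0`), which is symmetric orthogonal with `Q e_0 = v`. Or extend `v` to an orthonormal basis
(`Orthonormal.exists_orthonormalBasis_extension_of_card_eq`).
-/

namespace Pool.Agent.Lib.H32P

theorem e4_orth {n : ℕ} (v : Fin (n + 1) → ℝ) (hv : ∑ i, v i ^ 2 = 1) :
    ∃ Q : Matrix (Fin (n + 1)) (Fin (n + 1)) ℝ, Q.transpose * Q = 1 ∧ ∀ i, Q i 0 = v i := by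
  have hv' : v 0 ^ 2 + ∑ i : Fin n, v i.succ ^ 2 = 1 := by rw [← hv, Fin.sum_univ_succ]
  by_cases h0 : v 0 = 1
  · refine ⟨1, by simp, fun i => ?_⟩
    rw [h0] at hv'
    have h1 : ∑ i : Fin n, v i.succ ^ 2 = 0 := by linarith
    rw [Finset.sum_eq_zero_iff_of_nonneg (fun i _ => sq_nonneg _)] at h1
    refine Fin.cases ?_ (fun j => ?_) i
    · rw [Matrix.one_apply_eq, h0]
    · rw [Matrix.one_apply_ne (Fin.succ_ne_zero j)]
      have := h1 j (Finset.mem_univ _)
      exact (pow_eq_zero_iff (two_ne_zero)).1 this |>.symm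
  · obtain ⟨w, hw⟩ : ∃ w : Fin (n + 1) → ℝ, ∀ i, w i = v i - (if i = 0 then 1 else 0) :=
      ⟨_, fun _ => rfl⟩
    obtain ⟨c, hc⟩ : ∃ c : ℝ, c * (1 - v 0) = 1 :=
      ⟨(1 - v 0)⁻¹, inv_mul_cancel₀ (by intro h; exact h0 (by linarith))⟩
    have hw0 : w 0 = v 0 - 1 := by rw [hw]; simp
    have hws : ∀ i : Fin n, w i.succ = v i.succ := fun i => by
      rw [hw, if_neg (Fin.succ_ne_zero i), sub_zero]
    have hww : ∑ k, w k * w k = 2 * (1 - v 0) := by
      rw [Fin.sum_univ_succ, hw0]
      have : ∑ i : Fin n, w i.succ * w i.succ = ∑ i : Fin n, v i.succ ^ 2 :=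
        Finset.sum_congr rfl fun i _ => by rw [hws, sq]
      rw [this]
      nlinarith
    refine ⟨Matrix.of fun i j => (if i = j then 1 else 0) - c * (w i * w j), ?_, fun i => ?_⟩
    · ext i j
      rw [Matrix.mul_apply]
      simp only [Matrix.transpose_apply, Matrix.of_apply]
      have e : ∀ k, ((if k = i then (1 : ℝ) else 0) - c * (w k * w i)) *
          ((if k = j then 1 else 0) - c * (w k * w j)) =
          (if k = i then (if k = j then 1 else 0) - c * (w k * w j) else 0) -
            (if k = j then c * (w k * w i) else 0) + c ^ 2 * (w i * w j) * (w k * w k) := by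
        intro k
        split_ifs <;> ring
      rw [Finset.sum_congr rfl fun k _ => e k, Finset.sum_add_distrib, Finset.sum_sub_distrib,
        ← Finset.mul_sum, hww, Finset.sum_ite_eq' Finset.univ i, Finset.sum_ite_eq' Finset.univ j,
        if_pos (Finset.mem_univ _), if_pos (Finset.mem_univ _), Matrix.one_apply]
      have e2 : c ^ 2 * (w i * w j) * (2 * (1 - v 0)) = (c * (1 - v 0)) * (2 * c * (w i * w j)) := by
        ring
      rw [e2, hc]
      ring
    · rw [Matrix.of_apply, hw0]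
      have e3 : c * (w i * (v 0 - 1)) = -(c * (1 - v 0)) * w i := by ring
      rw [e3, hc, hw]
      ring

end Pool.Agent.Lib.H32P
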