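import Pool.Agent.Lib.H32P.E5a

/-!
# Chunk E5 (M/L): existence of reduced bases (Hermite - Korkine - Zolotareff)

Induction on `n`; `n = 0` trivial. For `n + 1`: `e5a_step` gives `T₁, Q₁, ρ, b, V'`; the induction hypothesis for `V'` gives `V' T' = Q' R'`. Put `T = T₁ diag(1, T')`, `Q = Q₁ diag(1, Q')`, `R = bord ρ (b T') R'`
(`diag(1, Z) = bord 1 0 Z`; `bord ρ b V' * bord 1 0 T' = bord ρ (b T') (V' T') = bord 1 0 Q' * bord ρ (b T') R'`). So `V T = Q R`. `R` is upper triangular with positive diagonal.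
`min` for `i = 0`: `∑_l (R x)_l² = ∑ (Q R x)_l² = ∑ (V (T x))_l² ≥ ρ²`, as `T x ≠ 0`. `min` for `i + 1`: `(R x)_{l+1} = (R' x')_l` with `x' = x ∘ succ`; use the induction hypothesis.
-/

namespace Pool.Agent.Lib.H32P

/-- integer version of `bord 1 0 T` -/
def e5_T {n : ℕ} (T : Matrix (Fin n) (Fin n) ℤ) : Matrix (Fin (n + 1)) (Fin (n + 1)) ℤ :=
  Matrix.of (Matrix.vecCons (Matrix.vecCons 1 (fun _ => 0)) (fun i => Matrix.vecCons 0 (T i)))

theorem e5_T_det {n : ℕ} (T : Matrix (Fin n) (Fin n) ℤ) : (e5_T T).det = T.det := by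
  rw [Matrix.det_succ_column_zero, Fin.sum_univ_succ]
  have h0 : ∀ i : Fin n, (e5_T T) i.succ 0 = 0 := fun i => rfl
  have h1 : (e5_T T) 0 0 = 1 := rfl
  have h2 : (e5_T T).submatrix (Fin.succAbove 0) Fin.succ = T := by
    ext i j
    rfl
  simp only [h0, h1, h2]
  simp

theorem e5_T_map {n : ℕ} (T : Matrix (Fin n) (Fin n) ℤ) :
    (e5_T T).map (Int.cast : ℤ → ℝ) = bord 1 (fun _ => 0) (T.map (Int.cast : ℤ → ℝ)) := by
  ext i j
  refine Fin.cases ?_ (fun i => ?_) i
  · refine Fin.cases ?_ (fun j => ?_) j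
    · simp [e5_T, bord]
    · simp [e5_T, bord]
  · refine Fin.cases ?_ (fun j => ?_) j
    · simp [e5_T, bord]
    · simp [e5_T, bord]

theorem e5_mul1 {n : ℕ} (ρ : ℝ) (b : Fin n → ℝ) (V T : Matrix (Fin n) (Fin n) ℝ) :
    bord ρ b V * bord 1 (fun _ => 0) T = bord ρ (Matrix.vecMul b T) (V * T) := by
  ext i j
  rw [Matrix.mul_apply, Fin.sum_univ_succ]
  refine Fin.cases ?_ (fun i => ?_) i
  · refine Fin.cases ?_ (fun j => ?_) j
    · simp [bord]
    · simp [bord, Matrix.vecMul, dotProduct]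
  · refine Fin.cases ?_ (fun j => ?_) j
    · simp [bord]
    · simp [bord, Matrix.mul_apply]

theorem e5_mul2 {n : ℕ} (ρ : ℝ) (b : Fin n → ℝ) (Q R : Matrix (Fin n) (Fin n) ℝ) :
    bord 1 (fun _ => 0) Q * bord ρ b R = bord ρ b (Q * R) := by
  ext i j
  rw [Matrix.mul_apply, Fin.sum_univ_succ]
  refine Fin.cases ?_ (fun i => ?_) i
  · refine Fin.cases ?_ (fun j => ?_) j
    · simp [bord]
    · simp [bord]
  · refine Fin.cases ?_ (fun j => ?_) j
    · simp [bord]
    · simp [bord, Matrix.mul_apply]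

theorem e5_tr {n : ℕ} (Q : Matrix (Fin n) (Fin n) ℝ) :
    (bord 1 (fun _ => 0) Q).transpose = bord 1 (fun _ => 0) Q.transpose := by
  ext i j
  refine Fin.cases ?_ (fun i => ?_) i
  · refine Fin.cases ?_ (fun j => ?_) j
    · simp [bord]
    · simp [bord]
  · refine Fin.cases ?_ (fun j => ?_) j
    · simp [bord]
    · simp [bord]

theorem e5_one {n : ℕ} : bord 1 (fun _ => 0) (1 : Matrix (Fin n) (Fin n) ℝ) = 1 := by
  ext i j
  refine Fin.cases ?_ (fun i => ?_) i
  · refine Fin.cases ?_ (fun j => ?_) j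
    · simp [bord]
    · simp [bord, Matrix.one_apply, Fin.ext_iff]
  · refine Fin.cases ?_ (fun j => ?_) j
    · simp [bord, Matrix.one_apply]
    · simp [bord, Matrix.one_apply]

theorem e5_orth {n : ℕ} (Q : Matrix (Fin n) (Fin n) ℝ) (hQ : Q.transpose * Q = 1) (v : Fin n → ℝ) :
    ∑ i, (Q.mulVec v i) ^ 2 = ∑ i, v i ^ 2 := by
  have e : ∀ w : Fin n → ℝ, ∑ i, w i ^ 2 = w ⬝ᵥ w := by
    intro w
    simp only [dotProduct, sq]
  rw [e, e, Matrix.dotProduct_mulVec, ← Matrix.mulVec_transpose, Matrix.mulVec_mulVec, hQ,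
    Matrix.one_mulVec]

theorem e5_min0 {n : ℕ} (V : Matrix (Fin (n + 1)) (Fin (n + 1)) ℝ)
    (T : Matrix (Fin (n + 1)) (Fin (n + 1)) ℤ) (Q R : Matrix (Fin (n + 1)) (Fin (n + 1)) ℝ) (ρ : ℝ)
    (hT : IsUnit T.det) (hQ : Q.transpose * Q = 1)
    (hV : V * T.map (Int.cast : ℤ → ℝ) = Q * R)
    (hmin : ∀ x : Fin (n + 1) → ℤ, x ≠ 0 → ρ ^ 2 ≤ ∑ i, (V.mulVec (fun j => (x j : ℝ)) i) ^ 2)
    (x : Fin (n + 1) → ℤ) (hx : x ≠ 0) :
    ρ ^ 2 ≤ ∑ l, (R.mulVec (fun j => (x j : ℝ)) l) ^ 2 := by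
  have hTx : T.mulVec x ≠ 0 := by
    intro h
    apply hx
    have h1 : T⁻¹.mulVec (T.mulVec x) = 0 := by rw [h, Matrix.mulVec_zero]
    rwa [Matrix.mulVec_mulVec, Matrix.nonsing_inv_mul _ hT, Matrix.one_mulVec] at h1
  refine (hmin _ hTx).trans (le_of_eq ?_)
  have e1 : (fun j => ((T.mulVec x j : ℤ) : ℝ)) =
      (T.map (Int.cast : ℤ → ℝ)).mulVec (fun j => (x j : ℝ)) := by
    ext j
    simp only [Matrix.mulVec, dotProduct, Matrix.map_apply]
    push_cast
    rfl
  rw [e1, Matrix.mulVec_mulVec, hV, ← Matrix.mulVec_mulVec, e5_orth Q hQ]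

theorem e5_hkz {n : ℕ} (V : Matrix (Fin n) (Fin n) ℝ) (hV : V.det ≠ 0) :
    ∃ (T : Matrix (Fin n) (Fin n) ℤ) (Q R : Matrix (Fin n) (Fin n) ℝ),
      IsUnit T.det ∧ Q.transpose * Q = 1 ∧ V * T.map (Int.cast : ℤ → ℝ) = Q * R ∧ HKZ R := by
  induction n with
  | zero =>
    refine ⟨1, 1, V, by simp, by simp, ?_, ?_⟩
    · ext i
      exact i.elim0
    · exact ⟨fun i => i.elim0, fun i => i.elim0, fun i => i.elim0⟩
  | succ n ih =>
    obtain ⟨T₁, Q₁, ρ, b, V', hT₁, hQ₁, hρ, hV', hVT, hmin⟩ := e5a_step V hV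
    obtain ⟨T', Q', R', hT', hQ', hVT', hR'⟩ := ih V' hV'
    set T := T₁ * e5_T T' with hTdef
    set Q := Q₁ * bord 1 (fun _ => 0) Q' with hQdef
    set R := bord ρ (Matrix.vecMul b (T'.map (Int.cast : ℤ → ℝ))) R' with hRdef
    have hT : IsUnit T.det := by
      rw [hTdef, Matrix.det_mul, e5_T_det]
      exact hT₁.mul hT'
    have hQ : Q.transpose * Q = 1 := by
      rw [hQdef, Matrix.transpose_mul, e5_tr, Matrix.mul_assoc, ← Matrix.mul_assoc _ Q₁, hQ₁,
        Matrix.one_mul, e5_mul2, hQ', e5_one]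
    have hTmap : T.map (Int.cast : ℤ → ℝ) =
        T₁.map (Int.cast : ℤ → ℝ) * bord 1 (fun _ => 0) (T'.map (Int.cast : ℤ → ℝ)) := by
      rw [hTdef, ← e5_T_map]
      exact Matrix.map_mul (f := Int.castRingHom ℝ)
    have hVR : V * T.map (Int.cast : ℤ → ℝ) = Q * R := by
      rw [hTmap, ← Matrix.mul_assoc, hVT, Matrix.mul_assoc, e5_mul1, hVT', hQdef, hRdef,
        Matrix.mul_assoc, e5_mul2]
    refine ⟨T, Q, R, hT, hQ, hVR, ?_, ?_, ?_⟩
    · intro i j hij
      revert hij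
      refine Fin.cases (fun h => absurd h (Fin.not_lt_zero j)) (fun i => ?_) i
      refine Fin.cases (fun _ => ?_) (fun j => ?_) j
      · rw [hRdef]
        simp [bord]
      · intro h
        have : R i.succ j.succ = R' i j := by
          rw [hRdef]
          simp [bord]
        rw [this]
        exact hR'.tri i j (Fin.succ_lt_succ_iff.1 h)
    · intro i
      refine Fin.cases ?_ (fun i => ?_) i
      · rw [hRdef]
        simpa [bord] using hρ
      · rw [hRdef]
        simpa [bord] using hR'.pos i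
    · intro i x
      refine Fin.cases ?_ (fun i => ?_) i
      · rintro ⟨l, -, hl⟩
        have hx : x ≠ 0 := by
          rintro rfl
          exact hl rfl
        have h1 := e5_min0 V T Q R ρ hT hQ hVR hmin x hx
        have e0 : R 0 0 = ρ := by
          rw [hRdef]
          simp [bord]
        rw [e0]
        have e1 : Finset.univ.filter (fun l : Fin (n + 1) => 0 ≤ l) = Finset.univ := by
          ext l
          simp
        rw [e1]
        exact h1
      · rintro ⟨l, hl1, hl2⟩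
        have e0 : R i.succ i.succ = R' i i := by
          rw [hRdef]
          simp [bord]
        have hmul : ∀ l' : Fin n, R.mulVec (fun j => (x j : ℝ)) l'.succ =
            R'.mulVec (fun j => ((x j.succ : ℤ) : ℝ)) l' := by
          intro l'
          rw [hRdef]
          simp [bord, Matrix.mulVec, dotProduct, Fin.sum_univ_succ]
        rw [e0, Finset.sum_filter, Fin.sum_univ_succ]
        have h0 : ¬ (i.succ ≤ (0 : Fin (n + 1))) := by
          rw [not_le]
          exact Fin.succ_pos i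
        rw [if_neg h0, zero_add]
        have h2 := hR'.min i (fun j => x j.succ) (by
          revert hl1 hl2
          refine Fin.cases (fun h _ => absurd h h0) (fun l => ?_) l
          intro h3 h4
          exact ⟨l, Fin.succ_le_succ_iff.1 h3, h4⟩)
        rw [Finset.sum_filter] at h2
        refine h2.trans (le_of_eq ?_)
        refine Finset.sum_congr rfl fun l' _ => ?_
        rw [hmul]
        by_cases h3 : i ≤ l'
        · rw [if_pos h3, if_pos (Fin.succ_le_succ_iff.2 h3)]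
        · rw [if_neg h3, if_neg (fun h => h3 (Fin.succ_le_succ_iff.1 h))]

end Pool.Agent.Lib.H32P
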