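import Pool.Agent.Lib.H32P.E2
import Pool.Agent.Lib.H32P.E3
import Pool.Agent.Lib.H32P.E4

/-!
# Chunk E5a (M): one reduction step

Let `w` be the shortest vector of `e2_min`. It is primitive: if `w = d x` then `x ≠ 0`, `∑ (V x)² ≥ ∑ (V w)² = d² ∑ (V x)²` and `∑ (V x)² > 0`, so `d² ≤ 1`, `d ≠ 0`. Take `T` from `e3_complete`, `ρ = sqrt (∑ (V w)_i²) > 0`, `Q` from `e4_orth` for `v = V w / ρ`.
The matrix `M = Qᵀ V T` has first column `Qᵀ (V w) = ρ e_0`, so `M = bord ρ b V'` with `b j = M 0 (j+1)`, `V' i j = M (i+1) (j+1)`; `V T = Q M` (`Q Qᵀ = 1`), and `det M = ρ det V'` is nonzero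
(`Matrix.det_succ_column_zero`).
-/

namespace Pool.Agent.Lib.H32P

theorem e5a_det {n : ℕ} (ρ : ℝ) (b : Fin n → ℝ) (V : Matrix (Fin n) (Fin n) ℝ) :
    (bord ρ b V).det = ρ * V.det := by
  rw [Matrix.det_succ_column_zero, Fin.sum_univ_succ]
  have h0 : ∀ i : Fin n, (bord ρ b V) i.succ 0 = 0 := fun i => rfl
  have h1 : (bord ρ b V) 0 0 = ρ := rfl
  have h2 : (bord ρ b V).submatrix (Fin.succAbove 0) Fin.succ = V := by
    ext i j
    rfl
  simp only [h0, h1, h2]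
  simp

theorem e5a_pos {n : ℕ} (V : Matrix (Fin (n + 1)) (Fin (n + 1)) ℝ) (hV : V.det ≠ 0)
    (x : Fin (n + 1) → ℤ) (hx : x ≠ 0) : 0 < ∑ i, (V.mulVec (fun j => (x j : ℝ)) i) ^ 2 := by
  have hne : V.mulVec (fun j => (x j : ℝ)) ≠ 0 := by
    intro h
    apply hx
    have h1 : V⁻¹.mulVec (V.mulVec (fun j => (x j : ℝ))) = 0 := by rw [h, Matrix.mulVec_zero]
    rw [Matrix.mulVec_mulVec, Matrix.nonsing_inv_mul _ (isUnit_iff_ne_zero.2 hV),
      Matrix.one_mulVec] at h1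
    ext j
    have := congrFun h1 j
    simp only [Pi.zero_apply] at this
    show x j = 0
    exact_mod_cast this
  obtain ⟨i, hi⟩ := Function.ne_iff.1 hne
  refine Finset.sum_pos' (fun _ _ => sq_nonneg _) ⟨i, Finset.mem_univ _, ?_⟩
  exact lt_of_le_of_ne (sq_nonneg _) (Ne.symm (pow_ne_zero 2 hi))

theorem e5a_step {n : ℕ} (V : Matrix (Fin (n + 1)) (Fin (n + 1)) ℝ) (hV : V.det ≠ 0) :
    ∃ (T : Matrix (Fin (n + 1)) (Fin (n + 1)) ℤ) (Q : Matrix (Fin (n + 1)) (Fin (n + 1)) ℝ) (ρ : ℝ) (b : Fin n → ℝ)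
      (V' : Matrix (Fin n) (Fin n) ℝ),
      IsUnit T.det ∧ Q.transpose * Q = 1 ∧ 0 < ρ ∧ V'.det ≠ 0 ∧
      V * T.map (Int.cast : ℤ → ℝ) = Q * bord ρ b V' ∧
      ∀ x : Fin (n + 1) → ℤ, x ≠ 0 → ρ ^ 2 ≤ ∑ i, (V.mulVec (fun j => (x j : ℝ)) i) ^ 2 := by
  obtain ⟨w, hw0, hmin⟩ := e2_min V hV
  have hwpos := e5a_pos V hV w hw0
  obtain ⟨T, hT, hT0⟩ := e3_complete w hw0 (by
    intro d x hwx
    have hx0 : x ≠ 0 := by
      rintro rfl
      apply hw0
      rw [hwx, smul_zero]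
    have h1 := hmin x hx0
    have h2 := e5a_pos V hV x hx0
    have h3 : ∑ i, (V.mulVec (fun j => (w j : ℝ)) i) ^ 2 =
        (d : ℝ) ^ 2 * ∑ i, (V.mulVec (fun j => (x j : ℝ)) i) ^ 2 := by
      have e : (fun j => (w j : ℝ)) = (d : ℝ) • (fun j => (x j : ℝ)) := by
        ext j
        rw [hwx]
        simp
      rw [e, Matrix.mulVec_smul, Finset.mul_sum]
      refine Finset.sum_congr rfl fun i _ => ?_
      simp only [Pi.smul_apply, smul_eq_mul]
      ring
    rw [h3] at h1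
    have h4 : (d : ℝ) ^ 2 ≤ 1 := by
      by_contra hcon
      push Not at hcon
      nlinarith
    have h5 : d ^ 2 ≤ 1 := by exact_mod_cast h4
    have h6 : d ≠ 0 := by
      rintro rfl
      apply hw0
      rw [hwx, zero_smul]
    have h7 : |d| ≤ 1 := by
      rw [← sq_le_one_iff_abs_le_one]
      exact h5
    have h8 : |d| = 1 := by
      have : 0 < |d| := abs_pos.2 h6
      omega
    rw [Int.isUnit_iff]
    exact abs_eq (by norm_num) |>.1 h8)
  set S : ℝ := ∑ i, (V.mulVec (fun j => (w j : ℝ)) i) ^ 2 with hS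
  set ρ : ℝ := Real.sqrt S with hρ
  have hρ0 : 0 < ρ := Real.sqrt_pos.2 hwpos
  have hρ2 : ρ ^ 2 = S := Real.sq_sqrt hwpos.le
  set v : Fin (n + 1) → ℝ := fun i => V.mulVec (fun j => (w j : ℝ)) i / ρ with hv
  have hv1 : ∑ i, v i ^ 2 = 1 := by
    have : ∀ i, v i ^ 2 = (V.mulVec (fun j => (w j : ℝ)) i) ^ 2 / S := by
      intro i
      rw [hv, div_pow, hρ2]
    rw [Finset.sum_congr rfl fun i _ => this i, ← Finset.sum_div, ← hS, div_self hwpos.ne']
  obtain ⟨Q, hQ, hQ0⟩ := e4_orth v hv1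
  have hQ' : Q * Q.transpose = 1 := mul_eq_one_comm.1 hQ
  set M := Q.transpose * (V * T.map (Int.cast : ℤ → ℝ)) with hM
  have hQM : Q * M = V * T.map (Int.cast : ℤ → ℝ) := by
    rw [hM, ← Matrix.mul_assoc, hQ', Matrix.one_mul]
  have hcol : ∀ i, M i 0 = ρ * (1 : Matrix (Fin (n + 1)) (Fin (n + 1)) ℝ) i 0 := by
    intro i
    rw [← hQ, hM, Matrix.mul_apply, Matrix.mul_apply, Finset.mul_sum]
    refine Finset.sum_congr rfl fun k _ => ?_
    have e1 : (V * T.map (Int.cast : ℤ → ℝ)) k 0 = V.mulVec (fun j => (w j : ℝ)) k := by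
      rw [Matrix.mul_apply]
      simp only [Matrix.mulVec, dotProduct, Matrix.map_apply, hT0]
    have e2 : Q k 0 = V.mulVec (fun j => (w j : ℝ)) k / ρ := hQ0 k
    rw [e1, e2, Matrix.transpose_apply]
    field_simp
  have hMb : M = bord ρ (fun j => M 0 j.succ) (fun i j => M i.succ j.succ) := by
    ext i j
    refine Fin.cases ?_ (fun i => ?_) i
    · refine Fin.cases ?_ (fun j => ?_) j
      · rw [hcol]
        simp [bord]
      · simp [bord]
    · refine Fin.cases ?_ (fun j => ?_) j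
      · rw [hcol]
        simp [bord]
      · simp [bord]
  refine ⟨T, Q, ρ, fun j => M 0 j.succ, fun i j => M i.succ j.succ, hT, hQ, hρ0, ?_, ?_, ?_⟩
  · intro h0
    have h1 : M.det = 0 := by
      have h2 : M.det = ρ * (Matrix.det fun (i j : Fin n) => M i.succ j.succ) :=
        (congrArg Matrix.det hMb).trans (e5a_det _ _ _)
      rw [h2, h0, mul_zero]
    have h2 : (V * T.map (Int.cast : ℤ → ℝ)).det = 0 := by
      rw [← hQM, Matrix.det_mul, h1, mul_zero]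
    rw [Matrix.det_mul] at h2
    rcases mul_eq_zero.1 h2 with h | h
    · exact hV h
    · have e : (T.map (Int.cast : ℤ → ℝ)).det = ((T.det : ℤ) : ℝ) := by
        have := (Int.castRingHom ℝ).map_det T
        simpa using this.symm
      rw [e] at h
      have h3 : T.det = 0 := by exact_mod_cast h
      rw [h3] at hT
      exact not_isUnit_zero hT
  · rw [← hMb, hQM]
  · intro x hx
    rw [hρ2]
    exact hmin x hx

end Pool.Agent.Lib.H32P
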