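import Pool.Agent.Lib.H32P.C1

/-!
# Chunk E6 (M): Minkowski's bound for the diagonal blocks of a reduced matrix

Let `i + e < n`, `d = e + 1`, `A` the `d × d` block of `R` with rows and columns `i, .., i + e` (upper triangular, `det A = ∏ R_ll > 0`), `s = (det A)^(1/d)`. `c1_minkowski` gives an integer vector `y ≠ 0` with `|(A y)_l| ≤ s`. Extend `y` by `0` to
`x : Fin n → ℤ`. For `l > i + e`, `(R x)_l = 0` (upper triangular), and for `i ≤ l ≤ i + e`, `(R x)_l = (A y)_{l-i}`. So `HKZ.min` gives `(R i i)² ≤ d s²`, i.e. `2 log R_ii ≤ log d + (2/d) ∑ log R_ll`.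
-/

namespace Pool.Agent.Lib.H32P

theorem e6_block {n : ℕ} {R : Matrix (Fin n) (Fin n) ℝ} (hR : HKZ R) (r : ℕ → ℝ)
    (hr : ∀ i : Fin n, r i = Real.log (R i i)) {i e : ℕ} (hi : i + e < n) :
    r i ≤ (∑ f ∈ Finset.range (e + 1), r (i + f)) / (e + 1) + Real.log (e + 1) / 2 := by
  classical
  let emb : Fin (e + 1) → Fin n := fun a => ⟨i + a, by have := a.2; omega⟩
  have hemb : Function.Injective emb := by
    intro a b hab
    have h1 : i + (a : ℕ) = i + (b : ℕ) := congrArg Fin.val hab
    exact Fin.ext (by omega)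
  set A : Matrix (Fin (e + 1)) (Fin (e + 1)) ℝ := Matrix.of fun a b => R (emb a) (emb b) with hA
  have hApp : ∀ a b, A a b = R (emb a) (emb b) := fun a b => rfl
  have htri : A.BlockTriangular id := by
    intro a b hab
    rw [hApp]
    apply hR.tri
    rw [Fin.lt_def]
    have : (b : ℕ) < (a : ℕ) := hab
    show i + (b : ℕ) < i + (a : ℕ)
    omega
  have hdet : A.det = ∏ a, R (emb a) (emb a) := Matrix.det_of_upperTriangular htri
  have hpos : ∀ a, 0 < R (emb a) (emb a) := fun a => hR.pos _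
  have hdetpos : 0 < A.det := by
    rw [hdet]
    exact Finset.prod_pos fun a _ => hpos a
  set sr : ℝ := ∑ f ∈ Finset.range (e + 1), r (i + f) with hsr
  have hsr2 : sr = Real.log A.det := by
    rw [hdet, Real.log_prod fun a _ => (hpos a).ne', hsr, ← Fin.sum_univ_eq_sum_range (fun f => r (i + f))]
    refine Finset.sum_congr rfl fun a _ => ?_
    exact hr (emb a)
  set s : ℝ := Real.exp (sr / (e + 1)) with hs
  have hs0 : 0 < s := Real.exp_pos _
  have hsd : s ^ (e + 1) = A.det := by
    rw [hs, ← Real.exp_nat_mul]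
    have : ((e + 1 : ℕ) : ℝ) * (sr / (e + 1)) = sr := by
      push_cast
      field_simp
    rw [this, hsr2, Real.exp_log hdetpos]
  obtain ⟨y, hy0, hy⟩ := c1_minkowski (d := e + 1) (by omega) A hdetpos.ne' hs0
    (by rw [hsd, abs_of_pos hdetpos])
  set x : Fin n → ℤ := Function.extend emb y (fun _ => 0) with hx
  have hxe : ∀ a, x (emb a) = y a := fun a => hemb.extend_apply _ _ a
  have hx0 : ∀ j, (¬ ∃ a, emb a = j) → x j = 0 := fun j hj => Function.extend_apply' _ _ _ hj
  have hmul : ∀ l : Fin n, R.mulVec (fun j => (x j : ℝ)) l = ∑ b, R l (emb b) * (y b : ℝ) := by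
    intro l
    have h1 : ∑ j ∈ Finset.univ.map ⟨emb, hemb⟩, R l j * (x j : ℝ) = ∑ j, R l j * (x j : ℝ) := by
      apply Finset.sum_subset (Finset.subset_univ _)
      intro j _ hj
      rw [hx0 j, Int.cast_zero, mul_zero]
      rintro ⟨a, rfl⟩
      exact hj (Finset.mem_map.2 ⟨a, Finset.mem_univ _, rfl⟩)
    have h2 : R.mulVec (fun j => (x j : ℝ)) l = ∑ j, R l j * (x j : ℝ) := rfl
    rw [h2, ← h1, Finset.sum_map]
    refine Finset.sum_congr rfl fun b _ => ?_
    show R l (emb b) * (x (emb b) : ℝ) = _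
    rw [hxe]
  have hin : i < n := by omega
  have hmin := hR.min ⟨i, hin⟩ x (by
    obtain ⟨a, ha⟩ := Function.ne_iff.1 hy0
    refine ⟨emb a, ?_, ?_⟩
    · rw [Fin.le_def]
      show i ≤ i + (a : ℕ)
      omega
    · rw [hxe]
      exact ha)
  have hsum : ∑ l ∈ Finset.univ.filter (fun l => (⟨i, hin⟩ : Fin n) ≤ l),
      (R.mulVec (fun j => (x j : ℝ)) l) ^ 2 = ∑ a, (A.mulVec (fun j => (y j : ℝ)) a) ^ 2 := by
    have h1 : ∑ l ∈ Finset.univ.map ⟨emb, hemb⟩, (R.mulVec (fun j => (x j : ℝ)) l) ^ 2 =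
        ∑ l ∈ Finset.univ.filter (fun l => (⟨i, hin⟩ : Fin n) ≤ l),
          (R.mulVec (fun j => (x j : ℝ)) l) ^ 2 := by
      apply Finset.sum_subset
      · intro l hl
        rw [Finset.mem_map] at hl
        obtain ⟨a, _, rfl⟩ := hl
        rw [Finset.mem_filter]
        refine ⟨Finset.mem_univ _, ?_⟩
        rw [Fin.le_def]
        show i ≤ i + (a : ℕ)
        omega
      · intro l hl hl2
        rw [Finset.mem_filter] at hl
        have hil : i ≤ (l : ℕ) := hl.2
        have hlt : i + e < (l : ℕ) := by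
          by_contra hcon
          apply hl2
          refine Finset.mem_map.2 ⟨⟨(l : ℕ) - i, by omega⟩, Finset.mem_univ _, ?_⟩
          apply Fin.ext
          show i + ((l : ℕ) - i) = (l : ℕ)
          omega
        rw [hmul]
        have : ∑ b, R l (emb b) * (y b : ℝ) = 0 := by
          apply Finset.sum_eq_zero
          intro b _
          rw [hR.tri l (emb b), zero_mul]
          rw [Fin.lt_def]
          show i + (b : ℕ) < (l : ℕ)
          have := b.2
          omega
        rw [this]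
        norm_num
    rw [← h1, Finset.sum_map]
    refine Finset.sum_congr rfl fun a _ => ?_
    show (R.mulVec (fun j => (x j : ℝ)) (emb a)) ^ 2 = _
    rw [hmul]
    rfl
  rw [hsum] at hmin
  have hbound : ∑ a, (A.mulVec (fun j => (y j : ℝ)) a) ^ 2 ≤ (e + 1) * s ^ 2 := by
    calc ∑ a, (A.mulVec (fun j => (y j : ℝ)) a) ^ 2 ≤ ∑ _a : Fin (e + 1), s ^ 2 := by
          refine Finset.sum_le_sum fun a _ => ?_
          rw [← sq_abs]
          exact pow_le_pow_left₀ (abs_nonneg _) (hy a) 2
      _ = (e + 1) * s ^ 2 := by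
          rw [Finset.sum_const, Finset.card_univ, Fintype.card_fin, nsmul_eq_mul]
          push_cast
          ring
  have hfin := hmin.trans hbound
  have hRi : 0 < R ⟨i, hin⟩ ⟨i, hin⟩ := hR.pos _
  have hlog := Real.log_le_log (by positivity) hfin
  rw [Real.log_pow, Real.log_mul (by positivity) (by positivity), Real.log_pow, ← hr ⟨i, hin⟩, hs,
    Real.log_exp] at hlog
  push_cast at hlog
  linarith

end Pool.Agent.Lib.H32P
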