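import Pool.Agent.Lib.H32P.Defs

/-!
# Chunk E7 (M): the numerical recursion

Fix `j < n` and put `b e = r (j - e) - r j` for `e ≤ j`; `b 0 = 0`. The hypothesis for `i = j - e` (and `e`) reads, after subtracting `r j`: `b e ≤ (∑_{f ≤ e} b f)/(e+1) + log (e+1)/2`, i.e. for `e ≥ 1`, with `s e = (∑_{f<e} b f)/e`:
`b e ≤ s e + ((e+1)/(2e)) log (e+1)`, and so `s (e+1) = (e s e + b e)/(e+1) ≤ s e + log (e+1)/(2e)`, `s 1 = 0`. With `log (1 + x) = 2 log (sqrt (1 + x)) ≤ 2 (sqrt (1 + x) - 1) ≤ 2 sqrt x` for `x ≥ 0` one gets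
`s e ≤ ∑_{f=1}^{e-1} 1/(sqrt f) ≤ 2 sqrt e` (`1/sqrt f ≤ 2 (sqrt f - sqrt (f-1))`), and `((e+1)/(2e)) log (e+1) ≤ log (e + 1) ≤ 2 sqrt e` (`e ≥ 1`). So `b e ≤ 4 sqrt e`; take `e = j`.
-/

namespace Pool.Agent.Lib.H32P

theorem e7_log (x : ℝ) (hx : 0 ≤ x) : Real.log (x + 1) ≤ 2 * Real.sqrt x := by
  have h1 : Real.log (x + 1) = 2 * Real.log (Real.sqrt (x + 1)) := by
    rw [Real.log_sqrt (by linarith)]
    ring
  have h2 : Real.log (Real.sqrt (x + 1)) ≤ Real.sqrt (x + 1) - 1 :=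
    Real.log_le_sub_one_of_pos (Real.sqrt_pos.2 (by linarith))
  have h3 : Real.sqrt (x + 1) ≤ Real.sqrt x + 1 := by
    apply Real.sqrt_le_iff.2
    have h4 := Real.sq_sqrt hx
    have h5 := Real.sqrt_nonneg x
    constructor
    · linarith
    · nlinarith
  linarith

theorem e7_rec (m : ℕ) (hm : 1 ≤ m) (S b : ℝ) (hb : m * b ≤ S + (m + 1) * Real.log (m + 1) / 2)
    (hS : S ≤ m * (2 * Real.sqrt ((m : ℝ) - 1))) :
    S + b ≤ (m + 1) * (2 * Real.sqrt m) := by
  have hm' : (1 : ℝ) ≤ m := by exact_mod_cast hm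
  have hl := e7_log m (by linarith)
  obtain ⟨a, ha⟩ : ∃ a, a = Real.sqrt m := ⟨_, rfl⟩
  obtain ⟨c, hc⟩ : ∃ c, c = Real.sqrt ((m : ℝ) - 1) := ⟨_, rfl⟩
  rw [← ha] at hl ⊢
  rw [← hc] at hS
  have ha2 : a ^ 2 = m := by rw [ha]; exact Real.sq_sqrt (by linarith)
  have hc2 : c ^ 2 = m - 1 := by rw [hc]; exact Real.sq_sqrt (by linarith)
  have ha0 : 1 ≤ a := by
    rw [ha]
    exact Real.one_le_sqrt.2 hm'
  have hc0 : 0 ≤ c := by rw [hc]; exact Real.sqrt_nonneg _
  -- m (S + b) ≤ (m + 1) (S + log/2) ≤ (m + 1) (2 m c + a)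
  have h1 : m * (S + b) ≤ (m + 1) * (2 * m * c + a) := by
    have h2 : (m : ℝ) * (S + b) ≤ (m + 1) * (S + Real.log (m + 1) / 2) := by linarith
    refine h2.trans (mul_le_mul_of_nonneg_left ?_ (by linarith))
    linarith
  -- 2 c a + 1 ≤ 2 a^2
  have h3 : 2 * c * a + 1 ≤ 2 * a ^ 2 := by nlinarith [sq_nonneg (a - c)]
  have h4 : 2 * m * c + a ≤ m * (2 * a) := by
    have h5 : a * (2 * c * a + 1) ≤ a * (2 * a ^ 2) := mul_le_mul_of_nonneg_left h3 (by linarith)
    have e1 : a * (2 * c * a + 1) = 2 * a ^ 2 * c + a := by ring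
    have e2 : a * (2 * a ^ 2) = a ^ 2 * (2 * a) := by ring
    rw [e1, e2, ha2] at h5
    exact h5
  have h6 : m * (S + b) ≤ m * ((m + 1) * (2 * a)) := by
    refine h1.trans ?_
    have := mul_le_mul_of_nonneg_left h4 (by linarith : (0 : ℝ) ≤ (m : ℝ) + 1)
    linarith
  exact le_of_mul_le_mul_left h6 (by linarith)

theorem e7_seq {n : ℕ} (r : ℕ → ℝ)
    (h : ∀ i e : ℕ, i + e < n →
      r i ≤ (∑ f ∈ Finset.range (e + 1), r (i + f)) / (e + 1) + Real.log (e + 1) / 2) {j : ℕ} (hj : j < n) :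
    r 0 ≤ r j + 4 * Real.sqrt n := by
  set b : ℕ → ℝ := fun e => r (j - e) - r j with hbdef
  have hb : ∀ e, e ≤ j → (e : ℝ) * b e ≤ (∑ f ∈ Finset.range e, b f) + (e + 1) * Real.log (e + 1) / 2 := by
    intro e he
    have h1 := h (j - e) e (by omega)
    have h2 : ∑ f ∈ Finset.range (e + 1), r (j - e + f) = ∑ f ∈ Finset.range (e + 1), (b f + r j) := by
      rw [← Finset.sum_range_reflect]
      refine Finset.sum_congr rfl fun f hf => ?_
      rw [Finset.mem_range] at hf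
      have e1 : j - e + (e + 1 - 1 - f) = j - f := by omega
      rw [e1, hbdef]
      ring
    rw [h2, Finset.sum_add_distrib, Finset.sum_const, Finset.card_range, nsmul_eq_mul,
      Finset.sum_range_succ] at h1
    push_cast at h1
    have he0 : (0 : ℝ) < (e : ℝ) + 1 := by positivity
    have h3 : r (j - e) = b e + r j := by rw [hbdef]; ring
    rw [h3] at h1
    have h4 : (e + 1) * (b e + r j) ≤ (e + 1) * (((∑ f ∈ Finset.range e, b f) + b e +
        ((e : ℝ) + 1) * r j) / (e + 1) + Real.log (e + 1) / 2) :=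
      mul_le_mul_of_nonneg_left h1 he0.le
    rw [mul_add ((e : ℝ) + 1) (_ / _) _, mul_div_cancel₀ _ he0.ne'] at h4
    linarith
  have hS : ∀ e, e ≤ j → ∑ f ∈ Finset.range (e + 1), b f ≤ (e + 1) * (2 * Real.sqrt e) := by
    intro e
    induction e with
    | zero =>
      intro _
      simp [hbdef]
    | succ e ih =>
      intro he
      rw [Finset.sum_range_succ]
      have h1 := e7_rec (e + 1) (by omega) (∑ f ∈ Finset.range (e + 1), b f) (b (e + 1))
        (hb (e + 1) he) (by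
          have h2 := ih (by omega)
          have e1 : (((e + 1 : ℕ) : ℝ) - 1) = e := by push_cast; ring
          rw [e1]
          push_cast
          exact h2)
      exact h1
  have hn : (j : ℝ) ≤ n := by exact_mod_cast hj.le
  have hsn : Real.sqrt j ≤ Real.sqrt n := Real.sqrt_le_sqrt hn
  rcases Nat.eq_zero_or_pos j with h0 | h0
  · rw [h0]
    have := Real.sqrt_nonneg (n : ℝ)
    linarith
  · have h1 := hb j le_rfl
    have h2 := hS (j - 1) (by omega)
    have e1 : j - 1 + 1 = j := by omega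
    rw [e1] at h2
    have e2 : ((j - 1 : ℕ) : ℝ) + 1 = j := by
      rw [Nat.cast_sub h0]
      push_cast
      ring
    rw [e2] at h2
    have h3 : Real.sqrt ((j - 1 : ℕ) : ℝ) ≤ Real.sqrt j := by
      apply Real.sqrt_le_sqrt
      exact_mod_cast Nat.sub_le j 1
    have h4 := e7_log j (Nat.cast_nonneg j)
    have hj1 : (1 : ℝ) ≤ j := by exact_mod_cast h0
    have h5 : (j : ℝ) * b j ≤ j * (4 * Real.sqrt j) := by
      have h6 : (j : ℝ) * (2 * Real.sqrt ((j - 1 : ℕ) : ℝ)) ≤ j * (2 * Real.sqrt j) :=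
        mul_le_mul_of_nonneg_left (by linarith) (by linarith)
      have h7 : ((j : ℝ) + 1) * Real.log (j + 1) / 2 ≤ (j + 1) * (Real.sqrt j) := by
        have : ((j : ℝ) + 1) * Real.log (j + 1) ≤ (j + 1) * (2 * Real.sqrt j) :=
          mul_le_mul_of_nonneg_left h4 (by linarith)
        linarith
      have h8 : ((j : ℝ) + 1) * Real.sqrt j ≤ (2 * j) * Real.sqrt j :=
        mul_le_mul_of_nonneg_right (by linarith) (Real.sqrt_nonneg _)
      linarith
    have h6 : b j ≤ 4 * Real.sqrt j := le_of_mul_le_mul_left h5 (by linarith)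
    have h7 : b j = r 0 - r j := by
      show r (j - j) - r j = r 0 - r j
      rw [Nat.sub_self]
    rw [h7] at h6
    linarith

end Pool.Agent.Lib.H32P
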