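import Pool.Agent.Lib.H32P.Defs

/-!
# Chunk E8 (M): Babai's nearest plane recursion

`(Rᵀ z)_i = R_ii z_i + ∑_{l < i} R_li z_l`. Choose `z_i` recursively (strong recursion on `i`, or induction on `n` for the last row/column) such that `R_ii z_i ≡ t_i - ∑_{l<i} R_li z_l` modulo `ℤ` and `|R_ii z_i| ≤ 1/2`
(`x - round x`, `abs_sub_round`).
-/

namespace Pool.Agent.Lib.H32P

theorem e8_update {n : ℕ} (R : Matrix (Fin n) (Fin n) ℝ) (z : Fin n → ℝ) (m : Fin n) (c : ℝ) (i : Fin n) :
    R.transpose.mulVec (Function.update z m c) i =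
      R.transpose.mulVec (Function.update z m 0) i + R m i * c := by
  have e : Function.update z m c = Function.update z m 0 + Pi.single m c := by
    ext j
    by_cases h : j = m
    · subst h
      simp
    · simp [h]
  rw [e, Matrix.mulVec_add]
  simp [Matrix.mulVec, Matrix.transpose_apply]
  ring

theorem e8_step {n : ℕ} (R : Matrix (Fin n) (Fin n) ℝ) (htri : ∀ i j : Fin n, j < i → R i j = 0)
    (hpos : ∀ i, 0 < R i i) (t : Fin n → ℝ) (m : ℕ) :
    ∃ z : Fin n → ℝ, ∀ i : Fin n, (i : ℕ) < m →
      (∃ a : ℤ, R.transpose.mulVec z i = t i + a) ∧ |z i| ≤ 1 / (2 * R i i) := by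
  induction m with
  | zero => exact ⟨0, fun i hi => absurd hi (Nat.not_lt_zero _)⟩
  | succ m ih =>
    obtain ⟨z, hz⟩ := ih
    by_cases hm : m < n
    · set k : Fin n := ⟨m, hm⟩ with hk
      set s : ℝ := R.transpose.mulVec (Function.update z k 0) k with hs
      set c : ℝ := ((t k - s) - round (t k - s)) / R k k with hc
      have hRk := hpos k
      refine ⟨Function.update z k c, fun i hi => ?_⟩
      by_cases hik : i = k
      · rw [hik]
        constructor
        · refine ⟨-round (t k - s), ?_⟩
          rw [e8_update, ← hs, hc, mul_div_cancel₀ _ hRk.ne']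
          push_cast
          ring
        · rw [Function.update_self, hc, abs_div, abs_of_pos hRk, div_le_div_iff₀ hRk (by positivity)]
          have := abs_sub_round (t k - s)
          nlinarith
      · have hlt : i < k := by
          rw [Fin.lt_def]
          have h1 : (i : ℕ) ≠ m := fun h => hik (Fin.ext h)
          show (i : ℕ) < m
          omega
        have hR0 : R k i = 0 := htri k i hlt
        have e1 : R.transpose.mulVec (Function.update z k c) i = R.transpose.mulVec z i := by
          have h1 := e8_update R z k c i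
          have h2 := e8_update R z k (z k) i
          rw [hR0, zero_mul, add_zero] at h1 h2
          rw [h1, ← h2, Function.update_eq_self]
        rw [e1, Function.update_of_ne hik]
        exact hz i hlt
    · exact ⟨z, fun i _ => hz i (by have := i.2; omega)⟩

theorem e8_babai {n : ℕ} (R : Matrix (Fin n) (Fin n) ℝ) (htri : ∀ i j : Fin n, j < i → R i j = 0)
    (hpos : ∀ i, 0 < R i i) (t : Fin n → ℝ) :
    ∃ z : Fin n → ℝ, (∀ i, ∃ a : ℤ, R.transpose.mulVec z i = t i + a) ∧ ∀ i, |z i| ≤ 1 / (2 * R i i) := by
  obtain ⟨z, hz⟩ := e8_step R htri hpos t n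
  exact ⟨z, fun i => (hz i i.2).1, fun i => (hz i i.2).2⟩

end Pool.Agent.Lib.H32P
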