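import Pool.Agent.Lib.H32P.E5
import Pool.Agent.Lib.H32P.E6
import Pool.Agent.Lib.H32P.E7
import Pool.Agent.Lib.H32P.E8

/-!
# Chunk E9 (M): transference

`n = 0` trivial. `V T = Q R` from `e5_hkz`. `R_00² = ∑ (R e_0)² = ∑ (V (T e_0))² ≥ λ²` (`T e_0 ≠ 0`), so by `e6_block` and `e7_seq` (`r i = log R_ii`): `R_ii ≥ R_00 exp (-4 sqrt n) ≥ λ exp (-4 sqrt n)`. Given `t` let `t' = Tᵀ t`, `z'` from `e8_babai` for `t'`,
`z = Q z'`. Then `Vᵀ = T^{-T} Rᵀ Qᵀ`, so `Vᵀ z = T^{-T} Rᵀ z' = T^{-T} (t' + a) = t + T^{-T} a`, and `T^{-T}` is an integer matrix. `∑ z_i² = ∑ z'_i² ≤ n (exp (4 sqrt n) / (2 λ))² ≤ (n exp (4 sqrt n)/λ)²`.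
-/

namespace Pool.Agent.Lib.H32P

/-- orthogonal matrices preserve the sum of the squares. -/
theorem e9_orth {n : ℕ} (Q : Matrix (Fin n) (Fin n) ℝ) (hQ : Q.transpose * Q = 1) (z : Fin n → ℝ) :
    ∑ i, (Q.mulVec z i) ^ 2 = ∑ i, z i ^ 2 := by
  have h1 : ∀ w : Fin n → ℝ, ∑ i, w i ^ 2 = w ⬝ᵥ w := by
    intro w
    simp only [dotProduct, pow_two]
  rw [h1, h1, Matrix.dotProduct_mulVec, Matrix.vecMul_mulVec, ← Matrix.dotProduct_mulVec, hQ, Matrix.one_mulVec]

theorem e9_transference {n : ℕ} (V : Matrix (Fin n) (Fin n) ℝ) (hV : V.det ≠ 0) {lam : ℝ} (hlam : 0 < lam)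
    (h : ∀ x : Fin n → ℤ, x ≠ 0 → lam ^ 2 ≤ ∑ i, (V.mulVec (fun j => (x j : ℝ)) i) ^ 2) (t : Fin n → ℝ) :
    ∃ z : Fin n → ℝ, (∀ i, ∃ a : ℤ, V.transpose.mulVec z i = t i + a) ∧
      ∑ i, z i ^ 2 ≤ (n * Real.exp (4 * Real.sqrt n) / lam) ^ 2 := by
  rcases Nat.eq_zero_or_pos n with h0 | hn
  · subst h0
    exact ⟨fun _ => 0, fun i => i.elim0, by simp⟩
  obtain ⟨T, Q, R, hT, hQ, hVT, hR⟩ := e5_hkz V hV
  obtain ⟨i0, hi0⟩ : ∃ i0 : Fin n, (i0 : ℕ) = 0 := ⟨⟨0, hn⟩, rfl⟩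
  -- `R_00 ≥ lam`
  have hT' : ∀ x : Fin n → ℤ, T.mulVec x = 0 → x = 0 := by
    intro x hx
    have : T⁻¹.mulVec (T.mulVec x) = x := by
      rw [Matrix.mulVec_mulVec, Matrix.nonsing_inv_mul _ hT, Matrix.one_mulVec]
    rw [← this, hx, Matrix.mulVec_zero]
  have hcast : ∀ x : Fin n → ℤ, (T.map (Int.cast : ℤ → ℝ)).mulVec (fun j => (x j : ℝ)) =
      fun j => ((T.mulVec x j : ℤ) : ℝ) := by
    intro x
    funext j
    simp [Matrix.mulVec, dotProduct, Matrix.map_apply]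
  have hnorm : ∀ x : Fin n → ℤ, ∑ i, (R.mulVec (fun j => (x j : ℝ)) i) ^ 2 =
      ∑ i, (V.mulVec (fun j => ((T.mulVec x j : ℤ) : ℝ)) i) ^ 2 := by
    intro x
    rw [← e9_orth Q hQ, Matrix.mulVec_mulVec, ← hVT, ← Matrix.mulVec_mulVec, hcast]
  have hR0 : lam ≤ R i0 i0 := by
    apply le_of_sq_le_sq _ (hR.pos i0).le
    set x : Fin n → ℤ := Pi.single i0 1 with hx
    have hx0 : x ≠ 0 := by
      intro hh
      have := congrFun hh i0
      simp [hx] at this
    have h1 := h (T.mulVec x) (fun hh => hx0 (hT' x hh))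
    rw [← hnorm] at h1
    have h2 : ∀ i, R.mulVec (fun j => (x j : ℝ)) i = R i i0 := by
      intro i
      simp only [Matrix.mulVec, dotProduct, hx]
      rw [Finset.sum_eq_single i0]
      · simp
      · intro b _ hb
        simp [Pi.single_eq_of_ne hb]
      · intro hh
        exact absurd (Finset.mem_univ _) hh
    rw [Finset.sum_eq_single i0] at h1
    · rwa [h2] at h1
    · intro b _ hb
      rw [h2, hR.tri b i0]
      · ring
      · rw [Fin.lt_def, hi0]
        rcases Nat.eq_zero_or_pos (b : ℕ) with h3 | h3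
        · exact absurd (Fin.ext (h3.trans hi0.symm)) hb
        · exact h3
    · intro hh
      exact absurd (Finset.mem_univ _) hh
  -- all diagonal entries are large
  have hRi : ∀ i : Fin n, lam ≤ R i i * Real.exp (4 * Real.sqrt n) := by
    intro i
    set r : ℕ → ℝ := fun k => if hk : k < n then Real.log (R ⟨k, hk⟩ ⟨k, hk⟩) else 0 with hr
    have hr1 : ∀ i : Fin n, r i = Real.log (R i i) := by
      intro i
      simp only [hr, dif_pos i.2]
    have h1 := e7_seq (n := n) r (fun a e hae => e6_block hR r hr1 hae) i.2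
    have h2 : r 0 = Real.log (R i0 i0) := by
      rw [← hr1 i0, hi0]
    rw [h2, hr1 i] at h1
    have h3 := Real.exp_le_exp.2 h1
    rw [Real.exp_add, Real.exp_log (hR.pos i0), Real.exp_log (hR.pos i)] at h3
    exact hR0.trans h3
  obtain ⟨z', hz1, hz2⟩ := e8_babai R hR.tri hR.pos ((T.map (Int.cast : ℤ → ℝ)).transpose.mulVec t)
  choose a ha using hz1
  refine ⟨Q.mulVec z', ?_, ?_⟩
  · -- congruence
    set TR : Matrix (Fin n) (Fin n) ℝ := T.map (Int.cast : ℤ → ℝ) with hTR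
    have hTTi : T * T⁻¹ = 1 := Matrix.mul_nonsing_inv _ hT
    set Ti : Matrix (Fin n) (Fin n) ℝ := (T⁻¹).map (Int.cast : ℤ → ℝ) with hTi
    have hTRi : TR * Ti = 1 := by
      rw [hTR, hTi]
      have := congrArg (fun M : Matrix (Fin n) (Fin n) ℤ => M.map (Int.castRingHom ℝ)) hTTi
      simp only [Matrix.map_mul] at this
      rw [Matrix.map_one _ (map_zero _) (map_one _)] at this
      exact this
    have hV2 : V = Q * R * Ti := by
      rw [← hVT, Matrix.mul_assoc, hTRi, Matrix.mul_one]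
    have h1 : V.transpose.mulVec (Q.mulVec z') = Ti.transpose.mulVec (R.transpose.mulVec z') := by
      rw [hV2, Matrix.transpose_mul, Matrix.transpose_mul, Matrix.mulVec_mulVec, Matrix.mulVec_mulVec,
        Matrix.mul_assoc, Matrix.mul_assoc, hQ, Matrix.mul_one]
    have h2 : R.transpose.mulVec z' = TR.transpose.mulVec t + fun i => (a i : ℝ) := by
      funext i
      rw [ha i, Pi.add_apply]
    have h3 : Ti.transpose.mulVec (TR.transpose.mulVec t) = t := by
      rw [Matrix.mulVec_mulVec, ← Matrix.transpose_mul, hTRi, Matrix.transpose_one, Matrix.one_mulVec]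
    have h4 : Ti.transpose.mulVec (fun i => (a i : ℝ)) = fun i => (((T⁻¹).transpose.mulVec a i : ℤ) : ℝ) := by
      funext j
      simp [Matrix.mulVec, dotProduct, Matrix.map_apply, hTi]
    intro i
    refine ⟨(T⁻¹).transpose.mulVec a i, ?_⟩
    rw [h1, h2, Matrix.mulVec_add, h3, h4, Pi.add_apply]
  · rw [e9_orth Q hQ]
    have h1 : ∀ i, z' i ^ 2 ≤ (Real.exp (4 * Real.sqrt n) / lam) ^ 2 := by
      intro i
      rw [← sq_abs (z' i)]
      have h2 : |z' i| ≤ Real.exp (4 * Real.sqrt n) / lam := by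
        refine (hz2 i).trans ?_
        rw [div_le_div_iff₀ (by have := hR.pos i; positivity) hlam]
        have := hRi i
        have := hR.pos i
        nlinarith [Real.exp_pos (4 * Real.sqrt n)]
      exact pow_le_pow_left₀ (abs_nonneg _) h2 2
    have h3 : ∑ i, z' i ^ 2 ≤ n * (Real.exp (4 * Real.sqrt n) / lam) ^ 2 := by
      refine (Finset.sum_le_card_nsmul _ _ _ (fun i _ => h1 i)).trans ?_
      simp
    refine h3.trans ?_
    have h4 : (n * Real.exp (4 * Real.sqrt n) / lam) ^ 2 = (n:ℝ) ^ 2 * (Real.exp (4 * Real.sqrt n) / lam) ^ 2 := by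
      rw [← mul_pow]; ring
    rw [h4]
    apply mul_le_mul_of_nonneg_right _ (by positivity)
    have : (1:ℝ) ≤ n := by exact_mod_cast hn
    nlinarith

end Pool.Agent.Lib.H32P
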