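import Pool.Agent.Lib.H32P.D5
import Pool.Agent.Lib.H32P.V1
import Pool.Agent.Lib.H32P.B1

/-!
# Chunk F1a (M): the dual lattice has no short vectors

`A i j = x_i^j exp (-(n (c + U x_i)))` with `x_i = pt Y n (1/2) i`: a Vandermonde matrix (distinct nodes, `b1_pt_ne`) times an invertible diagonal matrix, so `det A ≠ 0`. For a polynomial `u` of degree `< n` with coefficient vector `u`:
`(A u)_i = u(x_i) exp (-(n (c + U x_i)))`. For an integer vector `l ≠ 0` let `v = (A⁻¹)ᵀ l`. Then `∑ l_j u_j = ∑ v_i (A u)_i`. If `|u| ≤ exp (n (c + U))` on `[0,1]` then `|(A u)_i| ≤ 1`, so `|Lf l n u| ≤ ∑ |v_i| ≤ n |v|` (`|v|² = ∑ v_i²`). Apply `d5_dual` with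
`Θ = n |v|` (extend `l` by `0` to `ℕ → ℤ`): `exp (n (c - c₁) - c₁) ≤ n |v| (n K^15)`.
-/

namespace Pool.Agent.Lib.H32P

open Polynomial MeasureTheory

variable {Y : ℝ → ℝ} {α : ℝ}

/-- The matrix `x_i^j / W(x_i)`. -/
noncomputable def Amat (Y : ℝ → ℝ) (n : ℕ) (c : ℝ) : Matrix (Fin n) (Fin n) ℝ :=
  Matrix.of fun i j => pt Y n (1 / 2) i ^ (j : ℕ) * Real.exp (-(n * (c + U Y (pt Y n (1 / 2) i))))

theorem f1a_det (hY : Quant Y α) {n : ℕ} (hn : 1 ≤ n) (c : ℝ) : (Amat Y n c).det ≠ 0 := by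
  have h1 : Amat Y n c = Matrix.diagonal (fun i : Fin n => Real.exp (-(n * (c + U Y (pt Y n (1 / 2) i))))) *
      Matrix.vandermonde (fun i : Fin n => pt Y n (1 / 2) i) := by
    ext i j
    rw [Matrix.diagonal_mul, Matrix.vandermonde_apply]
    simp only [Amat, Matrix.of_apply]
    ring
  rw [h1, Matrix.det_mul, Matrix.det_diagonal]
  apply mul_ne_zero
  · exact Finset.prod_ne_zero_iff.2 (fun i _ => (Real.exp_pos _).ne')
  · rw [Matrix.det_vandermonde_ne_zero_iff]
    intro i j hij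
    by_contra hne
    exact b1_pt_ne hY hn (1 / 2) (fun h => hne (Fin.ext h)) hij

theorem f1a_dual (hY : Quant Y α) {c₁ : ℝ} (hc : 0 ≤ c₁) (hA : Adm Y c₁) (hE : 0 ≤ 2 * c₁ + En Y)
    {n : ℕ} (hn : 1 ≤ n) (c : ℝ) (l : Fin n → ℤ) (hl : l ≠ 0) :
    (Real.exp (n * (c - c₁) - c₁) / (n * (n * K α n ^ 15))) ^ 2 ≤
      ∑ i, (((Amat Y n c)⁻¹).transpose.mulVec (fun j => (l j : ℝ)) i) ^ 2 := by
  have hn0 : (0:ℝ) < n := by exact_mod_cast hn
  have hK1 : 1 ≤ K α n := b1_K hY hn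
  have hK0 : 0 < K α n := lt_of_lt_of_le one_pos hK1
  set A := Amat Y n c with hAdef
  have hunit : IsUnit A.det := isUnit_iff_ne_zero.2 (f1a_det hY hn c)
  set v : Fin n → ℝ := (A⁻¹).transpose.mulVec (fun j => (l j : ℝ)) with hv
  set L : ℕ → ℤ := fun k => if hk : k < n then l ⟨k, hk⟩ else 0 with hL
  have hL1 : ∀ i : Fin n, L i = l i := by
    intro i
    simp only [hL, dif_pos i.2]
  set S : ℝ := Real.sqrt (∑ i, v i ^ 2) with hS
  have hS0 : 0 ≤ S := Real.sqrt_nonneg _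
  have hSsq : S ^ 2 = ∑ i, v i ^ 2 := Real.sq_sqrt (Finset.sum_nonneg fun i _ => sq_nonneg _)
  have hvS : ∀ i, |v i| ≤ S := by
    intro i
    apply abs_le_of_sq_le_sq _ hS0
    rw [hSsq]
    exact Finset.single_le_sum (f := fun i => v i ^ 2) (fun i _ => sq_nonneg _) (Finset.mem_univ i)
  have hlex : ∃ i < n, L i ≠ 0 := by
    by_contra hcon
    push Not at hcon
    apply hl
    funext i
    rw [← hL1 i]
    exact hcon i i.2
  have key := d5_dual hY hc hA hE hn c L hlex (Θ := n * S) (by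
    intro u hu hub
    -- `Lf L n u = ∑ v_i (A u)_i`
    have h1 : Lf L n u = ∑ i, v i * A.mulVec (fun j => u.coeff j) i := by
      have h2 : Lf L n u = (fun j : Fin n => (l j : ℝ)) ⬝ᵥ (fun j => u.coeff j) := by
        rw [Lf, Finset.sum_range, dotProduct]
        apply Finset.sum_congr rfl
        intro i _
        rw [hL1 i, mul_comm]
      have h3 : (fun j : Fin n => u.coeff j) = (A⁻¹).mulVec (A.mulVec (fun j => u.coeff j)) := by
        rw [Matrix.mulVec_mulVec, Matrix.nonsing_inv_mul _ hunit, Matrix.one_mulVec]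
      rw [h2, h3, Matrix.dotProduct_mulVec, ← Matrix.mulVec_transpose, ← h3]
      rfl
    have h4 : ∀ i, |A.mulVec (fun j => u.coeff j) i| ≤ 1 := by
      intro i
      have hmem : pt Y n (1 / 2) i ∈ Set.Icc (0:ℝ) 1 := b1_pt_mem hY ⟨by norm_num, by norm_num⟩ i.2
      have h5 : A.mulVec (fun j => u.coeff j) i =
          u.eval (pt Y n (1 / 2) i) * Real.exp (-(n * (c + U Y (pt Y n (1 / 2) i)))) := by
        have e : u.eval (pt Y n (1 / 2) i) = ∑ j ∈ Finset.range n, u.coeff j * (pt Y n (1 / 2) i) ^ j := by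
          by_cases h0 : u = 0
          · rw [h0]; simp
          · exact eval_eq_sum_range' ((natDegree_lt_iff_degree_lt h0).2 hu) _
        rw [e, Finset.sum_range, Finset.sum_mul]
        simp only [Matrix.mulVec, dotProduct, hAdef, Amat, Matrix.of_apply]
        apply Finset.sum_congr rfl
        intro j _
        ring
      rw [h5, abs_mul, abs_of_pos (Real.exp_pos _), Real.exp_neg, ← div_eq_mul_inv, div_le_one (Real.exp_pos _)]
      exact hub _ hmem
    rw [h1]
    refine (Finset.abs_sum_le_sum_abs _ _).trans ?_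
    refine (Finset.sum_le_card_nsmul _ _ S (fun i _ => ?_)).trans ?_
    · rw [abs_mul]
      calc |v i| * |A.mulVec (fun j => u.coeff j) i| ≤ S * 1 :=
            mul_le_mul (hvS i) (h4 i) (abs_nonneg _) hS0
        _ = S := mul_one _
    · simp)
  rw [← hSsq]
  apply pow_le_pow_left₀ (by positivity)
  rw [div_le_iff₀ (by positivity)]
  calc Real.exp (n * (c - c₁) - c₁) ≤ n * S * (n * K α n ^ 15) := key
    _ = S * (n * (n * K α n ^ 15)) := by ring

end Pool.Agent.Lib.H32P
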