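import Pool.Agent.Lib.H32P.Defs

/-!
# Chunk F1c (M): the error factor tends to zero

`K α n = (2e/α) n`, so the factor is `C n^23 exp (4 sqrt n - n δ)` with `δ = c - c₁ > 0` and a constant `C`; it tends to `0` (`n^23 = exp (23 log n)`, `4 sqrt n ≤ n δ/2` eventually, `n^23 exp (-n δ/2) → 0`).
-/

namespace Pool.Agent.Lib.H32P

theorem f1c_asymp {α c c₁ : ℝ} (hα : 0 < α) (hc : c₁ < c) :
    ∀ᶠ n : ℕ in Filter.atTop, K α n ^ 4 * n * (n * Real.exp (4 * Real.sqrt n) /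
          (Real.exp (n * (c - c₁) - c₁) / (n * (n * K α n ^ 15)))) ≤ 1 / 8 := by
  obtain ⟨δ, hδ⟩ : ∃ δ, δ = c - c₁ := ⟨_, rfl⟩
  have hδ0 : 0 < δ := by linarith
  rw [← hδ]
  obtain ⟨A, hA⟩ : ∃ A, A = 2 * Real.exp 1 / α := ⟨_, rfl⟩
  have hA0 : 0 < A := by rw [hA]; positivity
  have hK : ∀ n : ℕ, K α n = A * n := by
    intro n
    rw [hA]
    unfold K
    ring
  obtain ⟨B, hB⟩ : ∃ B, B = A ^ 19 * Real.exp c₁ * (2 / δ) ^ 23 := ⟨_, rfl⟩
  have hB0 : 0 < B := by rw [hB]; positivity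
  have hlim : Filter.Tendsto (fun n : ℕ => B * (((n : ℝ) * (δ / 2)) ^ 23 * Real.exp (-((n : ℝ) * (δ / 2)))))
      Filter.atTop (nhds 0) := by
    have h1 : Filter.Tendsto (fun n : ℕ => (n : ℝ) * (δ / 2)) Filter.atTop Filter.atTop :=
      tendsto_natCast_atTop_atTop.atTop_mul_const (by linarith)
    have h2 := (Real.tendsto_pow_mul_exp_neg_atTop_nhds_zero 23).comp h1
    have h3 := h2.const_mul B
    rw [mul_zero] at h3
    exact h3
  have hev := hlim.eventually (ge_mem_nhds (show (0 : ℝ) < 1 / 8 by norm_num))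
  have hsq : ∀ᶠ n : ℕ in Filter.atTop, 8 / δ ≤ Real.sqrt n :=
    ((Real.tendsto_sqrt_atTop).comp tendsto_natCast_atTop_atTop).eventually_ge_atTop _
  filter_upwards [hev, hsq, Filter.eventually_ge_atTop 1] with n h1 h2 h3
  refine le_trans ?_ h1
  have hn0 : (0 : ℝ) < n := by exact_mod_cast h3
  rw [hK]
  have e1 : (A * (n : ℝ)) ^ 4 * n * (n * Real.exp (4 * Real.sqrt n) /
      (Real.exp (n * δ - c₁) / (n * (n * (A * n) ^ 15)))) =
      A ^ 19 * Real.exp c₁ * (n : ℝ) ^ 23 * (Real.exp (4 * Real.sqrt n) * Real.exp (-((n : ℝ) * δ))) := by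
    have h4 : Real.exp (n * δ - c₁) = Real.exp (n * δ) / Real.exp c₁ := Real.exp_sub _ _
    rw [h4, Real.exp_neg]
    field_simp
  rw [e1, hB]
  have e2 : A ^ 19 * Real.exp c₁ * (2 / δ) ^ 23 * (((n : ℝ) * (δ / 2)) ^ 23 *
      Real.exp (-((n : ℝ) * (δ / 2)))) =
      A ^ 19 * Real.exp c₁ * (n : ℝ) ^ 23 * Real.exp (-((n : ℝ) * (δ / 2))) := by
    field_simp
  rw [e2]
  apply mul_le_mul_of_nonneg_left _ (by positivity)
  rw [← Real.exp_add]
  apply Real.exp_le_exp.2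
  have hs : Real.sqrt n * Real.sqrt n = n := Real.mul_self_sqrt hn0.le
  have h5 : 8 / δ * Real.sqrt n ≤ n := by
    calc 8 / δ * Real.sqrt n ≤ Real.sqrt n * Real.sqrt n :=
          mul_le_mul_of_nonneg_right h2 (Real.sqrt_nonneg _)
      _ = n := hs
  have h6 : 8 * Real.sqrt n ≤ n * δ := by
    have h7 := mul_le_mul_of_nonneg_right h5 hδ0.le
    have h8 : 8 / δ * Real.sqrt n * δ = 8 * Real.sqrt n := by
      field_simp
    linarith
  linarith

end Pool.Agent.Lib.H32P
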