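import Pool.Agent.Lib.H32P.Defs

/-!
# Chunk F2 (M): sign changes

By the intermediate value theorem `Q` has a zero in each `(e_j, e_{j+1})`, `j < n`, giving `n` distinct real zeros in `(0,1)`. As `Q` has degree `n`, the roots of `Q.map (algebraMap ℤ ℂ)` are exactly these `n` numbers, each with multiplicity one
(a `Finset` of `n` roots inside a multiset of cardinality `≤ n`).
-/

namespace Pool.Agent.Lib.H32P

open Polynomial

theorem f2_zero (f : ℝ → ℝ) (hf : Continuous f) {a b : ℝ} (hab : a < b) (h : f a * f b < 0) :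
    ∃ z, a < z ∧ z < b ∧ f z = 0 := by
  rcases lt_or_ge (f a) 0 with h1 | h1
  · have h2 : 0 < f b := by
      by_contra hcon
      push Not at hcon
      nlinarith
    obtain ⟨z, hz, hz0⟩ := intermediate_value_Ioo hab.le hf.continuousOn (show (0 : ℝ) ∈ Set.Ioo (f a) (f b) from ⟨h1, h2⟩)
    exact ⟨z, hz.1, hz.2, hz0⟩
  · have h3 : f a ≠ 0 := by
      intro h4
      rw [h4, zero_mul] at h
      exact lt_irrefl _ h
    have h1' : 0 < f a := lt_of_le_of_ne h1 (Ne.symm h3)
    have h2 : f b < 0 := by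
      by_contra hcon
      push Not at hcon
      nlinarith
    obtain ⟨z, hz, hz0⟩ := intermediate_value_Ioo' hab.le hf.continuousOn (show (0 : ℝ) ∈ Set.Ioo (f b) (f a) from ⟨h2, h1'⟩)
    exact ⟨z, hz.1, hz.2, hz0⟩

theorem f2_roots {n : ℕ} (Q : ℤ[X]) (hdeg : Q.natDegree = n) (hQ : Q ≠ 0) (e : ℕ → ℝ) (h0 : e 0 = 0) (h1 : e n = 1)
    (hmono : ∀ j < n, e j < e (j + 1)) (hs : ∀ j ≤ n, 0 < (-1 : ℝ) ^ (n - j) * aeval (e j) Q) :
    (∀ z : ℂ, aeval z Q = 0 → z.im = 0 ∧ 0 < z.re ∧ z.re < 1) ∧ (Q.map (algebraMap ℤ ℂ)).roots.Nodup := by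
  classical
  have hcont : Continuous fun t : ℝ => aeval t Q := Q.continuous_aeval
  have hz : ∀ j, j < n → ∃ z, e j < z ∧ z < e (j + 1) ∧ aeval z Q = 0 := by
    intro j hj
    refine f2_zero (fun t : ℝ => aeval t Q) hcont (hmono j hj) ?_
    have h2 := hs j hj.le
    have h3 := hs (j + 1) hj
    have e1 : n - j = (n - (j + 1)) + 1 := by omega
    rw [e1, pow_succ] at h2
    have h4 : 0 < ((-1 : ℝ) ^ (n - (j + 1)) * -1 * aeval (e j) Q) *
        ((-1 : ℝ) ^ (n - (j + 1)) * aeval (e (j + 1)) Q) := mul_pos h2 h3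
    have h5 : ((-1 : ℝ) ^ (n - (j + 1)) * -1 * aeval (e j) Q) *
        ((-1 : ℝ) ^ (n - (j + 1)) * aeval (e (j + 1)) Q) =
        -(((-1 : ℝ) ^ (n - (j + 1))) ^ 2 * (aeval (e j) Q * aeval (e (j + 1)) Q)) := by ring
    have h6 : ((-1 : ℝ) ^ (n - (j + 1))) ^ 2 = 1 := by
      rw [← pow_mul, mul_comm, pow_mul]
      norm_num
    rw [h5, h6] at h4
    show aeval (e j) Q * aeval (e (j + 1)) Q < 0
    linarith
  choose! z hz1 hz2 hz3 using hz
  have hmono' : ∀ i j, i ≤ j → j ≤ n → e i ≤ e j := by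
    intro i j hij
    induction j, hij using Nat.le_induction with
    | base => intro _; exact le_rfl
    | succ j hij ih => intro hj; exact (ih (by omega)).trans (hmono j (by omega)).le
  have hlt : ∀ i j, i < j → j < n → z i < z j := by
    intro i j hij hj
    calc z i < e (i + 1) := hz2 i (by omega)
      _ ≤ e j := hmono' _ _ hij hj.le
      _ < z j := hz1 j hj
  have hinj : Set.InjOn (fun j : ℕ => ((z j : ℝ) : ℂ)) ((Finset.range n : Finset ℕ) : Set ℕ) := by
    intro i hi j hj hij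
    have hi' : i < n := Finset.mem_range.1 hi
    have hj' : j < n := Finset.mem_range.1 hj
    have hij' : z i = z j := Complex.ofReal_injective hij
    rcases lt_trichotomy i j with h | h | h
    · exact absurd hij' (hlt i j h hj').ne
    · exact h
    · exact absurd hij' (hlt j i h hi').ne'
  set S : Finset ℂ := (Finset.range n).image (fun j : ℕ => ((z j : ℝ) : ℂ)) with hS
  have hScard : S.card = n := by
    rw [hS, Finset.card_image_of_injOn hinj, Finset.card_range]
  have hinjmap : Function.Injective (algebraMap ℤ ℂ) := by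
    intro a b hab
    have : (a : ℂ) = (b : ℂ) := by simpa using hab
    exact_mod_cast this
  have hmap0 : Q.map (algebraMap ℤ ℂ) ≠ 0 := by
    rw [Ne, Polynomial.map_eq_zero_iff hinjmap]
    exact hQ
  have hSsub : S ⊆ (Q.map (algebraMap ℤ ℂ)).roots.toFinset := by
    intro w hw
    rw [hS, Finset.mem_image] at hw
    obtain ⟨j, hj, rfl⟩ := hw
    rw [Multiset.mem_toFinset, mem_roots hmap0, IsRoot.def, eval_map_algebraMap]
    have h2 := hz3 j (Finset.mem_range.1 hj)
    have h3 : aeval ((z j : ℝ) : ℂ) Q = ((aeval (z j) Q : ℝ) : ℂ) := by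
      have := aeval_algebraMap_apply (A := ℝ) ℂ (z j) Q
      simpa using this
    rw [h3, h2]
    simp
  have hrc : Multiset.card (Q.map (algebraMap ℤ ℂ)).roots ≤ n := by
    refine (card_roots' _).trans ?_
    exact (natDegree_map_le).trans hdeg.le
  have hle1 : n ≤ (Q.map (algebraMap ℤ ℂ)).roots.toFinset.card := by
    rw [← hScard]
    exact Finset.card_le_card hSsub
  have hle2 : (Q.map (algebraMap ℤ ℂ)).roots.toFinset.card ≤
      Multiset.card (Q.map (algebraMap ℤ ℂ)).roots := Multiset.toFinset_card_le _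
  have hEq : S = (Q.map (algebraMap ℤ ℂ)).roots.toFinset :=
    Finset.eq_of_subset_of_card_le hSsub (by rw [hScard]; omega)
  constructor
  · intro w hw
    have hwr : w ∈ (Q.map (algebraMap ℤ ℂ)).roots.toFinset := by
      rw [Multiset.mem_toFinset, mem_roots hmap0, IsRoot.def, eval_map_algebraMap]
      exact hw
    rw [← hEq, hS, Finset.mem_image] at hwr
    obtain ⟨j, hj, rfl⟩ := hwr
    have hj' : j < n := Finset.mem_range.1 hj
    refine ⟨Complex.ofReal_im _, ?_, ?_⟩
    · rw [Complex.ofReal_re, ← h0]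
      exact (hmono' 0 j (Nat.zero_le _) hj'.le).trans_lt (hz1 j hj')
    · rw [Complex.ofReal_re, ← h1]
      exact (hz2 j hj').trans_le (hmono' _ _ hj' le_rfl)
  · exact Multiset.toFinset_card_eq_card_iff_nodup.1 (le_antisymm hle2 (hrc.trans hle1))

end Pool.Agent.Lib.H32P
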