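import Pool.Agent.Lib.H32P.Defs

/-!
# Chunk F3 (M): Eisenstein at `2`

`P = a X^n + 4 k + 2` has leading coefficient `a` (odd, positive), all other coefficients even, constant coefficient `≡ 2 mod 4` (`n ≥ 1`). Its content `g` is odd (divides `a`); `Q = primPart` satisfies `P = C g * Q`, is primitive, and is Eisenstein at the prime ideal `(2)`:
`Polynomial.IsEisensteinAt.irreducible`. `g > 0` (normalized), so `0 < lc Q ≤ a` as `a = g · lc Q`.
-/

namespace Pool.Agent.Lib.H32P

open Polynomial

theorem f3_eisenstein {n : ℕ} (hn : 1 ≤ n) {a : ℤ} (ha : Odd a) (ha0 : 0 < a) (k : ℤ[X]) (hk : k.degree < n) :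
    ∃ (g : ℤ) (Q : ℤ[X]), 0 < g ∧ C a * X ^ n + 4 * k + 2 = C g * Q ∧ Irreducible Q ∧ Q.natDegree = n ∧
      0 < Q.leadingCoeff ∧ Q.leadingCoeff ≤ a := by
  set P : ℤ[X] := C a * X ^ n + 4 * k + 2 with hP
  have hcoef : ∀ i, P.coeff i = (if i = n then a else 0) + 4 * k.coeff i + (if i = 0 then 2 else 0) := by
    intro i
    have e4 : (4 : ℤ[X]) = C 4 := rfl
    have e2 : (2 : ℤ[X]) = C 2 := rfl
    rw [hP, coeff_add, coeff_add, coeff_C_mul, coeff_X_pow, e4, coeff_C_mul, e2, coeff_C]
    congr 2
    split_ifs <;> simp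
  have hkn : ∀ i, n ≤ i → k.coeff i = 0 := fun i hi =>
    coeff_eq_zero_of_degree_lt (hk.trans_le (by exact_mod_cast hi))
  have hPn : P.coeff n = a := by
    rw [hcoef, hkn n le_rfl, if_pos rfl, if_neg (by omega)]
    ring
  have hdegle : P.natDegree ≤ n := by
    rw [natDegree_le_iff_coeff_eq_zero]
    intro i hi
    rw [hcoef, hkn i (by omega), if_neg (by omega), if_neg (by omega)]
    ring
  have hdeg : P.natDegree = n := le_antisymm hdegle (le_natDegree_of_ne_zero (by rw [hPn]; exact ha0.ne'))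
  have hlead : P.leadingCoeff = a := by rw [leadingCoeff, hdeg, hPn]
  have hP0 : P ≠ 0 := by
    intro h
    rw [h, leadingCoeff_zero] at hlead
    exact ha0.ne hlead
  set g := P.content with hg
  set Q := P.primPart with hQ
  have hPQ : P = C g * Q := P.eq_C_content_mul_primPart
  have hg0 : g ≠ 0 := by rw [hg, Ne, content_eq_zero_iff]; exact hP0
  have hgnn : 0 ≤ g := Int.nonneg_of_normalize_eq_self P.normalize_content
  have hgpos : 0 < g := lt_of_le_of_ne hgnn (Ne.symm hg0)
  have hgQ : ∀ i, g * Q.coeff i = P.coeff i := by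
    intro i
    have := congrArg (fun p : ℤ[X] => p.coeff i) hPQ
    simp only [coeff_C_mul] at this
    exact this.symm
  have hQdeg : Q.natDegree = n := by rw [hQ, natDegree_primPart, hdeg]
  have hQlead : g * Q.leadingCoeff = a := by rw [leadingCoeff, hQdeg, hgQ, hPn]
  have hQpos : 0 < Q.leadingCoeff := by
    by_contra hcon
    push Not at hcon
    nlinarith
  have hQle : Q.leadingCoeff ≤ a := by nlinarith
  have hgodd : Odd g := by
    rw [← hQlead] at ha
    exact (Int.odd_mul.1 ha).1
  have hQodd : Odd Q.leadingCoeff := by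
    rw [← hQlead] at ha
    exact (Int.odd_mul.1 ha).2
  have heis : Q.IsEisensteinAt (Ideal.span {(2 : ℤ)}) := by
    refine ⟨?_, ?_, ?_⟩
    · rw [Ideal.mem_span_singleton]
      intro h
      exact (Int.not_even_iff_odd.2 hQodd) (even_iff_two_dvd.2 h)
    · intro i hi
      rw [hQdeg] at hi
      rw [Ideal.mem_span_singleton]
      have h1 := hgQ i
      have h2 : (2 : ℤ) ∣ g * Q.coeff i := by
        rw [h1, hcoef, if_neg (by omega)]
        split_ifs <;> omega
      rcases Int.prime_two.dvd_mul.1 h2 with h3 | h3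
      · exact absurd (even_iff_two_dvd.2 h3) (Int.not_even_iff_odd.2 hgodd)
      · exact h3
    · rw [Ideal.span_singleton_pow, Ideal.mem_span_singleton]
      rintro ⟨c, hc⟩
      have h1 := hgQ 0
      rw [hc, hcoef, if_neg (by omega), if_pos rfl] at h1
      have h2 : g * (2 ^ 2 * c) = 4 * (g * c) := by ring
      rw [h2] at h1
      omega
  have hprime : (Ideal.span {(2 : ℤ)}).IsPrime :=
    (Ideal.span_singleton_prime (by norm_num)).2 Int.prime_two
  exact ⟨g, Q, hgpos, hPQ, heis.irreducible hprime P.isPrimitive_primPart (by omega), hQdeg, hQpos, hQle⟩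

end Pool.Agent.Lib.H32P
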