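import Pool.Agent.Lib.H32P.B6
import Pool.Agent.Lib.H32P.B7
import Pool.Agent.Lib.H32P.F2
import Pool.Agent.Lib.H32P.F3
import Pool.Agent.Lib.H32P.B1

/-!
# Chunk F4 (M/L): construction of the polynomial from the approximation property

Let `a` be an odd integer with `(2n/α)² exp (n c) ≤ a ≤ (2n/α)² exp (n c) + 2`, `R = C a * ∏_{i<n} (X - pt Y n (1/2) i)` (degree `n`, leading coefficient `a`), `u0 = (R - a X^n - 2)/4` (degree `< n`), `k` from the hypothesis, `P = a X^n + 4 k + 2`,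
`e_j = Y (j/n)`. Then `P - R = 4 (k - u0)`, so `|P(e_j) - R(e_j)| ≤ W/2`, `W = exp (n (c + U e_j))`, while `|R(e_j)| ≥ a (α/(2n))² exp (n U e_j) ≥ W` (`b6_prod_ge`), and `R(e_j)` has the sign `(-1)^(n-j)` (`pt Y n (1/2) i = Y((i + 1/2)/n)` is `< e_j`
for `i < j` and `> e_j` for `i ≥ j`). So `(-1)^(n-j) P(e_j) > 0`. `f3_eisenstein` gives `P = g Q` with `g > 0`, and `f2_roots` applies to `Q`.
-/

namespace Pool.Agent.Lib.H32P

open Polynomial MeasureTheory

variable {Y : ℝ → ℝ} {α : ℝ}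

/-- an odd integer in every interval `[x, x + 2]`. -/
theorem f4_odd (x : ℝ) : ∃ a : ℤ, Odd a ∧ x ≤ a ∧ (a : ℝ) ≤ x + 2 := by
  rcases Int.even_or_odd ⌈x⌉ with h | h
  · refine ⟨⌈x⌉ + 1, h.add_one, ?_, ?_⟩
    · push_cast
      linarith [Int.le_ceil x]
    · push_cast
      linarith [Int.ceil_lt_add_one x]
  · refine ⟨⌈x⌉, h, Int.le_ceil x, ?_⟩
    linarith [Int.ceil_lt_add_one x]

/-- sign of the product at `Y (j/n)`. -/
theorem f4_sign (hY : Quant Y α) {n : ℕ} (hn : 1 ≤ n) {j : ℕ} (hj : j ≤ n) :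
    (-1 : ℝ) ^ (n - j) * ∏ i ∈ Finset.range n, (Y ((j : ℝ) / n) - pt Y n (1 / 2) i) =
      ∏ i ∈ Finset.range n, |Y ((j : ℝ) / n) - pt Y n (1 / 2) i| := by
  have hn0 : (0:ℝ) < n := by exact_mod_cast hn
  have hmono := b1_strictMono hY
  have hsplit : ∀ f : ℕ → ℝ, ∏ i ∈ Finset.range n, f i =
      (∏ i ∈ Finset.range j, f i) * ∏ i ∈ Finset.range (n - j), f (j + i) := by
    intro f
    conv_lhs => rw [show n = j + (n - j) by omega]
    rw [Finset.prod_range_add]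
  rw [hsplit, hsplit]
  have h1 : ∏ i ∈ Finset.range j, |Y ((j : ℝ) / n) - pt Y n (1 / 2) i| =
      ∏ i ∈ Finset.range j, (Y ((j : ℝ) / n) - pt Y n (1 / 2) i) := by
    apply Finset.prod_congr rfl
    intro i hi
    apply abs_of_pos
    rw [sub_pos]
    apply hmono
    have hi' : i + 1 ≤ j := Finset.mem_range.1 hi
    have hi2 : ((i:ℝ) + 1) ≤ j := by exact_mod_cast hi'
    apply div_lt_div_of_pos_right _ hn0
    linarith
  have h2 : ∏ i ∈ Finset.range (n - j), |Y ((j : ℝ) / n) - pt Y n (1 / 2) (j + i)| =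
      (-1) ^ (n - j) * ∏ i ∈ Finset.range (n - j), (Y ((j : ℝ) / n) - pt Y n (1 / 2) (j + i)) := by
    have h3 : ∀ i ∈ Finset.range (n - j), |Y ((j : ℝ) / n) - pt Y n (1 / 2) (j + i)| =
        (-1) * (Y ((j : ℝ) / n) - pt Y n (1 / 2) (j + i)) := by
      intro i _
      rw [abs_of_neg]
      · ring
      rw [sub_neg]
      apply hmono
      apply div_lt_div_of_pos_right _ hn0
      push_cast
      have : (0:ℝ) ≤ i := Nat.cast_nonneg i
      linarith
    rw [Finset.prod_congr rfl h3, Finset.prod_mul_distrib, Finset.prod_const, Finset.card_range]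
  rw [h1, h2]
  ring

theorem f4_exists (hY : Quant Y α) {n : ℕ} (hn : 1 ≤ n) {c : ℝ}
    (h : ∀ u0 : ℝ[X], u0.degree < n → ∃ k : ℤ[X], k.degree < n ∧ ∀ t ∈ Set.Icc (0:ℝ) 1,
      |u0.eval t - aeval t k| ≤ Real.exp (n * (c + U Y t)) / 8) :
    ∃ Q : ℤ[X], Irreducible Q ∧ Q.natDegree = n ∧
      (∀ z : ℂ, aeval z Q = 0 → z.im = 0 ∧ 0 < z.re ∧ z.re < 1) ∧ (Q.map (algebraMap ℤ ℂ)).roots.Nodup ∧
      0 < Q.leadingCoeff ∧ (Q.leadingCoeff : ℝ) ≤ (2 * n / α) ^ 2 * Real.exp (n * c) + 2 := by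
  have hα := hY.pos
  have hn0 : (0:ℝ) < n := by exact_mod_cast hn
  have hmono := b1_strictMono hY
  obtain ⟨a, haodd, ha1, ha2⟩ := f4_odd ((2 * n / α) ^ 2 * Real.exp (n * c))
  have hapos : (0:ℝ) < a := lt_of_lt_of_le (by positivity) ha1
  have hapos' : 0 < a := by exact_mod_cast hapos
  -- the real polynomial
  set A : ℝ[X] := ∏ i ∈ Finset.range n, (X - C (pt Y n (1 / 2) i)) with hA
  have hAmonic : A.Monic := monic_prod_of_monic _ _ (fun i _ => monic_X_sub_C _)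
  have hAdeg : A.degree = n := by
    rw [hA, degree_prod]
    simp
  set u0 : ℝ[X] := C (1 / 4) * (C (a:ℝ) * (A - X ^ n) - C 2) with hu0
  have hdeg1 : (A - X ^ n).degree < (n : WithBot ℕ) := by
    have h1 : A.degree = (X ^ n : ℝ[X]).degree := by rw [hAdeg, degree_X_pow]
    have h2 : A.leadingCoeff = (X ^ n : ℝ[X]).leadingCoeff := by
      rw [hAmonic.leadingCoeff, (monic_X_pow n).leadingCoeff]
    have h3 := degree_sub_lt_left h1 hAmonic.ne_zero h2
    rwa [hAdeg] at h3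
  have hdeg2 : u0.degree < (n : WithBot ℕ) := by
    have e1 : (C (a:ℝ) * (A - X ^ n)).degree < (n : WithBot ℕ) := by
      rw [degree_C_mul hapos.ne']
      exact hdeg1
    have e2 : (C (2:ℝ) : ℝ[X]).degree < (n : WithBot ℕ) := by
      refine lt_of_le_of_lt degree_C_le ?_
      exact_mod_cast hn
    have e3 := lt_of_le_of_lt (degree_sub_le _ _) (max_lt e1 e2)
    rw [hu0, degree_C_mul (by norm_num)]
    exact e3
  obtain ⟨k, hk, hk2⟩ := h u0 hdeg2
  obtain ⟨g, Q, hg, hP, hirr, hnat, hlc, hlca⟩ := f3_eisenstein hn haodd hapos' k hk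
  have hval : ∀ j ≤ n, 0 < (-1 : ℝ) ^ (n - j) * aeval (Y ((j : ℝ) / n)) Q := by
    intro j hj
    set e : ℝ := Y ((j : ℝ) / n) with he
    have hjn : (j:ℝ) / n ∈ Set.Icc (0:ℝ) 1 := by
      refine ⟨by positivity, ?_⟩
      rw [div_le_one hn0]
      exact_mod_cast hj
    have hmem : e ∈ Set.Icc (0:ℝ) 1 := b1_mem hY hjn
    have hP2 : (g:ℝ) * aeval e Q = (a:ℝ) * e ^ n + 4 * aeval e k + 2 := by
      have := congrArg (fun p : ℤ[X] => aeval e p) hP
      simp only [map_add, map_mul, map_pow, aeval_X, aeval_C, map_ofNat] at this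
      simpa using this.symm
    have hR : (a:ℝ) * (A.eval e) = (a:ℝ) * e ^ n + 4 * u0.eval e + 2 := by
      rw [hu0]
      simp only [eval_mul, eval_C, eval_sub, eval_pow, eval_X]
      ring
    have hAe : A.eval e = ∏ i ∈ Finset.range n, (e - pt Y n (1 / 2) i) := by
      rw [hA, eval_prod]
      simp
    have hb6 := b6_prod_ge hY hn hj
    have hsign := f4_sign hY hn hj
    rw [← he] at hb6 hsign
    rw [← hAe] at hsign
    rw [← hsign] at hb6
    have hW : Real.exp (n * (c + U Y e)) ≤ (a:ℝ) * ((-1 : ℝ) ^ (n - j) * A.eval e) := by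
      have e1 : Real.exp (n * (c + U Y e)) =
          ((2 * n / α) ^ 2 * Real.exp (n * c)) * ((α / (2 * n)) ^ 2 * Real.exp (n * U Y e)) := by
        rw [mul_add, Real.exp_add]
        field_simp
      rw [e1]
      exact mul_le_mul ha1 hb6 (by positivity) hapos.le
    have hclose := hk2 e hmem
    have hs : |(-1 : ℝ) ^ (n - j)| = 1 := by
      rw [abs_pow, abs_neg, abs_one, one_pow]
    have hdiff : |(-1 : ℝ) ^ (n - j) * (u0.eval e - aeval e k)| ≤ Real.exp (n * (c + U Y e)) / 8 := by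
      rw [abs_mul, hs, one_mul]
      exact hclose
    have hW0 : 0 < Real.exp (n * (c + U Y e)) := Real.exp_pos _
    have hfin : 0 < (g:ℝ) * ((-1 : ℝ) ^ (n - j) * aeval e Q) := by
      have e2 : (g:ℝ) * ((-1 : ℝ) ^ (n - j) * aeval e Q) =
          (a:ℝ) * ((-1 : ℝ) ^ (n - j) * A.eval e) - 4 * ((-1 : ℝ) ^ (n - j) * (u0.eval e - aeval e k)) := by
        linear_combination (-1 : ℝ) ^ (n - j) * hP2 - (-1 : ℝ) ^ (n - j) * hR
      rw [e2]
      have := (abs_le.1 hdiff).2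
      linarith
    have hg' : (0:ℝ) < g := by exact_mod_cast hg
    exact (mul_pos_iff_of_pos_left hg').1 hfin
  have hQ0 : Q ≠ 0 := hirr.ne_zero
  have hroots := f2_roots Q hnat hQ0 (fun j => Y ((j:ℝ) / n)) (by simp [hY.zero])
    (by show Y ((n:ℝ) / n) = 1; rw [div_self hn0.ne', hY.one]) (by
      intro j _
      apply hmono
      apply div_lt_div_of_pos_right _ hn0
      push_cast
      linarith) hval
  refine ⟨Q, hirr, hnat, hroots.1, hroots.2, hlc, ?_⟩
  have : (Q.leadingCoeff : ℝ) ≤ a := by exact_mod_cast hlca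
  linarith

end Pool.Agent.Lib.H32P
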