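import Pool.Agent.Lib.H32P.C3
import Pool.Agent.Lib.H32P.F1b
import Pool.Agent.Lib.H32P.F1c
import Pool.Agent.Lib.H32P.F4

/-!
# Chunk F5 (S/M): the main analytic theorem for an admissible measure

Let `c = (c₁ + c')/2`. `c3_energy` gives `0 ≤ 2 c₁ + En Y`; `f1b_approx` and `f1c_asymp` give the hypothesis of `f4_exists` for all large `n`; and `(2n/α)² exp (n c) + 2 ≤ exp (n c')` for all large `n` (`c < c'`, `c' > 0`).
-/

namespace Pool.Agent.Lib.H32P

open Polynomial MeasureTheory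

variable {Y : ℝ → ℝ} {α : ℝ}

theorem f5_asymp {α c c' : ℝ} (hα : 0 < α) (hc0 : 0 < c') (hc : c < c') :
    ∀ᶠ n : ℕ in Filter.atTop, (2 * n / α) ^ 2 * Real.exp (n * c) + 2 ≤ Real.exp (n * c') := by
  have h1 : Filter.Tendsto (fun n : ℕ => ((n : ℝ)) ^ 2 * Real.exp (-((c' - c) * n))) Filter.atTop (nhds 0) := by
    have h := Real.tendsto_pow_mul_exp_neg_atTop_nhds_zero 2
    have h2 : Filter.Tendsto (fun n : ℕ => (c' - c) * (n : ℝ)) Filter.atTop Filter.atTop :=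
      Filter.Tendsto.const_mul_atTop (by linarith) tendsto_natCast_atTop_atTop
    have h3 := (h.comp h2).const_mul (1 / (c' - c) ^ 2)
    rw [mul_zero] at h3
    refine h3.congr (fun n => ?_)
    have hne : c' - c ≠ 0 := by linarith [sub_pos.2 hc]
    simp only [Function.comp]
    field_simp
  have h2 : Filter.Tendsto (fun n : ℕ => Real.exp (-(c' * n))) Filter.atTop (nhds 0) := by
    have h2 : Filter.Tendsto (fun n : ℕ => c' * (n : ℝ)) Filter.atTop Filter.atTop :=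
      Filter.Tendsto.const_mul_atTop hc0 tendsto_natCast_atTop_atTop
    exact Real.tendsto_exp_neg_atTop_nhds_zero.comp h2
  have h3 := ((h1.const_mul ((2 / α) ^ 2)).add (h2.const_mul 2))
  rw [mul_zero, mul_zero, add_zero] at h3
  have h4 := h3.eventually (gt_mem_nhds (show (0:ℝ) < 1 by norm_num))
  filter_upwards [h4] with n hn
  have h5 : (2 * n / α) ^ 2 * Real.exp (n * c) + 2 =
      Real.exp (n * c') * ((2 / α) ^ 2 * (((n : ℝ)) ^ 2 * Real.exp (-((c' - c) * n))) + 2 * Real.exp (-(c' * n))) := by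
    have e1 : Real.exp (n * c) = Real.exp (n * c') * Real.exp (-((c' - c) * n)) := by
      rw [← Real.exp_add]; ring_nf
    have e2 : Real.exp (n * c') * Real.exp (-(c' * n)) = 1 := by
      rw [← Real.exp_add]; ring_nf; exact Real.exp_zero
    have e3 : (2 * (n:ℝ) / α) ^ 2 = (2 / α) ^ 2 * (n:ℝ) ^ 2 := by
      rw [← mul_pow]; ring_nf
    rw [e1, e3]
    linear_combination (-2) * e2
  rw [h5]
  have h6 : 0 < Real.exp (n * c') := Real.exp_pos _
  nlinarith

theorem f5_main (hY : Quant Y α) {c₁ c' : ℝ} (hc : 0 ≤ c₁) (hA : Adm Y c₁) (hc' : c₁ < c') :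
    ∀ᶠ n : ℕ in Filter.atTop, ∃ Q : ℤ[X], Irreducible Q ∧ Q.natDegree = n ∧
      (∀ z : ℂ, aeval z Q = 0 → z.im = 0 ∧ 0 < z.re ∧ z.re < 1) ∧ (Q.map (algebraMap ℤ ℂ)).roots.Nodup ∧
      0 < Q.leadingCoeff ∧ (Q.leadingCoeff : ℝ) ≤ Real.exp (n * c') := by
  have hE := c3_energy hY hc hA
  have hα := hY.pos
  have hm1 : c₁ < (c₁ + c') / 2 := by linarith
  have hm2 : (c₁ + c') / 2 < c' := by linarith
  filter_upwards [f1c_asymp hα hm1, f5_asymp hα (by linarith : 0 < c') hm2, Filter.eventually_ge_atTop 1]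
    with n h1 h2 h3
  obtain ⟨Q, q1, q2, q3, q4, q5, q6⟩ := f4_exists hY h3 (c := (c₁ + c') / 2) (by
    intro u0 hu
    obtain ⟨k, hk, hk2⟩ := f1b_approx hY hc hA hE h3 ((c₁ + c') / 2) u0 hu
    refine ⟨k, hk, fun t ht => (hk2 t ht).trans ?_⟩
    rw [div_eq_mul_one_div (Real.exp _) 8]
    exact mul_le_mul_of_nonneg_left h1 (Real.exp_pos _).le)
  exact ⟨Q, q1, q2, q3, q4, q5, q6.trans h2⟩

end Pool.Agent.Lib.H32P
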