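import Pool.Agent.Lib.H32P.Defs

/-!
# Chunk G1 (M): `τ^(deg P) ≤ max_{[0,1]} |P|` for every nonzero integer polynomial `P`

`mset n` is the set of the maxima of `|P|`, `P ≠ 0` in `ℤ[X]` of degree `≤ n`; `IsTau τ`: `(sInf (mset n))^(1/n) → τ`.

The maximum `M(P) = sSup (..)` is attained at some `x ∈ [0,1]` (`IsCompact.exists_isMaxOn`, `IsCompact.sSup_mem`...), so it suffices that `τ^d ≤ M(P)`, `d = natDegree P`. If `d = 0`, `P = C a`, `a ≠ 0`, `|a| ≥ 1`. If `d ≥ 1`: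
for `k ≥ 1`, `P^k` has degree `k d` and `M(P^k) = M(P)^k`, so `0 ≤ sInf (mset (k d)) ≤ M(P)^k` and `(sInf (mset (k d)))^(1/(k d)) ≤ M(P)^(1/d)`. Let `k → ∞`: `τ ≤ M(P)^(1/d)`, and `0 ≤ τ`.
-/

namespace Pool.Agent.Lib.H32P

open Polynomial Filter Topology

/-- The maxima on `[0,1]` of the nonzero integer polynomials of degree at most `n`. -/
def mset (n : ℕ) : Set ℝ :=
  {y : ℝ | ∃ P : Polynomial ℤ, P ≠ 0 ∧ P.natDegree ≤ n ∧
    y = sSup ((fun x : ℝ => |Polynomial.aeval x P|) '' Set.Icc (0:ℝ) 1)}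

/-- `τ` is the integer transfinite diameter of `[0,1]`. -/
def IsTau (τ : ℝ) : Prop :=
  Tendsto (fun n : ℕ => (sInf (mset n)) ^ ((1:ℝ) / (n:ℝ))) atTop (𝓝 τ)

theorem g1_cont (P : ℤ[X]) : Continuous (fun x : ℝ => |Polynomial.aeval x P|) := by
  have h : (fun x : ℝ => Polynomial.aeval x P) = fun x : ℝ => (P.map (algebraMap ℤ ℝ)).eval x := by
    funext x
    rw [eval_map_algebraMap]
  have h2 : Continuous (fun x : ℝ => Polynomial.aeval x P) := by
    rw [h]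
    exact (P.map (algebraMap ℤ ℝ)).continuous
  exact h2.abs

theorem g1_compact (P : ℤ[X]) : IsCompact ((fun x : ℝ => |Polynomial.aeval x P|) '' Set.Icc (0:ℝ) 1) :=
  isCompact_Icc.image (g1_cont P)

theorem g1_nonempty (P : ℤ[X]) : ((fun x : ℝ => |Polynomial.aeval x P|) '' Set.Icc (0:ℝ) 1).Nonempty :=
  ⟨_, 0, ⟨le_refl _, zero_le_one⟩, rfl⟩

theorem g1_attained (P : ℤ[X]) : ∃ x ∈ Set.Icc (0:ℝ) 1,
    |aeval x P| = sSup ((fun x : ℝ => |Polynomial.aeval x P|) '' Set.Icc (0:ℝ) 1) := by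
  obtain ⟨x, hx, hx2⟩ := (g1_compact P).sSup_mem (g1_nonempty P)
  exact ⟨x, hx, hx2⟩

theorem g1_le (P : ℤ[X]) {x : ℝ} (hx : x ∈ Set.Icc (0:ℝ) 1) :
    |aeval x P| ≤ sSup ((fun x : ℝ => |Polynomial.aeval x P|) '' Set.Icc (0:ℝ) 1) :=
  le_csSup (g1_compact P).bddAbove ⟨x, hx, rfl⟩

theorem g1_nonneg (n : ℕ) : ∀ y ∈ mset n, 0 ≤ y := by
  rintro y ⟨P, _, _, rfl⟩
  obtain ⟨x, _, hx2⟩ := g1_attained P
  rw [← hx2]
  exact abs_nonneg _

theorem g1_inf_nonneg (n : ℕ) : 0 ≤ sInf (mset n) := Real.sInf_nonneg (g1_nonneg n)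

theorem g1_tau {τ : ℝ} (hτ : IsTau τ) (P : ℤ[X]) (hP : P ≠ 0) :
    ∃ x ∈ Set.Icc (0:ℝ) 1, τ ^ P.natDegree ≤ |aeval x P| := by
  obtain ⟨x, hx, hx2⟩ := g1_attained P
  refine ⟨x, hx, ?_⟩
  set M := sSup ((fun x : ℝ => |Polynomial.aeval x P|) '' Set.Icc (0:ℝ) 1) with hM
  rw [hx2]
  have hM0 : 0 ≤ M := by rw [← hx2]; exact abs_nonneg _
  have hτ0 : 0 ≤ τ := by
    apply ge_of_tendsto' hτ
    intro n
    exact Real.rpow_nonneg (g1_inf_nonneg n) _
  rcases Nat.eq_zero_or_pos P.natDegree with hd | hd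
  · rw [hd, pow_zero, ← hx2]
    rw [eq_C_of_natDegree_eq_zero hd] at hP ⊢
    have h1 : P.coeff 0 ≠ 0 := by
      intro h
      apply hP
      rw [h, C_0]
    rw [aeval_C]
    have h2 := Int.one_le_abs h1
    simp only [algebraMap_int_eq, eq_intCast]
    exact_mod_cast h2
  · -- the powers of `P`
    have hpow : ∀ k : ℕ, 1 ≤ k → (sInf (mset (k * P.natDegree))) ^ ((1:ℝ) / ((k * P.natDegree : ℕ):ℝ)) ≤
        M ^ ((1:ℝ) / (P.natDegree : ℝ)) := by
      intro k hk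
      have h1 : sInf (mset (k * P.natDegree)) ≤ M ^ k := by
        obtain ⟨y, hy, hy2⟩ := g1_attained (P ^ k)
        have h2 : sInf (mset (k * P.natDegree)) ≤ |aeval y (P ^ k)| := by
          apply csInf_le ⟨0, fun z hz => g1_nonneg _ z hz⟩
          exact ⟨P ^ k, pow_ne_zero k hP, natDegree_pow_le, hy2⟩
        refine h2.trans ?_
        rw [map_pow, abs_pow]
        exact pow_le_pow_left₀ (abs_nonneg _) (g1_le P hy) k
      have h3 := Real.rpow_le_rpow (g1_inf_nonneg _) h1 (by positivity : (0:ℝ) ≤ 1 / ((k * P.natDegree : ℕ):ℝ))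
      refine h3.trans (le_of_eq ?_)
      have hk0 : (k:ℝ) ≠ 0 := by
        have : (0:ℝ) < k := by exact_mod_cast hk
        exact this.ne'
      rw [← Real.rpow_natCast, ← Real.rpow_mul hM0]
      congr 1
      push_cast
      field_simp
    have hlim : Tendsto (fun k : ℕ => (sInf (mset (k * P.natDegree))) ^ ((1:ℝ) / ((k * P.natDegree : ℕ):ℝ)))
        atTop (𝓝 τ) := by
      have h1 : Tendsto (fun k : ℕ => k * P.natDegree) atTop atTop :=
        Filter.tendsto_id.atTop_mul_const' hd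
      exact hτ.comp h1
    have hle : τ ≤ M ^ ((1:ℝ) / (P.natDegree : ℝ)) := by
      apply le_of_tendsto hlim
      filter_upwards [eventually_ge_atTop 1] with k hk
      exact hpow k hk
    have hd0 : (P.natDegree : ℝ) ≠ 0 := by
      have : (0:ℝ) < P.natDegree := by exact_mod_cast hd
      exact this.ne'
    calc τ ^ P.natDegree ≤ (M ^ ((1:ℝ) / (P.natDegree : ℝ))) ^ P.natDegree := pow_le_pow_left₀ hτ0 hle _
      _ = M := by
        rw [← Real.rpow_natCast, ← Real.rpow_mul hM0, one_div, inv_mul_cancel₀ hd0, Real.rpow_one]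

end Pool.Agent.Lib.H32P
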