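import Pool.Agent.Lib.H32P.G1

/-!
# Chunk G2 (M): `0 < τ ≤ 1`

`g2_lower`: `d = natDegree P`. `d = 0`: `|P| = |a| ≥ 1`. `d ≥ 1`: let `M` be the maximum of `|P|` on `[0,1]` (`g1_attained`, `g1_le`; `M > 0`) and apply `Polynomial.Chebyshev.leadingCoeff_le_of_forall_abs_le_one`
(`Mathlib.Analysis.SpecialFunctions.Trigonometric.Chebyshev.Extremal`) to `± P((X+1)/2)/M`: `|a|/(2^d M) ≤ 2^(d-1)`, so `M ≥ 2/4^d ≥ (1/6)^d`.

`g2_pos`: every element of `mset n` is `≥ (1/6)^n` (`(1/6)^(natDegree P) ≥ (1/6)^n`), so `sInf (mset n) ≥ (1/6)^n` (`mset n` is nonempty: `P = 1`), and the `n`-th root is `≥ 1/6` for `n ≥ 1`; the limit is `≥ 1/6`.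
`g2_le_one`: `g1_tau` for `P = X`: `τ ≤ |x| ≤ 1`.
-/

namespace Pool.Agent.Lib.H32P

open Polynomial Filter Topology

theorem g2_cheb {p : ℝ[X]} {d : ℕ} (hd : 1 ≤ d) (hdeg : p.natDegree = d) {M : ℝ} (hM : 0 < M)
    (hb : ∀ x ∈ Set.Icc (0:ℝ) 1, |p.eval x| ≤ M) : p.leadingCoeff ≤ M * (2 ^ d * 2 ^ (d - 1)) := by
  set q : ℝ[X] := C (1 / M) * p.comp (C (1 / 2) * X + C (1 / 2)) with hq
  have hlin : (C (1 / 2 : ℝ) * X + C (1 / 2)).natDegree = 1 := natDegree_linear (by norm_num)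
  have hcomp : (p.comp (C (1 / 2) * X + C (1 / 2))).natDegree = d := by
    rw [natDegree_comp, hlin, hdeg, mul_one]
  have hlc : (p.comp (C (1 / 2) * X + C (1 / 2))).leadingCoeff = p.leadingCoeff * (1 / 2) ^ d := by
    rw [leadingCoeff_comp (by rw [hlin]; norm_num), leadingCoeff_linear (by norm_num), hdeg]
  have h1 := Polynomial.Chebyshev.leadingCoeff_le_of_forall_abs_le_one (n := d) (P := q)
    (by
      refine degree_le_of_natDegree_le ?_
      refine (natDegree_C_mul_le _ _).trans ?_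
      rw [hcomp])
    (by
      intro x hx
      rw [hq, eval_mul, eval_C, eval_comp, abs_mul, abs_of_pos (by positivity : (0:ℝ) < 1 / M)]
      have h2 : (C (1 / 2 : ℝ) * X + C (1 / 2)).eval x ∈ Set.Icc (0:ℝ) 1 := by
        simp only [eval_add, eval_mul, eval_C, eval_X]
        constructor <;> linarith [hx.1, hx.2]
      have h3 := hb _ h2
      rw [one_div, ← div_eq_inv_mul, div_le_one hM]
      exact h3)
  rw [hq, leadingCoeff_mul, leadingCoeff_C, hlc] at h1
  have h4 : p.leadingCoeff = M * 2 ^ d * (1 / M * (p.leadingCoeff * (1 / 2) ^ d)) := by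
    have e : (2:ℝ) ^ d * (1 / 2) ^ d = 1 := by
      rw [← mul_pow]; norm_num
    field_simp
    rw [mul_assoc, e, mul_one]
  rw [h4]
  calc M * 2 ^ d * (1 / M * (p.leadingCoeff * (1 / 2) ^ d)) ≤ M * 2 ^ d * 2 ^ (d - 1) :=
        mul_le_mul_of_nonneg_left h1 (by positivity)
    _ = _ := by ring

theorem g2_lower (P : ℤ[X]) (hP : P ≠ 0) : ∃ x ∈ Set.Icc (0:ℝ) 1, (1 / 6 : ℝ) ^ P.natDegree ≤ |aeval x P| := by
  obtain ⟨x, hx, hx2⟩ := g1_attained P
  refine ⟨x, hx, ?_⟩
  set M := sSup ((fun x : ℝ => |Polynomial.aeval x P|) '' Set.Icc (0:ℝ) 1) with hM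
  rw [hx2]
  rcases Nat.eq_zero_or_pos P.natDegree with hd | hd
  · rw [hd, pow_zero, ← hx2]
    rw [eq_C_of_natDegree_eq_zero hd] at hP ⊢
    have h1 : P.coeff 0 ≠ 0 := by
      intro h
      apply hP
      rw [h, C_0]
    rw [aeval_C]
    have h2 := Int.one_le_abs h1
    simp only [algebraMap_int_eq, eq_intCast]
    exact_mod_cast h2
  · have hinj : Function.Injective (algebraMap ℤ ℝ) := by
      rw [algebraMap_int_eq]; exact Int.cast_injective
    have hb : ∀ x ∈ Set.Icc (0:ℝ) 1, |(P.map (algebraMap ℤ ℝ)).eval x| ≤ M := by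
      intro x hx
      have := g1_le P hx
      rwa [eval_map_algebraMap]
    have hM0 : 0 < M := by
      by_contra hcon
      have hP0 : P.map (algebraMap ℤ ℝ) = 0 := by
        apply Polynomial.eq_zero_of_infinite_isRoot
        apply Set.Infinite.mono (s := Set.Icc (0:ℝ) 1)
        · intro x hx
          have h1 := hb x hx
          have h2 : |(P.map (algebraMap ℤ ℝ)).eval x| = 0 := le_antisymm (by linarith) (abs_nonneg _)
          exact abs_eq_zero.1 h2
        · exact Set.Icc_infinite one_pos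
      exact hP ((Polynomial.map_eq_zero_iff hinj).1 hP0)
    have hnd : (P.map (algebraMap ℤ ℝ)).natDegree = P.natDegree := natDegree_map_eq_of_injective hinj P
    have hlc : (P.map (algebraMap ℤ ℝ)).leadingCoeff = (P.leadingCoeff : ℝ) := by
      rw [leadingCoeff_map_of_injective hinj]; simp
    have h1 := g2_cheb hd hnd hM0 hb
    have h2 := g2_cheb (p := -(P.map (algebraMap ℤ ℝ))) hd (by rw [natDegree_neg]; exact hnd) hM0 (by
      intro x hx
      rw [eval_neg, abs_neg]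
      exact hb x hx)
    rw [leadingCoeff_neg] at h2
    rw [hlc] at h1 h2
    have h3 : |(P.leadingCoeff : ℝ)| ≤ M * (2 ^ P.natDegree * 2 ^ (P.natDegree - 1)) :=
      abs_le.2 ⟨by linarith, h1⟩
    have h4 : (1:ℝ) ≤ |(P.leadingCoeff : ℝ)| := by
      have := Int.one_le_abs (leadingCoeff_ne_zero.2 hP)
      exact_mod_cast this
    have h5 : (2:ℝ) ^ P.natDegree * 2 ^ (P.natDegree - 1) ≤ 6 ^ P.natDegree := by
      calc (2:ℝ) ^ P.natDegree * 2 ^ (P.natDegree - 1) ≤ 2 ^ P.natDegree * 2 ^ P.natDegree := by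
            apply mul_le_mul_of_nonneg_left _ (by positivity)
            exact pow_le_pow_right₀ (by norm_num) (Nat.sub_le _ _)
        _ = 4 ^ P.natDegree := by rw [← mul_pow]; norm_num
        _ ≤ 6 ^ P.natDegree := pow_le_pow_left₀ (by norm_num) (by norm_num) _
    have h6 : (1:ℝ) ≤ M * 6 ^ P.natDegree :=
      h4.trans (h3.trans (mul_le_mul_of_nonneg_left h5 hM0.le))
    rw [one_div, inv_pow]
    rw [inv_eq_one_div, div_le_iff₀ (by positivity)]
    exact h6

theorem g2_pos {τ : ℝ} (hτ : IsTau τ) : 0 < τ := by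
  have h : (1 / 6 : ℝ) ≤ τ := by
    apply ge_of_tendsto hτ
    filter_upwards [eventually_ge_atTop 1] with n hn
    have hn0 : (n:ℝ) ≠ 0 := by
      have : (0:ℝ) < n := by exact_mod_cast hn
      exact this.ne'
    have h1 : (1 / 6 : ℝ) ^ n ≤ sInf (mset n) := by
      apply le_csInf
      · exact ⟨_, 1, one_ne_zero, by simp, rfl⟩
      · rintro y ⟨P, hP, hd, rfl⟩
        obtain ⟨x, hx, hx2⟩ := g2_lower P hP
        refine le_trans ?_ (hx2.trans (g1_le P hx))
        exact pow_le_pow_of_le_one (by norm_num) (by norm_num) hd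
    calc (1 / 6 : ℝ) = ((1 / 6 : ℝ) ^ n) ^ ((1:ℝ) / n) := by
          rw [← Real.rpow_natCast, ← Real.rpow_mul (by norm_num), mul_one_div_cancel hn0, Real.rpow_one]
      _ ≤ _ := Real.rpow_le_rpow (by positivity) h1 (by positivity)
  linarith

theorem g2_le_one {τ : ℝ} (hτ : IsTau τ) : τ ≤ 1 := by
  obtain ⟨x, hx, hx2⟩ := g1_tau hτ X X_ne_zero
  rw [natDegree_X, pow_one, aeval_X, abs_of_nonneg hx.1] at hx2
  exact hx2.trans hx.2

end Pool.Agent.Lib.H32P
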