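import Pool.Agent.Lib.H32P.G2

/-!
# Chunk G3 (M): the upper half (classical): `|lc Q|^(-1/deg Q) < τ + ε` for large degree

From `IsTau τ` there is `n ≥ 1` with `(sInf (mset n))^(1/n) < τ + ε`, so `sInf (mset n) < (τ + ε)^n` and some `P ≠ 0` of degree `≤ n` has `M = max_{[0,1]} |P| < (τ + ε)^n`. Let `Q` be irreducible with all complex zeros `z_1, .., z_d` (with multiplicity) in `[0,1]`,
`d = natDegree Q > n`, leading coefficient `a`. `Q` does not divide `P`, so the resultant of `Q` and `P` is a nonzero integer: `1 ≤ |a|^(deg P) ∏ |P(z_i)| ≤ |a|^n M^d` (`|a| ≥ 1`). (Mathlib: `Polynomial.resultant`, `resultant_eq_prod_eval`, `resultant_ne_zero`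
for coprime polynomials - over `ℚ` by Gauss' lemma; or: the norm.) So `|a|^(-n) ≤ M^d < (τ+ε)^(n d)`, `|a|^(-1/d) < τ + ε`. Take `N = n + 1`.
-/

namespace Pool.Agent.Lib.H32P

open Polynomial Filter Topology

theorem g3_coprime {Q P : ℤ[X]} (hQ : Irreducible Q) (hP : P ≠ 0) (hd : P.natDegree < Q.natDegree) :
    IsCoprime (Q.map (Int.castRingHom ℂ)) (P.map (Int.castRingHom ℂ)) := by
  have hprim : Q.IsPrimitive := hQ.isPrimitive (by omega)
  have hirr : Irreducible (Q.map (Int.castRingHom ℚ)) :=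
    (IsPrimitive.Int.irreducible_iff_irreducible_map_cast hprim).1 hQ
  have hinj : Function.Injective (Int.castRingHom ℚ) := RingHom.injective_int _
  have hP' : P.map (Int.castRingHom ℚ) ≠ 0 := by
    rw [Ne, Polynomial.map_eq_zero_iff hinj]
    exact hP
  have h1 : IsCoprime (Q.map (Int.castRingHom ℚ)) (P.map (Int.castRingHom ℚ)) := by
    rw [hirr.coprime_iff_not_dvd]
    intro hdvd
    have := natDegree_le_of_dvd hdvd hP'
    rw [natDegree_map_eq_of_injective hinj, natDegree_map_eq_of_injective hinj] at this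
    omega
  have h2 := h1.map (mapRingHom (algebraMap ℚ ℂ))
  rw [coe_mapRingHom, Polynomial.map_map, Polynomial.map_map] at h2
  have h3 : (algebraMap ℚ ℂ).comp (Int.castRingHom ℚ) = Int.castRingHom ℂ := RingHom.ext_int _ _
  rw [h3] at h2
  exact h2

theorem g3_res {Q P : ℤ[X]} (hQ : Irreducible Q) (hP : P ≠ 0) (hd : P.natDegree < Q.natDegree) {m : ℝ}
    (hm : ∀ z : ℂ, aeval z Q = 0 → ‖aeval z P‖ ≤ m) :
    1 ≤ |((Q.leadingCoeff : ℤ) : ℝ)| ^ P.natDegree * m ^ Q.natDegree := by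
  have hinj : Function.Injective (Int.castRingHom ℂ) := RingHom.injective_int _
  have hdq : (Q.map (Int.castRingHom ℂ)).natDegree = Q.natDegree := natDegree_map_eq_of_injective hinj Q
  have hdp : (P.map (Int.castRingHom ℂ)).natDegree = P.natDegree := natDegree_map_eq_of_injective hinj P
  have hspl : (Q.map (Int.castRingHom ℂ)).Splits := IsAlgClosed.splits _
  have hres := resultant_eq_prod_eval (Q.map (Int.castRingHom ℂ)) (P.map (Int.castRingHom ℂ))
    (P.map (Int.castRingHom ℂ)).natDegree le_rfl hspl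
  have hne := resultant_ne_zero _ _ (g3_coprime hQ hP hd)
  have hmap : resultant (Q.map (Int.castRingHom ℂ)) (P.map (Int.castRingHom ℂ))
      (Q.map (Int.castRingHom ℂ)).natDegree (P.map (Int.castRingHom ℂ)).natDegree =
      ((resultant Q P : ℤ) : ℂ) := by
    rw [hdq, hdp]
    exact resultant_map_map Q P _ _ (Int.castRingHom ℂ)
  rw [hmap] at hne hres
  have h1 : (1:ℝ) ≤ ‖((resultant Q P : ℤ) : ℂ)‖ := by
    rw [Complex.norm_intCast]
    have h0 : resultant Q P ≠ 0 := fun h => hne (by rw [h]; simp)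
    exact_mod_cast Int.one_le_abs h0
  rw [hres, norm_mul, norm_pow, leadingCoeff_map_of_injective hinj, hdp, eq_intCast,
    Complex.norm_intCast] at h1
  refine h1.trans (mul_le_mul_of_nonneg_left ?_ (by positivity))
  have h2 : ‖((Q.map (Int.castRingHom ℂ)).roots.map (P.map (Int.castRingHom ℂ)).eval).prod‖ =
      ((Q.map (Int.castRingHom ℂ)).roots.map (fun z => ‖(P.map (Int.castRingHom ℂ)).eval z‖)).prod := by
    rw [← coe_nnnorm]
    have := map_multiset_prod (normHom : ℂ →*₀ ℝ)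
      ((Q.map (Int.castRingHom ℂ)).roots.map (P.map (Int.castRingHom ℂ)).eval)
    rw [Multiset.map_map] at this
    exact this
  rw [h2]
  have h3 := Multiset.prod_map_le_prod_map₀ (s := (Q.map (Int.castRingHom ℂ)).roots)
    (fun z => ‖(P.map (Int.castRingHom ℂ)).eval z‖) (fun _ => m) (fun z _ => norm_nonneg _) (by
      intro z hz
      have hz' := (mem_roots'.1 hz).2
      rw [IsRoot.def, eval_map] at hz'
      have := hm z hz'
      rw [eval_map]
      exact this)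
  refine h3.trans (le_of_eq ?_)
  rw [Multiset.map_const', Multiset.prod_replicate, ← hdq, hspl.natDegree_eq_card_roots]

theorem g3_upper {τ : ℝ} (hτ : IsTau τ) {ε : ℝ} (hε : 0 < ε) :
    ∃ N : ℕ, ∀ Q : ℤ[X], Irreducible Q → N ≤ Q.natDegree →
      (∀ z : ℂ, aeval z Q = 0 → z.im = 0 ∧ 0 ≤ z.re ∧ z.re ≤ 1) →
      |((Q.leadingCoeff : ℤ) : ℝ)| ^ (-(1:ℝ) / (Q.natDegree : ℝ)) < τ + ε := by
  have hτ0 := g2_pos hτ
  have hev : ∀ᶠ n : ℕ in atTop, (sInf (mset n)) ^ ((1:ℝ) / (n:ℝ)) < τ + ε :=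
    hτ.eventually_lt_const (by linarith)
  obtain ⟨n, hn1, hn2⟩ := (hev.and (eventually_ge_atTop 1)).exists
  have hn0 : (0:ℝ) < n := by exact_mod_cast hn2
  have hsup0 : ∀ P : ℤ[X], 0 ≤ sSup ((fun x : ℝ => |Polynomial.aeval x P|) '' Set.Icc (0:ℝ) 1) := by
    intro P
    exact (abs_nonneg _).trans (g1_le P (x := 0) ⟨le_rfl, zero_le_one⟩)
  have hnn : 0 ≤ sInf (mset n) := by
    apply Real.sInf_nonneg
    rintro y ⟨P, _, _, rfl⟩
    exact hsup0 P
  have hlt : sInf (mset n) < (τ + ε) ^ n := by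
    have h1 : ((sInf (mset n)) ^ ((1:ℝ) / (n:ℝ))) ^ n < (τ + ε) ^ n :=
      pow_lt_pow_left₀ hn1 (Real.rpow_nonneg hnn _) (by omega)
    rwa [← Real.rpow_natCast, ← Real.rpow_mul hnn, one_div, inv_mul_cancel₀ hn0.ne', Real.rpow_one] at h1
  have hne : (mset n).Nonempty := ⟨_, 1, one_ne_zero, by simp, rfl⟩
  obtain ⟨y, ⟨P, hP0, hPn, rfl⟩, hy⟩ := exists_lt_of_csInf_lt hne hlt
  refine ⟨n + 1, ?_⟩
  intro Q hQ hQn hz
  set m := sSup ((fun x : ℝ => |Polynomial.aeval x P|) '' Set.Icc (0:ℝ) 1) with hm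
  have hres := g3_res hQ hP0 (by omega) (m := m) (by
    intro z hzz
    obtain ⟨h1, h2, h3⟩ := hz z hzz
    have hz' : z = ((z.re : ℝ) : ℂ) := by
      apply Complex.ext
      · simp
      · simpa using h1
    have h4 := g1_le P (x := z.re) ⟨h2, h3⟩
    rw [hz']
    have h5 : aeval ((z.re : ℝ) : ℂ) P = ((aeval z.re P : ℝ) : ℂ) := by
      have := aeval_algebraMap_apply ℂ z.re P
      exact this
    rw [h5, Complex.norm_real]
    exact h4)
  have hd0 : 0 < Q.natDegree := by omega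
  have hlc : Q.leadingCoeff ≠ 0 := leadingCoeff_ne_zero.2 hQ.ne_zero
  have ha1 : (1:ℝ) ≤ |((Q.leadingCoeff : ℤ) : ℝ)| := by
    exact_mod_cast Int.one_le_abs hlc
  have ha0 : (0:ℝ) < |((Q.leadingCoeff : ℤ) : ℝ)| := by linarith
  have h1 : (1:ℝ) < |((Q.leadingCoeff : ℤ) : ℝ)| ^ n * ((τ + ε) ^ n) ^ Q.natDegree := by
    refine hres.trans_lt ?_
    have h2 : |((Q.leadingCoeff : ℤ) : ℝ)| ^ P.natDegree ≤ |((Q.leadingCoeff : ℤ) : ℝ)| ^ n :=
      pow_le_pow_right₀ ha1 hPn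
    have h3 : m ^ Q.natDegree < ((τ + ε) ^ n) ^ Q.natDegree :=
      pow_lt_pow_left₀ hy (hsup0 P) (by omega)
    calc |((Q.leadingCoeff : ℤ) : ℝ)| ^ P.natDegree * m ^ Q.natDegree
        ≤ |((Q.leadingCoeff : ℤ) : ℝ)| ^ n * m ^ Q.natDegree :=
          mul_le_mul_of_nonneg_right h2 (pow_nonneg (hsup0 P) _)
      _ < _ := mul_lt_mul_of_pos_left h3 (by positivity)
  rw [pow_right_comm, ← mul_pow] at h1
  have h4 : 1 < |((Q.leadingCoeff : ℤ) : ℝ)| * (τ + ε) ^ Q.natDegree := by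
    by_contra hcon
    push Not at hcon
    have := pow_le_one₀ (n := n) (by positivity) hcon
    linarith
  have h5 : |((Q.leadingCoeff : ℤ) : ℝ)|⁻¹ < (τ + ε) ^ Q.natDegree := by
    rw [inv_lt_iff_one_lt_mul₀ ha0]
    linarith
  have hdr : (0:ℝ) < Q.natDegree := by exact_mod_cast hd0
  have h6 := Real.rpow_lt_rpow (by positivity) h5 (show (0:ℝ) < 1 / (Q.natDegree : ℝ) by positivity)
  rw [← Real.rpow_natCast, ← Real.rpow_mul (by positivity), mul_one_div_cancel hdr.ne', Real.rpow_one,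
    Real.inv_rpow ha0.le, ← Real.rpow_neg ha0.le] at h6
  rw [neg_div]
  exact h6

end Pool.Agent.Lib.H32P
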