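import Pool.Agent.Lib.H32P.G2
import Pool.Agent.Lib.H32P.F5
import Pool.Agent.Lib.H32P.A8

/-!
# Chunk G4 (S/M): the lower half

`c = -log τ ≥ 0` (`g2_pos`, `g2_le_one`), so `exp (-(c d)) = τ^d` and `g1_tau` is the hypothesis of `a8_exists` for `c₁ = c + ε/4`. `f5_main` with `c' = c + ε/2`: `0 < lc Q ≤ exp (n c')`, so `(lc Q)^(-1/n) ≥ exp (-c') = τ exp (-ε/2) ≥ τ (1 - ε/2) ≥ τ - ε/2 > τ - ε`
(`τ ≤ 1`).
-/

namespace Pool.Agent.Lib.H32P

open Polynomial Filter Topology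

theorem g4_lower {τ : ℝ} (hτ : IsTau τ) {ε : ℝ} (hε : 0 < ε) :
    ∃ N : ℕ, ∀ n ≥ N, ∃ Q : ℤ[X], Irreducible Q ∧ Q.natDegree = n ∧
      (∀ z : ℂ, aeval z Q = 0 → z.im = 0 ∧ 0 < z.re ∧ z.re < 1) ∧ (Q.map (algebraMap ℤ ℂ)).roots.Nodup ∧
      0 < Q.leadingCoeff ∧
      τ - ε < |((Q.leadingCoeff : ℤ) : ℝ)| ^ (-(1:ℝ) / (Q.natDegree : ℝ)) := by
  have hpos : 0 < τ := g2_pos hτ
  have hle : τ ≤ 1 := g2_le_one hτ
  set c : ℝ := -Real.log τ with hc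
  have hc0 : 0 ≤ c := by
    have := Real.log_nonpos hpos.le hle
    linarith
  have hexp : ∀ d : ℕ, Real.exp (-(c * d)) = τ ^ d := by
    intro d
    rw [hc, show -(-Real.log τ * (d:ℝ)) = d * Real.log τ by ring, Real.exp_nat_mul, Real.exp_log hpos]
  obtain ⟨Y, α, hY, hA⟩ := a8_exists (c := c) (c₁ := c + ε / 4) (by linarith) (by
    intro P hP
    obtain ⟨x, hx, hx2⟩ := g1_tau hτ P hP
    exact ⟨x, hx, by rw [hexp]; exact hx2⟩)
  have hmain := f5_main hY (c₁ := c + ε / 4) (c' := c + ε / 2) (by linarith) hA (by linarith)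
  obtain ⟨N, hN⟩ := Filter.eventually_atTop.1 hmain
  refine ⟨max N 1, fun n hn => ?_⟩
  obtain ⟨Q, h1, h2, h3, h4, h5, h6⟩ := hN n (le_trans (le_max_left _ _) hn)
  have hn1 : 1 ≤ n := le_trans (le_max_right _ _) hn
  refine ⟨Q, h1, h2, h3, h4, h5, ?_⟩
  have hlc : (0:ℝ) < (Q.leadingCoeff : ℝ) := by exact_mod_cast h5
  have hnr : (0:ℝ) < n := by exact_mod_cast hn1
  rw [abs_of_pos hlc, h2]
  have h7 : Real.exp (-(c + ε / 2)) ≤ (Q.leadingCoeff : ℝ) ^ (-(1:ℝ) / (n:ℝ)) := by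
    rw [Real.rpow_def_of_pos hlc]
    apply Real.exp_le_exp.2
    have h8 : Real.log (Q.leadingCoeff : ℝ) ≤ n * (c + ε / 2) := by
      have := Real.log_le_log hlc h6
      rwa [Real.log_exp] at this
    have h9 : Real.log (Q.leadingCoeff : ℝ) * (-1 / (n:ℝ)) = -(Real.log (Q.leadingCoeff : ℝ) / n) := by
      ring
    rw [h9]
    apply neg_le_neg
    rw [div_le_iff₀ hnr]
    linarith
  have h10 : τ - ε < Real.exp (-(c + ε / 2)) := by
    have h11 : Real.exp (-(c + ε / 2)) = τ * Real.exp (-(ε / 2)) := by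
      rw [show -(c + ε / 2) = Real.log τ + -(ε / 2) by rw [hc]; ring, Real.exp_add, Real.exp_log hpos]
    rw [h11]
    have h12 : 1 - ε / 2 ≤ Real.exp (-(ε / 2)) := by
      have := Real.add_one_le_exp (-(ε / 2))
      linarith
    have h13 : τ * (1 - ε / 2) ≤ τ * Real.exp (-(ε / 2)) := mul_le_mul_of_nonneg_left h12 hpos.le
    nlinarith
  exact lt_of_lt_of_le h10 h7

end Pool.Agent.Lib.H32P
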